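import Pool.Agent.SphJam.Rot

set_option autoImplicit false
open Matrix Finset

namespace SphJam

section

variable {I : Type}

end


section

variable {n : ℕ} {P : Pack n} {R : Matrix (Fin 3) (Fin 3) ℝ}
  {hR : R ∈ Matrix.orthogonalGroup (Fin 3) ℝ}

end


theorem exists_rot (a : V3) (ha : a ⬝ᵥ a = 1) :
    ∃ R ∈ Matrix.orthogonalGroup (Fin 3) ℝ, R.det = 1 ∧ R *ᵥ a = ![0, 0, 1] := by
  have h3 : a 0 * a 0 + a 1 * a 1 + a 2 * a 2 = 1 := by
    simpa [dotProduct, Fin.sum_univ_three] using ha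
  by_cases hq : a 0 ^ 2 + a 1 ^ 2 = 0
  · have h0 : a 0 = 0 := by nlinarith [sq_nonneg (a 0), sq_nonneg (a 1)]
    have h1 : a 1 = 0 := by nlinarith [sq_nonneg (a 0), sq_nonneg (a 1)]
    have h2 : (a 2 - 1) * (a 2 + 1) = 0 := by
      rw [h0, h1] at h3; linarith
    rcases mul_eq_zero.1 h2 with h | h
    · refine ⟨1, Submonoid.one_mem _, Matrix.det_one, ?_⟩
      rw [Matrix.one_mulVec]
      ext i; fin_cases i
      · simpa using h0
      · simpa using h1
      · simp; linarith
    · refine ⟨!![1, 0, 0; 0, -1, 0; 0, 0, -1], ?_, ?_, ?_⟩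
      · rw [Matrix.mem_orthogonalGroup_iff]
        ext i j
        fin_cases i <;> fin_cases j <;> simp [Matrix.mul_apply, Fin.sum_univ_three, Matrix.star_eq_conjTranspose]
      · simp [Matrix.det_fin_three]
      · have h2' : a 2 = -1 := by linarith
        ext i; fin_cases i <;> simp [Matrix.mulVec, dotProduct, Fin.sum_univ_three, h0, h1, h2']
  · obtain ⟨q, hq0, hq2⟩ : ∃ q : ℝ, 0 < q ∧ q ^ 2 = a 0 ^ 2 + a 1 ^ 2 := by
      have hp : 0 < a 0 ^ 2 + a 1 ^ 2 :=
        lt_of_le_of_ne (by positivity) (Ne.symm hq)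
      exact ⟨Real.sqrt (a 0 ^ 2 + a 1 ^ 2), Real.sqrt_pos.2 hp, Real.sq_sqrt hp.le⟩
    have hqn : q ≠ 0 := hq0.ne'
    have hq1 : q ^ 2 + a 2 ^ 2 = 1 := by rw [hq2]; linarith
    refine ⟨!![a 0 * a 2 / q, a 1 * a 2 / q, -q; -a 1 / q, a 0 / q, 0; a 0, a 1, a 2], ?_, ?_, ?_⟩
    · rw [Matrix.mem_orthogonalGroup_iff]
      ext i j
      fin_cases i <;> fin_cases j <;>
        simp [Matrix.mul_apply, Fin.sum_univ_three, Matrix.star_eq_conjTranspose] <;>
        field_simp
      · have : a 0 ^ 2 * a 2 ^ 2 + a 1 ^ 2 * a 2 ^ 2 + q ^ 2 * q ^ 2 = q ^ 2 := by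
          have : a 0 ^ 2 * a 2 ^ 2 + a 1 ^ 2 * a 2 ^ 2 + q ^ 2 * q ^ 2
              = (a 0 ^ 2 + a 1 ^ 2) * a 2 ^ 2 + q ^ 2 * q ^ 2 := by ring
          rw [this, ← hq2]
          have : q ^ 2 * a 2 ^ 2 + q ^ 2 * q ^ 2 = q ^ 2 * (q ^ 2 + a 2 ^ 2) := by ring
          rw [this, hq1, mul_one]
        nlinarith [this]
      · ring
      · rw [hq2]; ring
      · ring
      · nlinarith [hq2]
      · ring
      · rw [hq2]; ring
      · ring
      · nlinarith [h3]
    · rw [Matrix.det_fin_three]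
      simp
      field_simp
      have e : (a 0 ^ 2 + a 1 ^ 2) * (q ^ 2 + a 2 ^ 2) = q ^ 2 := by rw [hq1, mul_one, hq2]
      nlinarith [e]
    · ext i; fin_cases i
      · simp [Matrix.mulVec, dotProduct, Fin.sum_univ_three]
        field_simp
        rw [hq2]; ring
      · simp [Matrix.mulVec, dotProduct, Fin.sum_univ_three]
        field_simp
        ring
      · simp [Matrix.mulVec, dotProduct, Fin.sum_univ_three]
        linarith

theorem dense_ne {N : V3} (hN : N ≠ 0) : Dense {s : V3 | N ⬝ᵥ s ≠ 0} := by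
  have hNN : N ⬝ᵥ N ≠ 0 := by
    intro h
    exact hN (dotProduct_self_eq_zero.1 h)
  rw [Metric.dense_iff]
  intro x ε hε
  by_cases hx : N ⬝ᵥ x = 0
  · have hpos : 0 < ‖N‖ + 1 := by positivity
    refine ⟨x + (ε / (2 * (‖N‖ + 1))) • N, ?_, ?_⟩
    · rw [Metric.mem_ball, dist_eq_norm, add_sub_cancel_left, norm_smul, Real.norm_eq_abs,
        abs_of_pos (by positivity)]
      rw [div_mul_eq_mul_div, div_lt_iff₀ (by positivity)]
      nlinarith [norm_nonneg N]
    · simp only [Set.mem_setOf_eq, dotProduct_add, dotProduct_smul, hx, zero_add, smul_eq_mul]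
      exact mul_ne_zero (by positivity) hNN
  · exact ⟨x, Metric.mem_ball_self hε, hx⟩

theorem generic_vec {ι : Type} [Finite ι] (N : ι → V3) (hN : ∀ k, N k ≠ 0) (U : Set V3)
    (hU : IsOpen U) (hne : U.Nonempty) : ∃ s ∈ U, ∀ k, N k ⬝ᵥ s ≠ 0 := by
  have hd : Dense (⋂ k, {s : V3 | N k ⬝ᵥ s ≠ 0}) := by
    apply dense_iInter_of_isOpen
    · intro k
      apply isOpen_ne_fun
      · exact Continuous.dotProduct continuous_const continuous_id
      · exact continuous_const
    · intro k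
      exact dense_ne (hN k)
  obtain ⟨s, hs, hsU⟩ := hd.exists_mem_open hU hne
  exact ⟨s, hsU, fun k => Set.mem_iInter.1 hs k⟩

/-- a nonzero vector orthogonal to a given one -/
theorem exists_orth (p : V3) : ∃ w : V3, w ≠ 0 ∧ w ⬝ᵥ p = 0 := by
  by_cases h : p 0 = 0 ∧ p 1 = 0
  · refine ⟨![1, 0, 0], ?_, ?_⟩
    · intro h'; have := congrFun h' 0; simp at this
    · simp [dotProduct, Fin.sum_univ_three, h.1]
  · refine ⟨![- p 1, p 0, 0], ?_, ?_⟩
    · intro h'
      apply h
      have e0 := congrFun h' 0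
      have e1 := congrFun h' 1
      simp at e0 e1
      exact ⟨e1, e0⟩
    · simp [dotProduct, Fin.sum_univ_three]; ring

/-- One can rotate so that some vector of a given nonempty open set points down and all nodes are in
general position. -/
theorem axis_rot {n : ℕ} (P : Pack n) (U : Set V3) (hU : IsOpen U) (hne : U.Nonempty) :
    ∃ s ∈ U, ∃ c : ℝ, 0 < c ∧ ∃ R : Matrix (Fin 3) (Fin 3) ℝ,
      ∃ hR : R ∈ Matrix.orthogonalGroup (Fin 3) ℝ,
        R.det = 1 ∧ R *ᵥ s = ![0, 0, -c] ∧ GenAll (P.rot R hR) := by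
  classical
  choose w hw0 hw using fun i => exists_orth (P.p i)
  let N : Option (Fin n ⊕ (Fin n × Fin n)) → V3 := fun k =>
    match k with
    | none => ![0, 0, 1]
    | some (Sum.inl i) => w i
    | some (Sum.inr (i, j)) => if cr (P.p i) (P.p j) = 0 then ![0, 0, 1] else cr (P.p i) (P.p j)
  have he3 : (![0, 0, 1] : V3) ≠ 0 := by
    intro h'; have := congrFun h' 2; simp at this
  have hN : ∀ k, N k ≠ 0 := by
    rintro (_ | i | ⟨i, j⟩)
    · exact he3
    · exact hw0 i
    · show (if cr (P.p i) (P.p j) = 0 then (![0, 0, 1] : V3) else cr (P.p i) (P.p j)) ≠ 0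
      split_ifs with h
      · exact he3
      · exact h
  obtain ⟨s, hsU, hs⟩ := generic_vec N hN U hU hne
  have hs0 : s ≠ 0 := by
    intro h
    have := hs none
    rw [h] at this
    simp at this
  have hss : 0 < s ⬝ᵥ s := by
    have h1 : s ⬝ᵥ s ≠ 0 := fun h => hs0 (dotProduct_self_eq_zero.1 h)
    have h2 : 0 ≤ s ⬝ᵥ s := by
      simp only [dotProduct]
      exact Finset.sum_nonneg fun i _ => mul_self_nonneg _
    exact lt_of_le_of_ne h2 (Ne.symm h1)
  obtain ⟨c, hc, hc2⟩ : ∃ c : ℝ, 0 < c ∧ c ^ 2 = s ⬝ᵥ s :=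
    ⟨Real.sqrt (s ⬝ᵥ s), Real.sqrt_pos.2 hss, Real.sq_sqrt hss.le⟩
  have ha : (-(1 / c) • s) ⬝ᵥ (-(1 / c) • s) = 1 := by
    rw [smul_dotProduct, dotProduct_smul, smul_eq_mul, smul_eq_mul, ← hc2]
    field_simp
  obtain ⟨R, hR, hdet, hRa⟩ := exists_rot _ ha
  have hRs : R *ᵥ s = ![0, 0, -c] := by
    have h1 : s = (-c) • (-(1 / c) • s) := by
      rw [smul_smul]
      have : -c * -(1 / c) = 1 := by field_simp
      rw [this, one_smul]
    rw [h1, Matrix.mulVec_smul, hRa]
    ext i; fin_cases i <;> simp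
  refine ⟨s, hsU, c, hc, R, hR, hdet, hRs, ?_, ?_⟩
  · intro i
    by_contra hcon
    have hle : (R *ᵥ P.p i) 0 ^ 2 + (R *ᵥ P.p i) 1 ^ 2 ≤ 0 := not_lt.1 hcon
    have h0 : (R *ᵥ P.p i) 0 = 0 := by
      nlinarith [sq_nonneg ((R *ᵥ P.p i) 0), sq_nonneg ((R *ᵥ P.p i) 1)]
    have h1 : (R *ᵥ P.p i) 1 = 0 := by
      nlinarith [sq_nonneg ((R *ᵥ P.p i) 0), sq_nonneg ((R *ᵥ P.p i) 1)]
    -- R p_i = μ • R s
    have h2 : R *ᵥ P.p i = (-((R *ᵥ P.p i) 2) / c) • (R *ᵥ s) := by
      rw [hRs]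
      ext k; fin_cases k
      · simpa using h0
      · simpa using h1
      · simp; field_simp
    set μ : ℝ := -((R *ᵥ P.p i) 2) / c with hμ
    have h3 : P.p i = μ • s := by
      have h4 : R *ᵥ (P.p i) = R *ᵥ (μ • s) := by rw [Matrix.mulVec_smul]; exact h2
      have h5 := congrArg (fun v => star R *ᵥ v) h4
      simp only [Matrix.mulVec_mulVec] at h5
      have h6 : star R * R = 1 := (Matrix.mem_orthogonalGroup_iff' (Fin 3) ℝ).1 hR
      rw [h6, Matrix.one_mulVec, Matrix.one_mulVec] at h5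
      exact h5
    have h6 : w i ⬝ᵥ P.p i = 0 := hw i
    rw [h3, dotProduct_smul, smul_eq_mul] at h6
    have h7 : w i ⬝ᵥ s ≠ 0 := hs (some (Sum.inl i))
    have h8 : μ = 0 := by
      rcases mul_eq_zero.1 h6 with h | h
      · exact h
      · exact absurd h h7
    have h9 := P.unit i
    rw [h3, h8] at h9
    simp at h9
  · intro i j hij h0
    have h1 : (P.rot R hR).p i = R *ᵥ P.p i := rfl
    have h2 : (P.rot R hR).p j = R *ᵥ P.p j := rfl
    rw [h1, h2] at h0
    rw [h1, h2]
    have h3 : dd (R *ᵥ s) (R *ᵥ P.p i) (R *ᵥ P.p j) = 0 := by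
      rw [hRs]
      unfold dd cr
      simp only [dotProduct, Fin.sum_univ_three]
      simp
      right
      linarith
    rw [dd_rot R hR hdet] at h3
    have h4 : cr (P.p i) (P.p j) = 0 := by
      by_contra hne'
      have h5 := hs (some (Sum.inr (i, j)))
      have h6 : N (some (Sum.inr (i, j))) = cr (P.p i) (P.p j) := by
        show (if cr (P.p i) (P.p j) = 0 then (![0, 0, 1] : V3) else cr (P.p i) (P.p j)) = _
        rw [if_neg hne']
      rw [h6, dotProduct_comm] at h5
      exact h5 h3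
    -- so p_j = ± p_i
    have e0 := congrFun h4 0
    have e1 := congrFun h4 1
    have e2 := congrFun h4 2
    simp [cr] at e0 e1 e2
    have ui := P.unit i
    have uj := P.unit j
    simp only [dotProduct, Fin.sum_univ_three] at ui uj
    set x := P.p i with hx
    set y := P.p j with hy
    set t := x 0 * y 0 + x 1 * y 1 + x 2 * y 2 with ht
    have hyt : ∀ k, y k = t * x k := by
      intro k
      fin_cases k
      · show y 0 = t * x 0
        have : y 0 = y 0 * (x 0 * x 0 + x 1 * x 1 + x 2 * x 2) := by rw [ui, mul_one]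
        rw [this, ht]
        linear_combination (-x 1) * e2 + (x 2) * e1
      · show y 1 = t * x 1
        have : y 1 = y 1 * (x 0 * x 0 + x 1 * x 1 + x 2 * x 2) := by rw [ui, mul_one]
        rw [this, ht]
        linear_combination (x 0) * e2 + (-x 2) * e0
      · show y 2 = t * x 2
        have : y 2 = y 2 * (x 0 * x 0 + x 1 * x 1 + x 2 * x 2) := by rw [ui, mul_one]
        rw [this, ht]
        linear_combination (-x 0) * e1 + (x 1) * e0
    have ht2 : (t - 1) * (t + 1) = 0 := by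
      have h0 := hyt 0
      have h1 := hyt 1
      have h2 := hyt 2
      rw [h0, h1, h2] at uj
      have : t * t * (x 0 * x 0 + x 1 * x 1 + x 2 * x 2) = 1 := by linarith
      rw [ui] at this
      linarith
    rcases mul_eq_zero.1 ht2 with h | h
    · exfalso
      have ht1 : t = 1 := by linarith
      have hsep := P.sep i j hij
      have hdot : P.p i ⬝ᵥ P.p j = t := by
        simp only [dotProduct, Fin.sum_univ_three]; rfl
      rw [hdot, ht1] at hsep
      have hpos : 0 < P.r i + P.r j := add_pos (P.rpos i) (P.rpos j)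
      have hle : P.r i + P.r j ≤ 1 / 5 := by linarith [P.rle i, P.rle j]
      have hpi : P.r i + P.r j ≤ Real.pi := by linarith [Real.pi_gt_three]
      have := Real.cos_lt_cos_of_nonneg_of_le_pi le_rfl hpi hpos
      rw [Real.cos_zero] at this
      linarith
    · have ht1 : t = -1 := by linarith
      have : y = - x := by
        ext k
        rw [hyt k, ht1]; simp
      rw [this, Matrix.mulVec_neg]

end SphJam
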