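import Pool.Agent.SphJam.Rot
import Pool.Agent.SphJam.Axis

set_option autoImplicit false
open Matrix Finset

namespace SphJam

section

variable {I : Type}

end


section

variable {n : ℕ} {P : Pack n} {R : Matrix (Fin 3) (Fin 3) ℝ}
  {hR : R ∈ Matrix.orthogonalGroup (Fin 3) ℝ}

end


theorem dd_formula_ha (u v w : V3) : dd u v w = u 0 * (v 1 * w 2 - v 2 * w 1) +
    u 1 * (v 2 * w 0 - v 0 * w 2) + u 2 * (v 0 * w 1 - v 1 * w 0) := by
  simp [dd, cr, dotProduct, Fin.sum_univ_three]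

theorem dd_cont3 (u v : V3) : Continuous fun s : V3 => dd u v s := by
  simp only [dd_formula_ha]
  fun_prop

theorem dd_cont2 (u v : V3) : Continuous fun s : V3 => dd u s v := by
  simp only [dd_formula_ha]
  fun_prop

/-- an axis close to node `A`, in a given sector -/
theorem hinge_axis {n : ℕ} (P : Pack n) (A j k : Fin n) (d : V3)
    (h1 : 0 < dd (P.p A) (P.p j) d) (h2 : 0 < dd (P.p A) d (P.p k)) :
    ∃ s : V3, 0 < dd (P.p A) (P.p j) s ∧ 0 < dd (P.p A) s (P.p k) ∧
      (∀ k' l', 0 < dd (P.p k') (P.p l') (P.p A) → 0 < dd (P.p k') (P.p l') s) ∧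
      ∃ c : ℝ, 0 < c ∧ ∃ R : Matrix (Fin 3) (Fin 3) ℝ,
      ∃ hR : R ∈ Matrix.orthogonalGroup (Fin 3) ℝ,
        R.det = 1 ∧ R *ᵥ s = ![0, 0, -c] ∧ GenAll (P.rot R hR) := by
  let U1 : Set V3 := {s | 0 < dd (P.p A) (P.p j) s}
  let U2 : Set V3 := {s | 0 < dd (P.p A) s (P.p k)}
  let V : Set V3 := ⋂ k' : Fin n, ⋂ l' : Fin n,
    {s | 0 < dd (P.p k') (P.p l') (P.p A) → 0 < dd (P.p k') (P.p l') s}
  have hU1 : IsOpen U1 := isOpen_lt continuous_const (dd_cont3 _ _)
  have hU2 : IsOpen U2 := isOpen_lt continuous_const (dd_cont2 _ _)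
  have hV : IsOpen V := by
    refine isOpen_iInter_of_finite fun k' => isOpen_iInter_of_finite fun l' => ?_
    by_cases h : 0 < dd (P.p k') (P.p l') (P.p A)
    · have e : {s : V3 | 0 < dd (P.p k') (P.p l') (P.p A) → 0 < dd (P.p k') (P.p l') s} =
          {s : V3 | 0 < dd (P.p k') (P.p l') s} := by
        ext s; simp [h]
      rw [e]
      exact isOpen_lt continuous_const (dd_cont3 _ _)
    · have e : {s : V3 | 0 < dd (P.p k') (P.p l') (P.p A) → 0 < dd (P.p k') (P.p l') s} =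
          Set.univ := by
        ext s; simp [h]
      rw [e]
      exact isOpen_univ
  have hVA : P.p A ∈ V := by
    simp only [V, Set.mem_iInter]
    intro k' l' h
    exact h
  have hne : (U1 ∩ U2 ∩ V).Nonempty := by
    let f : ℝ → V3 := fun η => P.p A + η • d
    have hf : Continuous f := by fun_prop
    have hf0 : f 0 ∈ V := by simpa [f] using hVA
    have hev : ∀ᶠ η in nhds (0:ℝ), f η ∈ V := hf.continuousAt.eventually (hV.mem_nhds hf0)
    obtain ⟨ε, hε, hball⟩ := Metric.eventually_nhds_iff.1 hev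
    have hη : 0 < ε / 2 := half_pos hε
    refine ⟨f (ε / 2), ⟨?_, ?_⟩, hball ?_⟩
    · show 0 < dd (P.p A) (P.p j) (f (ε / 2))
      have e : dd (P.p A) (P.p j) (f (ε / 2)) = ε / 2 * dd (P.p A) (P.p j) d := by
        simp only [dd_formula_ha, f, Pi.add_apply, Pi.smul_apply, smul_eq_mul]
        ring
      rw [e]
      positivity
    · show 0 < dd (P.p A) (f (ε / 2)) (P.p k)
      have e : dd (P.p A) (f (ε / 2)) (P.p k) = ε / 2 * dd (P.p A) d (P.p k) := by
        simp only [dd_formula_ha, f, Pi.add_apply, Pi.smul_apply, smul_eq_mul]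
        ring
      rw [e]
      positivity
    · rw [Real.dist_eq, sub_zero, abs_of_pos hη]
      linarith
  obtain ⟨s, ⟨⟨hs1, hs2⟩, hs3⟩, hrest⟩ := axis_rot P _ ((hU1.inter hU2).inter hV) hne
  refine ⟨s, hs1, hs2, ?_, hrest⟩
  intro k' l'
  simp only [V, Set.mem_iInter] at hs3
  exact hs3 k' l'

end SphJam
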