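import Pool.Agent.SphJam.Defs

set_option autoImplicit false
open Matrix

namespace SphJam

theorem nc_trig {a : ℝ} (h0 : 0 < a) (h1 : a ≤ 1 / 10) : 0 < Real.sin a ∧ 0 < Real.cos a := by
  have hpi := Real.pi_gt_three
  exact ⟨Real.sin_pos_of_pos_of_lt_pi h0 (by linarith),
    Real.cos_pos_of_mem_Ioo ⟨by linarith, by linarith⟩⟩

theorem nc_cos_lt {a c : ℝ} (h0 : 0 < a) (h1 : a ≤ 1 / 10) (h2 : 0 < c) (h3 : c ≤ 1 / 10) :
    Real.cos (c + a) < Real.cos a := by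
  have hpi := Real.pi_gt_three
  exact Real.cos_lt_cos_of_nonneg_of_le_pi h0.le (by linarith) (by linarith)

theorem nc1 {n : ℕ} (P : Pack n) {i j k : Fin n} (hc : P.Ct i j) (hki : k ≠ i) (hkj : k ≠ j)
    {α β : ℝ} (hα : 0 ≤ α) (hβ : 0 ≤ β) : P.p k ≠ α • P.p i + β • P.p j := by
  intro h
  have e1 : P.p k ⬝ᵥ P.p i = α + β * Real.cos (P.r i + P.r j) := by
    rw [h, add_dotProduct, smul_dotProduct, smul_dotProduct, P.unit, dotProduct_comm (P.p j),
      hc.2]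
    simp
  have e2 : P.p k ⬝ᵥ P.p j = α * Real.cos (P.r i + P.r j) + β := by
    rw [h, add_dotProduct, smul_dotProduct, smul_dotProduct, P.unit, hc.2]
    simp
  have e3 : P.p k ⬝ᵥ P.p k = α * (P.p k ⬝ᵥ P.p i) + β * (P.p k ⬝ᵥ P.p j) := by
    calc P.p k ⬝ᵥ P.p k = P.p k ⬝ᵥ (α • P.p i + β • P.p j) := by rw [← h]
      _ = _ := by
        rw [dotProduct_add, dotProduct_smul, dotProduct_smul]
        simp
  rw [P.unit] at e3
  have s1 := P.sep k i hki
  have s2 := P.sep k j hkj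
  have t1 := nc_cos_lt (P.rpos i) (P.rle i) (P.rpos k) (P.rle k)
  have t2 := nc_cos_lt (P.rpos j) (P.rle j) (P.rpos k) (P.rle k)
  have c1 := Real.sin_sq_add_cos_sq (P.r i)
  have c2 := Real.sin_sq_add_cos_sq (P.r j)
  have hcab := Real.cos_add (P.r i) (P.r j)
  have k1 : α * (P.p k ⬝ᵥ P.p i) ≤ α * Real.cos (P.r i) :=
    mul_le_mul_of_nonneg_left (by linarith) hα
  have k2 : β * (P.p k ⬝ᵥ P.p j) ≤ β * Real.cos (P.r j) :=
    mul_le_mul_of_nonneg_left (by linarith) hβ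
  have hX : 1 < α * Real.cos (P.r i) + β * Real.cos (P.r j) := by
    rcases hα.eq_or_lt with ha | ha
    · rcases hβ.eq_or_lt with hb | hb
      · rw [← ha, ← hb] at e3
        norm_num at e3
      · have : β * (P.p k ⬝ᵥ P.p j) < β * Real.cos (P.r j) :=
          mul_lt_mul_of_pos_left (by linarith) hb
        linarith
    · have : α * (P.p k ⬝ᵥ P.p i) < α * Real.cos (P.r i) :=
        mul_lt_mul_of_pos_left (by linarith) ha
      linarith
  have hn : (α * Real.cos (P.r i) + β * Real.cos (P.r j)) ^ 2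
      + (β * Real.sin (P.r j) - α * Real.sin (P.r i)) ^ 2 = 1 := by
    rw [e3, e1, e2, hcab]
    linear_combination α ^ 2 * c1 + β ^ 2 * c2
  nlinarith [sq_nonneg (β * Real.sin (P.r j) - α * Real.sin (P.r i))]

theorem nc2 {n : ℕ} (P : Pack n) {i j k l : Fin n} (hc : P.Ct i j) (hd : P.Ct k l)
    (hik : i ≠ k) (hil : i ≠ l) (hjk : j ≠ k) (hjl : j ≠ l)
    {α β γ δ : ℝ} (hα : 0 < α) (hβ : 0 < β) (hγ : 0 < γ) (hδ : 0 < δ) :
    α • P.p i + β • P.p j ≠ γ • P.p k + δ • P.p l := by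
  intro h
  obtain ⟨x, hx⟩ : ∃ x, x = α • P.p i + β • P.p j := ⟨_, rfl⟩
  have hx' : x = γ • P.p k + δ • P.p l := by rw [hx, h]
  have n1 : x ⬝ᵥ x = α ^ 2 + β ^ 2 + 2 * α * β * Real.cos (P.r i + P.r j) := by
    rw [hx]
    simp only [add_dotProduct, smul_dotProduct, dotProduct_add, dotProduct_smul, P.unit,
      dotProduct_comm (P.p j) (P.p i), hc.2, smul_eq_mul]
    ring
  have n2 : x ⬝ᵥ x = γ ^ 2 + δ ^ 2 + 2 * γ * δ * Real.cos (P.r k + P.r l) := by
    rw [hx']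
    simp only [add_dotProduct, smul_dotProduct, dotProduct_add, dotProduct_smul, P.unit,
      dotProduct_comm (P.p l) (P.p k), hd.2, smul_eq_mul]
    ring
  have n3 : x ⬝ᵥ x = α * γ * (P.p i ⬝ᵥ P.p k) + α * δ * (P.p i ⬝ᵥ P.p l)
      + β * γ * (P.p j ⬝ᵥ P.p k) + β * δ * (P.p j ⬝ᵥ P.p l) := by
    calc x ⬝ᵥ x = (α • P.p i + β • P.p j) ⬝ᵥ (γ • P.p k + δ • P.p l) := by rw [← hx, ← hx']
      _ = _ := by
        simp only [add_dotProduct, smul_dotProduct, dotProduct_add, dotProduct_smul, smul_eq_mul]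
        ring
  obtain ⟨sa, ca⟩ := nc_trig (P.rpos i) (P.rle i)
  obtain ⟨sb, cb⟩ := nc_trig (P.rpos j) (P.rle j)
  obtain ⟨sc, cc⟩ := nc_trig (P.rpos k) (P.rle k)
  obtain ⟨sd, cd⟩ := nc_trig (P.rpos l) (P.rle l)
  have q1 := Real.sin_sq_add_cos_sq (P.r i)
  have q2 := Real.sin_sq_add_cos_sq (P.r j)
  have q3 := Real.sin_sq_add_cos_sq (P.r k)
  have q4 := Real.sin_sq_add_cos_sq (P.r l)
  have m1 := mul_le_mul_of_nonneg_left (P.sep i k hik) (mul_pos hα hγ).le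
  have m2 := mul_le_mul_of_nonneg_left (P.sep i l hil) (mul_pos hα hδ).le
  have m3 := mul_le_mul_of_nonneg_left (P.sep j k hjk) (mul_pos hβ hγ).le
  have m4 := mul_le_mul_of_nonneg_left (P.sep j l hjl) (mul_pos hβ hδ).le
  rw [Real.cos_add] at m1 m2 m3 m4 n1 n2
  have n3' : x ⬝ᵥ x ≤ (α * Real.cos (P.r i) + β * Real.cos (P.r j)) *
        (γ * Real.cos (P.r k) + δ * Real.cos (P.r l)) -
      (α * Real.sin (P.r i) + β * Real.sin (P.r j)) *
        (γ * Real.sin (P.r k) + δ * Real.sin (P.r l)) := by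
    rw [n3]
    linarith
  have n1' : x ⬝ᵥ x = (α * Real.cos (P.r i) + β * Real.cos (P.r j)) ^ 2
      + (β * Real.sin (P.r j) - α * Real.sin (P.r i)) ^ 2 := by
    rw [n1]
    linear_combination -α ^ 2 * q1 - β ^ 2 * q2
  have n2' : x ⬝ᵥ x = (γ * Real.cos (P.r k) + δ * Real.cos (P.r l)) ^ 2
      + (δ * Real.sin (P.r l) - γ * Real.sin (P.r k)) ^ 2 := by
    rw [n2]
    linear_combination -γ ^ 2 * q3 - δ ^ 2 * q4
  have hX : 0 < α * Real.cos (P.r i) + β * Real.cos (P.r j) := by positivity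
  have hX' : 0 < γ * Real.cos (P.r k) + δ * Real.cos (P.r l) := by positivity
  have hZ : 0 < α * Real.sin (P.r i) + β * Real.sin (P.r j) := by positivity
  have hZ' : 0 < γ * Real.sin (P.r k) + δ * Real.sin (P.r l) := by positivity
  have hZZ := mul_pos hZ hZ'
  generalize α * Real.cos (P.r i) + β * Real.cos (P.r j) = X at n3' n1' hX
  generalize γ * Real.cos (P.r k) + δ * Real.cos (P.r l) = X' at n3' n2' hX'
  generalize β * Real.sin (P.r j) - α * Real.sin (P.r i) = Y at n1'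
  generalize δ * Real.sin (P.r l) - γ * Real.sin (P.r k) = Y' at n2'
  have g1 : X ^ 2 ≤ x ⬝ᵥ x := by rw [n1']; linarith [sq_nonneg Y]
  have g2 : X' ^ 2 ≤ x ⬝ᵥ x := by rw [n2']; linarith [sq_nonneg Y']
  have g3 : X * X' ≤ x ⬝ᵥ x := by nlinarith [sq_nonneg (X - X')]
  linarith

end SphJam
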