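import Pool.Agent.SphJam.Sector
import Pool.Agent.SphJam.PackNC

set_option autoImplicit false
open Matrix Finset

namespace SphJam

section

variable {I : Type}

end



theorem frame3_unit (p : V3) (hp : p ⬝ᵥ p = 1) : ∃ e : V3, e ⬝ᵥ e = 1 ∧ p ⬝ᵥ e = 0 := by
  by_cases h : p 0 ^ 2 + p 1 ^ 2 = 0
  · have h0 : p 0 = 0 := by nlinarith [sq_nonneg (p 0), sq_nonneg (p 1)]
    refine ⟨![1, 0, 0], ?_, ?_⟩
    · simp [dotProduct, Fin.sum_univ_three]
    · simp [dotProduct, Fin.sum_univ_three, h0]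
  · have hpos : 0 < p 0 ^ 2 + p 1 ^ 2 := lt_of_le_of_ne (by positivity) (Ne.symm h)
    set c := Real.sqrt (p 0 ^ 2 + p 1 ^ 2) with hc
    have hc2 : c ^ 2 = p 0 ^ 2 + p 1 ^ 2 := Real.sq_sqrt hpos.le
    have hc0 : 0 < c := Real.sqrt_pos.mpr hpos
    refine ⟨![-(p 1) / c, p 0 / c, 0], ?_, ?_⟩
    · simp only [dotProduct, Fin.sum_univ_three, Matrix.cons_val_zero, Matrix.cons_val_one,
        Matrix.cons_val, mul_zero, add_zero]
      field_simp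
      rw [hc2]; ring
    · simp only [dotProduct, Fin.sum_univ_three, Matrix.cons_val_zero, Matrix.cons_val_one,
        Matrix.cons_val, mul_zero, add_zero]
      field_simp
      ring

theorem frame3 (p : V3) (hp : p ⬝ᵥ p = 1) : ∃ e f : V3,
    (∀ u w : V3, dd p u w = (e ⬝ᵥ u) * (f ⬝ᵥ w) - (f ⬝ᵥ u) * (e ⬝ᵥ w)) ∧
    (∀ u w : V3, u ⬝ᵥ w = (e ⬝ᵥ u) * (e ⬝ᵥ w) + (f ⬝ᵥ u) * (f ⬝ᵥ w) + (p ⬝ᵥ u) * (p ⬝ᵥ w)) ∧
    e ⬝ᵥ p = 0 ∧ f ⬝ᵥ p = 0 ∧ e ⬝ᵥ e = 1 ∧ f ⬝ᵥ f = 1 ∧ e ⬝ᵥ f = 0 := by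
  obtain ⟨e, he, hpe⟩ := frame3_unit p hp
  have hp' : p 0 * p 0 + p 1 * p 1 + p 2 * p 2 = 1 := by
    simpa [dotProduct, Fin.sum_univ_three] using hp
  have he' : e 0 * e 0 + e 1 * e 1 + e 2 * e 2 = 1 := by
    simpa [dotProduct, Fin.sum_univ_three] using he
  have hpe' : p 0 * e 0 + p 1 * e 1 + p 2 * e 2 = 0 := by
    simpa [dotProduct, Fin.sum_univ_three] using hpe
  have hff : cr p e ⬝ᵥ cr p e = 1 := by
    simp only [cr, dotProduct, Fin.sum_univ_three, Matrix.cons_val_zero, Matrix.cons_val_one,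
      Matrix.cons_val]
    have : (p 1 * e 2 - p 2 * e 1) * (p 1 * e 2 - p 2 * e 1)
        + (p 2 * e 0 - p 0 * e 2) * (p 2 * e 0 - p 0 * e 2)
        + (p 0 * e 1 - p 1 * e 0) * (p 0 * e 1 - p 1 * e 0)
        = (p 0 * p 0 + p 1 * p 1 + p 2 * p 2) * (e 0 * e 0 + e 1 * e 1 + e 2 * e 2)
          - (p 0 * e 0 + p 1 * e 1 + p 2 * e 2) ^ 2 := by ring
    rw [this, hp', he', hpe']; ring
  have hef : e ⬝ᵥ cr p e = 0 := by
    simp only [cr, dotProduct, Fin.sum_univ_three, Matrix.cons_val_zero, Matrix.cons_val_one,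
      Matrix.cons_val]
    ring
  have hfp : cr p e ⬝ᵥ p = 0 := by
    simp only [cr, dotProduct, Fin.sum_univ_three, Matrix.cons_val_zero, Matrix.cons_val_one,
      Matrix.cons_val]
    ring
  have hep : e ⬝ᵥ p = 0 := by rw [dotProduct_comm]; exact hpe
  refine ⟨e, cr p e, ?_, ?_, hep, hfp, he, hff, hef⟩
  · intro u w
    have hx0 : p 0 = e 1 * (cr p e) 2 - e 2 * (cr p e) 1 := by
      simp only [cr, Matrix.cons_val_zero, Matrix.cons_val_one, Matrix.cons_val]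
      linear_combination (-(p 0)) * he' + (e 0) * hpe'
    have hx1 : p 1 = e 2 * (cr p e) 0 - e 0 * (cr p e) 2 := by
      simp only [cr, Matrix.cons_val_zero, Matrix.cons_val_one, Matrix.cons_val]
      linear_combination (-(p 1)) * he' + (e 1) * hpe'
    have hx2 : p 2 = e 0 * (cr p e) 1 - e 1 * (cr p e) 0 := by
      simp only [cr, Matrix.cons_val_zero, Matrix.cons_val_one, Matrix.cons_val]
      linear_combination (-(p 2)) * he' + (e 2) * hpe'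
    generalize cr p e = f at hx0 hx1 hx2
    simp only [dd, dotProduct, Fin.sum_univ_three]
    rw [hx0, hx1, hx2]
    simp only [cr, Matrix.cons_val_zero, Matrix.cons_val_one, Matrix.cons_val]
    ring
  · intro u w
    generalize cr p e = f at hff hef hfp
    have hM : (!![e 0, e 1, e 2; f 0, f 1, f 2; p 0, p 1, p 2] : Matrix (Fin 3) (Fin 3) ℝ)
        * !![e 0, f 0, p 0; e 1, f 1, p 1; e 2, f 2, p 2] = 1 := by
      have hff' : f 0 * f 0 + f 1 * f 1 + f 2 * f 2 = 1 := by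
        simpa [dotProduct, Fin.sum_univ_three] using hff
      have hef' : e 0 * f 0 + e 1 * f 1 + e 2 * f 2 = 0 := by
        simpa [dotProduct, Fin.sum_univ_three] using hef
      have hfp' : f 0 * p 0 + f 1 * p 1 + f 2 * p 2 = 0 := by
        simpa [dotProduct, Fin.sum_univ_three] using hfp
      ext i j
      fin_cases i <;> fin_cases j <;>
        simp [Matrix.mul_apply, Fin.sum_univ_three] <;> linarith
    have hM' := mul_eq_one_comm.mp hM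
    have hent : ∀ i j, (!![e 0, f 0, p 0; e 1, f 1, p 1; e 2, f 2, p 2]
        * !![e 0, e 1, e 2; f 0, f 1, f 2; p 0, p 1, p 2] : Matrix (Fin 3) (Fin 3) ℝ) i j
        = (1 : Matrix (Fin 3) (Fin 3) ℝ) i j := fun i j => by rw [hM']
    have h00 := hent 0 0
    have h01 := hent 0 1
    have h02 := hent 0 2
    have h11 := hent 1 1
    have h12 := hent 1 2
    have h22 := hent 2 2
    simp [Matrix.mul_apply, Fin.sum_univ_three] at h00 h01 h02 h11 h12 h22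
    simp only [dotProduct, Fin.sum_univ_three]
    linear_combination (-(u 0 * w 0)) * h00 - (u 0 * w 1 + u 1 * w 0) * h01
      - (u 0 * w 2 + u 2 * w 0) * h02 - (u 1 * w 1) * h11 - (u 1 * w 2 + u 2 * w 1) * h12
      - (u 2 * w 2) * h22

theorem sector3 {n : ℕ} {P : Pack n} {ω : Fin n → Fin n → ℝ} (hst : IsStress P Set.univ ω)
    (A : Fin n) (s : Fin n → ℝ) (hs : ∃ j k, ω A j ≠ 0 ∧ ω A k ≠ 0 ∧ s j ≠ s k) :
    ∃ j k, ω A j ≠ 0 ∧ ω A k ≠ 0 ∧ s k < s j ∧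
      (∃ d : V3, 0 < dd (P.p A) (P.p j) d ∧ 0 < dd (P.p A) d (P.p k)) ∧
      ∀ d : V3, 0 < dd (P.p A) (P.p j) d → 0 < dd (P.p A) d (P.p k) →
        ∀ l, ω A l ≠ 0 →
          (0 < dd (P.p A) d (P.p l) → l = k ∨ 0 < dd (P.p A) (P.p k) (P.p l)) ∧
          (0 < dd (P.p A) (P.p l) d → l = j ∨ 0 < dd (P.p A) (P.p l) (P.p j)) := by
  classical
  obtain ⟨e, f, hdd, hdot, hep, hfp, hee, hff, hef⟩ := frame3 (P.p A) (P.unit A)
  have hz : ∀ l, ω A l ≠ 0 → 0 < P.p A ⬝ᵥ P.p l ∧ P.p A ⬝ᵥ P.p l < 1 := by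
    intro l hl
    have hC := (hst.supp A l hl).2
    have h1 := P.rpos A
    have h2 := P.rpos l
    have h3 := P.rle A
    have h4 := P.rle l
    have hpi := Real.pi_gt_three
    rw [hC]
    constructor
    · apply Real.cos_pos_of_mem_Ioo
      constructor <;> linarith
    · rw [← Real.cos_zero]
      exact Real.cos_lt_cos_of_nonneg_of_le_pi le_rfl (by linarith) (by linarith)
  have hsum : ∀ u : V3, u ⬝ᵥ P.p A = 0 →
      ∑ l : {l // ω A l ≠ 0}, ω A l.1 * (u ⬝ᵥ P.p l.1) = 0 := by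
    intro u hu
    refine Eq.trans ?_ (hst.bal A (Set.mem_univ A) u hu)
    rw [← Finset.sum_subtype (Finset.univ.filter (fun l => ω A l ≠ 0)) (by simp)
      (fun l => ω A l * (u ⬝ᵥ P.p l))]
    apply Finset.sum_subset (Finset.subset_univ _)
    intro l _ hl
    have : ω A l = 0 := by simpa using hl
    rw [this, zero_mul]
  have hne : ∀ l, ω A l ≠ 0 → ¬ (e ⬝ᵥ P.p l = 0 ∧ f ⬝ᵥ P.p l = 0) := by
    rintro l hl ⟨h1, h2⟩
    obtain ⟨z0, z1⟩ := hz l hl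
    have h3 := hdot (P.p l) (P.p l)
    rw [P.unit l, h1, h2] at h3
    nlinarith
  have hlin : ∀ l l' : Fin n, ∀ t : ℝ, e ⬝ᵥ P.p l' = t * (e ⬝ᵥ P.p l) →
      f ⬝ᵥ P.p l' = t * (f ⬝ᵥ P.p l) →
      P.p l' = (P.p A ⬝ᵥ P.p l' - t * (P.p A ⬝ᵥ P.p l)) • P.p A + t • P.p l := by
    intro l l' t h1 h2
    have hAA := P.unit A
    set D := P.p l' - ((P.p A ⬝ᵥ P.p l' - t * (P.p A ⬝ᵥ P.p l)) • P.p A + t • P.p l) with hD
    have e1 : e ⬝ᵥ D = 0 := by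
      rw [hD]
      simp only [dotProduct_sub, dotProduct_add, dotProduct_smul, smul_eq_mul, hep, h1]
      ring
    have e2 : f ⬝ᵥ D = 0 := by
      rw [hD]
      simp only [dotProduct_sub, dotProduct_add, dotProduct_smul, smul_eq_mul, hfp, h2]
      ring
    have e3 : P.p A ⬝ᵥ D = 0 := by
      rw [hD]
      simp only [dotProduct_sub, dotProduct_add, dotProduct_smul, smul_eq_mul, hAA]
      ring
    have e4 : D ⬝ᵥ D = 0 := by
      rw [hdot D D, e1, e2, e3]; ring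
    have e5 : D = 0 := dotProduct_self_eq_zero.mp e4
    exact sub_eq_zero.mp e5
  obtain ⟨j0, k0, hj0, hk0, hjk0⟩ := hs
  obtain ⟨j, k, hjk, ⟨e0, f0, h1, h2⟩, h3⟩ := sector (ι := {l // ω A l ≠ 0})
    (fun l => ω A l.1) (fun l => e ⬝ᵥ P.p l.1) (fun l => f ⬝ᵥ P.p l.1) (fun l => s l.1)
    (fun l => lt_of_le_of_ne (hst.nonneg A l.1) (Ne.symm l.2))
    (hsum e hep) (hsum f hfp) (fun l => hne l.1 l.2)
    (by
      rintro ⟨l, hl⟩ ⟨l', hl'⟩ hll hcross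
      have hll' : l ≠ l' := fun h => hll (Subtype.ext h)
      show (e ⬝ᵥ P.p l) * (e ⬝ᵥ P.p l') + (f ⬝ᵥ P.p l) * (f ⬝ᵥ P.p l') < 0
      have hcr : (e ⬝ᵥ P.p l) * (f ⬝ᵥ P.p l') - (f ⬝ᵥ P.p l) * (e ⬝ᵥ P.p l') = 0 := hcross
      by_contra hge
      push Not at hge
      have hx := hne l hl
      have hx' := hne l' hl'
      have hz1 := hz l hl
      have hz2 := hz l' hl'
      have hN : 0 < (e ⬝ᵥ P.p l) ^ 2 + (f ⬝ᵥ P.p l) ^ 2 := by
        rcases eq_or_ne (e ⬝ᵥ P.p l) 0 with ha | ha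
        · have hb : f ⬝ᵥ P.p l ≠ 0 := fun hb => hx ⟨ha, hb⟩
          positivity
        · positivity
      have hte : e ⬝ᵥ P.p l' = ((e ⬝ᵥ P.p l) * (e ⬝ᵥ P.p l') + (f ⬝ᵥ P.p l) * (f ⬝ᵥ P.p l'))
          / ((e ⬝ᵥ P.p l) ^ 2 + (f ⬝ᵥ P.p l) ^ 2) * (e ⬝ᵥ P.p l) := by
        rw [div_mul_eq_mul_div, eq_div_iff hN.ne']
        linear_combination (-(f ⬝ᵥ P.p l)) * hcr
      have htf : f ⬝ᵥ P.p l' = ((e ⬝ᵥ P.p l) * (e ⬝ᵥ P.p l') + (f ⬝ᵥ P.p l) * (f ⬝ᵥ P.p l'))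
          / ((e ⬝ᵥ P.p l) ^ 2 + (f ⬝ᵥ P.p l) ^ 2) * (f ⬝ᵥ P.p l) := by
        rw [div_mul_eq_mul_div, eq_div_iff hN.ne']
        linear_combination (e ⬝ᵥ P.p l) * hcr
      have ht0 : 0 ≤ ((e ⬝ᵥ P.p l) * (e ⬝ᵥ P.p l') + (f ⬝ᵥ P.p l) * (f ⬝ᵥ P.p l'))
          / ((e ⬝ᵥ P.p l) ^ 2 + (f ⬝ᵥ P.p l) ^ 2) := div_nonneg hge hN.le
      generalize ((e ⬝ᵥ P.p l) * (e ⬝ᵥ P.p l') + (f ⬝ᵥ P.p l) * (f ⬝ᵥ P.p l'))
          / ((e ⬝ᵥ P.p l) ^ 2 + (f ⬝ᵥ P.p l) ^ 2) = t at hte htf ht0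
      have ht : 0 < t := by
        rcases ht0.lt_or_eq with h | h
        · exact h
        · exfalso
          rw [← h] at hte htf
          exact hx' ⟨by rw [hte]; ring, by rw [htf]; ring⟩
      have hC := hst.supp A l hl
      have hC' := hst.supp A l' hl'
      by_cases hc : 0 ≤ P.p A ⬝ᵥ P.p l' - t * (P.p A ⬝ᵥ P.p l)
      · exact nc1 P hC (Ne.symm hC'.1) (Ne.symm hll') hc ht.le (hlin l l' t hte htf)
      · push Not at hc
        have hte' : e ⬝ᵥ P.p l = t⁻¹ * (e ⬝ᵥ P.p l') := by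
          rw [hte]; field_simp
        have htf' : f ⬝ᵥ P.p l = t⁻¹ * (f ⬝ᵥ P.p l') := by
          rw [htf]; field_simp
        have hc' : 0 ≤ P.p A ⬝ᵥ P.p l - t⁻¹ * (P.p A ⬝ᵥ P.p l') := by
          have hti : 0 < t⁻¹ := inv_pos.mpr ht
          have : P.p A ⬝ᵥ P.p l - t⁻¹ * (P.p A ⬝ᵥ P.p l')
              = t⁻¹ * (-(P.p A ⬝ᵥ P.p l' - t * (P.p A ⬝ᵥ P.p l))) := by
            field_simp
            ring
          rw [this]
          exact mul_nonneg hti.le (by linarith)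
        exact nc1 P hC' (Ne.symm hC.1) hll' hc' (inv_pos.mpr ht).le
          (hlin l' l t⁻¹ hte' htf'))
    ⟨⟨j0, hj0⟩, ⟨k0, hk0⟩, hjk0⟩
  refine ⟨j.1, k.1, j.2, k.2, hjk, ⟨e0 • e + f0 • f, ?_, ?_⟩, ?_⟩
  · rw [hdd]
    simp only [dotProduct_add, dotProduct_smul, smul_eq_mul, hee, hff, hef, dotProduct_comm f e]
    have := h1
    nlinarith [this]
  · rw [hdd]
    simp only [dotProduct_add, dotProduct_smul, smul_eq_mul, hee, hff, hef, dotProduct_comm f e]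
    have := h2
    nlinarith [this]
  · intro d hd1 hd2 l hl
    rw [hdd] at hd1 hd2
    have h4 := h3 (e ⬝ᵥ d) (f ⬝ᵥ d) hd1 hd2 ⟨l, hl⟩
    rw [hdd, hdd, hdd, hdd]
    constructor
    · intro h5
      rcases h4.1 h5 with h6 | h6
      · left
        exact congrArg Subtype.val h6
      · right
        exact h6
    · intro h5
      rcases h4.2 h5 with h6 | h6
      · left
        exact congrArg Subtype.val h6
      · right
        exact h6

end SphJam
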