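import Pool.Agent.SphJam.PackNC

set_option autoImplicit false
open Matrix Finset

namespace SphJam

section

variable {I : Type}

end



section

variable {n : ℕ} {P : Pack n} {ω : Fin n → Fin n → ℝ}

theorem iso_of_flex (hst : IsStress P Set.univ ω) {v : Fin n → V3} (hv : IsFlex P v) :
    ∀ i j, ω i j ≠ 0 → P.p i ⬝ᵥ v j + P.p j ⬝ᵥ v i = 0 := by
  have h1 : ∀ i, ∑ j, ω i j * (v i ⬝ᵥ P.p j) = 0 := fun i =>
    hst.bal i (Set.mem_univ i) (v i) (by rw [dotProduct_comm]; exact hv.1 i)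
  have hF : ∀ i j, ω i j * (P.p i ⬝ᵥ v j + P.p j ⬝ᵥ v i) ≤ 0 := by
    intro i j
    by_cases h : ω i j = 0
    · rw [h, zero_mul]
    · exact mul_nonpos_of_nonneg_of_nonpos (hst.nonneg i j) (hv.2 i j (hst.supp i j h))
  have hS : ∑ i, ∑ j, ω i j * (P.p i ⬝ᵥ v j + P.p j ⬝ᵥ v i) = 0 := by
    have e : ∀ i j, ω i j * (P.p i ⬝ᵥ v j + P.p j ⬝ᵥ v i)
        = ω j i * (v j ⬝ᵥ P.p i) + ω i j * (v i ⬝ᵥ P.p j) := by
      intro i j
      rw [mul_add, dotProduct_comm (P.p i) (v j), dotProduct_comm (P.p j) (v i), hst.symm i j]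
    simp only [e, Finset.sum_add_distrib]
    rw [Finset.sum_comm]
    simp only [h1, Finset.sum_const_zero, add_zero]
  have h2 : ∀ i, ∑ j, ω i j * (P.p i ⬝ᵥ v j + P.p j ⬝ᵥ v i) ≤ 0 := fun i =>
    Finset.sum_nonpos fun j _ => hF i j
  have h3 := (Finset.sum_eq_zero_iff_of_nonpos (fun i _ => h2 i)).1 hS
  intro i j hij
  have h4 := h3 i (Finset.mem_univ i)
  have h5 := (Finset.sum_eq_zero_iff_of_nonpos (fun j _ => hF i j)).1 h4 j (Finset.mem_univ j)
  exact (mul_eq_zero.1 h5).resolve_left hij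

theorem cm_ne_zero {i j : Fin n} :
    cm P ω i j ≠ 0 ↔ ω i j ≠ 0 ∧ 0 < P.p i 0 * P.p j 1 - P.p i 1 * P.p j 0 := by
  unfold cm
  rw [mul_ne_zero_iff]
  refine and_congr_right fun _ => ?_
  constructor
  · intro h
    by_contra hx
    exact h (max_eq_left (not_lt.1 hx))
  · intro h
    rw [max_eq_right h.le]
    exact h.ne'

theorem D2_pack {i j : Fin n} :
    D2 (ca P) (cb P) i j = (P.p i 0 * P.p j 1 - P.p i 1 * P.p j 0) / (rho P i * rho P j) := by
  unfold D2 ca cb
  rw [div_mul_div_comm, div_mul_div_comm, ← sub_div]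

theorem dd_eq (u v w : V3) : dd u v w = u 2 * (v 0 * w 1 - v 1 * w 0) + v 2 * (w 0 * u 1 - w 1 * u 0)
    + w 2 * (u 0 * v 1 - u 1 * v 0) := by
  simp only [dd, cr, dotProduct, Fin.sum_univ_three, Matrix.cons_val_zero, Matrix.cons_val_one,
    Matrix.cons_val]
  ring

theorem D3_pack {i j k : Fin n} :
    D3 (ca P) (cb P) (cT P) i j k = dd (P.p i) (P.p j) (P.p k) / (rho P i * rho P j * rho P k) := by
  unfold D3
  rw [D2_pack, D2_pack, D2_pack, dd_eq]
  unfold cT
  rw [div_mul_div_comm, div_mul_div_comm, div_mul_div_comm,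
    show rho P i * (rho P j * rho P k) = rho P i * rho P j * rho P k by ring,
    show rho P j * (rho P k * rho P i) = rho P i * rho P j * rho P k by ring,
    show rho P k * (rho P i * rho P j) = rho P i * rho P j * rho P k by ring,
    ← add_div, ← add_div]

theorem AN_symm (hst : IsStress P Set.univ ω) {i j : Fin n} (h : ω i j ≠ 0) : AN ω j :=
  ⟨i, by rw [hst.symm]; exact h⟩

theorem rho_pos_of (hg : GenNet P ω) {i : Fin n} (h : AN ω i) : 0 < rho P i :=
  Real.sqrt_pos.2 (hg.1 i h)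

theorem rho_sq (i : Fin n) : rho P i ^ 2 = P.p i 0 ^ 2 + P.p i 1 ^ 2 :=
  Real.sq_sqrt (by positivity)

theorem x_ne_zero (hst : IsStress P Set.univ ω) (hg : GenNet P ω) {i j : Fin n} (h : ω i j ≠ 0) :
    P.p i 0 * P.p j 1 - P.p i 1 * P.p j 0 ≠ 0 := by
  intro hx
  have hc := hst.supp i j h
  have hp := hg.2 i j ⟨j, h⟩ (AN_symm hst h) hc.1 hx
  have h1 := hc.2
  rw [hp, dotProduct_neg, P.unit i] at h1
  have h2 : 0 < Real.cos (P.r i + P.r j) := by
    apply Real.cos_pos_of_mem_Ioo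
    have := P.rpos i
    have := P.rpos j
    have := P.rle i
    have := P.rle j
    have := Real.pi_gt_three
    constructor <;> linarith
  linarith

theorem bal_x (hst : IsStress P Set.univ ω) (i : Fin n) :
    ∑ j, ω i j * (P.p i 0 * P.p j 1 - P.p i 1 * P.p j 0) = 0 := by
  have h := hst.bal i (Set.mem_univ i) ![-(P.p i 1), P.p i 0, 0] (by
    simp only [dotProduct, Fin.sum_univ_three, Matrix.cons_val_zero, Matrix.cons_val_one,
      Matrix.cons_val]
    ring)
  rw [← h]
  refine Finset.sum_congr rfl fun j _ => ?_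
  simp only [dotProduct, Fin.sum_univ_three, Matrix.cons_val_zero, Matrix.cons_val_one,
    Matrix.cons_val]
  ring

theorem act_cm (hst : IsStress P Set.univ ω) (hg : GenNet P ω) (i : Fin n) :
    Act (cm P ω) i ↔ AN ω i := by
  constructor
  · rintro ⟨j, hj⟩
    exact ⟨j, (cm_ne_zero.1 hj).1⟩
  · rintro ⟨j0, hj0⟩
    by_contra hna
    have hle : ∀ j, ω i j ≠ 0 → P.p i 0 * P.p j 1 - P.p i 1 * P.p j 0 < 0 := by
      intro j hj
      rcases lt_or_gt_of_ne (x_ne_zero hst hg hj) with h | h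
      · exact h
      · exact absurd ⟨j, cm_ne_zero.2 ⟨hj, h⟩⟩ hna
    have hterm : ∀ j, ω i j * (P.p i 0 * P.p j 1 - P.p i 1 * P.p j 0) ≤ 0 := by
      intro j
      by_cases h : ω i j = 0
      · rw [h, zero_mul]
      · exact mul_nonpos_of_nonneg_of_nonpos (hst.nonneg i j) (hle j h).le
    have h0 := (Finset.sum_eq_zero_iff_of_nonpos (fun j _ => hterm j)).1 (bal_x hst i) j0
      (Finset.mem_univ j0)
    rcases mul_eq_zero.1 h0 with h | h
    · exact hj0 h
    · exact (hle j0 hj0).ne h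

theorem bridge_CN (hst : IsStress P Set.univ ω) (hg : GenNet P ω) :
    CN (ca P) (cb P) (cT P) (cm P ω) := by
  constructor
  · -- unit
    intro i hi
    have hr := rho_pos_of hg ((act_cm hst hg i).1 hi)
    unfold ca cb
    rw [div_pow, div_pow, ← add_div, ← rho_sq]
    exact div_self (pow_pos hr 2).ne'
  · intro i j
    exact mul_nonneg (hst.nonneg i j) (le_max_left _ _)
  · intro i j h
    obtain ⟨h1, h2⟩ := cm_ne_zero.1 h
    rw [D2_pack]
    exact div_pos h2 (mul_pos (rho_pos_of hg ⟨j, h1⟩) (rho_pos_of hg (AN_symm hst h1)))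
  · -- cons
    intro i
    rw [← sub_eq_zero, ← Finset.sum_sub_distrib, ← bal_x hst i]
    refine Finset.sum_congr rfl fun j _ => ?_
    unfold cm
    rw [hst.symm j i, ← mul_sub]
    congr 1
    have e : P.p j 0 * P.p i 1 - P.p j 1 * P.p i 0 = -(P.p i 0 * P.p j 1 - P.p i 1 * P.p j 0) := by
      ring
    rw [e]
    generalize P.p i 0 * P.p j 1 - P.p i 1 * P.p j 0 = x
    rcases le_total 0 x with h | h
    · rw [max_eq_right h, max_eq_left (by linarith)]; ring
    · rw [max_eq_left h, max_eq_right (by linarith)]; ring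
  · -- gen
    intro i j hi hj hij
    have hi' := (act_cm hst hg i).1 hi
    have hj' := (act_cm hst hg j).1 hj
    by_cases hx : P.p i 0 * P.p j 1 - P.p i 1 * P.p j 0 = 0
    · right
      have hp := hg.2 i j hi' hj' hij hx
      have hr : rho P j = rho P i := by
        unfold rho
        rw [hp]
        simp
      unfold ca cb
      rw [hr, hp]
      constructor
      · simp [neg_div]
      · simp [neg_div]
    · left
      rw [D2_pack]
      exact div_ne_zero hx (mul_pos (rho_pos_of hg hi') (rho_pos_of hg hj')).ne'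
  · -- nc1
    intro i j k hij hk h1 h2 h3
    obtain ⟨hω, hx⟩ := cm_ne_zero.1 hij
    have ri := rho_pos_of hg (⟨j, hω⟩ : AN ω i)
    have rj := rho_pos_of hg (AN_symm hst hω)
    have rk := rho_pos_of hg ((act_cm hst hg k).1 hk)
    rw [D2_pack] at h1 h2
    rw [D3_pack, div_eq_zero_iff] at h3
    have h3' : dd (P.p i) (P.p j) (P.p k) = 0 :=
      h3.resolve_right (mul_pos (mul_pos ri rj) rk).ne'
    have xik : 0 < P.p i 0 * P.p k 1 - P.p i 1 * P.p k 0 := by
      have := mul_pos h1 (mul_pos ri rk)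
      rwa [div_mul_cancel₀ _ (mul_pos ri rk).ne'] at this
    have xkj : 0 < P.p k 0 * P.p j 1 - P.p k 1 * P.p j 0 := by
      have := mul_pos h2 (mul_pos rk rj)
      rwa [div_mul_cancel₀ _ (mul_pos rk rj).ne'] at this
    rw [dd_eq] at h3'
    have hki : k ≠ i := by
      rintro rfl
      linarith
    have hkj : k ≠ j := by
      rintro rfl
      linarith
    set X := P.p i 0 * P.p j 1 - P.p i 1 * P.p j 0 with hX
    refine nc1 P (hst.supp i j hω) hki hkj
      (α := (P.p k 0 * P.p j 1 - P.p k 1 * P.p j 0) / X)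
      (β := (P.p i 0 * P.p k 1 - P.p i 1 * P.p k 0) / X)
      (div_nonneg xkj.le hx.le) (div_nonneg xik.le hx.le) ?_
    have hX0 : X ≠ 0 := hx.ne'
    funext t
    simp only [Pi.add_apply, Pi.smul_apply, smul_eq_mul]
    rw [div_mul_eq_mul_div, div_mul_eq_mul_div, ← add_div, eq_div_iff hX0]
    fin_cases t
    · simp only [Fin.zero_eta, Fin.isValue, hX]
      ring
    · simp only [Fin.mk_one, Fin.isValue, hX]
      ring
    · show P.p k 2 * X = _ * P.p i 2 + _ * P.p j 2
      rw [hX]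
      linarith
  · -- nc2
    intro i j k l hij hkl hik hil hjk hjl α β γ δ hα hβ hγ hδ h
    obtain ⟨hω, -⟩ := cm_ne_zero.1 hij
    obtain ⟨hω2, -⟩ := cm_ne_zero.1 hkl
    have ri := rho_pos_of hg (⟨j, hω⟩ : AN ω i)
    have rj := rho_pos_of hg (AN_symm hst hω)
    have rk := rho_pos_of hg (⟨l, hω2⟩ : AN ω k)
    have rl := rho_pos_of hg (AN_symm hst hω2)
    obtain ⟨h1, h2, h3⟩ := h
    refine nc2 P (hst.supp i j hω) (hst.supp k l hω2) hik hil hjk hjl
      (div_pos hα ri) (div_pos hβ rj) (div_pos hγ rk) (div_pos hδ rl) ?_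
    have key : ∀ (c r x : ℝ), c / r * x = c * (x / r) := by
      intro c r x; ring
    funext t
    simp only [Pi.add_apply, Pi.smul_apply, smul_eq_mul, key]
    fin_cases t
    · exact h1
    · exact h2
    · exact h3

end

end SphJam
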