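import Pool.Agent.SphJam.PackNC
import Pool.Agent.SphJam.BridgeA

set_option autoImplicit false
open Matrix Finset

namespace SphJam

section

variable {I : Type}

end


section

variable {n : ℕ} {P : Pack n} {ω : Fin n → Fin n → ℝ}

end


section

variable {n : ℕ} {P : Pack n} {ω : Fin n → Fin n → ℝ}

/-- helper -/
theorem b2_dot (u v : V3) : u ⬝ᵥ v = u 0 * v 0 + u 1 * v 1 + u 2 * v 2 := by
  simp [dotProduct, Fin.sum_univ_three]

/-- helper -/
theorem b2_unit (P : Pack n) (i : Fin n) : P.p i 0 ^ 2 + P.p i 1 ^ 2 + P.p i 2 ^ 2 = 1 := by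
  have := P.unit i
  rw [b2_dot] at this
  linarith

/-- helper -/
theorem b2_an (hst : IsStress P Set.univ ω) {i j : Fin n} (h : ω i j ≠ 0) : AN ω i ∧ AN ω j :=
  ⟨⟨j, h⟩, ⟨i, by rw [hst.symm]; exact h⟩⟩

/-- helper -/
theorem b2_rho (hg : GenNet P ω) {i : Fin n} (h : AN ω i) :
    0 < rho P i ∧ rho P i ^ 2 = P.p i 0 ^ 2 + P.p i 1 ^ 2 := by
  have h1 := hg.1 i h
  exact ⟨Real.sqrt_pos.mpr h1, Real.sq_sqrt h1.le⟩

/-- helper -/
theorem b2_x (hst : IsStress P Set.univ ω) (hg : GenNet P ω) {i j : Fin n} (h : ω i j ≠ 0) :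
    P.p i 0 * P.p j 1 - P.p i 1 * P.p j 0 ≠ 0 := by
  intro h0
  obtain ⟨hai, haj⟩ := b2_an hst h
  have hc := hst.supp i j h
  have h1 := hg.2 i j hai haj hc.1 h0
  have h2 := hc.2
  rw [h1, dotProduct_neg, P.unit i] at h2
  have h3 : 0 < Real.cos (P.r i + P.r j) := by
    apply Real.cos_pos_of_mem_Ioo
    have a1 := P.rpos i
    have a2 := P.rpos j
    have a3 := P.rle i
    have a4 := P.rle j
    have a5 := Real.pi_gt_three
    constructor <;> linarith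
  linarith

/-- helper -/
theorem b2_tE (hst : IsStress P Set.univ ω) (hg : GenNet P ω) {i j : Fin n} (h : ω i j ≠ 0) :
    tE (ca P) (cb P) (cT P) i j = (rho P i ^ 2 * P.p j 2 - P.p i 2 *
      (P.p i 0 * P.p j 0 + P.p i 1 * P.p j 1)) /
      (rho P i * (P.p i 0 * P.p j 1 - P.p i 1 * P.p j 0)) := by
  obtain ⟨hai, haj⟩ := b2_an hst h
  obtain ⟨hi, hi2⟩ := b2_rho hg hai
  obtain ⟨hj, hj2⟩ := b2_rho hg haj
  have hx := b2_x hst hg h
  unfold tE CC
  rw [D2_pack]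
  unfold ca cb cT
  rw [div_div_eq_mul_div, div_eq_div_iff hx (mul_ne_zero hi.ne' hx)]
  field_simp

/-- helper -/
theorem b2_tW (hst : IsStress P Set.univ ω) (hg : GenNet P ω) {i j : Fin n} (h : ω i j ≠ 0) :
    tW (ca P) (cb P) (cT P) i j = (rho P j ^ 2 * P.p i 2 - P.p j 2 *
      (P.p i 0 * P.p j 0 + P.p i 1 * P.p j 1)) /
      (rho P j * (P.p i 0 * P.p j 1 - P.p i 1 * P.p j 0)) := by
  obtain ⟨hai, haj⟩ := b2_an hst h
  obtain ⟨hi, hi2⟩ := b2_rho hg hai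
  obtain ⟨hj, hj2⟩ := b2_rho hg haj
  have hx := b2_x hst hg h
  unfold tW CC
  rw [D2_pack]
  unfold ca cb cT
  rw [div_div_eq_mul_div, div_eq_div_iff hx (mul_ne_zero hj.ne' hx)]
  field_simp

/-- helper -/
theorem b2_cm_pos {i j : Fin n} (h : 0 < P.p i 0 * P.p j 1 - P.p i 1 * P.p j 0) :
    cm P ω i j = ω i j * (P.p i 0 * P.p j 1 - P.p i 1 * P.p j 0) := by
  unfold cm
  rw [max_eq_right h.le]

/-- helper -/
theorem b2_cm_neg {i j : Fin n} (h : P.p i 0 * P.p j 1 - P.p i 1 * P.p j 0 ≤ 0) :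
    cm P ω i j = 0 := by
  unfold cm
  rw [max_eq_left h, mul_zero]

/-- helper -/
theorem b2_cm_zero {i j : Fin n} (h : ω i j = 0) :
    cm P ω i j = 0 := by
  unfold cm
  rw [h, zero_mul]

/-- helper: balance in the vertical direction. -/
theorem b2_bal (hst : IsStress P Set.univ ω) (i : Fin n) :
    ∑ j, ω i j * (P.p j 2 - P.p i 2 * (P.p i ⬝ᵥ P.p j)) = 0 := by
  have hu := b2_unit P i
  have h := hst.bal i (Set.mem_univ i) ![-(P.p i 2) * P.p i 0, -(P.p i 2) * P.p i 1, 1 - (P.p i 2) ^ 2]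
    (by
      rw [b2_dot]
      simp only [Matrix.cons_val_zero, Matrix.cons_val_one, Matrix.cons_val]
      linear_combination (-(P.p i 2)) * hu)
  rw [← h]
  refine Finset.sum_congr rfl (fun j _ => ?_)
  congr 1
  rw [b2_dot, b2_dot]
  simp only [Matrix.cons_val_zero, Matrix.cons_val_one, Matrix.cons_val]
  ring

/-- helper -/
theorem b2_term (hst : IsStress P Set.univ ω) (hg : GenNet P ω) (i j : Fin n) :
    cm P ω i j * tE (ca P) (cb P) (cT P) i j + cm P ω j i * tW (ca P) (cb P) (cT P) j i =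
      ω i j * (P.p j 2 - P.p i 2 * (P.p i ⬝ᵥ P.p j)) / rho P i := by
  by_cases h : ω i j = 0
  · have h' : ω j i = 0 := by rw [hst.symm]; exact h
    rw [b2_cm_zero h, b2_cm_zero h', h]; simp
  · have h' : ω j i ≠ 0 := by rw [hst.symm]; exact h
    obtain ⟨hai, haj⟩ := b2_an hst h
    obtain ⟨hi, hi2⟩ := b2_rho hg hai
    have hx := b2_x hst hg h
    have hu := b2_unit P i
    rcases lt_or_gt_of_ne hx with hneg | hpos
    · have hx' : 0 < P.p j 0 * P.p i 1 - P.p j 1 * P.p i 0 := by linarith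
      rw [b2_cm_neg hneg.le, b2_cm_pos hx', b2_tW hst hg h', hst.symm j i, b2_dot]
      rw [zero_mul, zero_add, mul_div_assoc', div_eq_div_iff (mul_ne_zero hi.ne' hx'.ne') hi.ne']
      rw [hi2]
      linear_combination (ω i j * P.p j 2 * (P.p j 0 * P.p i 1 - P.p j 1 * P.p i 0) * rho P i) * hu
    · have hx' : P.p j 0 * P.p i 1 - P.p j 1 * P.p i 0 ≤ 0 := by linarith
      rw [b2_cm_neg hx', b2_cm_pos hpos, b2_tE hst hg h, b2_dot]
      rw [zero_mul, add_zero, mul_div_assoc', div_eq_div_iff (mul_ne_zero hi.ne' hpos.ne') hi.ne']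
      rw [hi2]
      linear_combination (ω i j * P.p j 2 * (P.p i 0 * P.p j 1 - P.p i 1 * P.p j 0) * rho P i) * hu

theorem bridge_frc (hst : IsStress P Set.univ ω) (hg : GenNet P ω) (i : Fin n) :
    frc (ca P) (cb P) (cT P) (cm P ω) i = 0 := by
  unfold frc
  rw [← Finset.sum_add_distrib]
  rw [Finset.sum_congr rfl (fun j _ => b2_term hst hg i j), ← Finset.sum_div, b2_bal hst i, zero_div]

theorem bridge_iso (hst : IsStress P Set.univ ω) (hg : GenNet P ω) {v : Fin n → V3}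
    (hv : IsFlex P v) :
    ∀ i j, cm P ω i j ≠ 0 → cu P v j - cu P v i =
      cn P v i * tE (ca P) (cb P) (cT P) i j + cn P v j * tW (ca P) (cb P) (cT P) i j := by
  intro i j hij
  obtain ⟨h, hx⟩ := cm_ne_zero.mp hij
  obtain ⟨hai, haj⟩ := b2_an hst h
  obtain ⟨hi, hi2⟩ := b2_rho hg hai
  obtain ⟨hj, hj2⟩ := b2_rho hg haj
  have h1 := iso_of_flex hst hv i j h
  have h2 := hv.1 i
  have h3 := hv.1 j
  rw [b2_dot, b2_dot] at h1
  rw [b2_dot] at h2 h3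
  rw [b2_tE hst hg h, b2_tW hst hg h]
  unfold cu cn
  have e1 : v i 2 / rho P i * ((rho P i ^ 2 * P.p j 2 - P.p i 2 *
      (P.p i 0 * P.p j 0 + P.p i 1 * P.p j 1)) /
      (rho P i * (P.p i 0 * P.p j 1 - P.p i 1 * P.p j 0))) =
      (v i 2 * (rho P i ^ 2 * P.p j 2 - P.p i 2 * (P.p i 0 * P.p j 0 + P.p i 1 * P.p j 1))) /
      (rho P i ^ 2 * (P.p i 0 * P.p j 1 - P.p i 1 * P.p j 0)) := by
    rw [div_mul_div_comm]; congr 1; ring
  have e2 : v j 2 / rho P j * ((rho P j ^ 2 * P.p i 2 - P.p j 2 *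
      (P.p i 0 * P.p j 0 + P.p i 1 * P.p j 1)) /
      (rho P j * (P.p i 0 * P.p j 1 - P.p i 1 * P.p j 0))) =
      (v j 2 * (rho P j ^ 2 * P.p i 2 - P.p j 2 * (P.p i 0 * P.p j 0 + P.p i 1 * P.p j 1))) /
      (rho P j ^ 2 * (P.p i 0 * P.p j 1 - P.p i 1 * P.p j 0)) := by
    rw [div_mul_div_comm]; congr 1; ring
  rw [e1, e2]
  have hi3 : rho P i ^ 2 ≠ 0 := by positivity
  have hj3 : rho P j ^ 2 ≠ 0 := by positivity
  have hx3 := hx.ne'
  rw [hi2] at hi3 ⊢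
  rw [hj2] at hj3 ⊢
  rw [div_sub_div _ _ hj3 hi3, div_add_div _ _ (mul_ne_zero hi3 hx3) (mul_ne_zero hj3 hx3),
    div_eq_div_iff (mul_ne_zero hj3 hi3) (mul_ne_zero (mul_ne_zero hi3 hx3) (mul_ne_zero hj3 hx3))]
  set a0 := P.p i 0
  set a1 := P.p i 1
  set a2 := P.p i 2
  set b0 := P.p j 0
  set b1 := P.p j 1
  set b2 := P.p j 2
  set v0 := v i 0
  set v1 := v i 1
  set v2 := v i 2
  set w0 := v j 0
  set w1 := v j 1
  set w2 := v j 2
  have key : (a0 * b1 - a1 * b0) * ((a0 ^ 2 + a1 ^ 2) * (b0 * w1 - b1 * w0)) -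
      (a0 * b1 - a1 * b0) * ((b0 ^ 2 + b1 ^ 2) * (a0 * v1 - a1 * v0)) =
      (b0 ^ 2 + b1 ^ 2) * (v2 * ((a0 ^ 2 + a1 ^ 2) * b2 - a2 * (a0 * b0 + a1 * b1))) +
      (a0 ^ 2 + a1 ^ 2) * (w2 * ((b0 ^ 2 + b1 ^ 2) * a2 - b2 * (a0 * b0 + a1 * b1))) := by
    linear_combination (-(a0 ^ 2 + a1 ^ 2) * (b0 ^ 2 + b1 ^ 2)) * h1 +
      ((b0 ^ 2 + b1 ^ 2) * (a0 * b0 + a1 * b1)) * h2 + ((a0 ^ 2 + a1 ^ 2) * (a0 * b0 + a1 * b1)) * h3
  linear_combination ((a0 ^ 2 + a1 ^ 2) * (b0 ^ 2 + b1 ^ 2) * (a0 * b1 - a1 * b0)) * key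

/-- helper -/
theorem b2_QQ_term (hst : IsStress P Set.univ ω) (hg : GenNet P ω) (v : Fin n → V3) (i j : Fin n) :
    cm P ω i j * ((2 * cn P v i * cn P v j - (cn P v i ^ 2 + cn P v j ^ 2) *
      CC (ca P) (cb P) i j) / D2 (ca P) (cb P) i j) =
    (if 0 < P.p i 0 * P.p j 1 - P.p i 1 * P.p j 0 then
      ω i j * (v i 2 * v j 2 - (P.p i 0 * P.p j 0 + P.p i 1 * P.p j 1) * v i 2 ^ 2 / rho P i ^ 2) +
      ω j i * (v j 2 * v i 2 - (P.p j 0 * P.p i 0 + P.p j 1 * P.p i 1) * v j 2 ^ 2 / rho P j ^ 2)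
      else 0) := by
  by_cases hpos : 0 < P.p i 0 * P.p j 1 - P.p i 1 * P.p j 0
  · rw [if_pos hpos]
    by_cases h : ω i j = 0
    · have h' : ω j i = 0 := by rw [hst.symm]; exact h
      rw [b2_cm_zero h, h, h']; simp
    · obtain ⟨hai, haj⟩ := b2_an hst h
      obtain ⟨hi, hi2⟩ := b2_rho hg hai
      obtain ⟨hj, hj2⟩ := b2_rho hg haj
      rw [b2_cm_pos hpos, D2_pack, hst.symm j i]
      unfold cn CC ca cb
      have hx3 := hpos.ne'
      set x := P.p i 0 * P.p j 1 - P.p i 1 * P.p j 0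
      have hi0 := hi.ne'
      have hj0 := hj.ne'
      field_simp
      ring
  · rw [if_neg hpos, b2_cm_neg (not_lt.mp hpos), zero_mul]

theorem bridge_QQ (hst : IsStress P Set.univ ω) (hg : GenNet P ω) {v : Fin n → V3}
    (hv : IsFlex P v) :
    QQ (ca P) (cb P) (cm P ω) (cn P v) = Ea P ω v ![0, 0, 1] := by
  set F : Fin n → Fin n → ℝ := fun i j =>
    ω i j * (v i 2 * v j 2 - (P.p i 0 * P.p j 0 + P.p i 1 * P.p j 1) * v i 2 ^ 2 / rho P i ^ 2) with hF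
  have h1 : QQ (ca P) (cb P) (cm P ω) (cn P v) =
      ∑ i, ∑ j, (if 0 < P.p i 0 * P.p j 1 - P.p i 1 * P.p j 0 then F i j + F j i else 0) := by
    unfold QQ
    exact Finset.sum_congr rfl (fun i _ => Finset.sum_congr rfl (fun j _ => b2_QQ_term hst hg v i j))
  have h2 : ∑ i, ∑ j, (if 0 < P.p i 0 * P.p j 1 - P.p i 1 * P.p j 0 then F i j + F j i else 0) =
      ∑ i, ∑ j, F i j := by
    have e1 : ∀ i j, (if 0 < P.p i 0 * P.p j 1 - P.p i 1 * P.p j 0 then F i j + F j i else 0) =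
        (if 0 < P.p i 0 * P.p j 1 - P.p i 1 * P.p j 0 then F i j else 0) +
        (if 0 < P.p i 0 * P.p j 1 - P.p i 1 * P.p j 0 then F j i else 0) := by
      intro i j; split_ifs <;> simp
    simp_rw [e1, Finset.sum_add_distrib]
    rw [Finset.sum_comm (f := fun i j =>
      (if 0 < P.p i 0 * P.p j 1 - P.p i 1 * P.p j 0 then F j i else 0)), ← Finset.sum_add_distrib]
    refine Finset.sum_congr rfl (fun i _ => ?_)
    rw [← Finset.sum_add_distrib]
    refine Finset.sum_congr rfl (fun j _ => ?_)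
    by_cases h : ω i j = 0
    · have : F i j = 0 := by rw [hF]; simp [h]
      rw [this]; simp
    · have hx := b2_x hst hg h
      rcases lt_or_gt_of_ne hx with hneg | hpos
      · rw [if_neg (by linarith), if_pos (by linarith), zero_add]
      · rw [if_pos (by linarith), if_neg (by linarith), add_zero]
  rw [h1, h2]
  unfold Ea
  refine Finset.sum_congr rfl (fun i _ => ?_)
  by_cases hai : AN ω i
  · obtain ⟨hi, hi2⟩ := b2_rho hg hai
    have hu := b2_unit P i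
    have hb := b2_bal hst i
    have hi3 : rho P i ^ 2 ≠ 0 := by positivity
    have h3 : ∀ j, F i j = ω i j * ((![0, 0, 1] ⬝ᵥ v i) * (![0, 0, 1] ⬝ᵥ v j) -
        (P.p i ⬝ᵥ P.p j) * (![0, 0, 1] ⬝ᵥ v i) ^ 2) +
        (P.p i 2 * v i 2 ^ 2 / rho P i ^ 2) * (ω i j * (P.p j 2 - P.p i 2 * (P.p i ⬝ᵥ P.p j))) := by
      intro j
      rw [hF]
      simp only [b2_dot, Matrix.cons_val_zero, Matrix.cons_val_one, Matrix.cons_val]
      rw [hi2] at hi3 ⊢
      field_simp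
      linear_combination (ω i j * v i 2 ^ 2 * (P.p i 0 * P.p j 0 + P.p i 1 * P.p j 1 + P.p i 2 * P.p j 2)) * hu
    rw [Finset.sum_congr rfl (fun j _ => h3 j), Finset.sum_add_distrib, ← Finset.mul_sum, hb,
      mul_zero, add_zero]
  · have h4 : ∀ j, ω i j = 0 := fun j => by
      by_contra hne
      exact hai ⟨j, hne⟩
    refine Finset.sum_congr rfl (fun j _ => ?_)
    rw [hF]
    simp [h4 j]

theorem bridge_conn (hN : Net P ω) (hg : GenNet P ω) :
    ∀ S : Fin n → Prop, (∃ i, Act (cm P ω) i ∧ S i) → (∀ i j, cm P ω i j ≠ 0 → (S i ↔ S j)) →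
      ∀ i, Act (cm P ω) i → S i := by
  intro S hS hcl i hi
  refine hN.conn S ?_ ?_ i ((act_cm hN.st hg i).mp hi)
  · obtain ⟨k, hk, hk2⟩ := hS
    exact ⟨k, (act_cm hN.st hg k).mp hk, hk2⟩
  · intro k l hkl
    have hx := b2_x hN.st hg hkl
    rcases lt_or_gt_of_ne hx with hneg | hpos
    · exact (hcl l k (cm_ne_zero.mpr ⟨by rw [hN.st.symm]; exact hkl, by linarith⟩)).symm
    · exact hcl k l (cm_ne_zero.mpr ⟨hkl, by linarith⟩)

theorem bridge_noncop (hst : IsStress P Set.univ ω) (hg : GenNet P ω) (hnc : NonCop P ω) :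
    ¬ ∃ c1 c2 : ℝ, ∀ i, Act (cm P ω) i → cT P i = c1 * ca P i + c2 * cb P i := by
  rintro ⟨c1, c2, h⟩
  refine hnc ⟨![-c1, -c2, 1], ?_, fun i hi => ?_⟩
  · intro h0
    have := congrFun h0 2
    simp at this
  · have h1 := h i ((act_cm hst hg i).mpr hi)
    obtain ⟨hr, -⟩ := b2_rho hg hi
    unfold cT ca cb at h1
    have hr0 := hr.ne'
    field_simp at h1
    rw [b2_dot]
    simp only [Matrix.cons_val_zero, Matrix.cons_val_one, Matrix.cons_val]
    linarith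

end

end SphJam
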