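import Pool.Agent.SphJam.Peel
import Pool.Agent.SphJam.Axis
import Pool.Agent.SphJam.BridgeB

set_option autoImplicit false
open Matrix Finset

namespace SphJam

section
variable {n : ℕ} {P : Pack n} {ω : Fin n → Fin n → ℝ}

theorem GenAll.toNet (h : GenAll P) : GenNet P ω :=
  ⟨fun i _ => h.1 i, fun i j _ _ => h.2 i j⟩

theorem stoker_vert (hN : Net P ω) (hnc : NonCop P ω) (hg : GenNet P ω) {v : Fin n → V3}
    (hv : IsFlex P v) : Ea P ω v ![0, 0, 1] ≤ 0 := by
  rw [← bridge_QQ hN.st hg hv]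
  exact peel_main (bridge_CN hN.st hg) (bridge_frc hN.st hg) (bridge_conn hN hg)
    (bridge_noncop hN.st hg hnc) _ (cu P v) (bridge_iso hN.st hg hv)
    (PI.refl (bridge_CN hN.st hg))

theorem stoker (hN : Net P ω) (hnc : NonCop P ω) {v : Fin n → V3}
    (hv : IsFlex P v) (a : V3) : Ea P ω v a ≤ 0 := by
  by_contra hcon
  rw [not_le] at hcon
  obtain ⟨s, hs, c, hc, R, hR, hd, hRs, hg⟩ := axis_rot P {s | 0 < Ea P ω v s}
    (isOpen_lt continuous_const (Ea_continuous P ω v)) ⟨a, hcon⟩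
  have h1 : 0 < Ea P ω v s := hs
  rw [← rot_Ea (R := R) (hR := hR), hRs] at h1
  have h2 : (![0, 0, -c] : V3) = (-c) • ![0, 0, 1] := by
    ext i; fin_cases i <;> simp
  rw [h2, Ea_smul] at h1
  have h3 := stoker_vert (rot_net (R := R) (hR := hR) hN) (rot_noncop hnc) hg.toNet (rot_flex hv)
  nlinarith [sq_nonneg c, sq_nonneg (-c)]

theorem stoker_eq (hN : Net P ω) (hnc : NonCop P ω) {v : Fin n → V3}
    (hv : IsFlex P v) (hE : 0 ≤ EE P ω v) : Ea P ω v ![0, 0, 1] = 0 := by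
  have h1 := stoker hN hnc hv ![1, 0, 0]
  have h2 := stoker hN hnc hv ![0, 1, 0]
  have h3 := stoker hN hnc hv ![0, 0, 1]
  rw [EE_eq_sum] at hE
  linarith
end

end SphJam
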