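import Pool.Agent.SphJam.HingeRot
import Pool.Agent.SphJam.SectorAt
import Pool.Agent.SphJam.HingeAxis
import Pool.Agent.SphJam.Stoker

set_option autoImplicit false
open Matrix Finset

namespace SphJam

section

variable {I : Type}

end


section

variable {I : Type} [Fintype I] {a b T : I → ℝ} {M m : I → I → ℝ}

end

section

variable {n : ℕ} {P : Pack n} {ω : Fin n → Fin n → ℝ}

end

section

variable {n : ℕ} {P : Pack n} {ω : Fin n → Fin n → ℝ}

end

section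

variable {n : ℕ} {P : Pack n} {R : Matrix (Fin 3) (Fin 3) ℝ}
  {hR : R ∈ Matrix.orthogonalGroup (Fin 3) ℝ}

end

section

variable {n : ℕ} {P : Pack n} {ω : Fin n → Fin n → ℝ}

end


theorem dd_cyc_g4c (u v w : V3) : dd u v w = dd v w u := by
  simp only [dd, cr, dotProduct, Fin.sum_univ_three, Matrix.cons_val_zero, Matrix.cons_val_one,
    Matrix.cons_val_two, Matrix.head_cons, Matrix.tail_cons, Matrix.cons_val]
  ring

theorem dd_swap_g4c (u v w : V3) : dd u v w = - dd u w v := by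
  simp only [dd, cr, dotProduct, Fin.sum_univ_three, Matrix.cons_val_zero, Matrix.cons_val_one,
    Matrix.cons_val_two, Matrix.head_cons, Matrix.tail_cons, Matrix.cons_val]
  ring

theorem dd_vert_g4c (c : ℝ) (v w : V3) : dd ![0, 0, -c] v w = - (c * (v 0 * w 1 - v 1 * w 0)) := by
  simp only [dd, cr, dotProduct, Fin.sum_univ_three, Matrix.cons_val_zero, Matrix.cons_val_one,
    Matrix.cons_val_two, Matrix.head_cons, Matrix.tail_cons, Matrix.cons_val]
  ring

/-- Case II: spins at a node differ -/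
theorem caseII {n : ℕ} {P : Pack n} (hall : ∀ i, ∃ j, P.Ct i j) (hm : ¬ HasMotion P)
    {ω : Fin n → Fin n → ℝ} (hN : Net P ω) (hnc : NonCop P ω)
    {v : Fin n → V3} (hv : IsFlex P v) (hE : 0 ≤ EE P ω v) (A : Fin n) (sp : Fin n → ℝ)
    (hsp : ∀ j, ω A j ≠ 0 → v j = cr (cr (P.p A) (v A) + sp j • P.p A) (P.p j))
    (hdiff : ∃ j k, ω A j ≠ 0 ∧ ω A k ≠ 0 ∧ sp j ≠ sp k) : False := by
  obtain ⟨j, k, hj, hk, hsk, ⟨d, hd1, hd2⟩, hsec⟩ := sector3 hN.st A sp hdiff
  obtain ⟨s, hs1, hs2, hs3, c, hc0, R, hR, hdet, hRs, hgen⟩ := hinge_axis P A j k d hd1 hd2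
  set P' := P.rot R hR with hP'
  have hp : ∀ i, P'.p i = R *ᵥ P.p i := fun i => rfl
  have hX : ∀ i l, c * (P'.p i 0 * P'.p l 1 - P'.p i 1 * P'.p l 0) = - dd s (P.p i) (P.p l) := by
    intro i l
    have h1 := dd_rot R hR hdet s (P.p i) (P.p l)
    rw [hRs, dd_vert_g4c, ← hp, ← hp] at h1
    linarith
  have hX' : ∀ i l, 0 < P'.p i 0 * P'.p l 1 - P'.p i 1 * P'.p l 0 ↔ dd s (P.p i) (P.p l) < 0 := by
    intro i l
    have h1 := hX i l
    constructor
    · intro h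
      have : 0 < c * (P'.p i 0 * P'.p l 1 - P'.p i 1 * P'.p l 0) := mul_pos hc0 h
      linarith
    · intro h
      have : 0 < c * (P'.p i 0 * P'.p l 1 - P'.p i 1 * P'.p l 0) := by linarith
      exact (mul_pos_iff_of_pos_left hc0).1 this
  have hcmA : ∀ l, cm P' ω A l ≠ 0 ↔ ω A l ≠ 0 ∧ 0 < dd (P.p A) s (P.p l) := by
    intro l
    rw [cm_ne_zero, hX', dd_cyc_g4c s, dd_swap_g4c (P.p A) (P.p l) s]
    constructor
    · rintro ⟨h1, h2⟩; exact ⟨h1, by linarith⟩
    · rintro ⟨h1, h2⟩; exact ⟨h1, by linarith⟩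
  have hcmW : ∀ l, cm P' ω l A ≠ 0 ↔ ω l A ≠ 0 ∧ 0 < dd (P.p A) (P.p l) s := by
    intro l
    rw [cm_ne_zero, hX', ← dd_cyc_g4c (P.p A) s, dd_swap_g4c (P.p A) s (P.p l)]
    constructor
    · rintro ⟨h1, h2⟩; exact ⟨h1, by linarith⟩
    · rintro ⟨h1, h2⟩; exact ⟨h1, by linarith⟩
  have hN' : Net P' ω := rot_net hN
  have hg' : GenNet P' ω := hgen.net ω
  have hCN : CN (ca P') (cb P') (cT P') (cm P' ω) := bridge_CN hN'.st hg'
  have hrho : ∀ i, 0 < rho P' i := fun i => Real.sqrt_pos.2 (hgen.1 i)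
  have hD3 : ∀ i l m, 0 < D3 (ca P') (cb P') (cT P') i l m → 0 < dd (P.p i) (P.p l) (P.p m) := by
    intro i l m h
    rw [D3_pack, hp, hp, hp, dd_rot R hR hdet] at h
    have h2 : 0 < rho P' i * rho P' l * rho P' m :=
      mul_pos (mul_pos (hrho i) (hrho l)) (hrho m)
    by_contra hcon
    have h3 : dd (P.p i) (P.p l) (P.p m) / (rho P' i * rho P' l * rho P' m) ≤ 0 :=
      div_nonpos_of_nonpos_of_nonneg (not_lt.1 hcon) h2.le
    linarith
  have hBot : Bot (ca P') (cb P') (cT P') (cm P' ω) A := by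
    have hAct : Act (cm P' ω) A := (act_cm hN'.st hg' A).2 ⟨j, hj⟩
    refine ⟨hAct, ?_⟩
    intro k' l' hkl h1 h2
    have h3 := hCN.nc1 k' l' A hkl hAct h1 h2
    rcases lt_or_gt_of_ne h3 with h4 | h4
    · exact h4
    · exfalso
      have h5 := hs3 k' l' (hD3 _ _ _ h4)
      have h6 := (cm_ne_zero.1 hkl).2
      rw [hX', dd_cyc_g4c] at h6
      linarith
  obtain ⟨K, cc, φ, hcyc, hcA⟩ := hCN.exists_cycle hBot
  have hc1 : cc 1 = k := by
    have h1 : cm P' ω (cc 0) k ≠ 0 := by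
      rw [hcA]; exact (hcmA k).2 ⟨hk, hs2⟩
    have h2 := hcyc.lowE 0 k h1
    have h3 := hcyc.arc 0
    rw [hcA] at h2 h3
    have h4 := (hcmA _).1 h3
    have h5 := (hsec s hs1 hs2 (cc (0 + 1)) h4.1).1 h4.2
    rcases h5 with h5 | h5
    · exact h5
    · rcases h2 with h2 | h2
      · exact h2.symm
      · exfalso
        have h6 := hD3 _ _ _ h2
        rw [dd_swap_g4c] at h6
        linarith
  have hcK : cc (K - 1) = j := by
    have hK : K - 1 + 1 = K := Nat.succ_pred_eq_of_pos hcyc.ring.Kpos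
    have hKA : cc (K - 1 + 1) = A := by
      rw [hK]
      have := hcyc.per 0
      rw [zero_add] at this
      rw [this, hcA]
    have h1 : cm P' ω j (cc (K - 1 + 1)) ≠ 0 := by
      rw [hKA]
      refine (hcmW j).2 ⟨?_, hs1⟩
      rw [hN.st.symm]; exact hj
    have h2 := hcyc.lowW (K - 1) j h1
    have h3 := hcyc.arc (K - 1)
    rw [hKA] at h2 h3
    have h4 := (hcmW _).1 h3
    have h4' : ω A (cc (K - 1)) ≠ 0 := by rw [hN.st.symm]; exact h4.1
    have h5 := (hsec s hs1 hs2 (cc (K - 1)) h4').2 h4.2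
    rcases h5 with h5 | h5
    · exact h5
    · rcases h2 with h2 | h2
      · exact h2.symm
      · exfalso
        have h6 := hD3 _ _ _ h2
        rw [dd_cyc_g4c, dd_swap_g4c] at h6
        linarith
  have hv' : IsFlex P' (fun i => R *ᵥ v i) := rot_flex hv
  have hE0 : Ea P' ω (fun i => R *ᵥ v i) ![0, 0, 1] = 0 := by
    refine stoker_eq hN' (rot_noncop hnc) hv' ?_
    rw [rot_EE]; exact hE
  refine caseII_rot (P := P') (v := fun i => R *ᵥ v i) ?_ (fun h => hm (rot_motion h)) hN'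
    (rot_noncop hnc) hgen hv' hE0 hcyc (R *ᵥ (cr (P.p A) (v A) + sp j • P.p A)) (sp k - sp j)
    (by linarith) ?_ ?_ ?_
  · intro i
    obtain ⟨l, hl⟩ := hall i
    exact ⟨l, rot_Ct.2 hl⟩
  · show R *ᵥ v (cc 0) = _
    rw [hcA, hp, cr_rot R hR hdet, ← cr_self_rot P v (hv.1 A)]
  · show R *ᵥ v (cc (K - 1)) = _
    rw [hcK, hp, cr_rot R hR hdet, ← hsp j hj]
  · show R *ᵥ v (cc 1) = _
    rw [hc1, hcA, hp, hp]
    have h1 : R *ᵥ (cr (P.p A) (v A) + sp j • P.p A) + (sp k - sp j) • R *ᵥ P.p A =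
        R *ᵥ (cr (P.p A) (v A) + sp k • P.p A) := by
      rw [Matrix.mulVec_add, Matrix.mulVec_add, Matrix.mulVec_smul, Matrix.mulVec_smul, sub_smul]
      abel
    rw [h1, cr_rot R hR hdet, ← hsp k hk]

end SphJam
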