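import Pool.Agent.SphJam.Defs

set_option autoImplicit false
open Finset

namespace SphJam

variable {I : Type}

lemma angle_exists (p q : ℝ) (h : p ^ 2 + q ^ 2 = 1) : ∃ θ, Real.cos θ = p ∧ Real.sin θ = q := by
  have hp1 : -1 ≤ p := by nlinarith
  have hp2 : p ≤ 1 := by nlinarith
  have hs : Real.sin (Real.arccos p) = |q| := by
    rw [Real.sin_arccos, show 1 - p ^ 2 = q ^ 2 by linarith, Real.sqrt_sq_eq_abs]
  rcases le_total 0 q with hq | hq
  · exact ⟨Real.arccos p, Real.cos_arccos hp1 hp2, by rw [hs, abs_of_nonneg hq]⟩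
  · refine ⟨-Real.arccos p, by rw [Real.cos_neg, Real.cos_arccos hp1 hp2], ?_⟩
    rw [Real.sin_neg, hs, abs_of_nonpos hq, neg_neg]

lemma angle_exists_pos (p q : ℝ) (h : p ^ 2 + q ^ 2 = 1) (hq : 0 < q) :
    ∃ θ, 0 < θ ∧ θ < Real.pi ∧ Real.cos θ = p ∧ Real.sin θ = q := by
  have hp1 : -1 < p := by nlinarith
  have hp2 : p < 1 := by nlinarith
  refine ⟨Real.arccos p, Real.arccos_pos.2 hp2, ?_, Real.cos_arccos hp1.le hp2.le, ?_⟩
  · refine lt_of_le_of_ne (Real.arccos_le_pi p) ?_
    intro h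
    rw [Real.arccos_eq_pi] at h
    linarith
  · rw [Real.sin_arccos, show 1 - p ^ 2 = q ^ 2 by linarith, Real.sqrt_sq hq.le]

/-- Cyclic enumeration of a finite set `B` of unit vectors with a successor map. -/
theorem cyclic_enum [Finite I] (a b : I → ℝ) (B : I → Prop) (nx : I → I)
    (hunit : ∀ i, B i → a i ^ 2 + b i ^ 2 = 1)
    (hB : ∀ i, B i → B (nx i)) (hpos : ∀ i, B i → 0 < D2 a b i (nx i))
    (hbet : ∀ i k, B i → B k → 0 < D2 a b i k → 0 < D2 a b k (nx i) → False)
    (hinj : ∀ i k, B i → B k → a i = a k → b i = b k → i = k) (i0 : I) (h0 : B i0) :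
    ∃ (K : ℕ) (c : ℕ → I) (φ : ℕ → ℝ), RingData K φ ∧ c 0 = i0 ∧ (∀ l, c (l + K) = c l) ∧
      (∀ l, c (l + 1) = nx (c l)) ∧ (∀ l, B (c l)) ∧
      (∀ l, a (c l) = Real.cos (φ l) ∧ b (c l) = Real.sin (φ l)) ∧
      (∀ i, B i → ∃ l, l < K ∧ c l = i) ∧
      (∀ l l', l < K → l' < K → c l = c l' → l = l') := by
  have hδ : ∀ i, ∃ δ : ℝ, B i → 0 < δ ∧ δ < Real.pi ∧
      Real.cos δ = a i * a (nx i) + b i * b (nx i) ∧ Real.sin δ = D2 a b i (nx i) := by
    intro i
    by_cases hi : B i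
    · have h1 := hunit i hi
      have h2 := hunit _ (hB i hi)
      obtain ⟨δ, h3⟩ := angle_exists_pos (a i * a (nx i) + b i * b (nx i)) (D2 a b i (nx i))
        (by
          unfold D2
          calc (a i * a (nx i) + b i * b (nx i)) ^ 2 + (a i * b (nx i) - b i * a (nx i)) ^ 2
              = (a i ^ 2 + b i ^ 2) * (a (nx i) ^ 2 + b (nx i) ^ 2) := by ring
            _ = 1 := by rw [h1, h2, one_mul]) (hpos i hi)
      exact ⟨δ, fun _ => h3⟩
    · exact ⟨0, fun h => absurd h hi⟩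
  choose δ hδ using hδ
  obtain ⟨φ0, hc0, hs0⟩ := angle_exists (a i0) (b i0) (hunit i0 h0)
  set c : ℕ → I := fun l => nx^[l] i0 with hc
  have hcs : ∀ l, c (l + 1) = nx (c l) := fun l => Function.iterate_succ_apply' nx l i0
  have hcB : ∀ l, B (c l) := by
    intro l
    induction l with
    | zero => exact h0
    | succ l ih => rw [hcs]; exact hB _ ih
  obtain ⟨φ, hφ0, hφs⟩ : ∃ φ : ℕ → ℝ, φ 0 = φ0 ∧ ∀ l, φ (l + 1) = φ l + δ (c l) :=
    ⟨fun l => φ0 + ∑ j ∈ range l, δ (c j), by simp, fun l => by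
      simp only [sum_range_succ]; ring⟩
  have hang : ∀ l, a (c l) = Real.cos (φ l) ∧ b (c l) = Real.sin (φ l) := by
    intro l
    induction l with
    | zero => rw [hφ0]; exact ⟨hc0.symm, hs0.symm⟩
    | succ l ih =>
      obtain ⟨-, -, h3, h4⟩ := hδ (c l) (hcB l)
      have hu := hunit _ (hcB l)
      rw [hφs, Real.cos_add, Real.sin_add, h3, h4, ← ih.1, ← ih.2, hcs]
      unfold D2
      constructor
      · linear_combination (-(a (nx (c l)))) * hu
      · linear_combination (-(b (nx (c l)))) * hu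
  have hgap0 : ∀ l, 0 < φ (l + 1) - φ l := by
    intro l; rw [hφs]; have := (hδ _ (hcB l)).1; linarith
  have hgap1 : ∀ l, φ (l + 1) - φ l < Real.pi := by
    intro l; rw [hφs]; have := (hδ _ (hcB l)).2.1; linarith
  have hmono : StrictMono φ := strictMono_nat_of_lt_succ fun l => by linarith [hgap0 l]
  obtain ⟨m, hm, hmin⟩ := Set.exists_min_image {i | B i} δ (Set.toFinite _) ⟨i0, h0⟩
  have hε : 0 < δ m := (hδ m hm).1
  have hunb : ∀ l : ℕ, φ0 + l * δ m ≤ φ l := by
    intro l
    induction l with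
    | zero => simp [hφ0]
    | succ l ih =>
      rw [hφs]; push_cast
      have := hmin (c l) (hcB l)
      linarith
  have hex : ∃ l, φ0 + 2 * Real.pi ≤ φ l := by
    obtain ⟨l, hl⟩ := exists_nat_ge (2 * Real.pi / δ m)
    refine ⟨l, ?_⟩
    rw [div_le_iff₀ hε] at hl
    linarith [hunb l]
  classical
  obtain ⟨K, hK, hKmin⟩ : ∃ K, φ0 + 2 * Real.pi ≤ φ K ∧ ∀ l, l < K → φ l < φ0 + 2 * Real.pi :=
    ⟨Nat.find hex, Nat.find_spec hex, fun l hl => not_le.1 (Nat.find_min hex hl)⟩
  have hKpos : 0 < K := by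
    rcases Nat.eq_zero_or_pos K with h | h
    · rw [h, hφ0] at hK
      linarith [Real.pi_pos]
    · exact h
  have hD : ∀ l l', D2 a b (c l) (c l') = Real.sin (φ l' - φ l) := by
    intro l l'
    unfold D2
    rw [(hang l).1, (hang l).2, (hang l').1, (hang l').2, Real.sin_sub]; ring
  have hKeq : φ K = φ0 + 2 * Real.pi := by
    by_contra hne
    have hlt : φ0 + 2 * Real.pi < φ K := lt_of_le_of_ne hK (Ne.symm hne)
    obtain ⟨l, rfl⟩ : ∃ l, K = l + 1 := ⟨K - 1, by omega⟩
    have h1 := hKmin l (by omega)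
    have h2 := hgap1 l
    refine hbet (c l) i0 (hcB l) h0 ?_ ?_
    · have e : D2 a b (c l) i0 = Real.sin (φ0 + 2 * Real.pi - φ l) := by
        have := hD l 0
        rw [hφ0] at this
        rw [show c 0 = i0 from rfl] at this
        rw [this, show φ0 + 2 * Real.pi - φ l = (φ0 - φ l) + 2 * Real.pi by ring,
          Real.sin_add_two_pi]
      rw [e]
      exact Real.sin_pos_of_pos_of_lt_pi (by linarith) (by linarith)
    · have e : D2 a b i0 (nx (c l)) = Real.sin (φ (l + 1) - φ0 - 2 * Real.pi) := by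
        have := hD 0 (l + 1)
        rw [hφ0] at this
        rw [show c 0 = i0 from rfl, hcs] at this
        rw [this, Real.sin_sub_two_pi]
      rw [e]
      exact Real.sin_pos_of_pos_of_lt_pi (by linarith) (by linarith)
  have hcK : c K = i0 := by
    refine hinj _ _ (hcB K) h0 ?_ ?_
    · rw [(hang K).1, hKeq, Real.cos_add_two_pi, hc0]
    · rw [(hang K).2, hKeq, Real.sin_add_two_pi, hs0]
  have hper : ∀ l, c (l + K) = c l := by
    intro l
    have : c (l + K) = nx^[l] (c K) := Function.iterate_add_apply nx l K i0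
    rw [this, hcK]
  have hφper : ∀ l, φ (l + K) = φ l + 2 * Real.pi := by
    intro l
    induction l with
    | zero => rw [zero_add, hKeq, hφ0]
    | succ l ih =>
      rw [show l + 1 + K = (l + K) + 1 by ring, hφs, hφs, ih, hper]; ring
  refine ⟨K, c, φ, ⟨hKpos, hφper, hgap0, hgap1⟩, rfl, hper, hcs, hcB, hang, ?_, ?_⟩
  · intro i hi
    obtain ⟨θ', h1, h2⟩ := angle_exists (a i) (b i) (hunit i hi)
    obtain ⟨θ, hθc, hθs, hθ0, hθ1⟩ : ∃ θ, Real.cos θ = a i ∧ Real.sin θ = b i ∧ φ0 ≤ θ ∧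
        θ < φ0 + 2 * Real.pi := by
      refine ⟨toIcoMod Real.two_pi_pos φ0 θ', ?_, ?_, (toIcoMod_mem_Ico _ _ _).1,
        (toIcoMod_mem_Ico _ _ _).2⟩
      · rw [toIcoMod, zsmul_eq_mul, Real.cos_sub_int_mul_two_pi, h1]
      · rw [toIcoMod, zsmul_eq_mul, Real.sin_sub_int_mul_two_pi, h2]
    have hex2 : ∃ l, θ < φ (l + 1) := ⟨K, by linarith [hgap0 K]⟩
    obtain ⟨l, hl, hlmin⟩ : ∃ l, θ < φ (l + 1) ∧ ∀ j, j < l → φ (j + 1) ≤ θ :=
      ⟨Nat.find hex2, Nat.find_spec hex2, fun j hj => not_lt.1 (Nat.find_min hex2 hj)⟩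
    have hl0 : φ l ≤ θ := by
      rcases Nat.eq_zero_or_pos l with h | h
      · rw [h, hφ0]; exact hθ0
      · have := hlmin (l - 1) (by omega)
        rwa [Nat.sub_add_cancel h] at this
    have hlK : l < K := by
      by_contra hcon
      push Not at hcon
      have := hmono.monotone hcon
      linarith
    refine ⟨l, hlK, ?_⟩
    rcases hl0.eq_or_lt with h | h
    · exact hinj _ _ (hcB l) hi (by rw [(hang l).1, h, hθc]) (by rw [(hang l).2, h, hθs])
    · exfalso
      have hg := hgap1 l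
      refine hbet (c l) i (hcB l) hi ?_ ?_
      · have e : D2 a b (c l) i = Real.sin (θ - φ l) := by
          unfold D2
          rw [(hang l).1, (hang l).2, ← hθc, ← hθs, Real.sin_sub]; ring
        rw [e]
        exact Real.sin_pos_of_pos_of_lt_pi (by linarith) (by linarith)
      · have e : D2 a b i (nx (c l)) = Real.sin (φ (l + 1) - θ) := by
          unfold D2
          rw [← hcs, (hang (l + 1)).1, (hang (l + 1)).2, ← hθc, ← hθs, Real.sin_sub]; ring
        rw [e]
        exact Real.sin_pos_of_pos_of_lt_pi (by linarith) (by linarith)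
  · have key : ∀ l l', l < l' → l' < K → c l = c l' → False := by
      intro l l' hll hl' hcc
      have h1 := hmono hll
      have h2 := hKmin l' hl'
      have h3 : φ0 ≤ φ l := by rw [← hφ0]; exact hmono.monotone (Nat.zero_le l)
      have h4 : Real.cos (φ l' - φ l) = 1 := by
        rw [Real.cos_sub, ← (hang l).1, ← (hang l).2, ← (hang l').1, ← (hang l').2, hcc]
        have := hunit _ (hcB l')
        linarith
      rw [Real.cos_eq_one_iff_of_lt_of_lt (by linarith [Real.pi_pos]) (by linarith)] at h4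
      linarith
    intro l l' hl hl' hcc
    rcases lt_trichotomy l l' with h | h | h
    · exact (key l l' h hl' hcc).elim
    · exact h
    · exact (key l' l h hl hcc.symm).elim

end SphJam
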