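import Pool.Agent.SphJam.BotArcs
import Pool.Agent.SphJam.CycEnum

set_option autoImplicit false
open Finset

namespace SphJam

variable {I : Type}

section

variable [Fintype I] {a b T : I → ℝ} {m : I → I → ℝ}

end

/-- TARGET -/
theorem CN.exists_cycle [Fintype I] {a b T : I → ℝ} {m : I → I → ℝ} (h : CN a b T m) {i0 : I}
    (h0 : Bot a b T m i0) :
    ∃ (K : ℕ) (c : ℕ → I) (φ : ℕ → ℝ), IsCycle a b T m K c φ ∧ c 0 = i0 := by
  classical
  have hex : ∀ i, ∃ j, Act m i → (m i j ≠ 0 ∧ ∀ l, m i l ≠ 0 → l = j ∨ 0 < D3 a b T i j l) := by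
    intro i
    by_cases hi : Act m i
    · obtain ⟨j, hj⟩ := h.exists_lowest hi
      exact ⟨j, fun _ => hj⟩
    · exact ⟨i, fun hi' => absurd hi' hi⟩
  choose nx hnx using hex
  obtain ⟨K, c, φ, hring, hc0, hper, hsucc, hbot, hcs, hsurj, hinj⟩ :=
    cyclic_enum a b (Bot a b T m) nx (fun i hi => h.unit i hi.1)
      (fun i hi => h.bot_next hi (hnx i hi.1).1 (hnx i hi.1).2)
      (fun i hi => h.east _ _ (hnx i hi.1).1)
      (fun i k hi hk k1 k2 => h.no_bot_between hi (hnx i hi.1).1 (hnx i hi.1).2 hk k1 k2)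
      (by
        intro i k hi hk ha hb
        by_contra hne
        rcases h.gen i k hi.1 hk.1 hne with h1 | ⟨h1, h2⟩
        · apply h1
          unfold D2
          rw [← ha, ← hb]
          ring
        · have h3 := h.unit i hi.1
          have h4 : a i = 0 := by linarith
          have h5 : b i = 0 := by linarith
          rw [h4, h5] at h3
          norm_num at h3) i0 h0
  refine ⟨K, c, φ, ⟨hring, hper, fun l => (hcs l).1, fun l => (hcs l).2, ?_, hbot, hsurj, hinj,
    ?_, ?_⟩, hc0⟩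
  · intro l
    rw [hsucc]
    exact (hnx _ (hbot l).1).1
  · intro l j hj
    rw [hsucc]
    exact (hnx _ (hbot l).1).2 j hj
  · intro l j hj
    rw [hsucc] at hj ⊢
    exact h.lowest_west (hbot l) (hnx _ (hbot l).1).1 (hnx _ (hbot l).1).2 hj

end SphJam
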