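import Pool.Agent.SphJam.Cross

set_option autoImplicit false
open Finset

namespace SphJam

variable {I : Type}

section

variable [Fintype I] {a b T : I → ℝ} {m : I → I → ℝ}

end

section

variable [Fintype I] {a b T : I → ℝ} {m : I → I → ℝ}

theorem eb_pl (a b : I → ℝ) (x y z w : I) :
    D2 a b x z * D2 a b y w = D2 a b x y * D2 a b z w + D2 a b x w * D2 a b y z := by
  unfold D2; ring

theorem eb_cone2 {x y z w : I} (h1 : 0 < D2 a b x y) (h2 : 0 < D2 a b z w)
    (h3 : 0 < D2 a b x w) (h4 : 0 < D2 a b y z) (h5 : 0 < D2 a b y w) : 0 < D2 a b x z := by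
  have h := eb_pl a b x y z w
  have h6 : 0 < D2 a b x z * D2 a b y w := by rw [h]; positivity
  exact (pos_iff_pos_of_mul_pos h6).2 h5

theorem eb_cone1 {k y i l : I} (h1 : 0 < D2 a b k y) (h2 : 0 < D2 a b y i)
    (h3 : 0 < D2 a b k i) (h4 : 0 < D2 a b i l) (h5 : 0 < D2 a b k l) : 0 < D2 a b y l := by
  have h := eb_pl a b k y i l
  have h6 : 0 < D2 a b k i * D2 a b y l := by rw [h]; positivity
  exact (pos_iff_pos_of_mul_pos h6).1 h3

/-- numerator of the height of the arc `(p, q)` over `i` -/
def NN (a b T : I → ℝ) (i p q : I) : ℝ := T p * D2 a b i q + T q * D2 a b p i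

theorem eb_id1 (a b T : I → ℝ) (i p q r s : I) :
    D2 a b i s * D3 a b T p q r + D2 a b r i * D3 a b T p q s =
      NN a b T i r s * D2 a b p q - NN a b T i p q * D2 a b r s := by
  unfold NN D3 D2; ring

theorem eb_id2 (a b T : I → ℝ) (i p q r s : I) :
    D2 a b r q * (NN a b T i p q * D2 a b r s - NN a b T i r s * D2 a b p q) =
      - (D2 a b i q * D3 a b T p q r * D2 a b r s) + D2 a b r i * D3 a b T r s q * D2 a b p q := by
  unfold NN D3 D2; ring

theorem eb_D3_self (a b T : I → ℝ) (k l : I) : D3 a b T k l l = 0 := by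
  unfold D3 D2; ring

theorem eb_D2_neg (a b : I → ℝ) (i j : I) : D2 a b j i = - D2 a b i j := by
  unfold D2; ring

theorem eb_D2_opp (a b : I → ℝ) {i j : I} (x : I) (h : a j = -a i ∧ b j = -b i) :
    D2 a b x j = - D2 a b x i := by
  unfold D2; rw [h.1, h.2]; ring

/-- everything in the cone between the west end of the lowest arc and `i0` is above that arc -/
theorem CN.eb_EF (h : CN a b T m) {i0 k l : I} (hi : Act m i0) (hkl : m k l ≠ 0)
    (hk : 0 < D2 a b k i0) (hl : 0 < D2 a b i0 l)
    (hmin : ∀ k2 l2, m k2 l2 ≠ 0 → 0 < D2 a b k2 i0 → 0 < D2 a b i0 l2 →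
      NN a b T i0 k l * D2 a b k2 l2 ≤ NN a b T i0 k2 l2 * D2 a b k l)
    (h0 : 0 < D3 a b T k l i0) (n : ℕ) : ∀ y, Act m y →
      (∃ s : Finset I, s.card ≤ n ∧ ∀ z, Act m z → 0 < D2 a b y z → 0 < D2 a b z i0 → z ∈ s) →
      0 < D2 a b k y → 0 < D2 a b y i0 → D3 a b T k l y < 0 → False := by
  classical
  have hklp := h.east k l hkl
  have hll : Act m l := h.act_target hkl
  induction n with
  | zero =>
    intro y hy hs hky hyi hD
    obtain ⟨s, hs0, hs⟩ := hs
    have hse : s = ∅ := Finset.card_eq_zero.1 (Nat.le_zero.1 hs0)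
    subst hse
    have hyl : 0 < D2 a b y l := eb_cone1 hky hyi hk hl hklp
    obtain ⟨y', hyy'⟩ := hy
    have hyy := h.east y y' hyy'
    have hy' : Act m y' := h.act_target hyy'
    rcases lt_trichotomy (D2 a b y' i0) 0 with h1 | h1 | h1
    · have h2 : 0 < D2 a b i0 y' := by rw [eb_D2_neg]; linarith
      have h3 := hmin y y' hyy' hyi h2
      rcases lt_trichotomy (D2 a b y' l) 0 with h4 | h4 | h4
      · have h5 : 0 < D2 a b l y' := by rw [eb_D2_neg]; linarith
        have h6 := (h.cross_out hkl hyy' hky hyl h5).1 hD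
        have h7 := eb_id2 a b T i0 k l y y'
        have h8 : 0 < - (D2 a b i0 l * D3 a b T k l y * D2 a b y y') +
            D2 a b y i0 * D3 a b T y y' l * D2 a b k l := by
          have h9 : 0 < D2 a b i0 l * (- D3 a b T k l y) * D2 a b y y' := by
            have : 0 < - D3 a b T k l y := by linarith
            positivity
          have h10 : 0 < D2 a b y i0 * D3 a b T y y' l * D2 a b k l := by positivity
          linarith
        rw [← h7] at h8
        have h11 := (pos_iff_pos_of_mul_pos h8).1 hyl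
        linarith
      · by_cases hyl' : y' = l
        · have h7 := eb_id1 a b T i0 k l y y'
          rw [hyl', eb_D3_self] at h7
          rw [hyl'] at h3
          have h8 : D2 a b i0 l * D3 a b T k l y < 0 := mul_neg_of_pos_of_neg hl hD
          linarith
        · rcases h.gen y' l hy' hll hyl' with h5 | h5
          · exact h5 h4
          · have h6 := eb_D2_opp a b i0 h5
            linarith
      · have hky' : 0 < D2 a b k y' := eb_cone2 hk h4 hklp h2 hl
        have h5 := (h.cross_in hkl hyy' hky hyl hky' h4).1 hD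
        have h7 := eb_id1 a b T i0 k l y y'
        have h8 : D2 a b i0 y' * D3 a b T k l y < 0 := mul_neg_of_pos_of_neg h2 hD
        have h9 : D2 a b y i0 * D3 a b T k l y' < 0 := mul_neg_of_pos_of_neg hyi h5
        linarith
    · by_cases hyi' : y' = i0
      · subst hyi'
        have h2 := (h.cross_in hkl hyy' hky hyl hk hl).1 hD
        linarith
      · rcases h.gen y' i0 hy' hi hyi' with h5 | h5
        · exact h5 h1
        · have h6 := eb_D2_opp a b y h5
          linarith
    · exact absurd (hs y' hy' hyy h1) (by simp)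
  | succ n ih =>
    intro y hy hs hky hyi hD
    obtain ⟨s, hs0, hs⟩ := hs
    have hyl : 0 < D2 a b y l := eb_cone1 hky hyi hk hl hklp
    obtain ⟨y', hyy'⟩ := hy
    have hyy := h.east y y' hyy'
    have hy' : Act m y' := h.act_target hyy'
    rcases lt_trichotomy (D2 a b y' i0) 0 with h1 | h1 | h1
    · have h2 : 0 < D2 a b i0 y' := by rw [eb_D2_neg]; linarith
      have h3 := hmin y y' hyy' hyi h2
      rcases lt_trichotomy (D2 a b y' l) 0 with h4 | h4 | h4
      · have h5 : 0 < D2 a b l y' := by rw [eb_D2_neg]; linarith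
        have h6 := (h.cross_out hkl hyy' hky hyl h5).1 hD
        have h7 := eb_id2 a b T i0 k l y y'
        have h8 : 0 < - (D2 a b i0 l * D3 a b T k l y * D2 a b y y') +
            D2 a b y i0 * D3 a b T y y' l * D2 a b k l := by
          have h9 : 0 < D2 a b i0 l * (- D3 a b T k l y) * D2 a b y y' := by
            have : 0 < - D3 a b T k l y := by linarith
            positivity
          have h10 : 0 < D2 a b y i0 * D3 a b T y y' l * D2 a b k l := by positivity
          linarith
        rw [← h7] at h8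
        have h11 := (pos_iff_pos_of_mul_pos h8).1 hyl
        linarith
      · by_cases hyl' : y' = l
        · have h7 := eb_id1 a b T i0 k l y y'
          rw [hyl', eb_D3_self] at h7
          rw [hyl'] at h3
          have h8 : D2 a b i0 l * D3 a b T k l y < 0 := mul_neg_of_pos_of_neg hl hD
          linarith
        · rcases h.gen y' l hy' hll hyl' with h5 | h5
          · exact h5 h4
          · have h6 := eb_D2_opp a b i0 h5
            linarith
      · have hky' : 0 < D2 a b k y' := eb_cone2 hk h4 hklp h2 hl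
        have h5 := (h.cross_in hkl hyy' hky hyl hky' h4).1 hD
        have h7 := eb_id1 a b T i0 k l y y'
        have h8 : D2 a b i0 y' * D3 a b T k l y < 0 := mul_neg_of_pos_of_neg h2 hD
        have h9 : D2 a b y i0 * D3 a b T k l y' < 0 := mul_neg_of_pos_of_neg hyi h5
        linarith
    · by_cases hyi' : y' = i0
      · subst hyi'
        have h2 := (h.cross_in hkl hyy' hky hyl hk hl).1 hD
        linarith
      · rcases h.gen y' i0 hy' hi hyi' with h5 | h5
        · exact h5 h1
        · have h6 := eb_D2_opp a b y h5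
          linarith
    · have hky' : 0 < D2 a b k y' := eb_cone2 hky h1 hk hyy hyi
      have hy'l : 0 < D2 a b y' l := eb_cone1 hky' h1 hk hl hklp
      have h5 := (h.cross_in hkl hyy' hky hyl hky' hy'l).1 hD
      refine ih y' hy' ⟨s.erase y', ?_, ?_⟩ hky' h1 h5
      · have h6 : y' ∈ s := hs y' hy' hyy h1
        rw [Finset.card_erase_of_mem h6]
        omega
      · intro z hz hz1 hz2
        rw [Finset.mem_erase]
        constructor
        · rintro rfl
          have : D2 a b z z = 0 := by unfold D2; ring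
          linarith
        · exact hs z hz (eb_cone2 hyy hz2 hyi hz1 h1) hz2

/-- TARGET: a nonzero network has a bottom node. -/
theorem CN.exists_bot (h : CN a b T m) {i0 : I} (hi : Act m i0) : ∃ i, Bot a b T m i := by
  classical
  by_cases hb : Bot a b T m i0
  · exact ⟨i0, hb⟩
  have hex : ∃ k l, m k l ≠ 0 ∧ 0 < D2 a b k i0 ∧ 0 < D2 a b i0 l ∧ 0 < D3 a b T k l i0 := by
    unfold Bot at hb
    push Not at hb
    obtain ⟨k, l, hkl, h1, h2, h3⟩ := hb hi
    exact ⟨k, l, hkl, h1, h2, lt_of_le_of_ne h3 (Ne.symm (h.nc1 k l i0 hkl hi h1 h2))⟩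
  obtain ⟨k1, l1, hkl1, hk1, hl1, hD1⟩ := hex
  -- the lowest arc over `i0`
  set C : Finset (I × I) := Finset.univ.filter (fun p =>
    m p.1 p.2 ≠ 0 ∧ 0 < D2 a b p.1 i0 ∧ 0 < D2 a b i0 p.2) with hC
  have hCne : C.Nonempty := ⟨(k1, l1), by simp [hC, hkl1, hk1, hl1]⟩
  obtain ⟨⟨k, l⟩, hklC, hmin'⟩ := Finset.exists_min_image C
    (fun p => NN a b T i0 p.1 p.2 / D2 a b p.1 p.2) hCne
  simp only [hC, Finset.mem_filter, Finset.mem_univ, true_and] at hklC
  obtain ⟨hkl, hk, hl⟩ := hklC
  have hklp := h.east k l hkl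
  have hmin : ∀ k2 l2, m k2 l2 ≠ 0 → 0 < D2 a b k2 i0 → 0 < D2 a b i0 l2 →
      NN a b T i0 k l * D2 a b k2 l2 ≤ NN a b T i0 k2 l2 * D2 a b k l := by
    intro k2 l2 h1 h2 h3
    have h4 := hmin' (k2, l2) (by simp [hC, h1, h2, h3])
    simp only at h4
    rwa [div_le_div_iff₀ hklp (h.east k2 l2 h1)] at h4
  have hDid : ∀ p q, D3 a b T p q i0 = T i0 * D2 a b p q - NN a b T i0 p q := by
    intro p q; unfold NN D3 D2; ring
  have h0 : 0 < D3 a b T k l i0 := by
    have h1 := hmin k1 l1 hkl1 hk1 hl1
    rw [hDid] at hD1 ⊢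
    have h2 := h.east k1 l1 hkl1
    have h3 : NN a b T i0 k l * D2 a b k1 l1 < T i0 * D2 a b k l * D2 a b k1 l1 := by
      nlinarith
    have h4 := lt_of_mul_lt_mul_right h3 h2.le
    linarith
  have hll : Act m l := h.act_target hkl
  refine ⟨k, ⟨l, hkl⟩, ?_⟩
  intro k' l' hkl' hk'k hkl'2
  by_contra hcon
  have hkAct : Act m k := ⟨l, hkl⟩
  have hD' : 0 < D3 a b T k' l' k :=
    lt_of_le_of_ne (not_lt.1 hcon) (Ne.symm (h.nc1 k' l' k hkl' hkAct hk'k hkl'2))
  have hklp' := h.east k' l' hkl'
  have hl'Act : Act m l' := h.act_target hkl'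
  -- consequence of `l'` in the open cone `(k, l)`
  have hin : 0 < D2 a b l' l → D3 a b T k l l' < 0 := by
    intro h1
    have h2 := h.cross_out hkl' hkl hk'k hkl'2 h1
    have h3 : ¬ (0 < D3 a b T k l l') := fun h4 => hcon (h2.2 h4)
    exact lt_of_le_of_ne (not_lt.1 h3) (h.nc1 k l l' hkl hl'Act hkl'2 h1)
  rcases lt_trichotomy (D2 a b l' i0) 0 with h1 | h1 | h1
  · have h2 : 0 < D2 a b i0 l' := by rw [eb_D2_neg]; linarith
    have hk'i : 0 < D2 a b k' i0 := eb_cone2 hk'k h2 hklp' hk hkl'2
    have h3 := hmin k' l' hkl' hk'i h2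
    have hmid : D3 a b T k l l' ≤ 0 → False := by
      intro h4
      have h7 := eb_id2 a b T i0 k' l' k l
      have h8 : 0 < D2 a b i0 l' * D3 a b T k' l' k * D2 a b k l := by positivity
      have h9 : D2 a b k i0 * D3 a b T k l l' * D2 a b k' l' ≤ 0 := by
        have : D2 a b k i0 * D3 a b T k l l' ≤ 0 := mul_nonpos_of_nonneg_of_nonpos hk.le h4
        exact mul_nonpos_of_nonpos_of_nonneg this hklp'.le
      have h10 : D2 a b k l' * (NN a b T i0 k' l' * D2 a b k l - NN a b T i0 k l * D2 a b k' l') < 0 := by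
        rw [h7]; linarith
      have h11 : 0 ≤ D2 a b k l' * (NN a b T i0 k' l' * D2 a b k l - NN a b T i0 k l * D2 a b k' l') :=
        mul_nonneg hkl'2.le (by linarith)
      linarith
    rcases lt_trichotomy (D2 a b l' l) 0 with h4 | h4 | h4
    · have h5 : 0 < D2 a b l l' := by rw [eb_D2_neg]; linarith
      have hk'l : 0 < D2 a b k' l := eb_cone2 hk'k h5 hklp' hklp hkl'2
      have h6 := h.cross_in hkl' hkl hk'k hkl'2 hk'l h5
      have h7 : 0 ≤ D3 a b T k' l' l := by
        by_contra hneg
        exact hcon (h6.2 (not_le.1 hneg))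
      have h8 := eb_id1 a b T i0 k' l' k l
      have h9 : 0 < D2 a b i0 l * D3 a b T k' l' k := by positivity
      have h10 : 0 ≤ D2 a b k i0 * D3 a b T k' l' l := by positivity
      linarith
    · by_cases hll' : l' = l
      · apply hmid
        rw [hll', eb_D3_self]
      · rcases h.gen l' l hl'Act hll hll' with h5 | h5
        · exact h5 h4
        · have h6 := eb_D2_opp a b i0 h5
          linarith
    · exact hmid (hin h4).le
  · by_cases hli : l' = i0
    · subst hli
      have := hin hl
      linarith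
    · rcases h.gen l' i0 hl'Act hi hli with h5 | h5
      · exact h5 h1
      · have h6 := eb_D2_opp a b k h5
        linarith
  · have hl'l : 0 < D2 a b l' l := eb_cone1 hkl'2 h1 hk hl hklp
    exact h.eb_EF hi hkl hk hl hmin h0 (Finset.univ : Finset I).card l' hl'Act
      ⟨Finset.univ, le_rfl, fun z _ _ _ => Finset.mem_univ z⟩ hkl'2 h1 (hin hl'l)

end

end SphJam
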