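import Pool.Agent.SphJam.Defs

set_option autoImplicit false
open Finset

namespace SphJam

variable {I : Type}

section

variable [Fintype I] {a b T : I → ℝ} {m : I → I → ℝ}

theorem fs_swap (g : I → ℝ) : ∑ i, frc a b T m i * g i =
    ∑ i, ∑ j, m i j * (tE a b T i j * g i + tW a b T i j * g j) := by
  unfold frc
  have h1 : ∀ i, (∑ j, m i j * tE a b T i j + ∑ j, m j i * tW a b T j i) * g i =
      ∑ j, m i j * tE a b T i j * g i + ∑ j, m j i * tW a b T j i * g i := by
    intro i
    rw [add_mul, Finset.sum_mul, Finset.sum_mul]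
  simp only [h1]
  rw [Finset.sum_add_distrib]
  rw [Finset.sum_comm (f := fun i j => m j i * tW a b T j i * g i), ← Finset.sum_add_distrib]
  refine Finset.sum_congr rfl fun i _ => ?_
  rw [← Finset.sum_add_distrib]
  refine Finset.sum_congr rfl fun j _ => ?_
  ring

theorem fs_tel (h : CN a b T m) (g φ : I → ℝ)
    (hφ : ∀ i j, m i j ≠ 0 → tE a b T i j * g i + tW a b T i j * g j = φ j - φ i) :
    ∑ i, frc a b T m i * g i = 0 := by
  rw [fs_swap]
  have h1 : ∀ i j, m i j * (tE a b T i j * g i + tW a b T i j * g j) =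
      m i j * φ j - m i j * φ i := by
    intro i j
    by_cases hm : m i j = 0
    · rw [hm]; ring
    · rw [hφ i j hm]; ring
  simp only [h1, Finset.sum_sub_distrib]
  rw [Finset.sum_comm (f := fun i j => m i j * φ j)]
  simp only [← Finset.sum_mul]
  rw [sub_eq_zero]
  refine Finset.sum_congr rfl fun i _ => ?_
  rw [h.cons i]

theorem fs_act (h : CN a b T m) {i j : I} (hm : m i j ≠ 0) : Act m j := by
  by_contra hcon
  have h1 : ∀ k, m j k = 0 := by
    intro k
    by_contra hk
    exact hcon ⟨k, hk⟩
  have h2 := h.cons j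
  simp only [h1, Finset.sum_const_zero] at h2
  have h3 : m i j ≤ ∑ k, m k j :=
    Finset.single_le_sum (f := fun k => m k j) (fun k _ => h.nonneg k j) (Finset.mem_univ i)
  have h4 := h.nonneg i j
  apply hm
  linarith

theorem frc_sum_a (h : CN a b T m) : ∑ i, frc a b T m i * a i = 0 := by
  refine fs_tel h a (fun i => T i * b i) fun i j hm => ?_
  have hD := h.east i j hm
  have ui := h.unit i ⟨j, hm⟩
  have uj := h.unit j (fs_act h hm)
  unfold tE tW
  rw [div_mul_eq_mul_div, div_mul_eq_mul_div, ← add_div, div_eq_iff hD.ne']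
  unfold CC D2
  linear_combination (-(T j * a i)) * uj + (-(T i * a j)) * ui

theorem frc_sum_b (h : CN a b T m) : ∑ i, frc a b T m i * b i = 0 := by
  refine fs_tel h b (fun i => -(T i * a i)) fun i j hm => ?_
  have hD := h.east i j hm
  have ui := h.unit i ⟨j, hm⟩
  have uj := h.unit j (fs_act h hm)
  unfold tE tW
  rw [div_mul_eq_mul_div, div_mul_eq_mul_div, ← add_div, div_eq_iff hD.ne']
  unfold CC D2
  linear_combination (-(T j * b i)) * uj + (-(T i * b j)) * ui

theorem frc_sum_n (h : CN a b T m) (n u : I → ℝ)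
    (hiso : ∀ i j, m i j ≠ 0 → u j - u i = n i * tE a b T i j + n j * tW a b T i j) :
    ∑ i, frc a b T m i * n i = 0 := by
  refine fs_tel h n u fun i j hm => ?_
  rw [hiso i j hm]
  ring

end

end SphJam
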