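import Pool.Agent.SphJam.Defs

set_option autoImplicit false
open Finset

namespace SphJam

variable {I : Type}

section

variable [Fintype I] {a b T : I → ℝ} {M m : I → I → ℝ}

theorem cheb (w m t : I → ℝ) (hw : ∀ j, 0 ≤ w j) (hm : ∀ j, 0 ≤ m j)
    (h : ∀ j l, w j ≠ 0 → m l ≠ 0 → t j ≤ t l) :
    (∑ j, m j) * ∑ j, w j * t j ≤ (∑ j, w j) * ∑ j, m j * t j := by
  have e : (∑ j, w j) * (∑ j, m j * t j) - (∑ j, m j) * (∑ j, w j * t j) =
      ∑ j, ∑ l, w j * m l * (t l - t j) := by
    rw [Finset.sum_mul_sum, mul_comm (∑ j, m j), Finset.sum_mul_sum, ← Finset.sum_sub_distrib]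
    refine Finset.sum_congr rfl fun j _ => ?_
    rw [← Finset.sum_sub_distrib]
    refine Finset.sum_congr rfl fun l _ => ?_
    ring
  have h0 : 0 ≤ ∑ j, ∑ l, w j * m l * (t l - t j) := by
    refine Finset.sum_nonneg fun j _ => Finset.sum_nonneg fun l _ => ?_
    by_cases h1 : w j = 0
    · rw [h1]; simp
    · by_cases h2 : m l = 0
      · rw [h2]; simp
      · exact mul_nonneg (mul_nonneg (hw j) (hm l)) (sub_nonneg.2 (h j l h1 h2))
  linarith

theorem frc_split (i : I) : frc a b T M i = frc a b T m i +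
    (∑ j, (M i j - m i j) * tE a b T i j + ∑ j, (M j i - m j i) * tW a b T j i) := by
  unfold frc
  simp only [sub_mul, Finset.sum_sub_distrib]
  ring

theorem frc_eq_zero_of_out (hm : CN a b T m) (i : I) (h0 : ∑ j, m i j = 0) :
    frc a b T m i = 0 := by
  have h1 : ∀ j, m i j = 0 := fun j =>
    (Finset.sum_eq_zero_iff_of_nonneg (fun j _ => hm.nonneg i j)).1 h0 j (Finset.mem_univ j)
  have h0' : ∑ j, m j i = 0 := by rw [← hm.cons]; exact h0
  have h2 : ∀ j, m j i = 0 := fun j =>
    (Finset.sum_eq_zero_iff_of_nonneg (fun j _ => hm.nonneg j i)).1 h0' j (Finset.mem_univ j)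
  unfold frc
  simp [h1, h2]

/-- TARGET 1 -/
theorem PI.frc_nonneg (hM : CN a b T M) (hbal : ∀ i, frc a b T M i = 0)
    (h : PI a b T M m) (i : I) : 0 ≤ frc a b T m i := by
  have c1 := cheb (fun j => M i j - m i j) (fun j => m i j) (fun j => tE a b T i j)
    (fun j => sub_nonneg.2 (h.le i j)) (fun j => h.cn.nonneg i j)
    (fun j l h1 h2 => h.lowE i j l (lt_of_le_of_ne (h.le i j) (fun e => h1 (by simp [e]))) h2)
  have c2 := cheb (fun j => M j i - m j i) (fun j => m j i) (fun j => tW a b T j i)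
    (fun j => sub_nonneg.2 (h.le j i)) (fun j => h.cn.nonneg j i)
    (fun j l h1 h2 => h.lowW i j l (lt_of_le_of_ne (h.le j i) (fun e => h1 (by simp [e]))) h2)
  have e1 : ∑ j, (M j i - m j i) = ∑ j, (M i j - m i j) := by
    rw [Finset.sum_sub_distrib, Finset.sum_sub_distrib, hM.cons, h.cn.cons]
  rw [← h.cn.cons, e1] at c2
  have e2 := frc_split (a := a) (b := b) (T := T) (M := M) (m := m) i
  rw [hbal i] at e2
  have e3 : frc a b T m i = ∑ j, m i j * tE a b T i j + ∑ j, m j i * tW a b T j i := rfl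
  have hAp : 0 ≤ ∑ j, (M i j - m i j) := Finset.sum_nonneg fun j _ => sub_nonneg.2 (h.le i j)
  have hAr : 0 ≤ ∑ j, m i j := Finset.sum_nonneg fun j _ => h.cn.nonneg i j
  have key : 0 ≤ (∑ j, (M i j - m i j) + ∑ j, m i j) * frc a b T m i := by
    have : (∑ j, m i j) * (∑ j, (M i j - m i j) * tE a b T i j +
        ∑ j, (M j i - m j i) * tW a b T j i) = (∑ j, m i j) * (- frc a b T m i) := by
      congr 1; linarith
    rw [mul_add] at this
    rw [add_mul]
    have h5 : (∑ j, (M i j - m i j)) * frc a b T m i =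
        (∑ j, (M i j - m i j)) * ∑ j, m i j * tE a b T i j +
        (∑ j, (M i j - m i j)) * ∑ j, m j i * tW a b T j i := by rw [e3, mul_add]
    linarith
  rcases (add_nonneg hAp hAr).eq_or_lt with h0 | h0
  · have : ∑ j, m i j = 0 := by linarith
    rw [frc_eq_zero_of_out h.cn i this]
  · exact nonneg_of_mul_nonneg_right key h0

/-- TARGET 2 -/
theorem PI.frc_zero (hM : CN a b T M) (hbal : ∀ i, frc a b T M i = 0)
    (h : PI a b T M m) (i : I) (hi : ¬ Bot a b T m i) : frc a b T m i = 0 := by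
  by_cases hA : Act m i
  · by_cases hp : ∃ j, m i j < M i j ∨ m j i < M j i
    · exact absurd ⟨hA, h.bot i hp⟩ hi
    · push Not at hp
      have e1 : ∀ j, m i j = M i j := fun j => le_antisymm (h.le i j) (hp j).1
      have e2 : ∀ j, m j i = M j i := fun j => le_antisymm (h.le j i) (hp j).2
      rw [← hbal i]
      unfold frc
      simp only [e1, e2]
  · unfold Act at hA
    push Not at hA
    exact frc_eq_zero_of_out h.cn i (Finset.sum_eq_zero fun j _ => hA j)

/-- TARGET 3: if the two lowest arcs at `i` are collinear and the force vanishes, all arcs of the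
original network at `i` have the same slopes. -/
theorem PI.flat (hM : CN a b T M) (hbal : ∀ i, frc a b T M i = 0)
    (h : PI a b T M m) (i p q : I) (hp : m i p ≠ 0) (hq : m q i ≠ 0)
    (hlowE : ∀ l, m i l ≠ 0 → tE a b T i p ≤ tE a b T i l)
    (hlowW : ∀ l, m l i ≠ 0 → tW a b T q i ≤ tW a b T l i)
    (hsum : tE a b T i p + tW a b T q i = 0) (hf : frc a b T m i = 0) :
    (∀ j, M i j ≠ 0 → tE a b T i j = tE a b T i p) ∧
    (∀ j, M j i ≠ 0 → tW a b T j i = tW a b T q i) := by
  obtain ⟨τE, hτE⟩ : ∃ τ, τ = tE a b T i p := ⟨_, rfl⟩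
  obtain ⟨τW, hτW⟩ : ∃ τ, τ = tW a b T q i := ⟨_, rfl⟩
  rw [← hτE, ← hτW] at hsum
  rw [← hτE] at hlowE
  rw [← hτW] at hlowW
  rw [← hτE, ← hτW]
  have hg : ∀ (u : I → I → ℝ), (∑ j, u i j = ∑ j, u j i) →
      ∑ j, u i j * tE a b T i j + ∑ j, u j i * tW a b T j i =
      ∑ j, u i j * (tE a b T i j - τE) + ∑ j, u j i * (tW a b T j i - τW) := by
    intro u hu
    simp only [mul_sub, Finset.sum_sub_distrib, ← Finset.sum_mul]
    rw [← hu]
    linear_combination (∑ j, u i j) * hsum
  -- remaining arcs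
  have r1 : ∀ j, 0 ≤ m i j * (tE a b T i j - τE) := by
    intro j
    by_cases h0 : m i j = 0
    · rw [h0, zero_mul]
    · exact mul_nonneg (h.cn.nonneg i j) (sub_nonneg.2 (hlowE j h0))
  have r2 : ∀ j, 0 ≤ m j i * (tW a b T j i - τW) := by
    intro j
    by_cases h0 : m j i = 0
    · rw [h0, zero_mul]
    · exact mul_nonneg (h.cn.nonneg j i) (sub_nonneg.2 (hlowW j h0))
  have hf1 := hg m (h.cn.cons i)
  have hf' : frc a b T m i = ∑ j, m i j * tE a b T i j + ∑ j, m j i * tW a b T j i := rfl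
  rw [← hf', hf] at hf1
  have s1 : 0 ≤ ∑ j, m i j * (tE a b T i j - τE) := Finset.sum_nonneg fun j _ => r1 j
  have s2 : 0 ≤ ∑ j, m j i * (tW a b T j i - τW) := Finset.sum_nonneg fun j _ => r2 j
  have z1 : ∀ j, m i j * (tE a b T i j - τE) = 0 := fun j =>
    (Finset.sum_eq_zero_iff_of_nonneg (fun j _ => r1 j)).1 (by linarith) j (Finset.mem_univ j)
  have z2 : ∀ j, m j i * (tW a b T j i - τW) = 0 := fun j =>
    (Finset.sum_eq_zero_iff_of_nonneg (fun j _ => r2 j)).1 (by linarith) j (Finset.mem_univ j)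
  -- peeled arcs
  have p1 : ∀ j, 0 ≤ (M i j - m i j) * (τE - tE a b T i j) := by
    intro j
    rcases (h.le i j).eq_or_lt with h0 | h0
    · rw [h0, sub_self, zero_mul]
    · exact mul_nonneg (sub_nonneg.2 h0.le) (sub_nonneg.2 (by rw [hτE]; exact h.lowE i j p h0 hp))
  have p2 : ∀ j, 0 ≤ (M j i - m j i) * (τW - tW a b T j i) := by
    intro j
    rcases (h.le j i).eq_or_lt with h0 | h0
    · rw [h0, sub_self, zero_mul]
    · exact mul_nonneg (sub_nonneg.2 h0.le) (sub_nonneg.2 (by rw [hτW]; exact h.lowW i j q h0 hq))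
  have e1 : ∑ j, (M i j - m i j) = ∑ j, (M j i - m j i) := by
    rw [Finset.sum_sub_distrib, Finset.sum_sub_distrib, hM.cons, h.cn.cons]
  have hf2 := hg (fun i j => M i j - m i j) e1
  have e2 := frc_split (a := a) (b := b) (T := T) (M := M) (m := m) i
  rw [hbal i, hf, zero_add] at e2
  rw [← e2] at hf2
  have s3 : 0 ≤ ∑ j, (M i j - m i j) * (τE - tE a b T i j) := Finset.sum_nonneg fun j _ => p1 j
  have s4 : 0 ≤ ∑ j, (M j i - m j i) * (τW - tW a b T j i) := Finset.sum_nonneg fun j _ => p2 j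
  have n1 : ∑ j, (M i j - m i j) * (τE - tE a b T i j) =
      - ∑ j, (M i j - m i j) * (tE a b T i j - τE) := by
    rw [← Finset.sum_neg_distrib]
    exact Finset.sum_congr rfl fun j _ => by ring
  have n2 : ∑ j, (M j i - m j i) * (τW - tW a b T j i) =
      - ∑ j, (M j i - m j i) * (tW a b T j i - τW) := by
    rw [← Finset.sum_neg_distrib]
    exact Finset.sum_congr rfl fun j _ => by ring
  have z3 : ∀ j, (M i j - m i j) * (τE - tE a b T i j) = 0 := fun j =>
    (Finset.sum_eq_zero_iff_of_nonneg (fun j _ => p1 j)).1 (by linarith) j (Finset.mem_univ j)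
  have z4 : ∀ j, (M j i - m j i) * (τW - tW a b T j i) = 0 := fun j =>
    (Finset.sum_eq_zero_iff_of_nonneg (fun j _ => p2 j)).1 (by linarith) j (Finset.mem_univ j)
  constructor
  · intro j hj
    by_contra hne
    have h1 : m i j = 0 := (mul_eq_zero.1 (z1 j)).resolve_right (fun h => hne (by linarith))
    have h2 : M i j - m i j = 0 := (mul_eq_zero.1 (z3 j)).resolve_right (fun h => hne (by linarith))
    exact hj (by linarith)
  · intro j hj
    by_contra hne
    have h1 : m j i = 0 := (mul_eq_zero.1 (z2 j)).resolve_right (fun h => hne (by linarith))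
    have h2 : M j i - m j i = 0 := (mul_eq_zero.1 (z4 j)).resolve_right (fun h => hne (by linarith))
    exact hj (by linarith)

theorem CN.act_east (hM : CN a b T M) {i j : I} (h : M i j ≠ 0) : Act M j := by
  by_contra hcon
  unfold Act at hcon
  push Not at hcon
  have h1 : ∑ k, M j k = 0 := Finset.sum_eq_zero fun k _ => hcon k
  rw [hM.cons] at h1
  exact h ((Finset.sum_eq_zero_iff_of_nonneg (fun k _ => hM.nonneg k j)).1 h1 i (Finset.mem_univ i))

theorem CN.tE_sub (hM : CN a b T M) {i j l : I} (hj : M i j ≠ 0) (hl : M i l ≠ 0) :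
    tE a b T i l - tE a b T i j = D3 a b T i j l / (D2 a b i j * D2 a b i l) := by
  have u := hM.unit i ⟨j, hj⟩
  have d1 := (hM.east i j hj).ne'
  have d2 := (hM.east i l hl).ne'
  unfold tE
  rw [div_sub_div _ _ d2 d1, mul_comm (D2 a b i j)]
  congr 1
  have key : (T l - T i * CC a b i l) * D2 a b i j - D2 a b i l * (T j - T i * CC a b i j) =
      T i * (a i ^ 2 + b i ^ 2) * D2 a b j l + T j * D2 a b l i + T l * D2 a b i j := by
    unfold CC D2; ring
  rw [key, u]
  unfold D3; ring

/-- TARGET 4: slopes determine arcs. -/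
theorem CN.tE_lt (hM : CN a b T M) {i j l : I} (hj : M i j ≠ 0) (hl : M i l ≠ 0) :
    tE a b T i j < tE a b T i l ↔ 0 < D3 a b T i j l := by
  have d : 0 < D2 a b i j * D2 a b i l := mul_pos (hM.east i j hj) (hM.east i l hl)
  rw [← sub_pos, hM.tE_sub hj hl]
  constructor
  · intro h
    by_contra hcon
    push Not at hcon
    exact absurd h (not_lt.2 (div_nonpos_of_nonpos_of_nonneg hcon d.le))
  · intro h; exact div_pos h d

theorem CN.tE_inj (hM : CN a b T M) {i j l : I} (hj : M i j ≠ 0) (hl : M i l ≠ 0)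
    (he : tE a b T i j = tE a b T i l) : j = l := by
  have d1 := hM.east i j hj
  have d2 := hM.east i l hl
  have h0 := hM.tE_sub hj hl
  rw [he, sub_self] at h0
  have h3 : D3 a b T i j l = 0 := by
    rcases div_eq_zero_iff.1 h0.symm with h | h
    · exact h
    · exact absurd h (mul_pos d1 d2).ne'
  by_contra hne
  rcases hM.gen j l (hM.act_east hj) (hM.act_east hl) hne with h | ⟨h, h'⟩
  · rcases lt_or_gt_of_ne h with h4 | h4
    · have h5 : 0 < D2 a b l j := by
        have : D2 a b l j = - D2 a b j l := by unfold D2; ring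
        rw [this]; linarith
      exact hM.nc1 i j l hj (hM.act_east hl) d2 h5 h3
    · apply hM.nc1 i l j hl (hM.act_east hj) d1 h4
      have : D3 a b T i l j = - D3 a b T i j l := by unfold D3 D2; ring
      rw [this, h3, neg_zero]
  · have : D2 a b i l = - D2 a b i j := by unfold D2; rw [h, h']; ring
    linarith

theorem CN.tW_sub (hM : CN a b T M) {i j l : I} (hj : M j i ≠ 0) (hl : M l i ≠ 0) :
    tW a b T l i - tW a b T j i = D3 a b T j i l / (D2 a b j i * D2 a b l i) := by
  have u := hM.unit i (hM.act_east hj)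
  have d1 := (hM.east j i hj).ne'
  have d2 := (hM.east l i hl).ne'
  unfold tW
  rw [div_sub_div _ _ d2 d1, mul_comm (D2 a b j i)]
  congr 1
  have key : (T l - T i * CC a b l i) * D2 a b j i - D2 a b l i * (T j - T i * CC a b j i) =
      T j * D2 a b i l + T i * (a i ^ 2 + b i ^ 2) * D2 a b l j + T l * D2 a b j i := by
    unfold CC D2; ring
  rw [key, u]
  unfold D3; ring

theorem CN.tW_lt (hM : CN a b T M) {i j l : I} (hj : M j i ≠ 0) (hl : M l i ≠ 0) :
    tW a b T j i < tW a b T l i ↔ 0 < D3 a b T j i l := by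
  have d : 0 < D2 a b j i * D2 a b l i := mul_pos (hM.east j i hj) (hM.east l i hl)
  rw [← sub_pos, hM.tW_sub hj hl]
  constructor
  · intro h
    by_contra hcon
    push Not at hcon
    exact absurd h (not_lt.2 (div_nonpos_of_nonpos_of_nonneg hcon d.le))
  · intro h; exact div_pos h d

theorem CN.tW_inj (hM : CN a b T M) {i j l : I} (hj : M j i ≠ 0) (hl : M l i ≠ 0)
    (he : tW a b T j i = tW a b T l i) : j = l := by
  have d1 := hM.east j i hj
  have d2 := hM.east l i hl
  have h0 := hM.tW_sub hj hl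
  rw [he, sub_self] at h0
  have h3 : D3 a b T j i l = 0 := by
    rcases div_eq_zero_iff.1 h0.symm with h | h
    · exact h
    · exact absurd h (mul_pos d1 d2).ne'
  by_contra hne
  rcases hM.gen j l ⟨i, hj⟩ ⟨i, hl⟩ hne with h | ⟨h, h'⟩
  · rcases lt_or_gt_of_ne h with h4 | h4
    · have h5 : 0 < D2 a b l j := by
        have : D2 a b l j = - D2 a b j l := by unfold D2; ring
        rw [this]; linarith
      apply hM.nc1 l i j hl ⟨i, hj⟩ h5 d1
      have : D3 a b T l i j = - D3 a b T j i l := by unfold D3 D2; ring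
      rw [this, h3, neg_zero]
    · exact hM.nc1 j i l hj ⟨i, hl⟩ h4 d2 h3
  · have : D2 a b l i = - D2 a b j i := by unfold D2; rw [h, h']; ring
    linarith

end

end SphJam
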