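import Pool.Agent.SphJam.PeelNode

set_option autoImplicit false
open Finset

namespace SphJam

variable {I : Type}

section

variable [Fintype I] {a b T : I → ℝ} {M m : I → I → ℝ}

open Classical in
/-- the network after removing `μ` on the cycle -/
noncomputable def peelOff (m : I → I → ℝ) (K : ℕ) (c : ℕ → I) (μ : ℝ) : I → I → ℝ :=
  fun i j => m i j - if (∃ l, l < K ∧ c l = i ∧ c (l + 1) = j) then μ else 0

/-- TARGET: one peeling step. -/
theorem peel_step (h : PI a b T M m) {K : ℕ} {c : ℕ → I} {φ : ℕ → ℝ}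
    (hc : IsCycle a b T m K c φ) :
    ∃ μ : ℝ, 0 < μ ∧ PI a b T M (peelOff m K c μ) ∧
      (∃ i j, m i j ≠ 0 ∧ peelOff m K c μ i j = 0) ∧
      (∀ i j, peelOff m K c μ i j ≠ 0 → m i j ≠ 0) ∧
      (∀ l, frc a b T (peelOff m K c μ) (c (l + 1)) =
          frc a b T m (c (l + 1)) - μ * LL (fun k => T (c k)) φ l) ∧
      (∀ i, (∀ l, c l ≠ i) → frc a b T (peelOff m K c μ) i = frc a b T m i) ∧
      (∀ n : I → ℝ, QQ a b m n = μ * RB K φ (fun k => n (c k)) + QQ a b (peelOff m K c μ) n) := by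
  classical
  have hK := hc.ring.Kpos
  have hperq : ∀ q l, c (l + K * q) = c l := by
    intro q
    induction q with
    | zero => intro l; simp
    | succ q ih => intro l; rw [Nat.mul_succ, ← add_assoc, hc.per, ih]
  have hmod : ∀ l, c l = c (l % K) := by
    intro l
    conv_lhs => rw [← Nat.mod_add_div l K]
    exact hperq _ _
  have hmod1 : ∀ l, c (l + 1) = c (l % K + 1) := by
    intro l
    conv_lhs => rw [← Nat.mod_add_div l K]
    rw [show l % K + K * (l / K) + 1 = l % K + 1 + K * (l / K) by ring]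
    exact hperq _ _
  have hcinj : ∀ x y, c x = c y → x % K = y % K := by
    intro x y hxy
    exact hc.inj _ _ (Nat.mod_lt _ hK) (Nat.mod_lt _ hK) (by rw [← hmod, ← hmod, hxy])
  obtain ⟨on, hon⟩ : ∃ on : I → I → Prop, ∀ i j, on i j ↔
      ∃ l, l < K ∧ c l = i ∧ c (l + 1) = j := ⟨_, fun i j => Iff.rfl⟩
  have on1 : ∀ l, on (c l) (c (l + 1)) := fun l =>
    (hon _ _).2 ⟨l % K, Nat.mod_lt _ hK, (hmod l).symm, (hmod1 l).symm⟩
  have on2 : ∀ l j, on (c l) j ↔ j = c (l + 1) := by
    intro l j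
    refine ⟨fun h => ?_, fun h => h ▸ on1 l⟩
    obtain ⟨l', hl', h1, h2⟩ := (hon _ _).1 h
    have h3 := hcinj _ _ h1
    rw [Nat.mod_eq_of_lt hl'] at h3
    rw [← h2, h3, ← hmod1]
  have on3 : ∀ l j, on j (c (l + 1)) ↔ j = c l := by
    intro l j
    refine ⟨fun h => ?_, fun h => h ▸ on1 l⟩
    obtain ⟨l', hl', h1, h2⟩ := (hon _ _).1 h
    have h3 := hcinj _ _ h2
    have h4 : l' % K = l % K := Nat.ModEq.add_right_cancel' 1 h3
    rw [← h1, hmod l', h4, ← hmod]
  obtain ⟨l0, hl0, hmin⟩ := Finset.exists_min_image (range K) (fun l => m (c l) (c (l + 1)))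
    ⟨0, mem_range.2 hK⟩
  obtain ⟨μ, hμ⟩ : ∃ μ, μ = m (c l0) (c (l0 + 1)) := ⟨_, rfl⟩
  have hμ0 : 0 < μ := by
    rw [hμ]; exact lt_of_le_of_ne (h.cn.nonneg _ _) (Ne.symm (hc.arc l0))
  have hon_le : ∀ i j, on i j → μ ≤ m i j := by
    intro i j hij
    obtain ⟨l, hl, rfl, rfl⟩ := (hon _ _).1 hij
    rw [hμ]
    exact hmin l (mem_range.2 hl)
  obtain ⟨m', hm'⟩ : ∃ m', m' = peelOff m K c μ := ⟨_, rfl⟩
  have hm'v : ∀ i j, m' i j = m i j - if on i j then μ else 0 := by
    intro i j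
    rw [hm']
    unfold peelOff
    by_cases h1 : on i j
    · rw [if_pos h1, if_pos ((hon i j).1 h1)]
    · rw [if_neg h1, if_neg (fun h2 => h1 ((hon i j).2 h2))]
  have hsupp : ∀ i j, m' i j ≠ 0 → m i j ≠ 0 := by
    intro i j hij h0
    apply hij
    rw [hm'v]
    have : ¬ on i j := fun h1 => by
      have := hon_le i j h1
      linarith
    rw [if_neg this, h0, sub_zero]
  have hAct : ∀ i, Act m' i → Act m i := fun i ⟨j, hj⟩ => ⟨j, hsupp i j hj⟩
  have hle : ∀ i j, m' i j ≤ m i j := by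
    intro i j
    rw [hm'v]
    split_ifs
    · linarith
    · linarith
  have hlt : ∀ i j, m' i j < M i j → m i j < M i j ∨ on i j := by
    intro i j hij
    by_cases h1 : on i j
    · exact Or.inr h1
    · left
      rw [hm'v, if_neg h1, sub_zero] at hij
      exact hij
  have hs1 : ∀ l (g : I → ℝ), ∑ j, (if on (c l) j then μ else 0) * g j = μ * g (c (l + 1)) := by
    intro l g
    rw [Finset.sum_eq_single (c (l + 1))]
    · rw [if_pos (on1 l)]
    · intro j _ hj
      rw [if_neg (fun h1 => hj ((on2 l j).1 h1)), zero_mul]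
    · intro h1; exact absurd (Finset.mem_univ _) h1
  have hs2 : ∀ l (g : I → ℝ), ∑ j, (if on j (c (l + 1)) then μ else 0) * g j = μ * g (c l) := by
    intro l g
    rw [Finset.sum_eq_single (c l)]
    · rw [if_pos (on1 l)]
    · intro j _ hj
      rw [if_neg (fun h1 => hj ((on3 l j).1 h1)), zero_mul]
    · intro h1; exact absurd (Finset.mem_univ _) h1
  have hoff1 : ∀ i, (∀ l, c l ≠ i) → ∀ j, ¬ on i j := by
    intro i hi j hij
    obtain ⟨l, hl, h1, h2⟩ := (hon _ _).1 hij
    exact hi l h1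
  have hoff2 : ∀ i, (∀ l, c l ≠ i) → ∀ j, ¬ on j i := by
    intro i hi j hij
    obtain ⟨l, hl, h1, h2⟩ := (hon _ _).1 hij
    exact hi (l + 1) h2
  have hexl : ∀ i, (∀ l, c l ≠ i) ∨ ∃ l, i = c (l + 1) := by
    intro i
    by_cases hex : ∃ l, c l = i
    · obtain ⟨l, hl⟩ := hex
      right
      refine ⟨l + K - 1, ?_⟩
      rw [show l + K - 1 + 1 = l + K by omega, hc.per, hl]
    · left
      intro l hl
      exact hex ⟨l, hl⟩
  have hCC : ∀ l, CC a b (c l) (c (l + 1)) = Real.cos (φ (l + 1) - φ l) := by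
    intro l
    unfold CC
    rw [hc.cos, hc.cos, hc.sin, hc.sin, Real.cos_sub]
    ring
  have hD2 : ∀ l, D2 a b (c l) (c (l + 1)) = Real.sin (φ (l + 1) - φ l) := by
    intro l
    unfold D2
    rw [hc.cos, hc.cos, hc.sin, hc.sin, Real.sin_sub]
    ring
  have hPI : PI a b T M m' := by
    refine ⟨⟨?_, ?_, ?_, ?_, ?_, ?_, ?_⟩, ?_, ?_, ?_, ?_⟩
    · exact fun i hi => h.cn.unit i (hAct i hi)
    · intro i j
      rw [hm'v]
      split_ifs with h1
      · linarith [hon_le i j h1]
      · linarith [h.cn.nonneg i j]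
    · exact fun i j hij => h.cn.east i j (hsupp i j hij)
    · intro i
      have e1 : ∑ j, m' i j = ∑ j, m i j - ∑ j, (if on i j then μ else 0) := by
        rw [← Finset.sum_sub_distrib]
        exact Finset.sum_congr rfl (fun j _ => hm'v i j)
      have e2 : ∑ j, m' j i = ∑ j, m j i - ∑ j, (if on j i then μ else 0) := by
        rw [← Finset.sum_sub_distrib]
        exact Finset.sum_congr rfl (fun j _ => hm'v j i)
      rw [e1, e2, h.cn.cons i]
      congr 1
      rcases hexl i with hi | ⟨l, rfl⟩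
      · rw [Finset.sum_eq_zero (fun j _ => if_neg (hoff1 i hi j)),
          Finset.sum_eq_zero (fun j _ => if_neg (hoff2 i hi j))]
      · have f1 := hs1 (l + 1) (fun _ => 1)
        have f2 := hs2 l (fun _ => 1)
        simp only [mul_one] at f1 f2
        rw [f1, f2]
    · exact fun i j hi hj hij => h.cn.gen i j (hAct i hi) (hAct j hj) hij
    · exact fun i j k h1 h2 h3 h4 => h.cn.nc1 i j k (hsupp _ _ h1) (hAct k h2) h3 h4
    · exact fun i j k l h1 h2 h3 h4 h5 h6 => h.cn.nc2 i j k l (hsupp _ _ h1) (hsupp _ _ h2)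
        h3 h4 h5 h6
    · exact fun i j => (hle i j).trans (h.le i j)
    · intro i j l h1 h2
      rcases hlt i j h1 with h3 | h3
      · exact h.lowE i j l h3 (hsupp _ _ h2)
      · obtain ⟨l', hl', rfl, rfl⟩ := (hon _ _).1 h3
        rcases hc.lowE l' l (hsupp _ _ h2) with h4 | h4
        · rw [h4]
        · exact ((h.cn.tE_lt (hc.arc l') (hsupp _ _ h2)).2 h4).le
    · intro i j l h1 h2
      rcases hlt j i h1 with h3 | h3
      · exact h.lowW i j l h3 (hsupp _ _ h2)
      · obtain ⟨l', hl', rfl, rfl⟩ := (hon _ _).1 h3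
        rcases hc.lowW l' l (hsupp _ _ h2) with h4 | h4
        · rw [h4]
        · exact ((h.cn.tW_lt (hc.arc l') (hsupp _ _ h2)).2 h4).le
    · rintro i ⟨j, hj | hj⟩ k l h1 h2 h3
      · rcases hlt i j hj with h4 | h4
        · exact h.bot i ⟨j, Or.inl h4⟩ k l (hsupp _ _ h1) h2 h3
        · obtain ⟨l', hl', rfl, rfl⟩ := (hon _ _).1 h4
          exact (hc.isBot l').2 k l (hsupp _ _ h1) h2 h3
      · rcases hlt j i hj with h4 | h4
        · exact h.bot i ⟨j, Or.inr h4⟩ k l (hsupp _ _ h1) h2 h3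
        · obtain ⟨l', hl', rfl, rfl⟩ := (hon _ _).1 h4
          exact (hc.isBot (l' + 1)).2 k l (hsupp _ _ h1) h2 h3
  refine ⟨μ, hμ0, ?_⟩
  rw [← hm']
  refine ⟨hPI, ⟨c l0, c (l0 + 1), hc.arc l0, ?_⟩, hsupp, ?_, ?_, ?_⟩
  · rw [hm'v, if_pos (on1 l0), ← hμ, sub_self]
  · intro l
    have e1 : ∑ j, m' (c (l + 1)) j * tE a b T (c (l + 1)) j =
        ∑ j, m (c (l + 1)) j * tE a b T (c (l + 1)) j -
          μ * tE a b T (c (l + 1)) (c (l + 2)) := by
      rw [← hs1 (l + 1) (fun j => tE a b T (c (l + 1)) j), ← Finset.sum_sub_distrib]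
      exact Finset.sum_congr rfl (fun j _ => by rw [hm'v, sub_mul])
    have e2 : ∑ j, m' j (c (l + 1)) * tW a b T j (c (l + 1)) =
        ∑ j, m j (c (l + 1)) * tW a b T j (c (l + 1)) -
          μ * tW a b T (c l) (c (l + 1)) := by
      rw [← hs2 l (fun j => tW a b T j (c (l + 1))), ← Finset.sum_sub_distrib]
      exact Finset.sum_congr rfl (fun j _ => by rw [hm'v, sub_mul])
    have e3 : LL (fun k => T (c k)) φ l = tE a b T (c (l + 1)) (c (l + 2)) +
        tW a b T (c l) (c (l + 1)) := by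
      unfold LL tE tW
      rw [hCC (l + 1), hD2 (l + 1), hCC l, hD2 l]
    unfold frc
    rw [e1, e2, e3]
    ring
  · intro i hi
    unfold frc
    congr 1
    · refine Finset.sum_congr rfl (fun j _ => ?_)
      rw [hm'v, if_neg (hoff1 i hi j), sub_zero]
    · refine Finset.sum_congr rfl (fun j _ => ?_)
      rw [hm'v, if_neg (hoff2 i hi j), sub_zero]
  · intro n
    obtain ⟨P, hP⟩ : ∃ P : I → I → ℝ, ∀ i j, P i j =
        (2 * n i * n j - (n i ^ 2 + n j ^ 2) * CC a b i j) / D2 a b i j := ⟨_, fun i j => rfl⟩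
    have hQ : ∀ m : I → I → ℝ, QQ a b m n = ∑ i, ∑ j, m i j * P i j := by
      intro m
      unfold QQ
      exact Finset.sum_congr rfl (fun i _ => Finset.sum_congr rfl (fun j _ => by rw [hP]))
    have hχ : ∀ i j, (if on i j then μ else 0) =
        ∑ l ∈ range K, if c l = i ∧ c (l + 1) = j then μ else 0 := by
      intro i j
      by_cases h1 : on i j
      · rw [if_pos h1]
        obtain ⟨l1, hl1, h2, h3⟩ := (hon _ _).1 h1
        rw [Finset.sum_eq_single l1, if_pos ⟨h2, h3⟩]
        · intro l hl hne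
          rw [if_neg]
          rintro ⟨h4, h5⟩
          exact hne (hc.inj l l1 (mem_range.1 hl) hl1 (h4.trans h2.symm))
        · intro h4; exact absurd (mem_range.2 hl1) h4
      · rw [if_neg h1]
        symm
        refine Finset.sum_eq_zero (fun l hl => if_neg ?_)
        rintro ⟨h4, h5⟩
        exact h1 ((hon _ _).2 ⟨l, mem_range.1 hl, h4, h5⟩)
    have hRB : μ * RB K φ (fun k => n (c k)) = ∑ i, ∑ j, (if on i j then μ else 0) * P i j := by
      have e1 : ∑ i, ∑ j, (if on i j then μ else 0) * P i j =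
          ∑ l ∈ range K, ∑ i, ∑ j, (if c l = i ∧ c (l + 1) = j then μ else 0) * P i j := by
        have e2 : ∀ i, ∑ j, (if on i j then μ else 0) * P i j =
            ∑ l ∈ range K, ∑ j, (if c l = i ∧ c (l + 1) = j then μ else 0) * P i j := by
          intro i
          rw [Finset.sum_comm]
          refine Finset.sum_congr rfl (fun j _ => ?_)
          rw [hχ, Finset.sum_mul]
        rw [Finset.sum_congr rfl (fun i _ => e2 i), Finset.sum_comm]
      rw [e1]
      unfold RB
      rw [Finset.mul_sum]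
      refine Finset.sum_congr rfl (fun l _ => ?_)
      rw [Finset.sum_eq_single (c l), Finset.sum_eq_single (c (l + 1))]
      · rw [if_pos ⟨rfl, rfl⟩, hP, hCC, hD2]
        rfl
      · intro j _ hj
        rw [if_neg (fun h1 => hj h1.2.symm), zero_mul]
      · intro h1; exact absurd (Finset.mem_univ _) h1
      · intro i _ hi
        refine Finset.sum_eq_zero (fun j _ => ?_)
        rw [if_neg (fun h1 => hi h1.1.symm), zero_mul]
      · intro h1; exact absurd (Finset.mem_univ _) h1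
    rw [hRB, hQ, hQ, ← Finset.sum_add_distrib]
    refine Finset.sum_congr rfl (fun i _ => ?_)
    rw [← Finset.sum_add_distrib]
    refine Finset.sum_congr rfl (fun j _ => ?_)
    rw [hm'v]
    ring

end

end SphJam
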