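import Pool.Agent.SphJam.Defs

set_option autoImplicit false
open Finset

namespace SphJam

theorem rs_mono {φ : ℕ → ℝ} {N : ℕ} (hg0 : ∀ n, n < N → 0 < φ (n + 1) - φ n) {i j : ℕ}
    (hij : i ≤ j) (hj : j ≤ N) : φ i ≤ φ j := by
  induction j, hij using Nat.le_induction with
  | base => exact le_rfl
  | succ j hij ih =>
    have h1 := ih (by omega)
    have h2 := hg0 j (by omega)
    linarith

theorem rs_wron (φ D : ℕ → ℝ) (c : ℝ) (n : ℕ) (h0 : Real.sin (φ (n + 1) - φ n) ≠ 0)
    (h1 : Real.sin (φ (n + 2) - φ (n + 1)) ≠ 0) :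
    (D (n + 2) * Real.sin (φ (n + 1) - c) - D (n + 1) * Real.sin (φ (n + 2) - c)) /
      Real.sin (φ (n + 2) - φ (n + 1)) =
    (D (n + 1) * Real.sin (φ n - c) - D n * Real.sin (φ (n + 1) - c)) /
      Real.sin (φ (n + 1) - φ n) + Real.sin (φ (n + 1) - c) * LL D φ n := by
  obtain ⟨a, ha⟩ : ∃ a, a = φ (n + 1) - c := ⟨_, rfl⟩
  obtain ⟨u, hu⟩ : ∃ u, u = φ (n + 2) - φ (n + 1) := ⟨_, rfl⟩
  obtain ⟨v, hv⟩ : ∃ v, v = φ (n + 1) - φ n := ⟨_, rfl⟩
  have e1 : φ (n + 2) - c = a + u := by rw [ha, hu]; ring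
  have e2 : φ n - c = a - v := by rw [ha, hv]; ring
  unfold LL
  rw [e1, e2, ← ha]
  rw [← hu] at h1 ⊢
  rw [← hv] at h0 ⊢
  rw [Real.sin_add, Real.sin_sub]
  field_simp
  ring

/-- local eastward comparison -/
theorem rs_east (N : ℕ) (φ D : ℕ → ℝ) (hg0 : ∀ n, n < N → 0 < φ (n + 1) - φ n)
    (hg1 : ∀ n, n < N → φ (n + 1) - φ n < Real.pi) (hL : ∀ n, n + 2 ≤ N → 0 ≤ LL D φ n)
    (h0 : D 0 = 0) (h1 : D 1 = 0) : ∀ n, n ≤ N → φ n - φ 1 ≤ Real.pi → 0 ≤ D n := by
  have hsin : ∀ n, n < N → 0 < Real.sin (φ (n + 1) - φ n) := fun n hn =>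
    Real.sin_pos_of_pos_of_lt_pi (hg0 n hn) (hg1 n hn)
  have hV : ∀ n, n + 2 ≤ N → φ (n + 1) - φ 1 ≤ Real.pi →
      0 ≤ (D (n + 2) * Real.sin (φ (n + 1) - φ 1) - D (n + 1) * Real.sin (φ (n + 2) - φ 1)) /
      Real.sin (φ (n + 2) - φ (n + 1)) := by
    intro n
    induction n with
    | zero =>
      intro _ _
      simp [h1]
    | succ n ih =>
      intro hn hpi
      rw [rs_wron φ D (φ 1) (n + 1) (hsin (n + 1) (by omega)).ne' (hsin (n + 2) (by omega)).ne']
      have h2 := hg0 (n + 1) (by omega)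
      have h3 := ih (by omega) (by
        have e : φ (n + 1 + 1) = φ (n + 2) := rfl
        linarith)
      have h4 : 0 ≤ Real.sin (φ (n + 1 + 1) - φ 1) := by
        apply Real.sin_nonneg_of_nonneg_of_le_pi _ hpi
        have := rs_mono (N := N) hg0 (show 1 ≤ n + 1 + 1 by omega) (by omega)
        linarith
      have h5 := hL (n + 1) (by omega)
      exact add_nonneg h3 (mul_nonneg h4 h5)
  intro n
  induction n with
  | zero => intro _ _; rw [h0]
  | succ n ih =>
    intro hn hpi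
    rcases Nat.lt_or_ge n 1 with hn1 | hn1
    · have : n = 0 := by omega
      subst this
      exact h1.ge
    rcases Nat.lt_or_ge n 2 with hn2 | hn2
    · have : n = 1 := by omega
      subst this
      have h2 := hL 0 (by omega)
      unfold LL at h2
      simp only [Nat.zero_add, h1, h0, zero_mul, sub_zero, zero_div, add_zero] at h2
      have h3 := hsin 1 (by omega)
      have h4 := mul_nonneg h2 h3.le
      rw [div_mul_cancel₀ _ h3.ne'] at h4
      exact h4
    · obtain ⟨m, rfl⟩ : ∃ m, n = m + 2 := ⟨n - 2, by omega⟩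
      have g0 := hg0 (m + 2) (by omega)
      have hp1 : φ (m + 2) - φ 1 < Real.pi := by linarith
      have g1 := hg0 (m + 1) (by omega)
      have e1 : φ (m + 1 + 1) = φ (m + 2) := rfl
      have g2 := rs_mono (N := N) hg0 (show 1 ≤ m + 1 by omega) (by omega)
      have hS : 0 < Real.sin (φ (m + 2) - φ 1) :=
        Real.sin_pos_of_pos_of_lt_pi (by linarith) hp1
      have hS2 : 0 ≤ Real.sin (φ (m + 2 + 1) - φ 1) :=
        Real.sin_nonneg_of_nonneg_of_le_pi (by linarith) hpi
      have h2 := hV (m + 1) (by omega) hp1.le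
      have h3 := hsin (m + 2) (by omega)
      have h4 := mul_nonneg h2 h3.le
      have e2 : Real.sin (φ (m + 1 + 2) - φ (m + 1 + 1)) = Real.sin (φ (m + 2 + 1) - φ (m + 2)) := rfl
      rw [e2, div_mul_cancel₀ _ h3.ne'] at h4
      have h5 := ih (by omega) hp1.le
      have h6 : 0 ≤ D (m + 2) * Real.sin (φ (m + 2 + 1) - φ 1) := mul_nonneg h5 hS2
      have h7 : 0 ≤ D (m + 2 + 1) * Real.sin (φ (m + 2) - φ 1) := by
        have e3 : D (m + 1 + 2) = D (m + 2 + 1) := rfl
        have e4 : D (m + 1 + 1) = D (m + 2) := rfl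
        have e5 : Real.sin (φ (m + 1 + 1) - φ 1) = Real.sin (φ (m + 2) - φ 1) := rfl
        have e6 : Real.sin (φ (m + 1 + 2) - φ 1) = Real.sin (φ (m + 2 + 1) - φ 1) := rfl
        rw [e3, e4, e5, e6] at h4
        linarith
      exact nonneg_of_mul_nonneg_left h7 hS

theorem rs_per {K : ℕ} {D : ℕ → ℝ} (hD : ∀ l, D (l + K) = D l) (l m : ℕ) :
    D (l + m * K) = D l := by
  induction m with
  | zero => simp
  | succ m ih =>
    rw [Nat.succ_mul, ← Nat.add_assoc, hD, ih]

/-- Sturm comparison: a convex periodic sequence vanishing on one edge is nonnegative. -/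
theorem ring_support {K : ℕ} {φ : ℕ → ℝ} (hR : RingData K φ) (D : ℕ → ℝ)
    (hD : ∀ l, D (l + K) = D l) (hL : ∀ l, 0 ≤ LL D φ l) (q : ℕ)
    (h0 : D q = 0) (h1 : D (q + 1) = 0) : ∀ l, 0 ≤ D l := by
  have hK := hR.Kpos
  have hmain : ∀ r, r < K → 0 ≤ D (q + r) := by
    intro r hr
    by_cases hc : φ (q + r) - φ (q + 1) ≤ Real.pi
    · refine rs_east r (fun n => φ (q + n)) (fun n => D (q + n)) (fun n _ => hR.gap0 (q + n))
        (fun n _ => hR.gap1 (q + n)) (fun n _ => hL (q + n)) h0 h1 r le_rfl hc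
    · have hD0 : D (q + 1 + K) = 0 := by rw [hD, h1]
      have hD1 : D (q + K) = 0 := by rw [hD, h0]
      have hgap : ∀ n, n < K + 1 → ∃ m, q + 1 + K - (n + 1) = m ∧ q + 1 + K - n = m + 1 :=
        fun n hn => ⟨q + 1 + K - (n + 1), rfl, by omega⟩
      have key := rs_east (K + 1) (fun n => -φ (q + 1 + K - n)) (fun n => D (q + 1 + K - n))
        (by
          intro n hn
          obtain ⟨m, e1, e2⟩ := hgap n hn
          show 0 < -φ (q + 1 + K - (n + 1)) - -φ (q + 1 + K - n)
          rw [e1, e2]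
          have := hR.gap0 m
          linarith)
        (by
          intro n hn
          obtain ⟨m, e1, e2⟩ := hgap n hn
          show -φ (q + 1 + K - (n + 1)) - -φ (q + 1 + K - n) < Real.pi
          rw [e1, e2]
          have := hR.gap1 m
          linarith)
        (by
          intro n hn
          have e : LL (fun n => D (q + 1 + K - n)) (fun n => -φ (q + 1 + K - n)) n =
              LL D φ (q + 1 + K - (n + 2)) := by
            obtain ⟨m, hm⟩ : ∃ m, m = q + 1 + K - (n + 2) := ⟨_, rfl⟩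
            have e1 : q + 1 + K - (n + 1) = m + 1 := by omega
            have e2 : q + 1 + K - n = m + 2 := by omega
            unfold LL
            simp only
            rw [← hm, e1, e2]
            have a1 : -φ m - -φ (m + 1) = φ (m + 1) - φ m := by ring
            have a2 : -φ (m + 1) - -φ (m + 2) = φ (m + 2) - φ (m + 1) := by ring
            rw [a1, a2]
            ring
          rw [e]
          exact hL _)
        (by simpa using hD0)
        (by
          have : q + 1 + K - 1 = q + K := by omega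
          show D (q + 1 + K - 1) = 0
          rw [this]
          exact hD1)
        (K + 1 - r) (by omega) (by
          show -φ (q + 1 + K - (K + 1 - r)) - -φ (q + 1 + K - 1) ≤ Real.pi
          have e1 : q + 1 + K - (K + 1 - r) = q + r := by omega
          have e2 : q + 1 + K - 1 = q + K := by omega
          rw [e1, e2, hR.per]
          have := hR.gap0 q
          push Not at hc
          linarith)
      have e1 : q + 1 + K - (K + 1 - r) = q + r := by omega
      rw [e1] at key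
      exact key
  intro l
  have h2 : q ≤ l + q * K := by nlinarith
  obtain ⟨s, hs⟩ := Nat.exists_eq_add_of_le h2
  have h3 : s = s % K + s / K * K := by
    have := Nat.div_add_mod s K
    rw [Nat.mul_comm] at this
    omega
  rw [← rs_per hD l q, hs, h3, ← Nat.add_assoc, rs_per hD]
  exact hmain _ (Nat.mod_lt _ hK)

/-- A sequence without corners vanishing on one edge vanishes as long as there are no corners. -/
theorem ring_flat {φ : ℕ → ℝ} (hg0 : ∀ l, 0 < φ (l + 1) - φ l)
    (hg1 : ∀ l, φ (l + 1) - φ l < Real.pi) (D : ℕ → ℝ) (q s : ℕ)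
    (hL : ∀ l, q ≤ l → l + 1 < s → LL D φ l = 0)
    (h0 : D q = 0) (h1 : D (q + 1) = 0) : ∀ l, q ≤ l → l ≤ s → D l = 0 := by
  have key : ∀ n, (q + n ≤ s → D (q + n) = 0) ∧ (q + n + 1 ≤ s → D (q + n + 1) = 0) := by
    intro n
    induction n with
    | zero => exact ⟨fun _ => h0, fun _ => h1⟩
    | succ n ih =>
      refine ⟨ih.2, ?_⟩
      intro hn
      have e1 := ih.1 (by omega)
      have e2 := ih.2 (by omega)
      have e3 := hL (q + n) (by omega) (by omega)
      unfold LL at e3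
      rw [e1, e2] at e3
      have hs : 0 < Real.sin (φ (q + n + 2) - φ (q + n + 1)) :=
        Real.sin_pos_of_pos_of_lt_pi (hg0 _) (hg1 _)
      simp only [zero_mul, sub_zero, zero_div, add_zero] at e3
      rcases div_eq_zero_iff.1 e3 with h | h
      · exact h
      · exact absurd h hs.ne'
  intro l hl hls
  obtain ⟨n, rfl⟩ := Nat.exists_eq_add_of_le hl
  exact (key n).1 hls

/-- Linear functions have no corners. -/
theorem LL_linear {φ : ℕ → ℝ} (hg0 : ∀ l, 0 < φ (l + 1) - φ l)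
    (hg1 : ∀ l, φ (l + 1) - φ l < Real.pi) (x : ℕ → ℝ) (c1 c2 : ℝ) (l : ℕ) :
    LL (fun k => x k + c1 * Real.cos (φ k) + c2 * Real.sin (φ k)) φ l = LL x φ l := by
  have hs1 : 0 < Real.sin (φ (l + 1) - φ l) := Real.sin_pos_of_pos_of_lt_pi (hg0 l) (hg1 l)
  have hs2 : 0 < Real.sin (φ (l + 2) - φ (l + 1)) :=
    Real.sin_pos_of_pos_of_lt_pi (hg0 (l + 1)) (hg1 (l + 1))
  obtain ⟨a, ha⟩ : ∃ a, a = φ (l + 1) := ⟨_, rfl⟩
  obtain ⟨u, hu⟩ : ∃ u, u = φ (l + 2) - φ (l + 1) := ⟨_, rfl⟩
  obtain ⟨v, hv⟩ : ∃ v, v = φ (l + 1) - φ l := ⟨_, rfl⟩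
  have e1 : φ (l + 2) = a + u := by rw [ha, hu]; ring
  have e2 : φ l = a - v := by rw [ha, hv]; ring
  unfold LL
  simp only
  rw [← hu] at hs2 ⊢
  rw [← hv] at hs1 ⊢
  rw [e1, e2, ← ha, Real.cos_add, Real.sin_add, Real.cos_sub, Real.sin_sub]
  have n1 := hs1.ne'
  have n2 := hs2.ne'
  field_simp
  ring

end SphJam
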