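import Pool.Agent.SphJam.Ring
import Pool.Agent.SphJam.RingFlat
import Pool.Agent.SphJam.ExBot
import Pool.Agent.SphJam.PeelNode
import Pool.Agent.SphJam.Moments
import Pool.Agent.SphJam.PeelStep
import Pool.Agent.SphJam.CycleAsm

set_option autoImplicit false
open Finset

namespace SphJam

variable {I : Type}



section

variable [Fintype I] {a b T : I → ℝ} {M m : I → I → ℝ}


theorem PI.refl (hM : CN a b T M) : PI a b T M M :=
  ⟨hM, fun _ _ => le_refl _, fun _ _ _ h => absurd h (lt_irrefl _),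
    fun _ _ _ h => absurd h (lt_irrefl _), fun i hi => by
      obtain ⟨j, hj | hj⟩ := hi
      · exact absurd hj (lt_irrefl _)
      · exact absurd hj (lt_irrefl _)⟩

namespace P5

theorem supp (h : PI a b T M m) {i j : I} (hij : m i j ≠ 0) : M i j ≠ 0 := by
  have h1 := h.cn.nonneg i j
  have h2 := h.le i j
  have h3 : 0 < m i j := lt_of_le_of_ne h1 (Ne.symm hij)
  exact (h3.trans_le h2).ne'

theorem LL_eq {K : ℕ} {c : ℕ → I} {φ : ℕ → ℝ} (hc : IsCycle a b T m K c φ) (l : ℕ) :
    tE a b T (c (l + 1)) (c (l + 2)) + tW a b T (c l) (c (l + 1)) =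
      LL (fun k => T (c k)) φ l := by
  have e1 : CC a b (c (l + 1)) (c (l + 2)) = Real.cos (φ (l + 2) - φ (l + 1)) := by
    unfold CC
    rw [hc.cos, hc.cos, hc.sin, hc.sin, Real.cos_sub]
    ring
  have e2 : D2 a b (c (l + 1)) (c (l + 2)) = Real.sin (φ (l + 2) - φ (l + 1)) := by
    unfold D2
    rw [hc.cos, hc.cos, hc.sin, hc.sin, Real.sin_sub]
    ring
  have e3 : CC a b (c l) (c (l + 1)) = Real.cos (φ (l + 1) - φ l) := by
    unfold CC
    rw [hc.cos, hc.cos, hc.sin, hc.sin, Real.cos_sub]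
    ring
  have e4 : D2 a b (c l) (c (l + 1)) = Real.sin (φ (l + 1) - φ l) := by
    unfold D2
    rw [hc.cos, hc.cos, hc.sin, hc.sin, Real.sin_sub]
    ring
  unfold tE tW LL
  rw [e1, e2, e3, e4]

theorem flat_contra (hM : CN a b T M) (hbal : ∀ i, frc a b T M i = 0)
    (hconn : ∀ S : I → Prop, (∃ i, Act M i ∧ S i) → (∀ i j, M i j ≠ 0 → (S i ↔ S j)) →
      ∀ i, Act M i → S i)
    (hncop : ¬ ∃ c1 c2 : ℝ, ∀ i, Act M i → T i = c1 * a i + c2 * b i)
    (h : PI a b T M m) {K : ℕ} {c : ℕ → I} {φ : ℕ → ℝ} (hc : IsCycle a b T m K c φ)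
    (hf : ∀ l, frc a b T m (c l) = 0) (hL : ∀ l, LL (fun k => T (c k)) φ l = 0) : False := by
  have hKpos := hc.ring.Kpos
  have key : ∀ l, (∀ j, M (c (l + 1)) j ≠ 0 → j = c (l + 2)) ∧
      (∀ j, M j (c (l + 1)) ≠ 0 → j = c l) := by
    intro l
    have hp : m (c (l + 1)) (c (l + 2)) ≠ 0 := hc.arc (l + 1)
    have hq : m (c l) (c (l + 1)) ≠ 0 := hc.arc l
    have hlowE : ∀ j, m (c (l + 1)) j ≠ 0 →
        tE a b T (c (l + 1)) (c (l + 2)) ≤ tE a b T (c (l + 1)) j := by
      intro j hj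
      rcases hc.lowE (l + 1) j hj with h1 | h1
      · rw [h1]
      · exact ((h.cn.tE_lt hp hj).2 h1).le
    have hlowW : ∀ j, m j (c (l + 1)) ≠ 0 →
        tW a b T (c l) (c (l + 1)) ≤ tW a b T j (c (l + 1)) := by
      intro j hj
      rcases hc.lowW l j hj with h1 | h1
      · rw [h1]
      · exact ((h.cn.tW_lt hq hj).2 h1).le
    have hsum : tE a b T (c (l + 1)) (c (l + 2)) + tW a b T (c l) (c (l + 1)) = 0 := by
      rw [LL_eq hc, hL]
    obtain ⟨g1, g2⟩ := PI.flat hM hbal h (c (l + 1)) (c (l + 2)) (c l) hp hq hlowE hlowW hsum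
      (hf (l + 1))
    exact ⟨fun j hj => hM.tE_inj hj (supp h hp) (g1 j hj),
      fun j hj => hM.tW_inj hj (supp h hq) (g2 j hj)⟩
  have hshift : ∀ l, c l = c ((l + K - 1) + 1) := by
    intro l
    have : l + K - 1 + 1 = l + K := by omega
    rw [this, hc.per]
  have hall : ∀ i, Act M i → ∃ l, c l = i := by
    apply hconn
    · exact ⟨c 0, ⟨c 1, supp h (hc.arc 0)⟩, 0, rfl⟩
    · intro i j hij
      constructor
      · rintro ⟨l, rfl⟩
        rw [hshift l] at hij
        exact ⟨_, ((key (l + K - 1)).1 j hij).symm⟩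
      · rintro ⟨l, rfl⟩
        rw [hshift l] at hij
        exact ⟨_, ((key (l + K - 1)).2 i hij).symm⟩
  have hs : 0 < Real.sin (φ 1 - φ 0) :=
    Real.sin_pos_of_pos_of_lt_pi (hc.ring.gap0 0) (hc.ring.gap1 0)
  obtain ⟨c1, hc1⟩ : ∃ c1, c1 = (T (c 0) * Real.sin (φ 1) - T (c 1) * Real.sin (φ 0)) /
      Real.sin (φ 1 - φ 0) := ⟨_, rfl⟩
  obtain ⟨c2, hc2⟩ : ∃ c2, c2 = (T (c 1) * Real.cos (φ 0) - T (c 0) * Real.cos (φ 1)) /
      Real.sin (φ 1 - φ 0) := ⟨_, rfl⟩
  have hss : Real.sin (φ 1 - φ 0) = Real.sin (φ 1) * Real.cos (φ 0) -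
      Real.cos (φ 1) * Real.sin (φ 0) := Real.sin_sub _ _
  have h0 : T (c 0) = c1 * Real.cos (φ 0) + c2 * Real.sin (φ 0) := by
    rw [hc1, hc2]
    field_simp
    rw [hss]
    ring
  have h1 : T (c 1) = c1 * Real.cos (φ 1) + c2 * Real.sin (φ 1) := by
    rw [hc1, hc2]
    field_simp
    rw [hss]
    ring
  have hD : ∀ l, T (c l) + (-c1) * Real.cos (φ l) + (-c2) * Real.sin (φ l) = 0 := by
    intro l
    refine ring_flat hc.ring.gap0 hc.ring.gap1
      (fun k => T (c k) + (-c1) * Real.cos (φ k) + (-c2) * Real.sin (φ k)) 0 l ?_ ?_ ?_ l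
      (Nat.zero_le l) le_rfl
    · intro k _ _
      rw [LL_linear hc.ring.gap0 hc.ring.gap1 (fun k => T (c k)) (-c1) (-c2) k]
      exact hL k
    · show T (c 0) + (-c1) * Real.cos (φ 0) + (-c2) * Real.sin (φ 0) = 0
      rw [h0]; ring
    · show T (c 1) + (-c1) * Real.cos (φ 1) + (-c2) * Real.sin (φ 1) = 0
      rw [h1]; ring
  apply hncop
  refine ⟨c1, c2, fun i hi => ?_⟩
  obtain ⟨l, rfl⟩ := hall i hi
  have := hD l
  rw [hc.cos, hc.sin]
  linarith

theorem sum_cycle {K : ℕ} {c : ℕ → I} {φ : ℕ → ℝ} (hc : IsCycle a b T m K c φ)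
    (g : I → ℝ) (hg : ∀ i, (∀ l, c l ≠ i) → g i = 0) :
    ∑ i, g i = ∑ l ∈ range K, g (c l) := by
  classical
  have hinj : Set.InjOn c (range K : Set ℕ) := by
    intro x hx y hy hxy
    exact hc.inj x y (mem_range.1 hx) (mem_range.1 hy) hxy
  rw [← Finset.sum_image (f := g) hinj]
  symm
  apply Finset.sum_subset (Finset.subset_univ _)
  intro i _ hi
  apply hg
  intro l hl
  apply hi
  rw [Finset.mem_image]
  -- reduce l modulo K
  have hper : ∀ q r, c (r + K * q) = c r := by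
    intro q r
    induction q with
    | zero => simp
    | succ q ih =>
      have : r + K * (q + 1) = (r + K * q) + K := by ring
      rw [this, hc.per, ih]
  refine ⟨l % K, mem_range.2 (Nat.mod_lt _ hc.ring.Kpos), ?_⟩
  rw [← hl]
  conv_rhs => rw [← Nat.mod_add_div l K]
  rw [hper]

theorem sum_shift (K : ℕ) (g : ℕ → ℝ) (hg : g K = g 0) :
    ∑ l ∈ range K, g (l + 1) = ∑ l ∈ range K, g l := by
  have h1 := Finset.sum_range_succ g K
  have h2 := Finset.sum_range_succ' g K
  linarith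

theorem notBot {K : ℕ} {c : ℕ → I} {φ : ℕ → ℝ} (hc : IsCycle a b T m K c φ) {i : I}
    (hi : ∀ l, c l ≠ i) : ¬ Bot a b T m i := by
  intro h
  obtain ⟨l, _, hl⟩ := hc.surj i h
  exact hi l hl

end P5

/-- the ring of a bottom cycle is nonpositive -/
theorem ring_of_cycle (hM : CN a b T M) (hbal : ∀ i, frc a b T M i = 0)
    (hconn : ∀ S : I → Prop, (∃ i, Act M i ∧ S i) → (∀ i j, M i j ≠ 0 → (S i ↔ S j)) →
      ∀ i, Act M i → S i)
    (hncop : ¬ ∃ c1 c2 : ℝ, ∀ i, Act M i → T i = c1 * a i + c2 * b i)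
    (n u : I → ℝ)
    (hiso : ∀ i j, M i j ≠ 0 → u j - u i = n i * tE a b T i j + n j * tW a b T i j)
    (h : PI a b T M m) {K : ℕ} {c : ℕ → I} {φ : ℕ → ℝ} (hc : IsCycle a b T m K c φ) :
    RB K φ (fun k => n (c k)) ≤ 0 := by
  obtain ⟨μ, hμ, hPI, -, hsub, hfrc, hfrc', -⟩ := peel_step h hc
  have hz : ∀ i, (∀ l, c l ≠ i) → frc a b T m i = 0 := fun i hi =>
    PI.frc_zero hM hbal h i (P5.notBot hc hi)
  have hz' : ∀ i, (∀ l, c l ≠ i) → frc a b T (peelOff m K c μ) i = 0 := fun i hi => by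
    rw [hfrc' i hi, hz i hi]
  have hp : ∀ l, 0 ≤ frc a b T m (c l) := fun l => PI.frc_nonneg hM hbal h _
  have hp' : ∀ l, 0 ≤ frc a b T (peelOff m K c μ) (c l) := fun l =>
    PI.frc_nonneg hM hbal hPI _
  by_cases hne : ∃ l, (frc a b T m (c l) + frc a b T (peelOff m K c μ) (c l)) / 2 ≠ 0
  · refine ring_neg hc.ring (fun k => n (c k))
      (fun l => (frc a b T m (c l) + frc a b T (peelOff m K c μ) (c l)) / 2) ?_ ?_ ?_ hne
      ?_ ?_ ?_
    · intro l
      show n (c (l + K)) = n (c l)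
      rw [hc.per]
    · intro l
      show (frc a b T m (c (l + K)) + frc a b T (peelOff m K c μ) (c (l + K))) / 2 = _
      rw [hc.per]
    · intro l
      have := hp l
      have := hp' l
      positivity
    · have e1 := frc_sum_a h.cn
      have e2 := frc_sum_a hPI.cn
      rw [P5.sum_cycle hc _ (fun i hi => by rw [hz i hi, zero_mul])] at e1
      rw [P5.sum_cycle hc _ (fun i hi => by rw [hz' i hi, zero_mul])] at e2
      have e3 : ∑ l ∈ range K, (frc a b T m (c l) +
          frc a b T (peelOff m K c μ) (c l)) / 2 * Real.cos (φ l) =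
          (∑ l ∈ range K, frc a b T m (c l) * a (c l) +
            ∑ l ∈ range K, frc a b T (peelOff m K c μ) (c l) * a (c l)) / 2 := by
        rw [← Finset.sum_add_distrib, Finset.sum_div]
        apply Finset.sum_congr rfl
        intro l _
        rw [hc.cos]; ring
      rw [e3, e1, e2]; norm_num
    · have e1 := frc_sum_b h.cn
      have e2 := frc_sum_b hPI.cn
      rw [P5.sum_cycle hc _ (fun i hi => by rw [hz i hi, zero_mul])] at e1
      rw [P5.sum_cycle hc _ (fun i hi => by rw [hz' i hi, zero_mul])] at e2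
      have e3 : ∑ l ∈ range K, (frc a b T m (c l) +
          frc a b T (peelOff m K c μ) (c l)) / 2 * Real.sin (φ l) =
          (∑ l ∈ range K, frc a b T m (c l) * b (c l) +
            ∑ l ∈ range K, frc a b T (peelOff m K c μ) (c l) * b (c l)) / 2 := by
        rw [← Finset.sum_add_distrib, Finset.sum_div]
        apply Finset.sum_congr rfl
        intro l _
        rw [hc.sin]; ring
      rw [e3, e1, e2]; norm_num
    · have e1 := frc_sum_n h.cn n u (fun i j hij => hiso i j (P5.supp h hij))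
      have e2 := frc_sum_n hPI.cn n u (fun i j hij => hiso i j (P5.supp hPI hij))
      rw [P5.sum_cycle hc _ (fun i hi => by rw [hz i hi, zero_mul])] at e1
      rw [P5.sum_cycle hc _ (fun i hi => by rw [hz' i hi, zero_mul])] at e2
      have e3 : ∑ l ∈ range K, (frc a b T m (c l) +
          frc a b T (peelOff m K c μ) (c l)) / 2 * n (c l) =
          (∑ l ∈ range K, frc a b T m (c l) * n (c l) +
            ∑ l ∈ range K, frc a b T (peelOff m K c μ) (c l) * n (c l)) / 2 := by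
        rw [← Finset.sum_add_distrib, Finset.sum_div]
        apply Finset.sum_congr rfl
        intro l _
        ring
      rw [e3, e1, e2]; norm_num
  · exfalso
    push Not at hne
    have g1 : ∀ l, frc a b T m (c l) = 0 := by
      intro l
      have := hne l
      have := hp l
      have := hp' l
      linarith
    have g2 : ∀ l, frc a b T (peelOff m K c μ) (c l) = 0 := by
      intro l
      have := hne l
      have := hp l
      have := hp' l
      linarith
    refine P5.flat_contra hM hbal hconn hncop h hc g1 ?_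
    intro l
    have := hfrc l
    rw [g1, g2] at this
    have h3 : μ * LL (fun k => T (c k)) φ l = 0 := by linarith
    exact (mul_eq_zero.1 h3).resolve_left hμ.ne'

theorem peel_main (hM : CN a b T M) (hbal : ∀ i, frc a b T M i = 0)
    (hconn : ∀ S : I → Prop, (∃ i, Act M i ∧ S i) → (∀ i j, M i j ≠ 0 → (S i ↔ S j)) →
      ∀ i, Act M i → S i)
    (hncop : ¬ ∃ c1 c2 : ℝ, ∀ i, Act M i → T i = c1 * a i + c2 * b i)
    (n u : I → ℝ)
    (hiso : ∀ i j, M i j ≠ 0 → u j - u i = n i * tE a b T i j + n j * tW a b T i j)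
    (h : PI a b T M m) : QQ a b m n ≤ 0 := by
  classical
  obtain ⟨N, hN⟩ : ∃ N, N = ((Finset.univ : Finset (I × I)).filter
    (fun p => m p.1 p.2 ≠ 0)).card := ⟨_, rfl⟩
  induction N using Nat.strong_induction_on generalizing m with
  | _ N ih =>
    by_cases hex : ∃ i j, m i j ≠ 0
    · obtain ⟨i, j, hij⟩ := hex
      obtain ⟨i0, hi0⟩ := h.cn.exists_bot (i0 := i) ⟨j, hij⟩
      obtain ⟨K, c, φ, hc, -⟩ := h.cn.exists_cycle hi0
      have hring := ring_of_cycle hM hbal hconn hncop n u hiso h hc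
      obtain ⟨μ, hμ, hPI, ⟨p, q, hpq, hpq'⟩, hsub, -, -, hQQ⟩ := peel_step h hc
      rw [hQQ n]
      have hlt : ((Finset.univ : Finset (I × I)).filter
          (fun x => peelOff m K c μ x.1 x.2 ≠ 0)).card < N := by
        rw [hN]
        apply Finset.card_lt_card
        rw [Finset.ssubset_iff_of_subset]
        · refine ⟨(p, q), Finset.mem_filter.2 ⟨Finset.mem_univ _, hpq⟩, ?_⟩
          intro hcon
          exact (Finset.mem_filter.1 hcon).2 hpq'
        · intro x hx
          rw [Finset.mem_filter] at hx ⊢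
          exact ⟨hx.1, hsub _ _ hx.2⟩
      have h2 := ih _ hlt hPI rfl
      have h3 : μ * RB K φ (fun k => n (c k)) ≤ 0 :=
        mul_nonpos_of_nonneg_of_nonpos hμ.le hring
      linarith
    · push Not at hex
      unfold QQ
      simp [hex]

/-- Equality: the first cycle has vanishing ring form. -/
theorem peel_first (hM : CN a b T M) (hbal : ∀ i, frc a b T M i = 0)
    (hconn : ∀ S : I → Prop, (∃ i, Act M i ∧ S i) → (∀ i j, M i j ≠ 0 → (S i ↔ S j)) →
      ∀ i, Act M i → S i)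
    (hncop : ¬ ∃ c1 c2 : ℝ, ∀ i, Act M i → T i = c1 * a i + c2 * b i)
    (n u : I → ℝ)
    (hiso : ∀ i j, M i j ≠ 0 → u j - u i = n i * tE a b T i j + n j * tW a b T i j)
    (h0 : QQ a b M n = 0) {K : ℕ} {c : ℕ → I} {φ : ℕ → ℝ} (hc : IsCycle a b T M K c φ) :
    RB K φ (fun k => n (c k)) = 0 := by
  have hring := ring_of_cycle hM hbal hconn hncop n u hiso (PI.refl hM) hc
  obtain ⟨μ, hμ, hPI, -, -, -, -, hQQ⟩ := peel_step (PI.refl hM) hc
  have h1 := hQQ n
  have h2 := peel_main hM hbal hconn hncop n u hiso hPI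
  rw [h0] at h1
  have h3 : 0 ≤ μ * RB K φ (fun k => n (c k)) := by linarith
  have h4 : 0 ≤ RB K φ (fun k => n (c k)) := by
    by_contra hcon
    push Not at hcon
    have := mul_neg_of_pos_of_neg hμ hcon
    linarith
  linarith

/-- The corner weights of the first cycle. -/
theorem first_corners (hM : CN a b T M) (hbal : ∀ i, frc a b T M i = 0)
    (hconn : ∀ S : I → Prop, (∃ i, Act M i ∧ S i) → (∀ i j, M i j ≠ 0 → (S i ↔ S j)) →
      ∀ i, Act M i → S i)
    (hncop : ¬ ∃ c1 c2 : ℝ, ∀ i, Act M i → T i = c1 * a i + c2 * b i)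
    (n u : I → ℝ)
    (hiso : ∀ i j, M i j ≠ 0 → u j - u i = n i * tE a b T i j + n j * tW a b T i j)
    {K : ℕ} {c : ℕ → I} {φ : ℕ → ℝ} (hc : IsCycle a b T M K c φ) :
    (∀ l, LL (fun k => T (c k)) φ l ≤ 0) ∧ (∃ l, LL (fun k => T (c k)) φ l ≠ 0) ∧
    ∑ l ∈ range K, LL (fun k => T (c k)) φ l * Real.cos (φ (l + 1)) = 0 ∧
    ∑ l ∈ range K, LL (fun k => T (c k)) φ l * Real.sin (φ (l + 1)) = 0 ∧
    ∑ l ∈ range K, LL (fun k => T (c k)) φ l * n (c (l + 1)) = 0 := by
  obtain ⟨μ, hμ, hPI, -, hsub, hfrc, hfrc', -⟩ := peel_step (PI.refl hM) hc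
  have hz' : ∀ i, (∀ l, c l ≠ i) → frc a b T (peelOff M K c μ) i = 0 := fun i hi => by
    rw [hfrc' i hi, hbal]
  have hp' : ∀ l, 0 ≤ frc a b T (peelOff M K c μ) (c l) := fun l =>
    PI.frc_nonneg hM hbal hPI _
  have hLL : ∀ l, frc a b T (peelOff M K c μ) (c (l + 1)) =
      -(μ * LL (fun k => T (c k)) φ l) := by
    intro l
    rw [hfrc l, hbal]; ring
  have gen : ∀ g : I → ℝ, ∑ i, frc a b T (peelOff M K c μ) i * g i = 0 →
      ∑ l ∈ range K, LL (fun k => T (c k)) φ l * g (c (l + 1)) = 0 := by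
    intro g hg
    rw [P5.sum_cycle hc _ (fun i hi => by rw [hz' i hi, zero_mul])] at hg
    rw [← P5.sum_shift K (fun l => frc a b T (peelOff M K c μ) (c l) * g (c l))] at hg
    · have e : ∑ l ∈ range K, frc a b T (peelOff M K c μ) (c (l + 1)) * g (c (l + 1)) =
          -(μ * ∑ l ∈ range K, LL (fun k => T (c k)) φ l * g (c (l + 1))) := by
        rw [Finset.mul_sum, ← Finset.sum_neg_distrib]
        apply Finset.sum_congr rfl
        intro l _
        rw [hLL]; ring
      rw [e] at hg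
      have h3 : μ * ∑ l ∈ range K, LL (fun k => T (c k)) φ l * g (c (l + 1)) = 0 := by
        linarith
      exact (mul_eq_zero.1 h3).resolve_left hμ.ne'
    · show frc a b T (peelOff M K c μ) (c K) * g (c K) = frc a b T (peelOff M K c μ) (c 0) *
        g (c 0)
      have : c K = c 0 := by
        have := hc.per 0
        rwa [Nat.zero_add] at this
      rw [this]
  refine ⟨?_, ?_, ?_, ?_, ?_⟩
  · intro l
    have h1 := hp' (l + 1)
    rw [hLL] at h1
    by_contra hcon
    push Not at hcon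
    have := mul_pos hμ hcon
    linarith
  · by_contra hcon
    push Not at hcon
    exact P5.flat_contra hM hbal hconn hncop (PI.refl hM) hc (fun l => hbal _) hcon
  · have := gen a (frc_sum_a hPI.cn)
    rw [← this]
    apply Finset.sum_congr rfl
    intro l _
    rw [hc.cos]
  · have := gen b (frc_sum_b hPI.cn)
    rw [← this]
    apply Finset.sum_congr rfl
    intro l _
    rw [hc.sin]
  · exact gen n (frc_sum_n hPI.cn n u (fun i j hij => hiso i j (P5.supp hPI hij)))

end

end SphJam
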