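import Pool.Agent.SphJam.Defs

set_option autoImplicit false
open Matrix

namespace SphJam

private lemma ext0 (κ b w : V3) (h1 : κ ⬝ᵥ w = 0) (h2 : b ⬝ᵥ w = 0)
    (h3 : (crossProduct κ b) ⬝ᵥ w = 0) (hA : 0 < (crossProduct κ b) ⬝ᵥ (crossProduct κ b)) : w = 0 := by
  have key : ∀ i, ((crossProduct κ b) ⬝ᵥ (crossProduct κ b)) * w i = 0 := by
    intro i
    simp only [cross_apply, dotProduct, Fin.sum_univ_three, Matrix.cons_val_zero,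
      Matrix.cons_val_one, Matrix.cons_val_two, Matrix.head_cons, Matrix.tail_cons,
      Matrix.cons_val] at h1 h2 h3 ⊢
    fin_cases i
    · simp only [Fin.zero_eta, Fin.isValue, Fin.mk_one, Fin.reduceFinMk]
      linear_combination (κ 1 * b 2 - κ 2 * b 1) * h3
        - ((κ 2 * b 0 - κ 0 * b 2) * b 2 - (κ 0 * b 1 - κ 1 * b 0) * b 1) * h1
        + ((κ 2 * b 0 - κ 0 * b 2) * κ 2 - (κ 0 * b 1 - κ 1 * b 0) * κ 1) * h2
    · simp only [Fin.zero_eta, Fin.isValue, Fin.mk_one, Fin.reduceFinMk]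
      linear_combination (κ 2 * b 0 - κ 0 * b 2) * h3
        - ((κ 0 * b 1 - κ 1 * b 0) * b 0 - (κ 1 * b 2 - κ 2 * b 1) * b 2) * h1
        + ((κ 0 * b 1 - κ 1 * b 0) * κ 0 - (κ 1 * b 2 - κ 2 * b 1) * κ 2) * h2
    · simp only [Fin.zero_eta, Fin.isValue, Fin.mk_one, Fin.reduceFinMk]
      linear_combination (κ 0 * b 1 - κ 1 * b 0) * h3
        - ((κ 1 * b 2 - κ 2 * b 1) * b 1 - (κ 2 * b 0 - κ 0 * b 2) * b 0) * h1
        + ((κ 1 * b 2 - κ 2 * b 1) * κ 1 - (κ 2 * b 0 - κ 0 * b 2) * κ 0) * h2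
  funext i
  have := key i
  rcases mul_eq_zero.1 this with h | h
  · exact absurd h hA.ne'
  · simpa using h

private lemma A_pos (κ b p : V3) (hκ0 : κ ≠ 0) (h : κ ⬝ᵥ p = 0) (hb : 0 < b ⬝ᵥ p) :
    0 < (crossProduct κ b) ⬝ᵥ (crossProduct κ b) := by
  have hκκ : 0 < κ ⬝ᵥ κ := by
    have h0 : 0 ≤ κ ⬝ᵥ κ := by
      simp only [dotProduct, Fin.sum_univ_three]; nlinarith [sq_nonneg (κ 0), sq_nonneg (κ 1), sq_nonneg (κ 2)]
    rcases h0.lt_or_eq with h1 | h1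
    · exact h1
    · exact absurd (dotProduct_self_eq_zero.1 h1.symm) hκ0
  have hnn : 0 ≤ (crossProduct κ b) ⬝ᵥ (crossProduct κ b) := by
    simp only [dotProduct]
    exact Finset.sum_nonneg fun i _ => mul_self_nonneg _
  rcases hnn.lt_or_eq with h1 | h1
  · exact h1
  · exfalso
    have hz : crossProduct κ b = 0 := dotProduct_self_eq_zero.1 h1.symm
    have e0 := congrFun hz 0
    have e1 := congrFun hz 1
    have e2 := congrFun hz 2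
    simp only [cross_apply, Matrix.cons_val_zero, Matrix.cons_val_one, Matrix.cons_val_two,
      Matrix.head_cons, Matrix.tail_cons, Matrix.cons_val, Pi.zero_apply] at e0 e1 e2
    have : (κ ⬝ᵥ κ) * (b ⬝ᵥ p) = 0 := by
      simp only [dotProduct, Fin.sum_univ_three] at h ⊢
      linear_combination (κ 0 * b 0 + κ 1 * b 1 + κ 2 * b 2) * h
        + (κ 2 * p 1 - κ 1 * p 2) * (-e0) + (κ 0 * p 2 - κ 2 * p 0) * (-e1)
        + (κ 1 * p 0 - κ 0 * p 1) * (-e2)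
    rcases mul_eq_zero.1 this with h2 | h2
    · exact absurd h2 hκκ.ne'
    · exact absurd h2 hb.ne'

theorem cover {n : ℕ} (P : Pack n) (W : Set (Fin n)) (ω : Fin n → Fin n → ℝ)
    (hω : IsStress P W ω) (b κ : V3) (S : Set (Fin n)) (hS : S ⊆ W) (hSne : ∃ i, i ∈ S)
    (hκ0 : κ ≠ 0) (hκ : ∀ i ∈ S, κ ⬝ᵥ P.p i = 0) (hb : ∀ i ∈ S, 0 < b ⬝ᵥ P.p i)
    (hadj : ∀ i ∈ S, ∃ j, ω i j ≠ 0)
    (hnb : ∀ i ∈ S, ∀ j, ω i j ≠ 0 → κ ⬝ᵥ P.p j = 0 ∧ (j ∈ S ∨ b ⬝ᵥ P.p j = 0))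
    (x : V3) (hx : κ ⬝ᵥ x = 0) (hbx : 0 < b ⬝ᵥ x) :
    ∃ i ∈ S, ∃ j, ω i j ≠ 0 ∧ ∃ γ δ : ℝ, 0 ≤ γ ∧ 0 ≤ δ ∧ x = γ • P.p i + δ • P.p j := by
  classical
  set A : V3 := crossProduct κ b with hAdef
  obtain ⟨i0, hi0⟩ := hSne
  have hAA : 0 < A ⬝ᵥ A := A_pos κ b (P.p i0) hκ0 (hκ i0 hi0) (hb i0 hi0)
  -- decomposition
  have dec : ∀ p q y : V3, κ ⬝ᵥ p = 0 → κ ⬝ᵥ q = 0 → κ ⬝ᵥ y = 0 →
      ((b ⬝ᵥ p) * (A ⬝ᵥ q) - (A ⬝ᵥ p) * (b ⬝ᵥ q)) • y =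
        ((b ⬝ᵥ y) * (A ⬝ᵥ q) - (A ⬝ᵥ y) * (b ⬝ᵥ q)) • p +
        ((b ⬝ᵥ p) * (A ⬝ᵥ y) - (A ⬝ᵥ p) * (b ⬝ᵥ y)) • q := by
    intro p q y hp hq hy
    have : ((b ⬝ᵥ p) * (A ⬝ᵥ q) - (A ⬝ᵥ p) * (b ⬝ᵥ q)) • y -
        (((b ⬝ᵥ y) * (A ⬝ᵥ q) - (A ⬝ᵥ y) * (b ⬝ᵥ q)) • p +
        ((b ⬝ᵥ p) * (A ⬝ᵥ y) - (A ⬝ᵥ p) * (b ⬝ᵥ y)) • q) = 0 := by
      apply ext0 κ b _ _ _ _ hAA
      · rw [dotProduct_sub, dotProduct_add, dotProduct_smul, dotProduct_smul, dotProduct_smul,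
          hp, hq, hy]; simp
      · rw [dotProduct_sub, dotProduct_add, dotProduct_smul, dotProduct_smul, dotProduct_smul]
        simp only [smul_eq_mul]; ring
      · rw [← hAdef, dotProduct_sub, dotProduct_add, dotProduct_smul, dotProduct_smul,
          dotProduct_smul]
        simp only [smul_eq_mul]; ring
    exact sub_eq_zero.1 this
  -- neighbours: nonzero D
  have hD0 : ∀ i ∈ S, ∀ j, ω i j ≠ 0 →
      (b ⬝ᵥ P.p i) * (A ⬝ᵥ P.p j) - (A ⬝ᵥ P.p i) * (b ⬝ᵥ P.p j) ≠ 0 := by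
    intro i hi j hij hD
    have hct := hω.supp i j hij
    have hk := (hnb i hi j hij).1
    have hw : (b ⬝ᵥ P.p i) • P.p j - (b ⬝ᵥ P.p j) • P.p i = 0 := by
      apply ext0 κ b _ _ _ _ hAA
      · rw [dotProduct_sub, dotProduct_smul, dotProduct_smul, hk, hκ i hi]; simp
      · rw [dotProduct_sub, dotProduct_smul, dotProduct_smul]
        simp only [smul_eq_mul]; ring
      · rw [← hAdef, dotProduct_sub, dotProduct_smul, dotProduct_smul]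
        simp only [smul_eq_mul]; linarith
    have hw' : (b ⬝ᵥ P.p i) • P.p j = (b ⬝ᵥ P.p j) • P.p i := sub_eq_zero.1 hw
    have hbi := hb i hi
    have hsq : (b ⬝ᵥ P.p i) ^ 2 = (b ⬝ᵥ P.p j) ^ 2 := by
      have h1 := congrArg (fun z => z ⬝ᵥ z) hw'
      simp only [smul_dotProduct, dotProduct_smul, P.unit, smul_eq_mul] at h1
      nlinarith [h1]
    have hbj : 0 ≤ b ⬝ᵥ P.p j := by
      rcases (hnb i hi j hij).2 with h | h
      · exact (hb j h).le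
      · rw [h]
    have heq : b ⬝ᵥ P.p j = b ⬝ᵥ P.p i := by nlinarith
    rw [heq] at hw'
    have hpp : P.p j = P.p i := by
      have := congrArg (fun z => (b ⬝ᵥ P.p i)⁻¹ • z) hw'
      simpa [smul_smul, inv_mul_cancel₀ hbi.ne'] using this
    have hc := hct.2
    rw [hpp, P.unit] at hc
    have hr1 := P.rpos i
    have hr2 := P.rpos j
    have hr3 := P.rle i
    have hr4 := P.rle j
    have hpi := Real.pi_gt_three
    have : Real.cos (P.r i + P.r j) < Real.cos 0 :=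
      Real.cos_lt_cos_of_nonneg_of_le_pi_div_two le_rfl (by linarith) (by linarith)
    rw [Real.cos_zero] at this
    linarith
  have hbal : ∀ i ∈ S,
      ∑ j, ω i j * ((b ⬝ᵥ P.p i) * (A ⬝ᵥ P.p j) - (A ⬝ᵥ P.p i) * (b ⬝ᵥ P.p j)) = 0 := by
    intro i hi
    have := hω.bal i (hS hi) ((b ⬝ᵥ P.p i) • A - (A ⬝ᵥ P.p i) • b) (by
      rw [sub_dotProduct, smul_dotProduct, smul_dotProduct]
      simp only [smul_eq_mul]; ring)
    simpa [sub_dotProduct, smul_dotProduct] using this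
  have hpos : ∀ i ∈ S, ∃ j, ω i j ≠ 0 ∧
      0 < (b ⬝ᵥ P.p i) * (A ⬝ᵥ P.p j) - (A ⬝ᵥ P.p i) * (b ⬝ᵥ P.p j) := by
    intro i hi
    by_contra hcon
    push_neg at hcon
    obtain ⟨j0, hj0⟩ := hadj i hi
    have hle : ∀ j ∈ Finset.univ, ω i j *
        ((b ⬝ᵥ P.p i) * (A ⬝ᵥ P.p j) - (A ⬝ᵥ P.p i) * (b ⬝ᵥ P.p j)) ≤ 0 := by
      intro j _
      by_cases h : ω i j = 0
      · rw [h, zero_mul]
      · exact mul_nonpos_of_nonneg_of_nonpos (hω.nonneg i j) (hcon j h)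
    have hz := (Finset.sum_eq_zero_iff_of_nonpos hle).1 (hbal i hi) j0 (Finset.mem_univ _)
    rcases mul_eq_zero.1 hz with h | h
    · exact hj0 h
    · exact hD0 i hi j0 hj0 h
  have hneg : ∀ i ∈ S, ∃ j, ω i j ≠ 0 ∧
      (b ⬝ᵥ P.p i) * (A ⬝ᵥ P.p j) - (A ⬝ᵥ P.p i) * (b ⬝ᵥ P.p j) < 0 := by
    intro i hi
    by_contra hcon
    push_neg at hcon
    obtain ⟨j0, hj0⟩ := hadj i hi
    have hle : ∀ j ∈ Finset.univ, 0 ≤ ω i j *
        ((b ⬝ᵥ P.p i) * (A ⬝ᵥ P.p j) - (A ⬝ᵥ P.p i) * (b ⬝ᵥ P.p j)) := by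
      intro j _
      by_cases h : ω i j = 0
      · rw [h, zero_mul]
      · exact mul_nonneg (hω.nonneg i j) (hcon j h)
    have hz := (Finset.sum_eq_zero_iff_of_nonneg hle).1 (hbal i hi) j0 (Finset.mem_univ _)
    rcases mul_eq_zero.1 hz with h | h
    · exact hj0 h
    · exact hD0 i hi j0 hj0 h
  have fin : ∀ i ∈ S, ∀ j, ω i j ≠ 0 →
      0 ≤ ((b ⬝ᵥ x) * (A ⬝ᵥ P.p j) - (A ⬝ᵥ x) * (b ⬝ᵥ P.p j)) /
        ((b ⬝ᵥ P.p i) * (A ⬝ᵥ P.p j) - (A ⬝ᵥ P.p i) * (b ⬝ᵥ P.p j)) →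
      0 ≤ ((b ⬝ᵥ P.p i) * (A ⬝ᵥ x) - (A ⬝ᵥ P.p i) * (b ⬝ᵥ x)) /
        ((b ⬝ᵥ P.p i) * (A ⬝ᵥ P.p j) - (A ⬝ᵥ P.p i) * (b ⬝ᵥ P.p j)) →
      ∃ i ∈ S, ∃ j, ω i j ≠ 0 ∧ ∃ γ δ : ℝ, 0 ≤ γ ∧ 0 ≤ δ ∧ x = γ • P.p i + δ • P.p j := by
    intro i hi j hij h1 h2
    refine ⟨i, hi, j, hij, _, _, h1, h2, ?_⟩
    have hd := dec (P.p i) (P.p j) x (hκ i hi) (hnb i hi j hij).1 hx
    have hne := hD0 i hi j hij
    have := congrArg (fun z => ((b ⬝ᵥ P.p i) * (A ⬝ᵥ P.p j) - (A ⬝ᵥ P.p i) * (b ⬝ᵥ P.p j))⁻¹ • z) hd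
    simp only [smul_smul, smul_add, inv_mul_cancel₀ hne, one_smul] at this
    exact this.trans (by simp only [div_eq_inv_mul])
  have hSfin : S.Finite := S.toFinite
  by_cases hcase : ∃ i ∈ S, 0 ≤ (b ⬝ᵥ P.p i) * (A ⬝ᵥ x) - (A ⬝ᵥ P.p i) * (b ⬝ᵥ x)
  · -- maximal slope
    set T : Finset (Fin n) := Finset.univ.filter
      (fun i => i ∈ S ∧ 0 ≤ (b ⬝ᵥ P.p i) * (A ⬝ᵥ x) - (A ⬝ᵥ P.p i) * (b ⬝ᵥ x)) with hT
    have hTne : T.Nonempty := by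
      obtain ⟨i, hi, h⟩ := hcase
      exact ⟨i, Finset.mem_filter.2 ⟨Finset.mem_univ _, hi, h⟩⟩
    obtain ⟨i, hiT, hmax⟩ := T.exists_max_image (fun i => (A ⬝ᵥ P.p i) / (b ⬝ᵥ P.p i)) hTne
    have hi : i ∈ S := by simp only [hT, Finset.mem_filter] at hiT; exact hiT.2.1
    have hix : 0 ≤ (b ⬝ᵥ P.p i) * (A ⬝ᵥ x) - (A ⬝ᵥ P.p i) * (b ⬝ᵥ x) := by
      simp only [hT, Finset.mem_filter] at hiT; exact hiT.2.2
    obtain ⟨j, hij, hDij⟩ := hpos i hi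
    have hbi := hb i hi
    have hxj : 0 ≤ (b ⬝ᵥ x) * (A ⬝ᵥ P.p j) - (A ⬝ᵥ x) * (b ⬝ᵥ P.p j) := by
      rcases (hnb i hi j hij).2 with hj | hj
      · by_contra hlt
        push_neg at hlt
        have hjT : j ∈ T := by
          simp only [hT, Finset.mem_filter, Finset.mem_univ, true_and]
          exact ⟨hj, by linarith⟩
        have hm := hmax j hjT
        have hbj := hb j hj
        rw [div_le_div_iff₀ hbj hbi] at hm
        nlinarith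
      · rw [hj] at hDij ⊢
        have h1 : 0 < (b ⬝ᵥ P.p i) * (A ⬝ᵥ P.p j) := by linarith
        have h2 : 0 < A ⬝ᵥ P.p j := by
          rcases (mul_pos_iff.1 h1) with h | h
          · exact h.2
          · linarith [h.1]
        have := mul_pos hbx h2
        linarith
    exact fin i hi j hij (div_nonneg hxj hDij.le) (div_nonneg hix hDij.le)
  · push_neg at hcase
    set T : Finset (Fin n) := Finset.univ.filter (fun i => i ∈ S) with hT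
    have hTne : T.Nonempty := ⟨i0, by simp [hT, hi0]⟩
    obtain ⟨i, hiT, hmin⟩ := T.exists_min_image (fun i => (A ⬝ᵥ P.p i) / (b ⬝ᵥ P.p i)) hTne
    have hi : i ∈ S := by simp only [hT, Finset.mem_filter] at hiT; exact hiT.2
    have hix := hcase i hi
    obtain ⟨j, hij, hDij⟩ := hneg i hi
    have hbi := hb i hi
    have hxj : (b ⬝ᵥ x) * (A ⬝ᵥ P.p j) - (A ⬝ᵥ x) * (b ⬝ᵥ P.p j) ≤ 0 := by
      rcases (hnb i hi j hij).2 with hj | hj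
      · exfalso
        have hjT : j ∈ T := by simp [hT, hj]
        have hm := hmin j hjT
        have hbj := hb j hj
        rw [div_le_div_iff₀ hbi hbj] at hm
        nlinarith
      · rw [hj] at hDij ⊢
        have h1 : (b ⬝ᵥ P.p i) * (A ⬝ᵥ P.p j) < 0 := by linarith
        have h2 : A ⬝ᵥ P.p j < 0 := by
          by_contra hcon
          push_neg at hcon
          have := mul_nonneg hbi.le hcon
          linarith
        have := mul_neg_of_pos_of_neg hbx h2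
        linarith
    exact fin i hi j hij (div_nonneg_of_nonpos hxj hDij.le) (div_nonneg_of_nonpos hix.le hDij.le)

end SphJam
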