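import Pool.Agent.SphJam.Defs

set_option autoImplicit false
open Matrix

namespace SphJam

theorem ground {n : ℕ} (P : Pack n) (W : Set (Fin n)) (b : V3) (v : Fin n → V3)
    (hW : ∀ i, i ∉ W → v i = 0) (ω : Fin n → Fin n → ℝ) (hω : IsStress P W ω)
    (hb : ∀ i ∈ W, 0 < b ⬝ᵥ P.p i) (hb' : ∀ i ∈ W, ∀ j, ω i j ≠ 0 → 0 ≤ b ⬝ᵥ P.p j)
    (hE : 0 ≤ EE P ω v) :
    (∀ i ∈ W, ∀ j ∈ W, ω i j ≠ 0 → (b ⬝ᵥ P.p j) • v i = (b ⬝ᵥ P.p i) • v j) ∧
    (∀ i ∈ W, ∀ j, j ∉ W → ω i j ≠ 0 → v i ≠ 0 → b ⬝ᵥ P.p j = 0) := by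
  classical
  set h : Fin n → ℝ := fun i => b ⬝ᵥ P.p i with hh
  set a : Fin n → ℝ := fun i => v i ⬝ᵥ v i with ha
  have hm : ∀ i ∈ W, (∑ j, ω i j * (P.p i ⬝ᵥ P.p j)) * h i = ∑ j, ω i j * h j := by
    intro i hi
    have h1 := hω.bal i hi (b - (b ⬝ᵥ P.p i) • P.p i) (by
      rw [sub_dotProduct, smul_dotProduct, P.unit i]; simp)
    simp only [sub_dotProduct, smul_dotProduct, smul_eq_mul, mul_sub, Finset.sum_sub_distrib] at h1
    rw [sub_eq_zero] at h1
    rw [Finset.sum_mul]
    rw [show (∑ j, ω i j * h j) = ∑ j, ω i j * (b ⬝ᵥ P.p j) from rfl, h1]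
    refine Finset.sum_congr rfl fun j _ => ?_
    ring
  let w : Fin n → Fin n → V3 := fun i j => (h i)⁻¹ • v i - (h j)⁻¹ • v j
  let T : Fin n → Fin n → ℝ := fun i j =>
    if i ∈ W ∧ j ∈ W then ω i j * h i * h j * (w i j ⬝ᵥ w i j) else 0
  let S : Fin n → Fin n → ℝ := fun i j =>
    if i ∈ W ∧ j ∉ W then ω i j * (h j * (h i)⁻¹) * a i else 0
  let G : Fin n → Fin n → ℝ := fun i j =>
    ω i j * (v i ⬝ᵥ v j) - (if i ∈ W then ω i j * (h j * (h i)⁻¹) * a i else 0)
  have hEG : EE P ω v = ∑ i, ∑ j, G i j := by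
    unfold EE
    refine Finset.sum_congr rfl fun i _ => ?_
    simp only [G, mul_sub, Finset.sum_sub_distrib]
    congr 1
    by_cases hi : i ∈ W
    · simp only [hi, if_true]
      have hne : h i ≠ 0 := (hb i hi).ne'
      have h1 := hm i hi
      have h2 : ∑ j, ω i j * ((P.p i ⬝ᵥ P.p j) * a i) = (∑ j, ω i j * (P.p i ⬝ᵥ P.p j)) * a i := by
        rw [Finset.sum_mul]
        refine Finset.sum_congr rfl fun j _ => ?_
        ring
      have h3 : ∑ j, ω i j * (h j * (h i)⁻¹) * a i = (∑ j, ω i j * h j) * (h i)⁻¹ * a i := by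
        rw [Finset.sum_mul, Finset.sum_mul]
        refine Finset.sum_congr rfl fun j _ => ?_
        ring
      show ∑ j, ω i j * ((P.p i ⬝ᵥ P.p j) * a i) = _
      rw [h2, h3, ← h1]
      field_simp
    · simp only [hi, if_false, Finset.sum_const_zero]
      apply Finset.sum_eq_zero
      intro j _
      rw [hW i hi]; simp
  have hpt : ∀ i j, G i j + G j i = -T i j - S i j - S j i := by
    intro i j
    simp only [G, T, S, w]
    rw [hω.symm j i]
    by_cases hi : i ∈ W <;> by_cases hj : j ∈ W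
    · simp only [hi, hj, and_self, if_true, not_true, and_false, if_false]
      have hi0 : h i ≠ 0 := (hb i hi).ne'
      have hj0 : h j ≠ 0 := (hb j hj).ne'
      simp only [sub_dotProduct, dotProduct_sub, smul_dotProduct, dotProduct_smul, smul_eq_mul]
      rw [dotProduct_comm (v j) (v i)]
      simp only [ha]
      field_simp
      ring
    · simp only [hi, hj, and_self, if_true, not_false_eq_true, and_false, if_false, not_true,
        false_and]
      rw [hW j hj]
      simp only [dotProduct_zero, zero_dotProduct]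
      ring
    · simp only [hi, hj, and_self, if_true, not_false_eq_true, and_false, if_false, not_true,
        false_and]
      rw [hW i hi]
      simp only [dotProduct_zero, zero_dotProduct]
      ring
    · simp only [hi, hj, and_self, if_false, false_and]
      rw [hW i hi, hW j hj]
      simp
  have hsum : 2 * EE P ω v = -(∑ i, ∑ j, T i j) - 2 * ∑ i, ∑ j, S i j := by
    have h1 : ∑ i, ∑ j, (G i j + G j i) = 2 * EE P ω v := by
      simp only [Finset.sum_add_distrib]
      rw [Finset.sum_comm (f := fun i j => G j i), ← hEG]; ring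
    rw [← h1]
    simp only [hpt, Finset.sum_sub_distrib, Finset.sum_neg_distrib]
    rw [Finset.sum_comm (f := fun i j => S j i)]; ring
  have hT : ∀ i j, 0 ≤ T i j := by
    intro i j
    simp only [T]
    split_ifs with hij
    · have h1 := hω.nonneg i j
      have h2 := hb i hij.1
      have h3 := hb j hij.2
      have h4 : 0 ≤ w i j ⬝ᵥ w i j := by
        simp only [dotProduct]
        exact Finset.sum_nonneg fun k _ => mul_self_nonneg _
      positivity
    · exact le_rfl
  have hS : ∀ i j, 0 ≤ S i j := by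
    intro i j
    simp only [S]
    split_ifs with hij
    · have h1 := hω.nonneg i j
      have h2 := hb i hij.1
      have h4 : 0 ≤ a i := by
        simp only [ha, dotProduct]
        exact Finset.sum_nonneg fun k _ => mul_self_nonneg _
      by_cases h0 : ω i j = 0
      · rw [h0]; simp
      · have h3 := hb' i hij.1 j h0
        have h5 : 0 ≤ h j := h3
        have h6 : 0 < h i := h2
        positivity
    · exact le_rfl
  have hTs : 0 ≤ ∑ i, ∑ j, T i j := Finset.sum_nonneg fun i _ => Finset.sum_nonneg fun j _ => hT i j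
  have hSs : 0 ≤ ∑ i, ∑ j, S i j := Finset.sum_nonneg fun i _ => Finset.sum_nonneg fun j _ => hS i j
  have hT0 : ∑ i, ∑ j, T i j = 0 := by linarith
  have hS0 : ∑ i, ∑ j, S i j = 0 := by linarith
  have hT1 : ∀ i j, T i j = 0 := by
    intro i j
    have h1 := (Finset.sum_eq_zero_iff_of_nonneg
      (fun i _ => Finset.sum_nonneg fun j _ => hT i j)).1 hT0 i (Finset.mem_univ i)
    exact (Finset.sum_eq_zero_iff_of_nonneg (fun j _ => hT i j)).1 h1 j (Finset.mem_univ j)
  have hS1 : ∀ i j, S i j = 0 := by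
    intro i j
    have h1 := (Finset.sum_eq_zero_iff_of_nonneg
      (fun i _ => Finset.sum_nonneg fun j _ => hS i j)).1 hS0 i (Finset.mem_univ i)
    exact (Finset.sum_eq_zero_iff_of_nonneg (fun j _ => hS i j)).1 h1 j (Finset.mem_univ j)
  refine ⟨?_, ?_⟩
  · intro i hi j hj hij
    have h1 := hT1 i j
    simp only [T, hi, hj, and_self, if_true] at h1
    have hi0 : h i ≠ 0 := (hb i hi).ne'
    have hj0 : h j ≠ 0 := (hb j hj).ne'
    have h2 : w i j ⬝ᵥ w i j = 0 := by
      rcases mul_eq_zero.1 h1 with h3 | h3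
      · exfalso
        rcases mul_eq_zero.1 h3 with h4 | h4
        · rcases mul_eq_zero.1 h4 with h5 | h5
          · exact hij h5
          · exact hi0 h5
        · exact hj0 h4
      · exact h3
    have h3 : w i j = 0 := dotProduct_self_eq_zero.1 h2
    have h4 : (h i)⁻¹ • v i = (h j)⁻¹ • v j := sub_eq_zero.1 h3
    have h5 : (h i * h j) • ((h i)⁻¹ • v i) = (h i * h j) • ((h j)⁻¹ • v j) := by rw [h4]
    rw [smul_smul, smul_smul] at h5
    have e1 : h i * h j * (h i)⁻¹ = h j := by field_simp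
    have e2 : h i * h j * (h j)⁻¹ = h i := by field_simp
    rw [e1, e2] at h5
    exact h5
  · intro i hi j hj hij hv
    have h1 := hS1 i j
    simp only [S, hi, hj, not_false_eq_true, and_self, if_true] at h1
    have hi0 : (h i)⁻¹ ≠ 0 := inv_ne_zero (hb i hi).ne'
    rcases mul_eq_zero.1 h1 with h3 | h3
    · rcases mul_eq_zero.1 h3 with h4 | h4
      · exact absurd h4 hij
      · rcases mul_eq_zero.1 h4 with h5 | h5
        · exact h5
        · exact absurd h5 hi0
    · exact absurd (dotProduct_self_eq_zero.1 h3) hv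

end SphJam
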