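import Pool.Agent.SphJam.Defs

set_option autoImplicit false
open Matrix

namespace SphJam

open Filter Topology

theorem mo_sqrt {x y : ℝ} (hx : 0 ≤ x) (hy : 0 ≤ y) :
    1 + (x + y) / 2 - (x + y) ^ 2 / 8 ≤ Real.sqrt ((1 + x) * (1 + y)) := by
  rcases le_or_gt (x + y) 8 with h | h
  · apply Real.le_sqrt_of_sq_le
    have hz : 0 ≤ x + y := by positivity
    have h1 : (1 + (x + y) / 2 - (x + y) ^ 2 / 8) ^ 2 = 1 + (x + y) -
        (x + y) ^ 3 * (8 - (x + y)) / 64 := by ring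
    rw [h1]
    have h2 : 0 ≤ (x + y) ^ 3 * (8 - (x + y)) := mul_nonneg (by positivity) (by linarith)
    have h3 : 0 ≤ x * y := mul_nonneg hx hy
    nlinarith
  · have h1 : 1 + (x + y) / 2 - (x + y) ^ 2 / 8 ≤ 0 := by nlinarith
    exact h1.trans (Real.sqrt_nonneg _)

/-- positivity of a polynomial near `0` -/
theorem mo_pos (L B K0 K1 A2 A3 A4 c : ℝ) (h : L < 0 ∨ (L = 0 ∧ B < 0)) :
    ∀ᶠ s in 𝓝[≥] (0 : ℝ), 0 < s → 0 < -(s * L) - s ^ 2 * (B / 2) +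
      s ^ 3 * (K0 + s * (K1 - c / 8 * (A2 + s * A3 + s ^ 2 * A4) ^ 2)) := by
  rcases h with h | ⟨h, h'⟩
  · have hc : Continuous (fun s : ℝ => -L - s * (B / 2) +
      s ^ 2 * (K0 + s * (K1 - c / 8 * (A2 + s * A3 + s ^ 2 * A4) ^ 2))) := by fun_prop
    have h1 : ∀ᶠ s in 𝓝 (0 : ℝ), 0 < -L - s * (B / 2) +
      s ^ 2 * (K0 + s * (K1 - c / 8 * (A2 + s * A3 + s ^ 2 * A4) ^ 2)) := by
      apply hc.continuousAt.eventually_const_lt
      simpa using h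
    filter_upwards [mem_nhdsWithin_of_mem_nhds h1] with s hs hs0
    have := mul_pos hs0 hs
    nlinarith
  · have hc : Continuous (fun s : ℝ => - (B / 2) +
      s * (K0 + s * (K1 - c / 8 * (A2 + s * A3 + s ^ 2 * A4) ^ 2))) := by fun_prop
    have h1 : ∀ᶠ s in 𝓝 (0 : ℝ), 0 < - (B / 2) +
      s * (K0 + s * (K1 - c / 8 * (A2 + s * A3 + s ^ 2 * A4) ^ 2)) := by
      apply hc.continuousAt.eventually_const_lt
      simp
      linarith
    filter_upwards [mem_nhdsWithin_of_mem_nhds h1] with s hs hs0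
    have h2 := mul_pos (pow_pos hs0 2) hs
    rw [h]
    nlinarith

/-- displacement -/
noncomputable def mu (v a : V3) (s : ℝ) : V3 := s • v + (s ^ 2 / 2) • a

/-- squared length of the moved point before normalisation -/
noncomputable def mD (v a : V3) (s : ℝ) : ℝ := 1 + mu v a s ⬝ᵥ mu v a s

/-- moved point -/
noncomputable def mq (p v a : V3) (s : ℝ) : V3 := (Real.sqrt (mD v a s))⁻¹ • (p + mu v a s)

theorem dot_self_nonneg' (x : V3) : 0 ≤ x ⬝ᵥ x := by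
  simp only [dotProduct]
  exact Finset.sum_nonneg fun i _ => mul_self_nonneg _

theorem mD_ge (v a : V3) (s : ℝ) : 1 ≤ mD v a s := by
  unfold mD; linarith [dot_self_nonneg' (mu v a s)]

theorem mq_zero (p v a : V3) : mq p v a 0 = p := by
  simp [mq, mD, mu]

theorem mq_cont (p v a : V3) : Continuous (mq p v a) := by
  unfold mq
  have h1 : Continuous (mu v a) := by unfold mu; fun_prop
  have h2 : Continuous (mD v a) := by
    unfold mD
    apply Continuous.add continuous_const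
    simp only [dotProduct]
    apply continuous_finset_sum
    intro i _
    exact ((continuous_apply i).comp h1).mul ((continuous_apply i).comp h1)
  have h3 : Continuous (fun s => (Real.sqrt (mD v a s))⁻¹) := by
    apply Continuous.inv₀ (Real.continuous_sqrt.comp h2)
    intro s
    have := mD_ge v a s
    simp only [Function.comp]
    positivity
  exact h3.smul (continuous_const.add h1)

theorem mq_dot (p v a p' v' a' : V3) (s : ℝ) :
    mq p v a s ⬝ᵥ mq p' v' a' s = ((p + mu v a s) ⬝ᵥ (p' + mu v' a' s)) /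
      Real.sqrt (mD v a s * mD v' a' s) := by
  unfold mq
  rw [smul_dotProduct, dotProduct_smul, Real.sqrt_mul (by linarith [mD_ge v a s])]
  have h1 := mD_ge v a s
  have h2 := mD_ge v' a' s
  have h3 : 0 < Real.sqrt (mD v a s) := Real.sqrt_pos.2 (by linarith)
  have h4 : 0 < Real.sqrt (mD v' a' s) := Real.sqrt_pos.2 (by linarith)
  simp only [smul_eq_mul]
  field_simp

theorem mq_unit (p v a : V3) (s : ℝ) (hp : p ⬝ᵥ p = 1) (hv : p ⬝ᵥ v = 0) (ha : p ⬝ᵥ a = 0) :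
    mq p v a s ⬝ᵥ mq p v a s = 1 := by
  rw [mq_dot]
  have h1 := mD_ge v a s
  have h2 : p ⬝ᵥ mu v a s = 0 := by
    unfold mu; rw [dotProduct_add, dotProduct_smul, dotProduct_smul, hv, ha]; simp
  have h3 : (p + mu v a s) ⬝ᵥ (p + mu v a s) = mD v a s := by
    unfold mD
    rw [add_dotProduct, dotProduct_add, dotProduct_add, h2, dotProduct_comm (mu v a s) p, h2, hp]
    ring
  rw [h3, Real.sqrt_mul_self (by linarith)]
  exact div_self (by linarith)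

theorem mo_pair (p v a p' v' a' : V3) (c : ℝ) (hc : 0 < c) (hcc : p ⬝ᵥ p' = c)
    (h : p ⬝ᵥ v' + p' ⬝ᵥ v < 0 ∨ (p ⬝ᵥ v' + p' ⬝ᵥ v = 0 ∧
      2 * (v ⬝ᵥ v') - c * (v ⬝ᵥ v + v' ⬝ᵥ v') + (p ⬝ᵥ a' + p' ⬝ᵥ a) < 0)) :
    ∀ᶠ s in 𝓝[≥] (0 : ℝ), 0 < s → mq p v a s ⬝ᵥ mq p' v' a' s < c := by
  have h1 := mo_pos (p ⬝ᵥ v' + p' ⬝ᵥ v)
    (2 * (v ⬝ᵥ v') - c * (v ⬝ᵥ v + v' ⬝ᵥ v') + (p ⬝ᵥ a' + p' ⬝ᵥ a))
    (c / 2 * (v ⬝ᵥ a + v' ⬝ᵥ a') - (v ⬝ᵥ a' + a ⬝ᵥ v') / 2)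
    (c / 2 * ((a ⬝ᵥ a + a' ⬝ᵥ a') / 4) - (a ⬝ᵥ a') / 4)
    (v ⬝ᵥ v + v' ⬝ᵥ v') (v ⬝ᵥ a + v' ⬝ᵥ a') ((a ⬝ᵥ a + a' ⬝ᵥ a') / 4) c h
  filter_upwards [h1] with s hs hs0
  have h2 := hs hs0
  rw [mq_dot]
  have hD := mD_ge v a s
  have hD' := mD_ge v' a' s
  have hsq : 0 < Real.sqrt (mD v a s * mD v' a' s) := Real.sqrt_pos.2 (by nlinarith)
  rw [div_lt_iff₀ hsq]
  have hx : 0 ≤ mu v a s ⬝ᵥ mu v a s := dot_self_nonneg' _
  have hy : 0 ≤ mu v' a' s ⬝ᵥ mu v' a' s := dot_self_nonneg' _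
  have h3 := mul_le_mul_of_nonneg_left (mo_sqrt hx hy) hc.le
  refine lt_of_lt_of_le ?_ h3
  have e1 : mu v a s ⬝ᵥ mu v a s = s ^ 2 * (v ⬝ᵥ v) + s ^ 3 * (v ⬝ᵥ a) + s ^ 4 / 4 * (a ⬝ᵥ a) := by
    unfold mu
    simp only [add_dotProduct, dotProduct_add, smul_dotProduct, dotProduct_smul, smul_eq_mul]
    rw [dotProduct_comm a v]
    ring
  have e2 : mu v' a' s ⬝ᵥ mu v' a' s =
      s ^ 2 * (v' ⬝ᵥ v') + s ^ 3 * (v' ⬝ᵥ a') + s ^ 4 / 4 * (a' ⬝ᵥ a') := by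
    unfold mu
    simp only [add_dotProduct, dotProduct_add, smul_dotProduct, dotProduct_smul, smul_eq_mul]
    rw [dotProduct_comm a' v']
    ring
  have e3 : (p + mu v a s) ⬝ᵥ (p' + mu v' a' s) = c + s * (p ⬝ᵥ v' + p' ⬝ᵥ v) +
      s ^ 2 * ((p ⬝ᵥ a' + p' ⬝ᵥ a) / 2 + v ⬝ᵥ v') + s ^ 3 * ((v ⬝ᵥ a' + a ⬝ᵥ v') / 2) +
      s ^ 4 * (a ⬝ᵥ a') / 4 := by
    unfold mu
    simp only [add_dotProduct, dotProduct_add, smul_dotProduct, dotProduct_smul, smul_eq_mul]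
    rw [hcc, dotProduct_comm v p', dotProduct_comm a p']
    ring
  rw [e1, e2, e3]
  nlinarith [h2]

open Filter Topology

theorem mo_ortho (R : Matrix (Fin 3) (Fin 3) ℝ) (hR : R ∈ Matrix.orthogonalGroup (Fin 3) ℝ)
    (x y : V3) : (R *ᵥ x) ⬝ᵥ (R *ᵥ y) = x ⬝ᵥ y := by
  have h1 : Rᵀ * R = 1 := by
    have := (Matrix.mem_orthogonalGroup_iff' (Fin 3) ℝ).1 hR
    simpa [Matrix.star_eq_conjTranspose, Matrix.conjTranspose_eq_transpose_of_trivial] using this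
  rw [Matrix.dotProduct_mulVec, ← Matrix.vecMul_transpose, Matrix.vecMul_vecMul, h1,
    Matrix.vecMul_one]

theorem motion_of_second_order {n : ℕ} (P : Pack n) (v a : Fin n → V3)
    (hv : ∀ i, P.p i ⬝ᵥ v i = 0) (ha : ∀ i, P.p i ⬝ᵥ a i = 0)
    (h1 : ∀ i j, P.Ct i j → P.p i ⬝ᵥ v j + P.p j ⬝ᵥ v i ≤ 0)
    (h2 : ∀ i j, P.Ct i j → P.p i ⬝ᵥ v j + P.p j ⬝ᵥ v i = 0 →
      (2 * (v i ⬝ᵥ v j) - (P.p i ⬝ᵥ P.p j) * (v i ⬝ᵥ v i + v j ⬝ᵥ v j)
        + (P.p i ⬝ᵥ a j + P.p j ⬝ᵥ a i) < 0) ∨ (v i = 0 ∧ v j = 0 ∧ a i = 0 ∧ a j = 0))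
    (h3 : ∃ i j, P.Ct i j ∧ ¬ (v i = 0 ∧ v j = 0 ∧ a i = 0 ∧ a j = 0)) : HasMotion P := by
  -- pairwise statement
  have hpair : ∀ i j, i ≠ j → ∀ᶠ s in 𝓝[≥] (0 : ℝ),
      (mq (P.p i) (v i) (a i) s ⬝ᵥ mq (P.p j) (v j) (a j) s ≤ Real.cos (P.r i + P.r j) ∧
      (P.Ct i j → ¬ (v i = 0 ∧ v j = 0 ∧ a i = 0 ∧ a j = 0) → 0 < s →
        mq (P.p i) (v i) (a i) s ⬝ᵥ mq (P.p j) (v j) (a j) s < Real.cos (P.r i + P.r j))) := by
    intro i j hij
    have hcpos : 0 < Real.cos (P.r i + P.r j) := by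
      apply Real.cos_pos_of_mem_Ioo
      have := P.rle i
      have := P.rle j
      have := P.rpos i
      have := P.rpos j
      have := Real.pi_gt_three
      constructor <;> linarith
    rcases lt_or_eq_of_le (P.sep i j hij) with hlt | heq
    · have hc : Continuous (fun s => mq (P.p i) (v i) (a i) s ⬝ᵥ mq (P.p j) (v j) (a j) s) := by
        simp only [dotProduct]
        apply continuous_finset_sum
        intro k _
        exact ((continuous_apply k).comp (mq_cont _ _ _)).mul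
          ((continuous_apply k).comp (mq_cont _ _ _))
      have h4 : ∀ᶠ s in 𝓝 (0 : ℝ), mq (P.p i) (v i) (a i) s ⬝ᵥ mq (P.p j) (v j) (a j) s <
          Real.cos (P.r i + P.r j) := by
        apply hc.continuousAt.eventually_lt_const
        simpa [mq_zero] using hlt
      filter_upwards [mem_nhdsWithin_of_mem_nhds h4] with s hs
      exact ⟨le_of_lt hs, fun _ _ _ => hs⟩
    · have hct : P.Ct i j := ⟨hij, heq⟩
      by_cases hz : v i = 0 ∧ v j = 0 ∧ a i = 0 ∧ a j = 0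
      · refine Eventually.of_forall fun s => ⟨?_, fun _ hn => absurd hz hn⟩
        rw [hz.1, hz.2.1, hz.2.2.1, hz.2.2.2]
        have e : ∀ p : V3, mq p 0 0 s = p := by
          intro p; simp [mq, mD, mu]
        rw [e, e, heq]
      · have h5 : P.p i ⬝ᵥ v j + P.p j ⬝ᵥ v i < 0 ∨ (P.p i ⬝ᵥ v j + P.p j ⬝ᵥ v i = 0 ∧
            2 * (v i ⬝ᵥ v j) - Real.cos (P.r i + P.r j) * (v i ⬝ᵥ v i + v j ⬝ᵥ v j)
            + (P.p i ⬝ᵥ a j + P.p j ⬝ᵥ a i) < 0) := by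
          rcases lt_or_eq_of_le (h1 i j hct) with h | h
          · exact Or.inl h
          · rcases h2 i j hct h with h' | h'
            · right; rw [heq] at h'; exact ⟨h, h'⟩
            · exact absurd h' hz
        filter_upwards [mo_pair _ _ _ _ _ _ _ hcpos heq h5, self_mem_nhdsWithin] with s hs hs0
        have hs0' : 0 ≤ s := hs0
        refine ⟨?_, fun _ _ hp => hs hp⟩
        rcases eq_or_lt_of_le hs0' with h | h
        · rw [← h, mq_zero, mq_zero, heq]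
        · exact (hs h).le
  have hall : ∀ᶠ s in 𝓝[≥] (0 : ℝ), ∀ i j, i ≠ j →
      (mq (P.p i) (v i) (a i) s ⬝ᵥ mq (P.p j) (v j) (a j) s ≤ Real.cos (P.r i + P.r j) ∧
      (P.Ct i j → ¬ (v i = 0 ∧ v j = 0 ∧ a i = 0 ∧ a j = 0) → 0 < s →
        mq (P.p i) (v i) (a i) s ⬝ᵥ mq (P.p j) (v j) (a j) s < Real.cos (P.r i + P.r j))) := by
    rw [eventually_all]
    intro i
    rw [eventually_all]
    intro j
    by_cases hij : i = j
    · exact Eventually.of_forall fun s h => absurd hij h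
    · filter_upwards [hpair i j hij] with s hs _ using hs
  obtain ⟨τ, hτ, hsub⟩ := mem_nhdsGE_iff_exists_Icc_subset.1 hall
  have hτ0 : (0 : ℝ) < τ := hτ
  set qf : ℝ → Fin n → V3 := fun s i => mq (P.p i) (v i) (a i) s with hqf
  have hqc : Continuous qf := continuous_pi fun i => mq_cont _ _ _
  have hq0 : qf 0 = P.p := by
    funext i; simp [hqf, mq_zero]
  refine ⟨qf τ, ⟨⟨fun t => qf (τ * (t : ℝ)), ?_⟩, ?_, ?_⟩, ?_, ?_⟩
  · exact hqc.comp (continuous_const.mul continuous_subtype_val)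
  · simp [hq0]
  · simp
  · intro t
    have ht : τ * (t : ℝ) ∈ Set.Icc 0 τ := by
      have h5 := t.2.1
      have h6 := t.2.2
      constructor
      · positivity
      · nlinarith
    constructor
    · intro i
      exact mq_unit _ _ _ _ (P.unit i) (hv i) (ha i)
    · intro i j hij
      exact (hsub ht i j hij).1
  · rintro ⟨R, hR, hRq⟩
    obtain ⟨i, j, hct, hnz⟩ := h3
    have h5 := (hsub (show τ ∈ Set.Icc 0 τ from ⟨hτ0.le, le_rfl⟩) i j hct.1).2 hct hnz hτ0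
    have h6 : qf τ i ⬝ᵥ qf τ j = P.p i ⬝ᵥ P.p j := by
      rw [hRq i, hRq j, mo_ortho R hR]
    have h7 : qf τ i ⬝ᵥ qf τ j < Real.cos (P.r i + P.r j) := h5
    rw [h6, hct.2] at h7
    exact lt_irrefl _ h7

end SphJam
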