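import Pool.Agent.SphJam.Farkas
import Pool.Agent.SphJam.SecOrdMotion

set_option autoImplicit false
open Matrix

namespace SphJam

theorem j4351_sum {ι : Type*} [Fintype ι] (p : ι → Prop) [DecidablePred p]
    (w : {x // p x} → ℝ) (F : ι → ℝ) :
    ∑ k : {x // p x}, w k * F k.1 = ∑ x, (if h : p x then w ⟨x, h⟩ else 0) * F x := by
  have h1 : ∑ x, (if h : p x then w ⟨x, h⟩ else 0) * F x =
      ∑ x ∈ Finset.univ.filter p, (if h : p x then w ⟨x, h⟩ else 0) * F x := by
    symm
    apply Finset.sum_subset (Finset.filter_subset _ _)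
    intro x _ hx
    have hx' : ¬ p x := by simpa using hx
    rw [dif_neg hx', zero_mul]
  have h2 : ∀ x, x ∈ Finset.univ.filter p ↔ p x := by
    intro x
    simp
  rw [h1, Finset.sum_subtype (Finset.univ.filter p) h2
    (fun x => (if h : p x then w ⟨x, h⟩ else 0) * F x)]
  refine Finset.sum_congr rfl ?_
  rintro ⟨x, hx⟩ _
  simp only
  rw [dif_pos hx]

theorem j4351_ct {n : ℕ} (P : Pack n) {i j : Fin n} (h : P.Ct i j) : P.Ct j i := by
  refine ⟨h.1.symm, ?_⟩
  rw [dotProduct_comm, h.2, add_comm]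

/-- TARGET -/
theorem second_order {n : ℕ} (P : Pack n) (W : Set (Fin n)) (v : Fin n → V3) (hv : IsFlex P v)
    (hW : ∀ i, i ∉ W → v i = 0) (hc : ∃ i j, P.Ct i j ∧ i ∈ W)
    (hs : ∀ ω, IsStress P W ω → (∃ i j, ω i j ≠ 0) → EE P ω v < 0) : HasMotion P := by
  classical
  let cond : Fin n × Fin n → Prop := fun k => P.Ct k.1 k.2 ∧ (k.1 ∈ W ∨ k.2 ∈ W) ∧
    P.p k.1 ⬝ᵥ v k.2 + P.p k.2 ⬝ᵥ v k.1 = 0
  let U : Submodule ℝ (Fin n → V3) :=
    { carrier := {x | ∀ i, P.p i ⬝ᵥ x i = 0 ∧ (i ∉ W → x i = 0)}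
      zero_mem' := by
        intro i
        exact ⟨by simp, fun _ => rfl⟩
      add_mem' := by
        intro x y hx hy i
        refine ⟨?_, ?_⟩
        · rw [Pi.add_apply, dotProduct_add, (hx i).1, (hy i).1, add_zero]
        · intro hi
          rw [Pi.add_apply, (hx i).2 hi, (hy i).2 hi, add_zero]
      smul_mem' := by
        intro c x hx i
        refine ⟨?_, ?_⟩
        · rw [Pi.smul_apply, dotProduct_smul, (hx i).1, smul_zero]
        · intro hi
          rw [Pi.smul_apply, (hx i).2 hi, smul_zero] }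
  let ℓ : {k // cond k} → U →ₗ[ℝ] ℝ := fun k =>
    { toFun := fun x => P.p k.1.1 ⬝ᵥ x.1 k.1.2 + P.p k.1.2 ⬝ᵥ x.1 k.1.1
      map_add' := by
        intro x y
        simp only [Submodule.coe_add, Pi.add_apply, dotProduct_add]
        ring
      map_smul' := by
        intro c x
        simp only [Submodule.coe_smul, Pi.smul_apply, dotProduct_smul, smul_eq_mul,
          RingHom.id_apply]
        ring }
  let e : Fin n × Fin n → ℝ := fun k => 2 * (v k.1 ⬝ᵥ v k.2) -
    (P.p k.1 ⬝ᵥ P.p k.2) * (v k.1 ⬝ᵥ v k.1 + v k.2 ⬝ᵥ v k.2)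
  rcases farkas_strict ℓ (fun k => e k.1) with ⟨a, ha⟩ | ⟨w, hw0, ⟨k0, hk0⟩, hbal, hsum⟩
  · have hstrict : ∀ i j, P.Ct i j → (i ∈ W ∨ j ∈ W) → P.p i ⬝ᵥ v j + P.p j ⬝ᵥ v i = 0 →
        2 * (v i ⬝ᵥ v j) - (P.p i ⬝ᵥ P.p j) * (v i ⬝ᵥ v i + v j ⬝ᵥ v j)
        + (P.p i ⬝ᵥ a.1 j + P.p j ⬝ᵥ a.1 i) < 0 := by
      intro i j hij hWij hL
      have := ha ⟨(i, j), hij, hWij, hL⟩
      have h2 : (P.p i ⬝ᵥ a.1 j + P.p j ⬝ᵥ a.1 i) + (2 * (v i ⬝ᵥ v j) -
        (P.p i ⬝ᵥ P.p j) * (v i ⬝ᵥ v i + v j ⬝ᵥ v j)) < 0 := this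
      linarith
    refine motion_of_second_order P v a.1 hv.1 (fun i => (a.2 i).1) hv.2 ?_ ?_
    · intro i j hij hL
      by_cases hWij : i ∈ W ∨ j ∈ W
      · exact Or.inl (hstrict i j hij hWij hL)
      · push Not at hWij
        exact Or.inr ⟨hW i hWij.1, hW j hWij.2, (a.2 i).2 hWij.1, (a.2 j).2 hWij.2⟩
    · obtain ⟨i, j, hij, hiW⟩ := hc
      refine ⟨i, j, hij, ?_⟩
      rintro ⟨h1, h2, h3, h4⟩
      have hL : P.p i ⬝ᵥ v j + P.p j ⬝ᵥ v i = 0 := by rw [h1, h2]; simp
      have := hstrict i j hij (Or.inl hiW) hL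
      rw [h1, h2, h3, h4] at this
      simp at this
  · exfalso
    let wf : Fin n × Fin n → ℝ := fun x => if h : cond x then w ⟨x, h⟩ else 0
    have hwf0 : ∀ x, 0 ≤ wf x := by
      intro x
      show 0 ≤ (if h : cond x then w ⟨x, h⟩ else 0)
      split_ifs with h
      · exact hw0 _
      · exact le_refl _
    have hwfc : ∀ x, wf x ≠ 0 → cond x := by
      intro x hx
      by_contra hcon
      exact hx (dif_neg hcon)
    have hconv : ∀ F : Fin n × Fin n → ℝ, ∑ k : {x // cond x}, w k * F k.1 =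
        ∑ i, ∑ j, wf (i, j) * F (i, j) := by
      intro F
      rw [j4351_sum cond w F, Fintype.sum_prod_type]
    set ω : Fin n → Fin n → ℝ := fun i j => wf (i, j) + wf (j, i) with hω
    have hωne : ∀ i j, ω i j ≠ 0 → wf (i, j) ≠ 0 ∨ wf (j, i) ≠ 0 := by
      intro i j h
      by_contra hcon
      push Not at hcon
      apply h
      show wf (i, j) + wf (j, i) = 0
      rw [hcon.1, hcon.2, add_zero]
    have hstress : IsStress P W ω := by
      refine ⟨?_, ?_, ?_, ?_, ?_⟩
      · intro i j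
        exact add_comm _ _
      · intro i j
        exact add_nonneg (hwf0 _) (hwf0 _)
      · intro i j h
        rcases hωne i j h with h | h
        · exact (hwfc _ h).1
        · exact j4351_ct P (hwfc _ h).1
      · intro i j h
        rcases hωne i j h with h | h
        · exact (hwfc _ h).2.1
        · exact (hwfc _ h).2.1.symm
      · intro i0 hi0 u hu
        have hx : (Pi.single i0 u : Fin n → V3) ∈ U := by
          intro i
          by_cases hi : i = i0
          · subst hi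
            refine ⟨?_, fun h => absurd hi0 h⟩
            rw [Pi.single_eq_same, dotProduct_comm]
            exact hu
          · rw [Pi.single_eq_of_ne hi]
            exact ⟨by simp, fun _ => rfl⟩
        have h1 := hbal ⟨_, hx⟩
        have h2 := hconv (fun k => P.p k.1 ⬝ᵥ (Pi.single i0 u : Fin n → V3) k.2 +
          P.p k.2 ⬝ᵥ (Pi.single i0 u : Fin n → V3) k.1)
        have h3 : ∑ i, ∑ j, wf (i, j) * (P.p i ⬝ᵥ (Pi.single i0 u : Fin n → V3) j +
          P.p j ⬝ᵥ (Pi.single i0 u : Fin n → V3) i) = 0 := by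
          rw [← h1]
          exact h2.symm
        have h4 : ∑ i, ∑ j, wf (i, j) * (P.p i ⬝ᵥ (Pi.single i0 u : Fin n → V3) j) =
            ∑ i, wf (i, i0) * (P.p i ⬝ᵥ u) := by
          refine Finset.sum_congr rfl ?_
          intro i _
          rw [Finset.sum_eq_single i0]
          · rw [Pi.single_eq_same]
          · intro j _ hj
            rw [Pi.single_eq_of_ne hj]
            simp
          · intro h
            exact absurd (Finset.mem_univ _) h
        have h5 : ∑ i, ∑ j, wf (i, j) * (P.p j ⬝ᵥ (Pi.single i0 u : Fin n → V3) i) =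
            ∑ j, wf (i0, j) * (P.p j ⬝ᵥ u) := by
          rw [Finset.sum_eq_single i0]
          · rw [Pi.single_eq_same]
          · intro j _ hj
            rw [Pi.single_eq_of_ne hj]
            simp
          · intro h
            exact absurd (Finset.mem_univ _) h
        simp_rw [mul_add, Finset.sum_add_distrib] at h3
        rw [h4, h5, ← Finset.sum_add_distrib] at h3
        rw [← h3]
        refine Finset.sum_congr rfl ?_
        intro j _
        show (wf (i0, j) + wf (j, i0)) * (u ⬝ᵥ P.p j) = _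
        rw [dotProduct_comm u]
        ring
    have hne : ∃ i j, ω i j ≠ 0 := by
      refine ⟨k0.1.1, k0.1.2, ?_⟩
      have h1 : wf (k0.1.1, k0.1.2) = w k0 := dif_pos k0.2
      have h2 : 0 < w k0 := lt_of_le_of_ne (hw0 k0) hk0.symm
      have h3 := hwf0 (k0.1.2, k0.1.1)
      show wf (k0.1.1, k0.1.2) + wf (k0.1.2, k0.1.1) ≠ 0
      rw [h1]
      linarith
    have hlt := hs ω hstress hne
    have hEE : EE P ω v = ∑ k : {x // cond x}, w k * e k.1 := by
      rw [hconv e]
      unfold EE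
      have h1 : ∀ i j, ω i j * (v i ⬝ᵥ v j - (P.p i ⬝ᵥ P.p j) * (v i ⬝ᵥ v i)) =
          wf (i, j) * (v i ⬝ᵥ v j - (P.p i ⬝ᵥ P.p j) * (v i ⬝ᵥ v i)) +
          wf (j, i) * (v i ⬝ᵥ v j - (P.p i ⬝ᵥ P.p j) * (v i ⬝ᵥ v i)) := by
        intro i j
        exact add_mul _ _ _
      simp_rw [h1, Finset.sum_add_distrib]
      rw [Finset.sum_comm (f := fun i j =>
        wf (j, i) * (v i ⬝ᵥ v j - (P.p i ⬝ᵥ P.p j) * (v i ⬝ᵥ v i))), ← Finset.sum_add_distrib]
      refine Finset.sum_congr rfl ?_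
      intro i _
      rw [← Finset.sum_add_distrib]
      refine Finset.sum_congr rfl ?_
      intro j _
      show _ = wf (i, j) * (2 * (v i ⬝ᵥ v j) -
        (P.p i ⬝ᵥ P.p j) * (v i ⬝ᵥ v i + v j ⬝ᵥ v j))
      rw [dotProduct_comm (v j) (v i), dotProduct_comm (P.p j) (P.p i)]
      ring
    linarith

end SphJam
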