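import Pool.Agent.SphJam.PackNC
import Pool.Agent.SphJam.SecOrd
import Pool.Agent.SphJam.Ground
import Pool.Agent.SphJam.Cover

set_option autoImplicit false
open Matrix

namespace SphJam

theorem Ct_symm {n : ℕ} (P : Pack n) {i j : Fin n} (h : P.Ct i j) : P.Ct j i :=
  ⟨h.1.symm, by rw [dotProduct_comm, h.2, add_comm]⟩

theorem perp_aux (κ b : V3) : ∃ A : V3,
    (∀ x : V3, κ ⬝ᵥ x = 0 → b ⬝ᵥ x = 0 → (A ⬝ᵥ A) • x = (A ⬝ᵥ x) • A) ∧
    (A = 0 → ∀ x : V3, (b ⬝ᵥ x) • κ = (κ ⬝ᵥ x) • b) := by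
  refine ⟨![κ 1 * b 2 - κ 2 * b 1, κ 2 * b 0 - κ 0 * b 2, κ 0 * b 1 - κ 1 * b 0], ?_, ?_⟩
  · intro x h1 h2
    simp only [dotProduct, Fin.sum_univ_three] at h1 h2
    ext i
    fin_cases i
    · simp [dotProduct, Fin.sum_univ_three]
      linear_combination ((κ 2 * b 0 - κ 0 * b 2) * κ 2 - (κ 0 * b 1 - κ 1 * b 0) * κ 1) * h2 -
        ((κ 2 * b 0 - κ 0 * b 2) * b 2 - (κ 0 * b 1 - κ 1 * b 0) * b 1) * h1
    · simp [dotProduct, Fin.sum_univ_three]
      linear_combination ((κ 0 * b 1 - κ 1 * b 0) * κ 0 - (κ 1 * b 2 - κ 2 * b 1) * κ 2) * h2 -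
        ((κ 0 * b 1 - κ 1 * b 0) * b 0 - (κ 1 * b 2 - κ 2 * b 1) * b 2) * h1
    · simp [dotProduct, Fin.sum_univ_three]
      linear_combination ((κ 1 * b 2 - κ 2 * b 1) * κ 1 - (κ 2 * b 0 - κ 0 * b 2) * κ 0) * h2 -
        ((κ 1 * b 2 - κ 2 * b 1) * b 1 - (κ 2 * b 0 - κ 0 * b 2) * b 0) * h1
  · intro hA x
    have e0 : κ 1 * b 2 - κ 2 * b 1 = 0 := by
      have := congrFun hA 0; simpa using this
    have e1 : κ 2 * b 0 - κ 0 * b 2 = 0 := by
      have := congrFun hA 1; simpa using this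
    have e2 : κ 0 * b 1 - κ 1 * b 0 = 0 := by
      have := congrFun hA 2; simpa using this
    ext i
    fin_cases i
    · simp [dotProduct, Fin.sum_univ_three]
      linear_combination x 1 * e2 - x 2 * e1
    · simp [dotProduct, Fin.sum_univ_three]
      linear_combination x 2 * e0 - x 0 * e2
    · simp [dotProduct, Fin.sum_univ_three]
      linear_combination x 0 * e1 - x 1 * e0

/-- TARGET -/
theorem pinned {n : ℕ} (P : Pack n) (hall : ∀ i, ∃ j, P.Ct i j) (R : Set (Fin n)) (b : V3)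
    (v : Fin n → V3) (hv : IsFlex P v) (hsupp : ∀ i, v i ≠ 0 → i ∈ R) (hne : ∃ i, v i ≠ 0)
    (hb : ∀ i ∈ R, 0 < b ⬝ᵥ P.p i) (hb' : ∀ i ∈ R, ∀ j, P.Ct i j → 0 ≤ b ⬝ᵥ P.p j) :
    HasMotion P := by
  classical
  -- minimal flex
  obtain ⟨v, hv, hsupp, hne, hmin⟩ : ∃ v : Fin n → V3, IsFlex P v ∧ (∀ i, v i ≠ 0 → i ∈ R) ∧
      (∃ i, v i ≠ 0) ∧
      ∀ v' : Fin n → V3, IsFlex P v' → (∀ i, v' i ≠ 0 → i ∈ R) → (∃ i, v' i ≠ 0) →
        (Finset.univ.filter (fun i => v i ≠ 0)).card ≤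
          (Finset.univ.filter (fun i => v' i ≠ 0)).card := by
    let Q : ℕ → Prop := fun m => ∃ v : Fin n → V3, IsFlex P v ∧ (∀ i, v i ≠ 0 → i ∈ R) ∧
      (∃ i, v i ≠ 0) ∧ (Finset.univ.filter (fun i => v i ≠ 0)).card = m
    have hQ : ∃ m, Q m := ⟨_, v, hv, hsupp, hne, rfl⟩
    obtain ⟨w, h1, h2, h3, h4⟩ := Nat.find_spec hQ
    refine ⟨w, h1, h2, h3, fun v' a1 a2 a3 => ?_⟩
    rw [h4]
    exact Nat.find_min' hQ ⟨v', a1, a2, a3, rfl⟩
  by_contra hno
  obtain ⟨W, hWdef⟩ : ∃ W : Set (Fin n), ∀ i, i ∈ W ↔ v i ≠ 0 := ⟨{i | v i ≠ 0}, fun i => Iff.rfl⟩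
  have hWz : ∀ i, i ∉ W → v i = 0 := fun i hi => by
    by_contra h; exact hi ((hWdef i).2 h)
  have hWR : ∀ i ∈ W, i ∈ R := fun i hi => hsupp i ((hWdef i).1 hi)
  obtain ⟨h, hh⟩ : ∃ h : Fin n → ℝ, ∀ i, h i = b ⬝ᵥ P.p i := ⟨fun i => b ⬝ᵥ P.p i, fun i => rfl⟩
  have hpos : ∀ i ∈ W, 0 < h i := fun i hi => by rw [hh]; exact hb i (hWR i hi)
  -- the stress
  obtain ⟨ω, hω, hω0, hE⟩ : ∃ ω, IsStress P W ω ∧ (∃ i j, ω i j ≠ 0) ∧ 0 ≤ EE P ω v := by
    by_contra hcon
    apply hno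
    refine second_order P W v hv hWz ?_ ?_
    · obtain ⟨i, hi⟩ := hne
      obtain ⟨j, hj⟩ := hall i
      exact ⟨i, j, hj, (hWdef i).2 hi⟩
    · intro ω hω hω0
      by_contra hE
      exact hcon ⟨ω, hω, hω0, not_lt.1 hE⟩
  obtain ⟨g1, g2⟩ := ground P W b v hWz ω hω (fun i hi => by rw [← hh]; exact hpos i hi)
    (fun i hi j hj => hb' i (hWR i hi) j (hω.supp i j hj)) hE
  obtain ⟨i0, j0, hi0, hj0⟩ : ∃ i0 j0, i0 ∈ W ∧ ω i0 j0 ≠ 0 := by
    obtain ⟨i, j, hij⟩ := hω0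
    rcases hω.touch i j hij with hi | hj
    · exact ⟨i, j, hi, hij⟩
    · exact ⟨j, i, hj, by rw [hω.symm]; exact hij⟩
  obtain ⟨κ, hκ⟩ : ∃ κ : V3, κ = (1 / h i0) • v i0 := ⟨_, rfl⟩
  have hvi0 : v i0 = h i0 • κ := by
    rw [hκ, smul_smul, mul_one_div_cancel (hpos i0 hi0).ne', one_smul]
  have hκ0 : κ ≠ 0 := by
    rintro rfl
    rw [smul_zero] at hvi0
    exact (hWdef i0).1 hi0 hvi0
  obtain ⟨S, hSdef⟩ : ∃ S : Set (Fin n), ∀ k, k ∈ S ↔ k ∈ W ∧ v k = h k • κ ∧ ∃ j, ω k j ≠ 0 :=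
    ⟨{k | k ∈ W ∧ v k = h k • κ ∧ ∃ j, ω k j ≠ 0}, fun k => Iff.rfl⟩
  have hi0S : i0 ∈ S := (hSdef i0).2 ⟨hi0, hvi0, j0, hj0⟩
  have hSW : ∀ k ∈ S, k ∈ W := fun k hk => ((hSdef k).1 hk).1
  have hSv : ∀ k ∈ S, v k = h k • κ := fun k hk => ((hSdef k).1 hk).2.1
  have hSκ : ∀ k ∈ S, κ ⬝ᵥ P.p k = 0 := by
    intro k hk
    have h1 := hv.1 k
    rw [hSv k hk, dotProduct_smul, smul_eq_mul, dotProduct_comm] at h1
    rcases mul_eq_zero.1 h1 with h2 | h2
    · exact absurd h2 (hpos k (hSW k hk)).ne'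
    · exact h2
  have hSn : ∀ k ∈ S, ∀ j ∈ W, ω k j ≠ 0 → j ∈ S := by
    intro k hk j hj hkj
    have h1 := g1 k (hSW k hk) j hj hkj
    rw [← hh, ← hh, hSv k hk, smul_smul, mul_comm, ← smul_smul] at h1
    have h2 : h j • κ = v j := smul_right_injective V3 (hpos k (hSW k hk)).ne' h1
    exact (hSdef j).2 ⟨hj, h2.symm, k, by rw [hω.symm]; exact hkj⟩
  have hSo : ∀ k ∈ S, ∀ j, j ∉ W → ω k j ≠ 0 → h j = 0 := by
    intro k hk j hj hkj
    rw [hh]
    exact g2 k (hSW k hk) j hj hkj ((hWdef k).1 (hSW k hk))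
  -- contacts of elements of `S` outside of `W`
  have hout : ∀ k ∈ S, ∀ j, j ∉ W → P.Ct k j → κ ⬝ᵥ P.p j ≤ 0 := by
    intro k hk j hj hc
    have h1 := hv.2 k j hc
    rw [hWz j hj, dotProduct_zero, zero_add, hSv k hk, dotProduct_smul, smul_eq_mul,
      dotProduct_comm] at h1
    by_contra h2
    push Not at h2
    have := mul_pos (hpos k (hSW k hk)) h2
    linarith
  have hnb0 : ∀ k ∈ S, ∀ j, ω k j ≠ 0 → κ ⬝ᵥ P.p j = 0 := by
    intro k hk
    have h1 := hω.bal k (hSW k hk) κ (hSκ k hk)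
    have h2 : ∀ j ∈ Finset.univ, ω k j * (κ ⬝ᵥ P.p j) ≤ 0 := by
      intro j _
      by_cases hkj : ω k j = 0
      · rw [hkj, zero_mul]
      · by_cases hj : j ∈ W
        · rw [hSκ j (hSn k hk j hj hkj), mul_zero]
        · exact mul_nonpos_of_nonneg_of_nonpos (hω.nonneg k j)
            (hout k hk j hj (hω.supp k j hkj))
    have h3 := (Finset.sum_eq_zero_iff_of_nonpos h2).1 h1
    intro j hkj
    rcases mul_eq_zero.1 (h3 j (Finset.mem_univ j)) with h4 | h4
    · exact absurd h4 hkj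
    · exact h4
  have hcov : ∀ x : V3, κ ⬝ᵥ x = 0 → 0 < b ⬝ᵥ x → ∃ i ∈ S, ∃ j, ω i j ≠ 0 ∧
      ∃ γ δ : ℝ, 0 ≤ γ ∧ 0 ≤ δ ∧ x = γ • P.p i + δ • P.p j := by
    intro x hx hbx
    refine cover P W ω hω b κ S hSW ⟨i0, hi0S⟩ hκ0 hSκ ?_ ?_ ?_ x hx hbx
    · intro i hi
      rw [← hh]; exact hpos i (hSW i hi)
    · intro i hi
      exact ((hSdef i).1 hi).2.2
    · intro i hi j hij
      refine ⟨hnb0 i hi j hij, ?_⟩
      by_cases hj : j ∈ W
      · exact Or.inl (hSn i hi j hj hij)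
      · right; rw [← hh]; exact hSo i hi j hj hij
  -- freezing
  have claim : ∀ j k, P.Ct j k → j ∈ W → 0 < κ ⬝ᵥ P.p j → ¬ (k ∈ W ∧ 0 < κ ⬝ᵥ P.p k) →
      P.p k ⬝ᵥ v j ≤ 0 := by
    intro j k hc hj hjκ hk
    by_cases hkW : k ∈ W
    · have hkκ : κ ⬝ᵥ P.p k ≤ 0 := by
        by_contra h1
        exact hk ⟨hkW, not_le.1 h1⟩
      by_cases hvk : v k = h k • κ
      · have h1 := hv.2 j k hc
        rw [hvk, dotProduct_smul, smul_eq_mul, dotProduct_comm (P.p j) κ] at h1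
        have := mul_pos (hpos k hkW) hjκ
        linarith
      · exfalso
        obtain ⟨α, hα⟩ : ∃ α : ℝ, α = -(κ ⬝ᵥ P.p k) := ⟨_, rfl⟩
        obtain ⟨β, hβ⟩ : ∃ β : ℝ, β = κ ⬝ᵥ P.p j := ⟨_, rfl⟩
        have hα0 : 0 ≤ α := by rw [hα]; linarith
        have hβ0 : 0 < β := by rw [hβ]; exact hjκ
        have hx : κ ⬝ᵥ (α • P.p j + β • P.p k) = 0 := by
          rw [dotProduct_add, dotProduct_smul, dotProduct_smul, smul_eq_mul, smul_eq_mul, hα, hβ]
          ring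
        have hbx : 0 < b ⬝ᵥ (α • P.p j + β • P.p k) := by
          rw [dotProduct_add, dotProduct_smul, dotProduct_smul, smul_eq_mul, smul_eq_mul,
            ← hh, ← hh]
          have h1 := mul_pos hβ0 (hpos k hkW)
          have h2 := mul_nonneg hα0 (hpos j hj).le
          linarith
        obtain ⟨i1, hi1, j1, hij1, γ, δ, hγ, hδ, hxe⟩ := hcov _ hx hbx
        have hc1 := hω.supp i1 j1 hij1
        have hi1κ := hSκ i1 hi1
        have hj1κ := hnb0 i1 hi1 j1 hij1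
        rcases hα0.eq_or_lt with hα1 | hα1
        · rw [← hα1, zero_smul, zero_add] at hxe
          have hpk : P.p k = (γ / β) • P.p i1 + (δ / β) • P.p j1 := by
            have h1 : (1 / β) • (β • P.p k) = (1 / β) • (γ • P.p i1 + δ • P.p j1) := by rw [hxe]
            rw [smul_smul, one_div_mul_cancel hβ0.ne', one_smul, smul_add, smul_smul,
              smul_smul] at h1
            rw [h1]
            congr 2 <;> ring
          by_cases hk1 : k = i1
          · exact hvk (by rw [hk1]; exact hSv i1 hi1)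
          by_cases hk2 : k = j1
          · have := hSn i1 hi1 k hkW (by rw [hk2]; exact hij1)
            exact hvk (hSv k this)
          exact nc1 P hc1 hk1 hk2 (by positivity) (by positivity) hpk
        · have hkκ' : κ ⬝ᵥ P.p k < 0 := by rw [hα] at hα1; linarith
          have hji : j ≠ i1 := by rintro rfl; linarith
          have hjj : j ≠ j1 := by rintro rfl; linarith
          have hki : k ≠ i1 := by rintro rfl; linarith
          have hkj : k ≠ j1 := by rintro rfl; linarith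
          rcases hγ.eq_or_lt with hγ1 | hγ1
          · rcases hδ.eq_or_lt with hδ1 | hδ1
            · rw [← hγ1, ← hδ1, zero_smul, zero_smul, add_zero] at hxe
              rw [hxe, dotProduct_zero] at hbx
              exact lt_irrefl _ hbx
            · rw [← hγ1, zero_smul, zero_add] at hxe
              have hpk : P.p j1 = (α / δ) • P.p j + (β / δ) • P.p k := by
                have h1 : (1 / δ) • (α • P.p j + β • P.p k) = (1 / δ) • (δ • P.p j1) := by
                  rw [hxe]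
                rw [smul_smul (1 / δ) δ, one_div_mul_cancel hδ1.ne', one_smul, smul_add, smul_smul,
                  smul_smul] at h1
                rw [← h1]
                congr 2 <;> ring
              exact nc1 P hc hjj.symm hkj.symm (by positivity) (by positivity) hpk
          · rcases hδ.eq_or_lt with hδ1 | hδ1
            · rw [← hδ1, zero_smul, add_zero] at hxe
              have hpk : P.p i1 = (α / γ) • P.p j + (β / γ) • P.p k := by
                have h1 : (1 / γ) • (α • P.p j + β • P.p k) = (1 / γ) • (γ • P.p i1) := by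
                  rw [hxe]
                rw [smul_smul (1 / γ) γ, one_div_mul_cancel hγ1.ne', one_smul, smul_add, smul_smul,
                  smul_smul] at h1
                rw [← h1]
                congr 2 <;> ring
              exact nc1 P hc hji.symm hki.symm (by positivity) (by positivity) hpk
            · exact nc2 P hc hc1 hji hjj hki hkj hα1 hβ0 hγ1 hδ1 hxe
    · have h1 := hv.2 j k hc
      rw [hWz k hkW, dotProduct_zero, zero_add] at h1
      exact h1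
  have hW2 : ∀ j ∈ W, κ ⬝ᵥ P.p j ≤ 0 := by
    intro j hj
    by_contra hjκ
    push Not at hjκ
    let v2 : Fin n → V3 := fun i => if i ∈ W ∧ 0 < κ ⬝ᵥ P.p i then v i else 0
    have hv2 : IsFlex P v2 := by
      refine ⟨fun i => ?_, fun i k hc => ?_⟩
      · show P.p i ⬝ᵥ (if i ∈ W ∧ 0 < κ ⬝ᵥ P.p i then v i else 0) = 0
        split_ifs
        · exact hv.1 i
        · exact dotProduct_zero _
      · show P.p i ⬝ᵥ (if k ∈ W ∧ 0 < κ ⬝ᵥ P.p k then v k else 0) +
          P.p k ⬝ᵥ (if i ∈ W ∧ 0 < κ ⬝ᵥ P.p i then v i else 0) ≤ 0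
        by_cases hi2 : i ∈ W ∧ 0 < κ ⬝ᵥ P.p i
        · by_cases hk2 : k ∈ W ∧ 0 < κ ⬝ᵥ P.p k
          · rw [if_pos hi2, if_pos hk2]
            exact hv.2 i k hc
          · rw [if_pos hi2, if_neg hk2, dotProduct_zero, zero_add]
            exact claim i k hc hi2.1 hi2.2 hk2
        · by_cases hk2 : k ∈ W ∧ 0 < κ ⬝ᵥ P.p k
          · rw [if_neg hi2, if_pos hk2, dotProduct_zero, add_zero]
            exact claim k i (Ct_symm P hc) hk2.1 hk2.2 hi2
          · rw [if_neg hi2, if_neg hk2, dotProduct_zero, dotProduct_zero, add_zero]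
    have h2 : ∀ i, v2 i ≠ 0 → i ∈ W ∧ 0 < κ ⬝ᵥ P.p i := by
      intro i hi
      by_contra h3
      exact hi (if_neg h3)
    have h3 := hmin v2 hv2 (fun i hi => hWR i (h2 i hi).1) ⟨j, by
      show (if j ∈ W ∧ 0 < κ ⬝ᵥ P.p j then v j else 0) ≠ 0
      rw [if_pos ⟨hj, hjκ⟩]
      exact (hWdef j).1 hj⟩
    have h4 : (Finset.univ.filter (fun i => v2 i ≠ 0)) ⊂ (Finset.univ.filter (fun i => v i ≠ 0)) := by
      rw [Finset.ssubset_iff_of_subset]
      · refine ⟨i0, ?_, ?_⟩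
        · simp only [Finset.mem_filter, Finset.mem_univ, true_and]
          exact (hWdef i0).1 hi0
        · simp only [Finset.mem_filter, Finset.mem_univ, true_and]
          intro h5
          have h6 := (h2 i0 h5).2
          rw [hSκ i0 hi0S] at h6
          exact lt_irrefl _ h6
      · intro i hi
        simp only [Finset.mem_filter, Finset.mem_univ, true_and] at hi ⊢
        exact (hWdef i).1 (h2 i hi).1
    exact absurd (Finset.card_lt_card h4) (not_lt.2 h3)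
  -- single disk
  have hW1 : ∀ j ∈ W, j = i0 := by
    let v3 : Fin n → V3 := fun i => if i = i0 then κ else 0
    have hcκ : ∀ j, P.Ct i0 j → κ ⬝ᵥ P.p j ≤ 0 := by
      intro j hc
      by_cases hj : j ∈ W
      · exact hW2 j hj
      · exact hout i0 hi0S j hj hc
    have hv3 : IsFlex P v3 := by
      refine ⟨fun i => ?_, fun i k hc => ?_⟩
      · show P.p i ⬝ᵥ (if i = i0 then κ else 0) = 0
        split_ifs with hi
        · rw [hi, dotProduct_comm]; exact hSκ i0 hi0S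
        · exact dotProduct_zero _
      · show P.p i ⬝ᵥ (if k = i0 then κ else 0) + P.p k ⬝ᵥ (if i = i0 then κ else 0) ≤ 0
        by_cases hi2 : i = i0
        · have hk2 : k ≠ i0 := fun h => hc.1 (hi2.trans h.symm)
          rw [if_pos hi2, if_neg hk2, dotProduct_zero, zero_add, dotProduct_comm]
          exact hcκ k (hi2 ▸ hc)
        · by_cases hk2 : k = i0
          · rw [if_neg hi2, if_pos hk2, dotProduct_zero, add_zero, dotProduct_comm]
            exact hcκ i (hk2 ▸ Ct_symm P hc)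
          · rw [if_neg hi2, if_neg hk2, dotProduct_zero, dotProduct_zero, add_zero]
    have h2 : ∀ i, v3 i ≠ 0 → i = i0 := by
      intro i hi
      by_contra h3
      exact hi (if_neg h3)
    have h3 := hmin v3 hv3 (fun i hi => by rw [h2 i hi]; exact hWR i0 hi0) ⟨i0, by
      show (if i0 = i0 then κ else 0) ≠ 0
      rw [if_pos rfl]
      exact hκ0⟩
    have h4 : (Finset.univ.filter (fun i => v3 i ≠ 0)).card ≤ 1 := by
      rw [Finset.card_le_one]
      intro x hx y hy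
      simp only [Finset.mem_filter, Finset.mem_univ, true_and] at hx hy
      rw [h2 x hx, h2 y hy]
    have h5 := Finset.card_le_one.1 (h3.trans h4)
    intro j hj
    refine h5 j ?_ i0 ?_
    · simp only [Finset.mem_filter, Finset.mem_univ, true_and]
      exact (hWdef j).1 hj
    · simp only [Finset.mem_filter, Finset.mem_univ, true_and]
      exact (hWdef i0).1 hi0
  -- final contradiction
  obtain ⟨A, hA1, hA2⟩ := perp_aux κ b
  have hA0 : A ≠ 0 := by
    intro hA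
    have h1 := hA2 hA (P.p i0)
    rw [hSκ i0 hi0S, zero_smul, ← hh] at h1
    rcases smul_eq_zero.1 h1 with h2 | h2
    · exact (hpos i0 hi0).ne' h2
    · exact hκ0 h2
  have hAA : 0 < A ⬝ᵥ A := by
    have h1 : 0 ≤ A ⬝ᵥ A := by
      simp only [dotProduct, Fin.sum_univ_three]
      nlinarith [mul_self_nonneg (A 0), mul_self_nonneg (A 1), mul_self_nonneg (A 2)]
    exact lt_of_le_of_ne h1 (fun h2 => hA0 (dotProduct_self_eq_zero.1 h2.symm))
  obtain ⟨m, hm⟩ : ∃ m : ℝ, m = A ⬝ᵥ P.p i0 := ⟨_, rfl⟩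
  obtain ⟨u, hu⟩ : ∃ u : V3, u = m • A - (m * m) • P.p i0 := ⟨_, rfl⟩
  have hui : u ⬝ᵥ P.p i0 = 0 := by
    rw [hu, sub_dotProduct, smul_dotProduct, smul_dotProduct, P.unit, ← hm, smul_eq_mul,
      smul_eq_mul]
    ring
  have hbal := hω.bal i0 hi0 u hui
  have hterm : ∀ j, ω i0 j ≠ 0 → 0 < u ⬝ᵥ P.p j := by
    intro j hj
    have hc := hω.supp i0 j hj
    have hjW : j ∉ W := fun hjW => hc.1 (hW1 j hjW).symm
    have hκj := hnb0 i0 hi0S j hj
    have hbj : b ⬝ᵥ P.p j = 0 := by rw [← hh]; exact hSo i0 hi0S j hjW hj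
    have h1 := hA1 (P.p j) hκj hbj
    obtain ⟨s, hs⟩ : ∃ s : ℝ, s = P.p i0 ⬝ᵥ P.p j := ⟨_, rfl⟩
    have hs0 : 0 < s := by
      rw [hs, hc.2]
      apply Real.cos_pos_of_mem_Ioo
      have := P.rpos i0
      have := P.rpos j
      have := P.rle i0
      have := P.rle j
      have := Real.pi_gt_three
      constructor <;> linarith
    have hs1 : s < 1 := by
      rw [hs, hc.2, ← Real.cos_zero]
      have := P.rpos i0
      have := P.rpos j
      have := P.rle i0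
      have := P.rle j
      have := Real.pi_gt_three
      apply Real.cos_lt_cos_of_nonneg_of_le_pi_div_two le_rfl <;> linarith
    have h2 : (A ⬝ᵥ A) * s = (A ⬝ᵥ P.p j) * m := by
      have h3 := congrArg (fun x => P.p i0 ⬝ᵥ x) h1
      simp only [dotProduct_smul, smul_eq_mul] at h3
      rw [← hs, dotProduct_comm (P.p i0) A, ← hm] at h3
      exact h3
    have h3 : A ⬝ᵥ A = (A ⬝ᵥ P.p j) * (A ⬝ᵥ P.p j) := by
      have h3 := congrArg (fun x => P.p j ⬝ᵥ x) h1
      simp only [dotProduct_smul, smul_eq_mul] at h3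
      rw [P.unit, mul_one, dotProduct_comm (P.p j) A] at h3
      exact h3
    have h4 : u ⬝ᵥ P.p j = m * (A ⬝ᵥ P.p j) - m * m * s := by
      rw [hu, sub_dotProduct, smul_dotProduct, smul_dotProduct, ← hs, smul_eq_mul,
        smul_eq_mul]
    have h5 : m * m = (A ⬝ᵥ A) * (s * s) := by
      have h6 : (A ⬝ᵥ A) * (m * m) = (A ⬝ᵥ A) * ((A ⬝ᵥ A) * (s * s)) := by
        calc (A ⬝ᵥ A) * (m * m) = ((A ⬝ᵥ P.p j) * m) * ((A ⬝ᵥ P.p j) * m) := by rw [h3]; ring
          _ = ((A ⬝ᵥ A) * s) * ((A ⬝ᵥ A) * s) := by rw [h2]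
          _ = _ := by ring
      exact mul_left_cancel₀ hAA.ne' h6
    rw [h4, h5, mul_comm m, ← h2]
    have h7 : (A ⬝ᵥ A) * s - (A ⬝ᵥ A) * (s * s) * s = (A ⬝ᵥ A) * s * ((1 - s) * (1 + s)) := by ring
    rw [h7]
    have : 0 < 1 - s := by linarith
    positivity
  have hsum : 0 < ∑ j, ω i0 j * (u ⬝ᵥ P.p j) := by
    apply Finset.sum_pos'
    · intro j _
      by_cases hj : ω i0 j = 0
      · rw [hj, zero_mul]
      · exact mul_nonneg (hω.nonneg i0 j) (hterm j hj).le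
    · refine ⟨j0, Finset.mem_univ _, ?_⟩
      exact mul_pos (lt_of_le_of_ne (hω.nonneg i0 j0) (Ne.symm hj0)) (hterm j0 hj0)
  exact hsum.ne' hbal

end SphJam
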