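import Pool.Agent.SphJam.Region
import Pool.Agent.SphJam.Pinned
import Pool.Agent.SphJam.PackNC

set_option autoImplicit false
open Matrix Finset

namespace SphJam

section

variable {I : Type}

end



theorem g1_dot3 (u v : V3) : u ⬝ᵥ v = u 0 * v 0 + u 1 * v 1 + u 2 * v 2 := by
  simp only [dotProduct, Fin.sum_univ_three]

theorem g1_cos_pos {n : ℕ} (P : Pack n) {i j : Fin n} (hc : P.Ct i j) : 0 < P.p i ⬝ᵥ P.p j := by
  rw [hc.2]
  have h1 := P.rpos i
  have h2 := P.rpos j
  have h3 := P.rle i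
  have h4 := P.rle j
  have h5 := Real.pi_gt_three
  apply Real.cos_pos_of_mem_Ioo
  constructor <;> linarith

theorem g1_symm {n : ℕ} (P : Pack n) {i j : Fin n} (hc : P.Ct i j) : P.Ct j i := by
  refine ⟨hc.1.symm, ?_⟩
  rw [dotProduct_comm, hc.2, add_comm]

theorem g1_solve {a b c : V3} {α β γ : ℝ} (hγ : 0 < γ) (h : α • a + β • b = γ • c) :
    c = (α / γ) • a + (β / γ) • b := by
  have h1 : c = (1 / γ) • (γ • c) := by
    rw [smul_smul, one_div, inv_mul_cancel₀ hγ.ne', one_smul]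
  rw [h1, ← h, smul_add, smul_smul, smul_smul]
  congr 2 <;> ring

theorem g1_dd_cyc (u v w : V3) : dd u v w = cr u v ⬝ᵥ w := by
  unfold dd cr
  simp only [g1_dot3, Matrix.cons_val_zero, Matrix.cons_val_one, Matrix.cons_val]
  ring

theorem g1_dd_smul (u v w : V3) (r : ℝ) : dd u v (r • w) = r * dd u v w := by
  rw [g1_dd_cyc, g1_dd_cyc, dotProduct_smul, smul_eq_mul]

theorem g1_dd_self (u v : V3) : dd u v u = 0 := by
  unfold dd cr
  simp only [g1_dot3, Matrix.cons_val_zero, Matrix.cons_val_one, Matrix.cons_val]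
  ring

/-- cones over two disjoint contacts meet only in `0` -/
theorem no_cross {n : ℕ} (P : Pack n) {i j k l : Fin n} (hc : P.Ct i j) (hd : P.Ct k l)
    (hik : i ≠ k) (hil : i ≠ l) (hjk : j ≠ k) (hjl : j ≠ l)
    {α β γ δ : ℝ} (hα : 0 ≤ α) (hβ : 0 ≤ β) (hγ : 0 ≤ γ) (hδ : 0 ≤ δ)
    (h : α • P.p i + β • P.p j = γ • P.p k + δ • P.p l) : α = 0 ∧ β = 0 := by
  rcases hα.eq_or_lt with hα0 | hα0
  · rcases hβ.eq_or_lt with hβ0 | hβ0
    · exact ⟨hα0.symm, hβ0.symm⟩
    · exfalso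
      rw [← hα0, zero_smul, zero_add] at h
      have h1 := g1_solve hβ0 h.symm
      exact nc1 P hd hjk hjl (by positivity) (by positivity) h1
  · exfalso
    rcases hβ.eq_or_lt with hβ0 | hβ0
    · rw [← hβ0, zero_smul, add_zero] at h
      have h1 := g1_solve hα0 h.symm
      exact nc1 P hd hik hil (by positivity) (by positivity) h1
    · rcases hγ.eq_or_lt with hγ0 | hγ0
      · rcases hδ.eq_or_lt with hδ0 | hδ0
        · rw [← hγ0, ← hδ0, zero_smul, zero_smul, add_zero] at h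
          have h1 := congrArg (fun x => P.p i ⬝ᵥ x) h
          simp only [dotProduct_add, dotProduct_smul, dotProduct_zero, smul_eq_mul, P.unit i] at h1
          have h2 := g1_cos_pos P hc
          have h3 : 0 < β * (P.p i ⬝ᵥ P.p j) := mul_pos hβ0 h2
          linarith
        · rw [← hγ0, zero_smul, zero_add] at h
          have h1 := g1_solve hδ0 h
          exact nc1 P hc hil.symm hjl.symm (by positivity) (by positivity) h1
      · rcases hδ.eq_or_lt with hδ0 | hδ0
        · rw [← hδ0, zero_smul, add_zero] at h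
          have h1 := g1_solve hγ0 h
          exact nc1 P hc hik.symm hjk.symm (by positivity) (by positivity) h1
        · exact nc2 P hc hd hik hil hjk hjl hα0 hβ0 hγ0 hδ0 h

theorem GenAll.net {n : ℕ} {P : Pack n} (h : GenAll P) (ω : Fin n → Fin n → ℝ) : GenNet P ω := by
  exact ⟨fun i _ => h.1 i, fun i j _ _ => h.2 i j⟩

theorem g1_om {n : ℕ} {P : Pack n} {ω : Fin n → Fin n → ℝ}
    {K : ℕ} {c : ℕ → Fin n} {φ : ℕ → ℝ}
    (hc : IsCycle (ca P) (cb P) (cT P) (cm P ω) K c φ) (l : ℕ) : ω (c l) (c (l + 1)) ≠ 0 := by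
  intro h0
  apply hc.arc l
  unfold cm
  rw [h0, zero_mul]

/-- cycle nodes are positive multiples of the curve points -/
theorem cycle_XX {n : ℕ} {P : Pack n} {ω : Fin n → Fin n → ℝ} (hst : IsStress P Set.univ ω)
    (hg : GenNet P ω) {K : ℕ} {c : ℕ → Fin n} {φ : ℕ → ℝ}
    (hc : IsCycle (ca P) (cb P) (cT P) (cm P ω) K c φ) (l : ℕ) :
    0 < rho P (c l) ∧ P.p (c l) = rho P (c l) • XX φ (fun k => cT P (c k)) l := by
  have han : AN ω (c l) := ⟨_, g1_om hc l⟩
  have hpos := hg.1 _ han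
  have hrho : 0 < rho P (c l) := Real.sqrt_pos.2 hpos
  refine ⟨hrho, ?_⟩
  have h1 := hc.cos l
  have h2 := hc.sin l
  have e0 : P.p (c l) 0 = rho P (c l) * Real.cos (φ l) := by
    rw [← h1]; unfold ca; field_simp
  have e1 : P.p (c l) 1 = rho P (c l) * Real.sin (φ l) := by
    rw [← h2]; unfold cb; field_simp
  have e2 : P.p (c l) 2 = rho P (c l) * cT P (c l) := by
    unfold cT; field_simp
  funext i
  fin_cases i
  · simpa [XX] using e0
  · simpa [XX] using e1
  · simpa [XX] using e2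

theorem cycle_Ct {n : ℕ} {P : Pack n} {ω : Fin n → Fin n → ℝ} (hst : IsStress P Set.univ ω)
    {K : ℕ} {c : ℕ → Fin n} {φ : ℕ → ℝ}
    (hc : IsCycle (ca P) (cb P) (cT P) (cm P ω) K c φ) (l : ℕ) : P.Ct (c l) (c (l + 1)) := by
  exact hst.supp _ _ (g1_om hc l)

theorem g1_below_ne {n : ℕ} {P : Pack n} {ω : Fin n → Fin n → ℝ} (hst : IsStress P Set.univ ω)
    (hg : GenAll P) {K : ℕ} {c : ℕ → Fin n} {φ : ℕ → ℝ}
    (hc : IsCycle (ca P) (cb P) (cT P) (cm P ω) K c φ) {i : Fin n}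
    (hi : Below φ (fun k => cT P (c k)) (P.p i)) (m : ℕ) : i ≠ c m := by
  intro him
  have h1 := hi m
  obtain ⟨h2, h3⟩ := cycle_XX hst (hg.net ω) hc m
  rw [him, h3, g1_dd_smul, g1_dd_self, mul_zero] at h1
  exact lt_irrefl _ h1

theorem reg_arc {n : ℕ} {P : Pack n} {ω : Fin n → Fin n → ℝ} (hst : IsStress P Set.univ ω)
    (hg : GenAll P) {K : ℕ} {c : ℕ → Fin n} {φ : ℕ → ℝ}
    (hc : IsCycle (ca P) (cb P) (cT P) (cm P ω) K c φ)
    (hL : ∀ l, LL (fun k => cT P (c k)) φ l ≤ 0) {i j : Fin n} (hij : P.Ct i j)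
    (hi : Below φ (fun k => cT P (c k)) (P.p i)) (hj : ¬ Below φ (fun k => cT P (c k)) (P.p j)) :
    ∃ l, c l = j := by
  set τ : ℕ → ℝ := fun k => cT P (c k) with hτdef
  have hτ : ∀ l, τ (l + K) = τ l := fun l => by
    simp only [hτdef, hc.per l]
  obtain ⟨t, ht0, ht1, l, α, β, hα, hβ, heq⟩ := below_exit hc.ring τ hτ hL (P.p i) (P.p j) hi hj (by
    rintro t ht0 ht1 ⟨h1, h2⟩
    rcases ht1.eq_or_lt with h3 | h3
    · rw [h3] at h1 h2
      have h4 := hg.1 j
      have h5 : P.p j 0 = 0 := by linarith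
      have h6 : P.p j 1 = 0 := by linarith
      rw [h5, h6] at h4
      norm_num at h4
    · have h4 : (1 - t) * (P.p i 0 * P.p j 1 - P.p i 1 * P.p j 0) = 0 := by
        linear_combination P.p j 1 * h1 - P.p j 0 * h2
      have h5 : P.p i 0 * P.p j 1 - P.p i 1 * P.p j 0 = 0 := by
        rcases mul_eq_zero.1 h4 with h | h
        · linarith
        · exact h
      have h6 := hg.2 i j hij.1 h5
      have h7 := g1_cos_pos P hij
      rw [h6, dotProduct_neg, P.unit i] at h7
      linarith)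
  by_contra hcon
  push Not at hcon
  obtain ⟨hr1, hX1⟩ := cycle_XX hst (hg.net ω) hc l
  obtain ⟨hr2, hX2⟩ := cycle_XX hst (hg.net ω) hc (l + 1)
  have hX1' : XX φ τ l = (1 / rho P (c l)) • P.p (c l) := by
    rw [hX1, smul_smul, one_div, inv_mul_cancel₀ hr1.ne', one_smul]
  have hX2' : XX φ τ (l + 1) = (1 / rho P (c (l + 1))) • P.p (c (l + 1)) := by
    rw [hX2, smul_smul, one_div, inv_mul_cancel₀ hr2.ne', one_smul]
  rw [hX1', hX2', smul_smul, smul_smul] at heq
  have h := no_cross P hij (cycle_Ct hst hc l) (g1_below_ne hst hg hc hi _)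
    (g1_below_ne hst hg hc hi _) (hcon l).symm (hcon (l + 1)).symm
    (by linarith : (0 : ℝ) ≤ 1 - t) ht0.le (by positivity) (by positivity) heq
  linarith [h.1, h.2]

theorem reg_pinned {n : ℕ} {P : Pack n} (hall : ∀ i, ∃ j, P.Ct i j) (hm : ¬ HasMotion P)
    {ω : Fin n → Fin n → ℝ} (hst : IsStress P Set.univ ω)
    (hg : GenAll P) {K : ℕ} {c : ℕ → Fin n} {φ : ℕ → ℝ}
    (hc : IsCycle (ca P) (cb P) (cT P) (cm P ω) K c φ)
    (hL : ∀ l, LL (fun k => cT P (c k)) φ l ≤ 0) {w : Fin n → V3} (hw : IsFlex P w)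
    (hcy : ∀ i l, Below φ (fun k => cT P (c k)) (P.p i) → P.Ct i (c l) →
      P.p (c l) ⬝ᵥ w i ≤ 0) :
    ∀ i, Below φ (fun k => cT P (c k)) (P.p i) → w i = 0 := by
  classical
  set τ : ℕ → ℝ := fun k => cT P (c k) with hτdef
  have hτ : ∀ l, τ (l + K) = τ l := fun l => by
    simp only [hτdef, hc.per l]
  by_contra hcon
  push Not at hcon
  obtain ⟨i1, hi1, hwi1⟩ := hcon
  apply hm
  set w' : Fin n → V3 := fun i => if Below φ τ (P.p i) then w i else 0 with hw'
  have hflex : IsFlex P w' := by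
    constructor
    · intro i
      by_cases h : Below φ τ (P.p i)
      · simp only [hw', if_pos h]
        exact hw.1 i
      · simp only [hw', if_neg h, dotProduct_zero]
    · intro i j hij
      by_cases h1 : Below φ τ (P.p i)
      · by_cases h2 : Below φ τ (P.p j)
        · simp only [hw', if_pos h1, if_pos h2]
          exact hw.2 i j hij
        · simp only [hw', if_pos h1, if_neg h2, dotProduct_zero, zero_add]
          obtain ⟨l, rfl⟩ := reg_arc hst hg hc hL hij h1 h2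
          exact hcy i l h1 hij
      · by_cases h2 : Below φ τ (P.p j)
        · simp only [hw', if_neg h1, if_pos h2, dotProduct_zero, add_zero]
          obtain ⟨l, rfl⟩ := reg_arc hst hg hc hL (g1_symm P hij) h2 h1
          exact hcy j l h2 (g1_symm P hij)
        · simp only [hw', if_neg h1, if_neg h2, dotProduct_zero, add_zero, le_refl]
  have hbY : ∀ Y : V3, (-(cr (XX φ τ 0) (XX φ τ 1))) ⬝ᵥ Y = - dd (XX φ τ 0) (XX φ τ 1) Y := by
    intro Y
    rw [g1_dd_cyc, neg_dotProduct]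
  refine pinned P hall {i | Below φ τ (P.p i)} (-(cr (XX φ τ 0) (XX φ τ 1))) w' hflex ?_ ?_ ?_ ?_
  · intro i hi
    by_contra h
    apply hi
    have h' : ¬ Below φ τ (P.p i) := h
    simp only [hw', if_neg h']
  · refine ⟨i1, ?_⟩
    simp only [hw', if_pos hi1]
    exact hwi1
  · intro i hi
    have hi' : Below φ τ (P.p i) := hi
    rw [hbY]
    have := hi' 0
    linarith
  · intro i hi j hij
    have hi' : Below φ τ (P.p i) := hi
    rw [hbY]
    by_cases h2 : Below φ τ (P.p j)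
    · have := h2 0
      linarith
    · obtain ⟨q, rfl⟩ := reg_arc hst hg hc hL hij hi' h2
      obtain ⟨h3, h4⟩ := cycle_XX hst (hg.net ω) hc q
      have h5 := below_self hc.ring τ hτ hL 0 q
      have h6 : dd (XX φ τ 0) (XX φ τ 1) (P.p (c q)) = rho P (c q) *
          dd (XX φ τ 0) (XX φ τ 1) (XX φ τ q) := by
        rw [h4, g1_dd_smul]
      rw [h6]
      have h7 : rho P (c q) * dd (XX φ τ 0) (XX φ τ 1) (XX φ τ q) ≤ 0 :=
        mul_nonpos_of_nonneg_of_nonpos h3.le h5
      linarith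

end SphJam
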