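import Pool.Agent.SphJam.BridgeB
import Pool.Agent.SphJam.Reach
import Pool.Agent.SphJam.Peel

set_option autoImplicit false
open Matrix Finset

namespace SphJam

section

variable {I : Type}

end


section

variable {I : Type} [Fintype I] {a b T : I → ℝ} {M m : I → I → ℝ}

end

section

variable {n : ℕ} {P : Pack n} {ω : Fin n → Fin n → ℝ}

end

section

variable {n : ℕ} {P : Pack n} {ω : Fin n → Fin n → ℝ}

end

/-! auxiliary -/

theorem dotV3 (u v : V3) : u ⬝ᵥ v = u 0 * v 0 + u 1 * v 1 + u 2 * v 2 := by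
  rw [dotProduct, Fin.sum_univ_three]

theorem flat_unit {n : ℕ} (P : Pack n) {i : Fin n} (h : P.p i 2 = 0) :
    P.p i 0 ^ 2 + P.p i 1 ^ 2 = 1 := by
  have h1 := P.unit i
  rw [dotV3, h] at h1
  nlinarith

theorem flat_rho {n : ℕ} (P : Pack n) {i : Fin n} (h : P.p i 2 = 0) : rho P i = 1 := by
  unfold rho
  rw [flat_unit P h, Real.sqrt_one]

theorem flat_ca {n : ℕ} (P : Pack n) {i : Fin n} (h : P.p i 2 = 0) : ca P i = P.p i 0 := by
  unfold ca
  rw [flat_rho P h, div_one]

theorem flat_cb {n : ℕ} (P : Pack n) {i : Fin n} (h : P.p i 2 = 0) : cb P i = P.p i 1 := by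
  unfold cb
  rw [flat_rho P h, div_one]

theorem flat_cT {n : ℕ} (P : Pack n) {i : Fin n} (h : P.p i 2 = 0) : cT P i = 0 := by
  unfold cT
  rw [h, zero_div]


/-- the network on the equator is a single cycle -/
theorem coplanar_cycle {n : ℕ} {P : Pack n} {ω : Fin n → Fin n → ℝ} (hN : Net P ω)
    (hz : ∀ i, AN ω i → P.p i 2 = 0) :
    GenNet P ω ∧ ∃ (K : ℕ) (c : ℕ → Fin n) (φ : ℕ → ℝ) (μ : ℝ), 0 < μ ∧ RingData K φ ∧
      (∀ l, c (l + K) = c l) ∧ (∀ l, ω (c l) (c (l + 1)) ≠ 0) ∧
      (∀ l, P.p (c l) = ![Real.cos (φ l), Real.sin (φ l), 0]) ∧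
      (∀ i, AN ω i → ∃ l, l < K ∧ c l = i) ∧
      (∀ x : Fin n → ℝ, QQ (ca P) (cb P) (cm P ω) x = μ * RB K φ (fun k => x (c k))) := by
  have hAN2 : ∀ i j, ω i j ≠ 0 → AN ω i ∧ AN ω j := by
    intro i j h
    refine ⟨⟨j, h⟩, ⟨i, ?_⟩⟩
    rw [hN.st.symm]
    exact h
  have hg : GenNet P ω := by
    constructor
    · intro i hi
      rw [flat_unit P (hz i hi)]
      exact one_pos
    · intro i j hi hj hij hcr
      have h1 := flat_unit P (hz i hi)
      have h2 := flat_unit P (hz j hj)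
      have h3 : P.p i ⬝ᵥ P.p j = P.p i 0 * P.p j 0 + P.p i 1 * P.p j 1 := by
        rw [dotV3, hz i hi, zero_mul, add_zero]
      have h4 := P.sep i j hij
      have h5 : Real.cos (P.r i + P.r j) < 1 := by
        rw [← Real.cos_zero]
        apply Real.cos_lt_cos_of_nonneg_of_le_pi le_rfl
        · have := P.rle i
          have := P.rle j
          have := Real.pi_gt_three
          linarith
        · have := P.rpos i
          have := P.rpos j
          linarith
      rw [h3] at h4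
      obtain ⟨d, hd⟩ : ∃ d, d = P.p i 0 * P.p j 0 + P.p i 1 * P.p j 1 := ⟨_, rfl⟩
      have h6 : d ^ 2 = 1 := by
        have h7 : d ^ 2 + (P.p i 0 * P.p j 1 - P.p i 1 * P.p j 0) ^ 2
            = (P.p i 0 ^ 2 + P.p i 1 ^ 2) * (P.p j 0 ^ 2 + P.p j 1 ^ 2) := by
          rw [hd]; ring
        rw [hcr, h1, h2] at h7
        linarith
      have h8 : d = -1 := by
        rcases (show d = 1 ∨ d = -1 by
          have : (d - 1) * (d + 1) = 0 := by linear_combination h6
          rcases mul_eq_zero.1 this with h | h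
          · left; linarith
          · right; linarith) with h | h
        · exfalso; linarith
        · exact h
      have h9 : (P.p i 0 + P.p j 0) ^ 2 + (P.p i 1 + P.p j 1) ^ 2 = 0 := by
        have : (P.p i 0 + P.p j 0) ^ 2 + (P.p i 1 + P.p j 1) ^ 2
            = (P.p i 0 ^ 2 + P.p i 1 ^ 2) + (P.p j 0 ^ 2 + P.p j 1 ^ 2) + 2 * d := by
          rw [hd]; ring
        rw [this, h1, h2, h8]; ring
      have h10 : P.p i 0 + P.p j 0 = 0 := by nlinarith [sq_nonneg (P.p i 0 + P.p j 0), sq_nonneg (P.p i 1 + P.p j 1)]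
      have h11 : P.p i 1 + P.p j 1 = 0 := by nlinarith [sq_nonneg (P.p i 0 + P.p j 0), sq_nonneg (P.p i 1 + P.p j 1)]
      funext k
      rw [Pi.neg_apply]
      fin_cases k
      · show P.p j 0 = -P.p i 0
        linarith
      · show P.p j 1 = -P.p i 1
        linarith
      · show P.p j 2 = -P.p i 2
        rw [hz i hi, hz j hj, neg_zero]
  have hCN := bridge_CN hN.st hg
  have hT : ∀ i j, cm P ω i j ≠ 0 → cT P i = 0 ∧ cT P j = 0 := by
    intro i j h
    have h1 := hAN2 i j (cm_ne_zero.1 h).1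
    exact ⟨flat_cT P (hz i h1.1), flat_cT P (hz j h1.2)⟩
  have hbot : ∀ i, AN ω i → Bot (ca P) (cb P) (cT P) (cm P ω) i := by
    intro i hi
    have hact : Act (cm P ω) i := (act_cm hN.st hg i).2 hi
    refine ⟨hact, ?_⟩
    intro k l hkl h1 h2
    exfalso
    apply hCN.nc1 k l i hkl hact h1 h2
    unfold D3
    rw [(hT k l hkl).1, (hT k l hkl).2, flat_cT P (hz i hi)]
    ring
  obtain ⟨i0, hi0⟩ := hN.ne
  obtain ⟨K, c, φ, hc, _⟩ := hCN.exists_cycle (hbot i0 hi0)
  have hANc : ∀ l, AN ω (c l) := fun l => (hAN2 _ _ (cm_ne_zero.1 (hc.arc l)).1).1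
  have hzc : ∀ l, P.p (c l) 2 = 0 := fun l => hz _ (hANc l)
  have hE : ∀ l j, cm P ω (c l) j ≠ 0 → j = c (l + 1) := by
    intro l j h
    rcases hc.lowE l j h with h1 | h1
    · exact h1
    · exfalso
      unfold D3 at h1
      rw [flat_cT P (hzc l), flat_cT P (hzc (l + 1)), (hT _ _ h).2] at h1
      simp at h1
  have hW : ∀ l j, cm P ω j (c (l + 1)) ≠ 0 → j = c l := by
    intro l j h
    rcases hc.lowW l j h with h1 | h1
    · exact h1
    · exfalso
      unfold D3 at h1
      rw [flat_cT P (hzc l), flat_cT P (hzc (l + 1)), (hT _ _ h).1] at h1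
      simp at h1
  have hms : ∀ l, cm P ω (c (l + 1)) (c (l + 2)) = cm P ω (c l) (c (l + 1)) := by
    intro l
    have h1 := hCN.cons (c (l + 1))
    rw [Finset.sum_eq_single (c (l + 2)), Finset.sum_eq_single (c l)] at h1
    · exact h1
    · intro j _ hj
      by_contra h
      exact hj (hW l j h)
    · intro h
      exact absurd (Finset.mem_univ _) h
    · intro j _ hj
      by_contra h
      exact hj (hE (l + 1) j h)
    · intro h
      exact absurd (Finset.mem_univ _) h
  obtain ⟨μ, hμ⟩ : ∃ μ, μ = cm P ω (c 0) (c 1) := ⟨_, rfl⟩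
  have hm : ∀ l, cm P ω (c l) (c (l + 1)) = μ := by
    intro l
    induction l with
    | zero => exact hμ.symm
    | succ l ih => rw [hms l, ih]
  have hμ0 : 0 < μ := by
    rw [hμ]
    exact lt_of_le_of_ne (hCN.nonneg _ _) (Ne.symm (hc.arc 0))
  have hp0 : ∀ l, P.p (c l) 0 = Real.cos (φ l) := by
    intro l
    rw [← hc.cos l, flat_ca P (hzc l)]
  have hp1 : ∀ l, P.p (c l) 1 = Real.sin (φ l) := by
    intro l
    rw [← hc.sin l, flat_cb P (hzc l)]
  refine ⟨hg, K, c, φ, μ, hμ0, hc.ring, hc.per, fun l => (cm_ne_zero.1 (hc.arc l)).1, ?_,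
    fun i hi => hc.surj i (hbot i hi), ?_⟩
  · intro l
    funext k
    fin_cases k
    · exact hp0 l
    · exact hp1 l
    · exact hzc l
  · intro x
    unfold QQ RB
    rw [Finset.mul_sum]
    have hinj : Set.InjOn c (Finset.range K : Set ℕ) := by
      intro l hl l' hl' h
      exact hc.inj l l' (Finset.mem_range.1 hl) (Finset.mem_range.1 hl') h
    have h1 : ∑ i, ∑ j, cm P ω i j * ((2 * x i * x j - (x i ^ 2 + x j ^ 2) *
          CC (ca P) (cb P) i j) / D2 (ca P) (cb P) i j)
        = ∑ i ∈ (Finset.range K).image c, ∑ j, cm P ω i j * ((2 * x i * x j -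
          (x i ^ 2 + x j ^ 2) * CC (ca P) (cb P) i j) / D2 (ca P) (cb P) i j) := by
      symm
      apply Finset.sum_subset (Finset.subset_univ _)
      intro i _ hi
      apply Finset.sum_eq_zero
      intro j _
      by_cases h : cm P ω i j = 0
      · rw [h, zero_mul]
      · exfalso
        apply hi
        obtain ⟨l, hl, hli⟩ := hc.surj i (hbot i (hAN2 i j (cm_ne_zero.1 h).1).1)
        exact Finset.mem_image.2 ⟨l, Finset.mem_range.2 hl, hli⟩
    rw [h1, Finset.sum_image hinj]
    apply Finset.sum_congr rfl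
    intro l _
    rw [Finset.sum_eq_single (c (l + 1))]
    · rw [hm l]
      congr 1
      unfold Psi CC D2
      rw [hc.cos, hc.cos, hc.sin, hc.sin, Real.cos_sub, Real.sin_sub]
      congr 1
      · ring
      · ring
    · intro j _ hj
      by_cases h : cm P ω (c l) j = 0
      · rw [h, zero_mul]
      · exact absurd (hE l j h) hj
    · intro h
      exact absurd (Finset.mem_univ _) h

end SphJam
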