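import Pool.Agent.SphJam.RingFlat

set_option autoImplicit false
open Matrix Finset

namespace SphJam

section

variable {I : Type}

end


theorem dd_add_smul (u v Y Z : V3) (s t : ℝ) : dd u v (s • Y + t • Z) = s * dd u v Y + t * dd u v Z := by
  simp [dd, cr, dotProduct, Fin.sum_univ_three]
  ring

theorem dd_formula (φ τ : ℕ → ℝ) (l : ℕ) (Y : V3) :
    dd (XX φ τ l) (XX φ τ (l + 1)) Y = Y 2 * Real.sin (φ (l + 1) - φ l)
      + Y 0 * (τ (l + 1) * Real.sin (φ l) - τ l * Real.sin (φ (l + 1)))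
      + Y 1 * (τ l * Real.cos (φ (l + 1)) - τ (l + 1) * Real.cos (φ l)) := by
  rw [Real.sin_sub]
  simp [dd, cr, dotProduct, Fin.sum_univ_three, XX]
  ring

theorem XX_per {K : ℕ} {φ : ℕ → ℝ} (hR : RingData K φ) (τ : ℕ → ℝ)
    (hτ : ∀ l, τ (l + K) = τ l) (l : ℕ) : XX φ τ (l + K) = XX φ τ l := by
  unfold XX
  rw [hR.per, hτ, Real.cos_add_two_pi, Real.sin_add_two_pi]


theorem ring_cover {K : ℕ} {φ : ℕ → ℝ} (hR : RingData K φ) (x y : ℝ) (h : ¬ (x = 0 ∧ y = 0)) :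
    ∃ l, l < K ∧ ∃ α β : ℝ, 0 ≤ α ∧ 0 ≤ β ∧ x = α * Real.cos (φ l) + β * Real.cos (φ (l + 1)) ∧
      y = α * Real.sin (φ l) + β * Real.sin (φ (l + 1)) := by
  obtain ⟨r, ψ0, hr, hx0, hy0⟩ : ∃ r ψ0 : ℝ, 0 < r ∧ x = r * Real.cos ψ0 ∧ y = r * Real.sin ψ0 := by
    refine ⟨‖(⟨x, y⟩ : ℂ)‖, Complex.arg ⟨x, y⟩, ?_, ?_, ?_⟩
    · rw [norm_pos_iff]
      intro h0
      apply h
      have h1 := congrArg Complex.re h0
      have h2 := congrArg Complex.im h0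
      simp at h1 h2
      exact ⟨h1, h2⟩
    · rw [Complex.norm_mul_cos_arg]
    · rw [Complex.norm_mul_sin_arg]
  obtain ⟨ψ, hψ1, hψ2, hc, hs⟩ : ∃ ψ : ℝ, φ 0 ≤ ψ ∧ ψ < φ 0 + 2 * Real.pi ∧
      Real.cos ψ = Real.cos ψ0 ∧ Real.sin ψ = Real.sin ψ0 := by
    have h1 := toIcoMod_mem_Ico Real.two_pi_pos (φ 0) ψ0
    refine ⟨toIcoMod Real.two_pi_pos (φ 0) ψ0, h1.1, h1.2, ?_, ?_⟩
    · rw [← self_sub_toIcoDiv_zsmul, zsmul_eq_mul, Real.cos_sub_int_mul_two_pi]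
    · rw [← self_sub_toIcoDiv_zsmul, zsmul_eq_mul, Real.sin_sub_int_mul_two_pi]
  have hex : ∃ l, ψ < φ (l + 1) := by
    refine ⟨K - 1, ?_⟩
    have h1 := hR.Kpos
    have h2 : K - 1 + 1 = 0 + K := by omega
    rw [h2, hR.per]
    exact hψ2
  classical
  obtain ⟨l, hl⟩ : ∃ l, l = Nat.find hex := ⟨_, rfl⟩
  have hl1 : ψ < φ (l + 1) := by rw [hl]; exact Nat.find_spec hex
  have hl2 : φ l ≤ ψ := by
    rcases Nat.eq_zero_or_pos l with h0 | h0
    · rw [h0]; exact hψ1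
    · have h1 := Nat.find_min hex (m := l - 1) (by omega)
      have h2 : l - 1 + 1 = l := by omega
      rw [h2] at h1
      exact not_lt.1 h1
  have hlK : l < K := by
    have h1 := hR.Kpos
    have h3 : Nat.find hex ≤ K - 1 := Nat.find_min' hex (by
      have h2 : K - 1 + 1 = 0 + K := by omega
      rw [h2, hR.per]
      exact hψ2)
    omega
  have hg0 := hR.gap0 l
  have hg1 := hR.gap1 l
  have hδ : 0 < Real.sin (φ (l + 1) - φ l) := Real.sin_pos_of_pos_of_lt_pi hg0 hg1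
  refine ⟨l, hlK, r * Real.sin (φ (l + 1) - ψ) / Real.sin (φ (l + 1) - φ l),
    r * Real.sin (ψ - φ l) / Real.sin (φ (l + 1) - φ l), ?_, ?_, ?_, ?_⟩
  · exact div_nonneg (mul_nonneg hr.le (Real.sin_nonneg_of_nonneg_of_le_pi (by linarith)
      (by linarith))) hδ.le
  · exact div_nonneg (mul_nonneg hr.le (Real.sin_nonneg_of_nonneg_of_le_pi (by linarith)
      (by linarith))) hδ.le
  · rw [hx0, ← hc]
    have h1 : Real.sin (φ (l + 1) - ψ) * Real.cos (φ l) + Real.sin (ψ - φ l) * Real.cos (φ (l + 1))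
        = Real.cos ψ * Real.sin (φ (l + 1) - φ l) := by
      rw [Real.sin_sub, Real.sin_sub, Real.sin_sub]
      ring
    have h2 : r * Real.sin (φ (l + 1) - ψ) / Real.sin (φ (l + 1) - φ l) * Real.cos (φ l)
        + r * Real.sin (ψ - φ l) / Real.sin (φ (l + 1) - φ l) * Real.cos (φ (l + 1))
        = r * (Real.sin (φ (l + 1) - ψ) * Real.cos (φ l) + Real.sin (ψ - φ l) * Real.cos (φ (l + 1)))
          / Real.sin (φ (l + 1) - φ l) := by ring
    rw [h2, h1, ← mul_assoc, mul_div_assoc, div_self hδ.ne', mul_one]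
  · rw [hy0, ← hs]
    have h1 : Real.sin (φ (l + 1) - ψ) * Real.sin (φ l) + Real.sin (ψ - φ l) * Real.sin (φ (l + 1))
        = Real.sin ψ * Real.sin (φ (l + 1) - φ l) := by
      rw [Real.sin_sub, Real.sin_sub, Real.sin_sub]
      ring
    have h2 : r * Real.sin (φ (l + 1) - ψ) / Real.sin (φ (l + 1) - φ l) * Real.sin (φ l)
        + r * Real.sin (ψ - φ l) / Real.sin (φ (l + 1) - φ l) * Real.sin (φ (l + 1))
        = r * (Real.sin (φ (l + 1) - ψ) * Real.sin (φ l) + Real.sin (ψ - φ l) * Real.sin (φ (l + 1)))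
          / Real.sin (φ (l + 1) - φ l) := by ring
    rw [h2, h1, ← mul_assoc, mul_div_assoc, div_self hδ.ne', mul_one]

theorem below_self {K : ℕ} {φ : ℕ → ℝ} (hR : RingData K φ) (τ : ℕ → ℝ)
    (hτ : ∀ l, τ (l + K) = τ l) (hL : ∀ l, LL τ φ l ≤ 0) (l q : ℕ) :
    dd (XX φ τ l) (XX φ τ (l + 1)) (XX φ τ q) ≤ 0 := by
  have hδ : 0 < Real.sin (φ (l + 1) - φ l) :=
    Real.sin_pos_of_pos_of_lt_pi (hR.gap0 l) (hR.gap1 l)
  obtain ⟨S, hS⟩ : ∃ S, S = Real.sin (φ (l + 1) - φ l) := ⟨_, rfl⟩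
  rw [← hS] at hδ
  have hS' := hS
  rw [Real.sin_sub] at hS'
  obtain ⟨c1, hc1⟩ : ∃ c1, c1 = (τ l * Real.sin (φ (l + 1)) - τ (l + 1) * Real.sin (φ l)) / S :=
    ⟨_, rfl⟩
  obtain ⟨c2, hc2⟩ : ∃ c2, c2 = (τ (l + 1) * Real.cos (φ l) - τ l * Real.cos (φ (l + 1))) / S :=
    ⟨_, rfl⟩
  have hc1' : c1 * S = τ l * Real.sin (φ (l + 1)) - τ (l + 1) * Real.sin (φ l) := by
    rw [hc1, div_mul_cancel₀ _ hδ.ne']
  have hc2' : c2 * S = τ (l + 1) * Real.cos (φ l) - τ l * Real.cos (φ (l + 1)) := by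
    rw [hc2, div_mul_cancel₀ _ hδ.ne']
  have key := ring_support hR (fun k => -τ k + c1 * Real.cos (φ k) + c2 * Real.sin (φ k)) ?_ ?_ l
    ?_ ?_ q
  · rw [dd_formula, ← hS]
    have h1 : (XX φ τ q) 2 * S
        + (XX φ τ q) 0 * (τ (l + 1) * Real.sin (φ l) - τ l * Real.sin (φ (l + 1)))
        + (XX φ τ q) 1 * (τ l * Real.cos (φ (l + 1)) - τ (l + 1) * Real.cos (φ l))
        = - (S * (-τ q + c1 * Real.cos (φ q) + c2 * Real.sin (φ q))) := by
      simp only [XX, Matrix.cons_val]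
      linear_combination Real.cos (φ q) * hc1' + Real.sin (φ q) * hc2'
    rw [h1]
    have := mul_nonneg hδ.le key
    linarith
  · intro k
    simp only [hτ, hR.per, Real.cos_add_two_pi, Real.sin_add_two_pi]
  · intro k
    rw [LL_linear hR.gap0 hR.gap1 (fun k => -τ k) c1 c2 k]
    have h1 := hL k
    have h2 : LL (fun k => -τ k) φ k = - LL τ φ k := by
      unfold LL
      ring
    rw [h2]
    linarith
  · have h1 : S * (-τ l + c1 * Real.cos (φ l) + c2 * Real.sin (φ l)) = 0 := by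
      linear_combination (-τ l) * hS' + Real.cos (φ l) * hc1' + Real.sin (φ l) * hc2'
    exact (mul_eq_zero.1 h1).resolve_left hδ.ne'
  · have h1 : S * (-τ (l + 1) + c1 * Real.cos (φ (l + 1)) + c2 * Real.sin (φ (l + 1))) = 0 := by
      linear_combination (-τ (l + 1)) * hS' + Real.cos (φ (l + 1)) * hc1'
        + Real.sin (φ (l + 1)) * hc2'
    exact (mul_eq_zero.1 h1).resolve_left hδ.ne'

/-- Leaving the region below the curve happens through an edge of the curve. -/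
theorem below_exit {K : ℕ} {φ : ℕ → ℝ} (hR : RingData K φ) (τ : ℕ → ℝ)
    (hτ : ∀ l, τ (l + K) = τ l) (hL : ∀ l, LL τ φ l ≤ 0) (Y Z : V3) (hY : Below φ τ Y)
    (hZ : ¬ Below φ τ Z)
    (hh : ∀ t : ℝ, 0 < t → t ≤ 1 →
      ¬ ((1 - t) * Y 0 + t * Z 0 = 0 ∧ (1 - t) * Y 1 + t * Z 1 = 0)) :
    ∃ t : ℝ, 0 < t ∧ t ≤ 1 ∧ ∃ l, ∃ α β : ℝ, 0 ≤ α ∧ 0 ≤ β ∧
      (1 - t) • Y + t • Z = α • XX φ τ l + β • XX φ τ (l + 1) := by
  classical
  have hper : ∀ W : V3, Function.Periodic (fun l => dd (XX φ τ l) (XX φ τ (l + 1)) W) K := by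
    intro W l
    simp only
    have h1 : l + K + 1 = (l + 1) + K := by ring
    rw [h1, XX_per hR τ hτ, XX_per hR τ hτ]
  have hZ' : ∃ l0, l0 < K ∧ 0 ≤ dd (XX φ τ l0) (XX φ τ (l0 + 1)) Z := by
    unfold Below at hZ
    push Not at hZ
    obtain ⟨l, hl⟩ := hZ
    refine ⟨l % K, Nat.mod_lt _ hR.Kpos, ?_⟩
    have h1 := (hper Z).map_mod_nat l
    rw [h1]
    exact hl
  obtain ⟨l0, hl0, hl0'⟩ := hZ'
  obtain ⟨q, hq, hmin⟩ := Finset.exists_min_image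
    ((range K).filter fun l => 0 ≤ dd (XX φ τ l) (XX φ τ (l + 1)) Z)
    (fun l => - dd (XX φ τ l) (XX φ τ (l + 1)) Y /
      (dd (XX φ τ l) (XX φ τ (l + 1)) Z - dd (XX φ τ l) (XX φ τ (l + 1)) Y))
    ⟨l0, by simp [hl0, hl0']⟩
  simp only [Finset.mem_filter, Finset.mem_range] at hq hmin
  obtain ⟨t, ht⟩ : ∃ t, t = - dd (XX φ τ q) (XX φ τ (q + 1)) Y /
      (dd (XX φ τ q) (XX φ τ (q + 1)) Z - dd (XX φ τ q) (XX φ τ (q + 1)) Y) := ⟨_, rfl⟩
  rw [← ht] at hmin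
  have hY' : ∀ l, dd (XX φ τ l) (XX φ τ (l + 1)) Y < 0 := hY
  have hq2 := hq.2
  have hYq := hY' q
  have ht0 : 0 < t := by
    rw [ht]
    exact div_pos (by linarith) (by linarith)
  have ht1 : t ≤ 1 := by
    rw [ht, div_le_one (by linarith)]
    linarith
  obtain ⟨Q, hQ⟩ : ∃ Q : V3, Q = (1 - t) • Y + t • Z := ⟨_, rfl⟩
  have hQd : ∀ l, dd (XX φ τ l) (XX φ τ (l + 1)) Q
      = (1 - t) * dd (XX φ τ l) (XX φ τ (l + 1)) Y + t * dd (XX φ τ l) (XX φ τ (l + 1)) Z := by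
    intro l
    rw [hQ, dd_add_smul]
  have hQq : dd (XX φ τ q) (XX φ τ (q + 1)) Q = 0 := by
    rw [hQd, ht]
    have : dd (XX φ τ q) (XX φ τ (q + 1)) Z - dd (XX φ τ q) (XX φ τ (q + 1)) Y ≠ 0 := by
      have : 0 < dd (XX φ τ q) (XX φ τ (q + 1)) Z - dd (XX φ τ q) (XX φ τ (q + 1)) Y := by
        linarith
      exact this.ne'
    field_simp
    ring
  have hQle : ∀ l, l < K → dd (XX φ τ l) (XX φ τ (l + 1)) Q ≤ 0 := by
    intro l hl
    rw [hQd]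
    have h1 := hY' l
    by_cases hlZ : 0 ≤ dd (XX φ τ l) (XX φ τ (l + 1)) Z
    · have h2 := hmin l ⟨hl, hlZ⟩
      rw [le_div_iff₀ (by linarith)] at h2
      linarith
    · have h3 : t * dd (XX φ τ l) (XX φ τ (l + 1)) Z ≤ 0 :=
        mul_nonpos_of_nonneg_of_nonpos ht0.le (not_le.1 hlZ).le
      have h4 : (1 - t) * dd (XX φ τ l) (XX φ τ (l + 1)) Y ≤ 0 :=
        mul_nonpos_of_nonneg_of_nonpos (by linarith) h1.le
      linarith
  obtain ⟨l, hl, α, β, hα, hβ, hx, hy⟩ := ring_cover hR (Q 0) (Q 1) (by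
    have := hh t ht0 ht1
    rw [hQ]
    simpa using this)
  have hδl : 0 < Real.sin (φ (l + 1) - φ l) :=
    Real.sin_pos_of_pos_of_lt_pi (hR.gap0 l) (hR.gap1 l)
  have hδq : 0 < Real.sin (φ (q + 1) - φ q) :=
    Real.sin_pos_of_pos_of_lt_pi (hR.gap0 q) (hR.gap1 q)
  obtain ⟨h, hh'⟩ : ∃ h, h = Q 2 - α * τ l - β * τ (l + 1) := ⟨_, rfl⟩
  have e1 : dd (XX φ τ l) (XX φ τ (l + 1)) Q = h * Real.sin (φ (l + 1) - φ l) := by
    rw [dd_formula, hx, hy, hh', Real.sin_sub]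
    ring
  have hle : h ≤ 0 := by
    have h1 := hQle l hl
    rw [e1] at h1
    by_contra hc
    have := mul_pos (not_le.1 hc) hδl
    linarith
  have e2 : dd (XX φ τ q) (XX φ τ (q + 1)) Q = α * dd (XX φ τ q) (XX φ τ (q + 1)) (XX φ τ l)
      + β * dd (XX φ τ q) (XX φ τ (q + 1)) (XX φ τ (l + 1))
      + h * Real.sin (φ (q + 1) - φ q) := by
    rw [dd_formula, dd_formula, dd_formula, hx, hy, hh']
    simp only [XX, Matrix.cons_val]
    ring
  have s1 := mul_nonpos_of_nonneg_of_nonpos hα (below_self hR τ hτ hL q l)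
  have s2 := mul_nonpos_of_nonneg_of_nonpos hβ (below_self hR τ hτ hL q (l + 1))
  have s3 := mul_nonpos_of_nonpos_of_nonneg hle hδq.le
  have h0 : h * Real.sin (φ (q + 1) - φ q) = 0 := by
    rw [hQq] at e2
    linarith
  have h00 : h = 0 := (mul_eq_zero.1 h0).resolve_right hδq.ne'
  refine ⟨t, ht0, ht1, l, α, β, hα, hβ, ?_⟩
  rw [← hQ]
  funext i
  fin_cases i
  · simpa [XX] using hx
  · simpa [XX] using hy
  · have : Q 2 = α * τ l + β * τ (l + 1) := by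
      rw [h00] at hh'
      linarith
    simpa [XX] using this

end SphJam
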