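import Pool.Agent.SphJam.Defs

set_option autoImplicit false
open Finset

namespace SphJam

/-! ### auxiliary lemmas -/

theorem aux_sum_shift {K : ℕ} (F : ℕ → ℝ) (hF : ∀ l, F (l + K) = F l) :
    ∑ l ∈ range K, F (l + 1) = ∑ l ∈ range K, F l := by
  have h1 := Finset.sum_range_succ F K
  have h2 := Finset.sum_range_succ' F K
  have h3 : F K = F 0 := by
    have := hF 0
    rwa [zero_add] at this
  rw [h3] at h1
  linarith

theorem aux_sum_Ico {K : ℕ} (F : ℕ → ℝ) (hF : ∀ l, F (l + K) = F l) (a : ℕ) :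
    ∑ l ∈ Ico a (a + K), F l = ∑ l ∈ range K, F l := by
  rw [Finset.sum_Ico_eq_sum_range, Nat.add_sub_cancel_left]
  induction a with
  | zero => simp
  | succ a ih =>
    rw [← ih]
    have h1 := aux_sum_shift (K := K) (fun l => F (a + l)) (fun l => by
      rw [← add_assoc, hF])
    rw [← h1]
    refine Finset.sum_congr rfl fun l _ => ?_
    congr 1
    ring

theorem aux_window {K : ℕ} (hK : 0 < K) (P : ℕ → Prop) (hP : ∀ l, P (l + K) ↔ P l) (a : ℕ)
    (h : ∀ l, a < l → l ≤ a + K → P l) : ∀ l, P l := by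
  have h1 : ∀ l, a < l → P l := by
    intro l
    induction l using Nat.strong_induction_on with
    | _ l ih =>
      intro hl
      rcases Nat.lt_or_ge (a + K) l with h2 | h2
      · have h3 : l = (l - K) + K := by omega
        rw [h3, hP]
        exact ih (l - K) (by omega) (by omega)
      · exact h l hl h2
  have h2 : ∀ n l, P (l + K * n) ↔ P l := by
    intro n
    induction n with
    | zero => intro l; simp
    | succ n ih =>
      intro l
      rw [Nat.mul_succ, ← add_assoc, hP, ih]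
  intro l
  rw [← h2 (a + 1) l]
  apply h1
  have : a + 1 ≤ K * (a + 1) := Nat.le_mul_of_pos_left _ hK
  omega

theorem aux_window0 {K : ℕ} (hK : 0 < K) (P : ℕ → Prop) (hP : ∀ l, P (l + K) ↔ P l)
    (h : ∀ l, l < K → P l) : ∀ l, P l := by
  refine aux_window hK P hP 0 ?_
  intro l h0 h1
  rw [zero_add] at h1
  rcases h1.lt_or_eq with h2 | h2
  · exact h l h2
  · rw [h2]
    have h3 := (hP 0).2 (h 0 hK)
    rwa [zero_add] at h3

section basics

variable {K : ℕ} {φ : ℕ → ℝ} (hR : RingData K φ)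

include hR

theorem aux_sin_pos (l : ℕ) : 0 < Real.sin (φ (l + 1) - φ l) :=
  Real.sin_pos_of_pos_of_lt_pi (hR.gap0 l) (hR.gap1 l)

theorem aux_gap_per (l : ℕ) : φ (l + K + 1) - φ (l + K) = φ (l + 1) - φ l := by
  have h1 := hR.per (l + 1)
  have h2 := hR.per l
  have h3 : l + 1 + K = l + K + 1 := by ring
  rw [h3] at h1
  rw [h1, h2]
  ring

theorem aux_cos_per (l : ℕ) : Real.cos (φ (l + K)) = Real.cos (φ l) := by
  rw [hR.per, Real.cos_add_two_pi]

theorem aux_sin_per (l : ℕ) : Real.sin (φ (l + K)) = Real.sin (φ l) := by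
  rw [hR.per, Real.sin_add_two_pi]

theorem aux_mono : StrictMono φ := strictMono_nat_of_lt_succ fun l => by
  have := hR.gap0 l
  linarith

/-- polar form of `Psi` -/
noncomputable def psi2 (u w u' w' δ : ℝ) : ℝ :=
  (u * w' + w * u' - (u * u' + w * w') * Real.cos δ) / Real.sin δ

/-- polar form of `RB` -/
noncomputable def PB (K : ℕ) (φ x y : ℕ → ℝ) : ℝ :=
  ∑ l ∈ range K, psi2 (x l) (x (l + 1)) (y l) (y (l + 1)) (φ (l + 1) - φ l)

omit hR in
theorem PB_symm (x y : ℕ → ℝ) : PB K φ x y = PB K φ y x := by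
  refine Finset.sum_congr rfl fun l _ => ?_
  unfold psi2
  congr 1
  ring

omit hR in
theorem RB_eq_PB (x : ℕ → ℝ) : RB K φ x = PB K φ x x := by
  refine Finset.sum_congr rfl fun l _ => ?_
  unfold psi2 Psi
  congr 1
  ring

omit hR in
theorem RB_add (x y : ℕ → ℝ) :
    RB K φ (fun l => x l + y l) = RB K φ x + 2 * PB K φ x y + RB K φ y := by
  unfold RB PB
  rw [Finset.mul_sum, ← Finset.sum_add_distrib, ← Finset.sum_add_distrib]
  refine Finset.sum_congr rfl fun l _ => ?_
  unfold psi2 Psi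
  rw [mul_div_assoc', ← add_div, ← add_div]
  congr 1
  ring

theorem PB_eq {x y : ℕ → ℝ} (hx : ∀ l, x (l + K) = x l) (hy : ∀ l, y (l + K) = y l) :
    PB K φ x y = ∑ l ∈ range K, y (l + 1) * LL x φ l := by
  have hx1 : ∀ l, x (l + K + 1) = x (l + 1) := by
    intro l
    have := hx (l + 1)
    rwa [show l + 1 + K = l + K + 1 by ring] at this
  have h1 : PB K φ x y = ∑ l ∈ range K, (y (l + 1) * ((x l - x (l + 1) *
      Real.cos (φ (l + 1) - φ l)) / Real.sin (φ (l + 1) - φ l))) + ∑ l ∈ range K,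
      (y l * ((x (l + 1) - x l * Real.cos (φ (l + 1) - φ l)) / Real.sin (φ (l + 1) - φ l))) := by
    rw [← Finset.sum_add_distrib]
    refine Finset.sum_congr rfl fun l _ => ?_
    unfold psi2
    rw [mul_div_assoc', mul_div_assoc', ← add_div]
    congr 1
    ring
  have h2 := aux_sum_shift (K := K) (fun l => y l * ((x (l + 1) - x l *
    Real.cos (φ (l + 1) - φ l)) / Real.sin (φ (l + 1) - φ l))) (fun l => by
      rw [aux_gap_per hR, hy, hx, hx1])
  rw [h1, ← h2, ← Finset.sum_add_distrib]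
  refine Finset.sum_congr rfl fun l _ => ?_
  unfold LL
  ring

theorem LL_cos (l : ℕ) : LL (fun l => Real.cos (φ l)) φ l = 0 := by
  have h1 := (aux_sin_pos hR (l + 1)).ne'
  have h2 := (aux_sin_pos hR l).ne'
  unfold LL
  have e1 : Real.cos (φ (l + 2)) = Real.cos (φ (l + 1)) * Real.cos (φ (l + 2) - φ (l + 1)) -
      Real.sin (φ (l + 1)) * Real.sin (φ (l + 2) - φ (l + 1)) := by
    rw [← Real.cos_add]; congr 1; ring
  have e2 : Real.cos (φ l) = Real.cos (φ (l + 1)) * Real.cos (φ (l + 1) - φ l) +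
      Real.sin (φ (l + 1)) * Real.sin (φ (l + 1) - φ l) := by
    rw [← Real.cos_sub]; congr 1; ring
  have e3 : (Real.cos (φ (l + 2)) - Real.cos (φ (l + 1)) * Real.cos (φ (l + 2) - φ (l + 1))) /
      Real.sin (φ (l + 2) - φ (l + 1)) = - Real.sin (φ (l + 1)) := by
    rw [div_eq_iff h1, e1]; ring
  have e4 : (Real.cos (φ l) - Real.cos (φ (l + 1)) * Real.cos (φ (l + 1) - φ l)) /
      Real.sin (φ (l + 1) - φ l) = Real.sin (φ (l + 1)) := by
    rw [div_eq_iff h2, e2]; ring
  rw [e3, e4]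
  ring

theorem LL_sin (l : ℕ) : LL (fun l => Real.sin (φ l)) φ l = 0 := by
  have h1 := (aux_sin_pos hR (l + 1)).ne'
  have h2 := (aux_sin_pos hR l).ne'
  unfold LL
  have e1 : Real.sin (φ (l + 2)) = Real.sin (φ (l + 1)) * Real.cos (φ (l + 2) - φ (l + 1)) +
      Real.cos (φ (l + 1)) * Real.sin (φ (l + 2) - φ (l + 1)) := by
    rw [← Real.sin_add]; congr 1; ring
  have e2 : Real.sin (φ l) = Real.sin (φ (l + 1)) * Real.cos (φ (l + 1) - φ l) -
      Real.cos (φ (l + 1)) * Real.sin (φ (l + 1) - φ l) := by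
    rw [← Real.sin_sub]; congr 1; ring
  have e3 : (Real.sin (φ (l + 2)) - Real.sin (φ (l + 1)) * Real.cos (φ (l + 2) - φ (l + 1))) /
      Real.sin (φ (l + 2) - φ (l + 1)) = Real.cos (φ (l + 1)) := by
    rw [div_eq_iff h1, e1]; ring
  have e4 : (Real.sin (φ l) - Real.sin (φ (l + 1)) * Real.cos (φ (l + 1) - φ l)) /
      Real.sin (φ (l + 1) - φ l) = - Real.cos (φ (l + 1)) := by
    rw [div_eq_iff h2, e2]; ring
  rw [e3, e4]
  ring

omit hR in
theorem LL_lin (x y : ℕ → ℝ) (α β : ℝ) (l : ℕ) :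
    LL (fun l => α * x l + β * y l) φ l = α * LL x φ l + β * LL y φ l := by
  unfold LL
  ring

omit hR in
theorem LL_add (x y : ℕ → ℝ) (l : ℕ) :
    LL (fun l => x l + y l) φ l = LL x φ l + LL y φ l := by
  unfold LL
  ring

/-- the linear functions -/
noncomputable def lin (φ : ℕ → ℝ) (c1 c2 : ℝ) : ℕ → ℝ :=
  fun l => c1 * Real.cos (φ l) + c2 * Real.sin (φ l)

theorem LL_linf (c1 c2 : ℝ) (l : ℕ) : LL (lin φ c1 c2) φ l = 0 := by
  have h := LL_lin (φ := φ) (fun l => Real.cos (φ l)) (fun l => Real.sin (φ l)) c1 c2 l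
  rw [LL_cos hR, LL_sin hR, mul_zero, mul_zero, add_zero] at h
  exact h

theorem lin_per (c1 c2 : ℝ) (l : ℕ) : lin φ c1 c2 (l + K) = lin φ c1 c2 l := by
  unfold lin
  rw [aux_cos_per hR, aux_sin_per hR]

theorem PB_linf {x : ℕ → ℝ} (hx : ∀ l, x (l + K) = x l) (c1 c2 : ℝ) :
    PB K φ x (lin φ c1 c2) = 0 := by
  rw [PB_symm, PB_eq hR (lin_per hR c1 c2) hx]
  refine Finset.sum_eq_zero fun l _ => ?_
  rw [LL_linf hR, mul_zero]

theorem RB_add_linf {x : ℕ → ℝ} (hx : ∀ l, x (l + K) = x l) (c1 c2 : ℝ) :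
    RB K φ (fun l => x l + lin φ c1 c2 l) = RB K φ x := by
  rw [RB_add, PB_linf hR hx, RB_eq_PB (lin φ c1 c2), PB_linf hR (lin_per hR c1 c2)]
  ring

theorem aux_w_pos (l : ℕ) : 0 < LL (fun _ => 1) φ l := by
  unfold LL
  have h1 := aux_sin_pos hR (l + 1)
  have h2 := aux_sin_pos hR l
  have h3 : 0 < 1 - 1 * Real.cos (φ (l + 2) - φ (l + 1)) := by
    have h4 := Real.cos_lt_cos_of_nonneg_of_le_pi le_rfl (hR.gap1 (l + 1)).le (hR.gap0 (l + 1))
    rw [Real.cos_zero] at h4
    have h5 : φ (l + 1 + 1) - φ (l + 1) = φ (l + 2) - φ (l + 1) := rfl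
    rw [h5] at h4
    linarith
  have h3' : 0 < 1 - 1 * Real.cos (φ (l + 1) - φ l) := by
    have h4 := Real.cos_lt_cos_of_nonneg_of_le_pi le_rfl (hR.gap1 l).le (hR.gap0 l)
    rw [Real.cos_zero] at h4
    linarith
  exact add_pos (div_pos h3 h1) (div_pos h3' h2)

end basics

/-! ### the path lemma -/

theorem aux_merge_alg {u w v s c s' c' : ℝ} (hs : 0 < s) (hs' : 0 < s')
    (hS : 0 < s * c' + c * s') (h1 : s ^ 2 + c ^ 2 = 1) (h2 : s' ^ 2 + c' ^ 2 = 1) :
    (2 * u * w - (u ^ 2 + w ^ 2) * c) / s + (2 * w * v - (w ^ 2 + v ^ 2) * c') / s' ≤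
      (2 * u * v - (u ^ 2 + v ^ 2) * (c * c' - s * s')) / (s * c' + c * s') := by
  have hs0 := hs.ne'
  have hs0' := hs'.ne'
  obtain ⟨S, hSd⟩ : ∃ S, S = s * c' + c * s' := ⟨_, rfl⟩
  rw [← hSd] at hS ⊢
  have hS0 := hS.ne'
  have key : (2 * u * v - (u ^ 2 + v ^ 2) * (c * c' - s * s')) / S -
      ((2 * u * w - (u ^ 2 + w ^ 2) * c) / s + (2 * w * v - (w ^ 2 + v ^ 2) * c') / s') =
      (S * w - (u * s' + v * s)) ^ 2 / (s * s' * S) := by
    rw [eq_div_iff (mul_ne_zero (mul_ne_zero hs0 hs0') hS0)]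
    have e1 : (2 * u * v - (u ^ 2 + v ^ 2) * (c * c' - s * s')) / S * (s * s' * S) =
        (2 * u * v - (u ^ 2 + v ^ 2) * (c * c' - s * s')) * (s * s') := by
      field_simp
    have e2 : (2 * u * w - (u ^ 2 + w ^ 2) * c) / s * (s * s' * S) =
        (2 * u * w - (u ^ 2 + w ^ 2) * c) * (s' * S) := by
      field_simp
    have e3 : (2 * w * v - (w ^ 2 + v ^ 2) * c') / s' * (s * s' * S) =
        (2 * w * v - (w ^ 2 + v ^ 2) * c') * (s * S) := by
      field_simp
    have e0 : ((2 * u * v - (u ^ 2 + v ^ 2) * (c * c' - s * s')) / S -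
      ((2 * u * w - (u ^ 2 + w ^ 2) * c) / s + (2 * w * v - (w ^ 2 + v ^ 2) * c') / s')) *
      (s * s' * S) = (2 * u * v - (u ^ 2 + v ^ 2) * (c * c' - s * s')) / S * (s * s' * S) -
      ((2 * u * w - (u ^ 2 + w ^ 2) * c) / s * (s * s' * S) +
      (2 * w * v - (w ^ 2 + v ^ 2) * c') / s' * (s * s' * S)) := by ring
    rw [e0, e1, e2, e3, hSd]
    linear_combination (u ^ 2 * s' ^ 2) * h1 + (v ^ 2 * s ^ 2) * h2
  have h3 : 0 ≤ (S * w - (u * s' + v * s)) ^ 2 / (s * s' * S) := by positivity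
  linarith

theorem aux_merge {u w v δ δ' : ℝ} (h0 : 0 < δ) (h0' : 0 < δ') (hpi : δ + δ' < Real.pi) :
    Psi u w δ + Psi w v δ' ≤ Psi u v (δ + δ') := by
  have hs : 0 < Real.sin δ := Real.sin_pos_of_pos_of_lt_pi h0 (by linarith)
  have hs' : 0 < Real.sin δ' := Real.sin_pos_of_pos_of_lt_pi h0' (by linarith)
  have hS : 0 < Real.sin (δ + δ') := Real.sin_pos_of_pos_of_lt_pi (by linarith) hpi
  unfold Psi
  rw [Real.sin_add] at hS ⊢
  rw [Real.cos_add]
  exact aux_merge_alg hs hs' hS (Real.sin_sq_add_cos_sq δ) (Real.sin_sq_add_cos_sq δ')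

section paths

variable {K : ℕ} {φ : ℕ → ℝ} (hR : RingData K φ)

include hR

theorem aux_path (z : ℕ → ℝ) (a b : ℕ) (hab : a < b) (hpi : φ b - φ a < Real.pi) :
    ∑ l ∈ Ico a b, Psi (z l) (z (l + 1)) (φ (l + 1) - φ l) ≤ Psi (z a) (z b) (φ b - φ a) := by
  induction b, hab using Nat.le_induction with
  | base =>
    rw [Nat.Ico_succ_singleton, Finset.sum_singleton]
  | succ b hb ih =>
    have h1 := hR.gap0 b
    have h2 := aux_mono hR (show a < b from hb)
    rw [Finset.sum_Ico_succ_top (by omega)]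
    have h3 := ih (by linarith)
    have h4 := aux_merge (u := z a) (w := z b) (v := z (b + 1)) (δ := φ b - φ a)
      (δ' := φ (b + 1) - φ b) (by linarith) h1 (by linarith)
    have h5 : φ b - φ a + (φ (b + 1) - φ b) = φ (b + 1) - φ a := by ring
    rw [h5] at h4
    linarith

theorem aux_arc (z : ℕ → ℝ) {a b : ℕ} (hab : a < b) (hpi : φ b - φ a ≤ Real.pi)
    (za : z a = 0) (zb : z b = 0) :
    ∑ l ∈ Ico a b, Psi (z l) (z (l + 1)) (φ (l + 1) - φ l) ≤ 0 := by
  rcases hpi.lt_or_eq with h1 | h1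
  · refine (aux_path hR z a b hab h1).trans ?_
    rw [za, zb]
    unfold Psi
    simp
  · have hb : a + 1 < b := by
      rcases Nat.lt_or_ge (a + 1) b with h2 | h2
      · exact h2
      · exfalso
        have h3 : b = a + 1 := by omega
        have h4 := hR.gap1 a
        rw [h3] at h1
        linarith
    rw [Finset.sum_eq_sum_Ico_succ_bot hab]
    have h0 := hR.gap0 a
    have h2 := aux_path hR z (a + 1) b hb (by linarith)
    have h3 : φ b - φ (a + 1) = Real.pi - (φ (a + 1) - φ a) := by linarith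
    rw [h3] at h2
    have h4 : Psi (z a) (z (a + 1)) (φ (a + 1) - φ a) +
        Psi (z (a + 1)) (z b) (Real.pi - (φ (a + 1) - φ a)) = 0 := by
      unfold Psi
      rw [za, zb, Real.sin_pi_sub, Real.cos_pi_sub, ← add_div]
      have h5 : (2 * 0 * z (a + 1) - (0 ^ 2 + z (a + 1) ^ 2) * Real.cos (φ (a + 1) - φ a) +
          (2 * z (a + 1) * 0 - (z (a + 1) ^ 2 + 0 ^ 2) * -Real.cos (φ (a + 1) - φ a))) = 0 := by
        ring
      rw [h5, zero_div]
    linarith

/-- the form is nonpositive on sequences whose zeros are not in an open half plane -/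
theorem aux_zero_set {z : ℕ → ℝ} (hz : ∀ l, z (l + K) = z l)
    (H : ∀ θ : ℝ, ∃ l, z l = 0 ∧ Real.cos (φ l - θ) ≤ 0) : RB K φ z ≤ 0 := by
  have hK := hR.Kpos
  obtain ⟨a0, ha0, -⟩ := H 0
  -- consecutive zeros
  have hnext : ∀ a b, a < b → z b = 0 → (∀ l, a < l → l < b → z l ≠ 0) →
      φ b - φ a ≤ Real.pi := by
    intro a b hab hb hmin
    by_contra hcon
    push Not at hcon
    obtain ⟨l, hl0, hl⟩ := H ((φ b + φ a) / 2 + Real.pi)
    have hall := aux_window hK
      (fun l => z l = 0 → 0 < Real.cos (φ l - ((φ b + φ a) / 2 + Real.pi))) (fun l => by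
        rw [hz, hR.per]
        have : φ l + 2 * Real.pi - ((φ b + φ a) / 2 + Real.pi) =
          φ l - ((φ b + φ a) / 2 + Real.pi) + 2 * Real.pi := by ring
        rw [this, Real.cos_add_two_pi]) a (fun l h1 h2 h3 => by
        have h4 : b ≤ l := by
          by_contra h5
          exact hmin l h1 (by omega) h3
        have h5 := (aux_mono hR).monotone h4
        have h6 := (aux_mono hR).monotone h2
        rw [hR.per] at h6
        have h7 := Real.pi_pos
        apply Real.cos_pos_of_mem_Ioo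
        constructor
        · linarith
        · linarith)
    exact absurd (hall l hl0) (not_lt.2 hl)
  have key : ∀ n a, z a = 0 → a ≤ a0 + K → a0 + K - a = n →
      ∑ l ∈ Ico a (a0 + K), Psi (z l) (z (l + 1)) (φ (l + 1) - φ l) ≤ 0 := by
    intro n
    induction n using Nat.strong_induction_on with
    | _ n ih =>
      intro a ha hle hn
      rcases hle.lt_or_eq with h1 | h1
      · have hex : ∃ b, a < b ∧ z b = 0 := ⟨a0 + K, h1, by rw [hz, ha0]⟩
        classical
        have hb := Nat.find_spec hex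
        have hmin : ∀ l, a < l → l < Nat.find hex → z l ≠ 0 := by
          intro l h2 h3 h4
          exact Nat.find_min hex h3 ⟨h2, h4⟩
        have hble : Nat.find hex ≤ a0 + K := Nat.find_min' hex ⟨h1, by rw [hz, ha0]⟩
        generalize Nat.find hex = b at hb hmin hble
        have h2 := aux_arc hR z hb.1 (hnext a b hb.1 hb.2 hmin) ha hb.2
        have h3 := ih (a0 + K - b) (by omega) b hb.2 hble rfl
        rw [← Finset.sum_Ico_consecutive _ hb.1.le hble]
        linarith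
      · rw [h1]; simp
  have h1 := key (a0 + K - a0) a0 ha0 (by omega) rfl
  rw [aux_sum_Ico (fun l => Psi (z l) (z (l + 1)) (φ (l + 1) - φ l)) (fun l => by
    have h2 := hz (l + 1)
    rw [show l + 1 + K = l + K + 1 by ring] at h2
    rw [aux_gap_per hR, hz, h2]) a0] at h1
  exact h1

/-- coercivity -/
theorem aux_coercive : ∃ B : ℝ, ∀ c1 c2 A : ℝ, 0 ≤ A → (∀ l, -A ≤ lin φ c1 c2 l) →
    |c1| ≤ B * A ∧ |c2| ≤ B * A := by
  have hK := hR.Kpos
  have hw := aux_w_pos hR
  obtain ⟨w, hwd⟩ : ∃ w : ℕ → ℝ, w = LL (fun _ => 1) φ := ⟨_, rfl⟩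
  rw [← hwd] at hw
  obtain ⟨W, hW⟩ : ∃ W, W = ∑ l ∈ range K, w l := ⟨_, rfl⟩
  have hW0 : 0 ≤ W := by
    rw [hW]; exact Finset.sum_nonneg fun l _ => (hw l).le
  obtain ⟨Q, hQ⟩ : ∃ Q, Q = ∑ l ∈ range K, W / w l := ⟨_, rfl⟩
  have hQ0 : 0 ≤ Q := by
    rw [hQ]; exact Finset.sum_nonneg fun l _ => div_nonneg hW0 (hw l).le
  have hs := aux_sin_pos hR 0
  refine ⟨2 * (Q + 1) / Real.sin (φ (0 + 1) - φ 0), ?_⟩
  intro c1 c2 A hA hlin
  have hsum : ∑ l ∈ range K, w l * (lin φ c1 c2 (l + 1) + A) = A * W := by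
    have h1 : ∑ l ∈ range K, lin φ c1 c2 (l + 1) * LL (fun _ => 1) φ l = 0 := by
      rw [← PB_eq hR (fun _ => rfl) (lin_per hR c1 c2)]
      exact PB_linf hR (fun _ => rfl) c1 c2
    rw [← hwd] at h1
    have h2 : ∑ l ∈ range K, w l * (lin φ c1 c2 (l + 1) + A) =
        ∑ l ∈ range K, lin φ c1 c2 (l + 1) * w l + A * ∑ l ∈ range K, w l := by
      rw [Finset.mul_sum, ← Finset.sum_add_distrib]
      exact Finset.sum_congr rfl fun l _ => by ring
    rw [h2, h1, ← hW, zero_add]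
  have hub : ∀ l, l < K → lin φ c1 c2 (l + 1) ≤ A * Q := by
    intro l hl
    have h1 : w l * (lin φ c1 c2 (l + 1) + A) ≤ A * W := by
      rw [← hsum]
      exact Finset.single_le_sum (f := fun l => w l * (lin φ c1 c2 (l + 1) + A))
        (fun j _ => mul_nonneg (hw j).le (by linarith [hlin (j + 1)])) (Finset.mem_range.2 hl)
    have h2 : lin φ c1 c2 (l + 1) + A ≤ A * (W / w l) := by
      rw [mul_div_assoc', le_div_iff₀ (hw l)]
      linarith
    have h3 : W / w l ≤ Q := by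
      rw [hQ]
      exact Finset.single_le_sum (f := fun l => W / w l)
        (fun j _ => div_nonneg hW0 (hw j).le) (Finset.mem_range.2 hl)
    have h4 : A * (W / w l) ≤ A * Q := mul_le_mul_of_nonneg_left h3 hA
    linarith
  have hb : ∀ l, |lin φ c1 c2 l| ≤ A * (Q + 1) := by
    have h0 : 0 ≤ A * Q := mul_nonneg hA hQ0
    refine aux_window hK (fun l => |lin φ c1 c2 l| ≤ A * (Q + 1))
      (fun l => by rw [lin_per hR]) 0 ?_
    intro l h1 h2
    rw [abs_le]
    have h3 := hlin l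
    have h4 : l = (l - 1) + 1 := by omega
    have h5 := hub (l - 1) (by omega)
    rw [← h4] at h5
    constructor <;> linarith
  have hc1 : c1 * Real.sin (φ (0 + 1) - φ 0) = lin φ c1 c2 0 * Real.sin (φ (0 + 1)) -
      lin φ c1 c2 (0 + 1) * Real.sin (φ 0) := by
    unfold lin
    rw [Real.sin_sub]; ring
  have hc2 : c2 * Real.sin (φ (0 + 1) - φ 0) = lin φ c1 c2 (0 + 1) * Real.cos (φ 0) -
      lin φ c1 c2 0 * Real.cos (φ (0 + 1)) := by
    unfold lin
    rw [Real.sin_sub]; ring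
  have hgen : ∀ p q α β c : ℝ, |p| ≤ A * (Q + 1) → |q| ≤ A * (Q + 1) → |α| ≤ 1 → |β| ≤ 1 →
      c * Real.sin (φ (0 + 1) - φ 0) = p * α - q * β →
      |c| ≤ 2 * (Q + 1) / Real.sin (φ (0 + 1) - φ 0) * A := by
    intro p q α β c hp hq hα hβ hc
    rw [div_mul_eq_mul_div, le_div_iff₀ hs]
    have h1 : |c| * Real.sin (φ (0 + 1) - φ 0) = |p * α - q * β| := by
      rw [← hc, abs_mul, abs_of_pos hs]
    rw [h1]
    have h2 : |p * α| ≤ A * (Q + 1) := by
      rw [abs_mul]
      calc |p| * |α| ≤ |p| * 1 := mul_le_mul_of_nonneg_left hα (abs_nonneg _)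
        _ ≤ A * (Q + 1) := by rw [mul_one]; exact hp
    have h3 : |q * β| ≤ A * (Q + 1) := by
      rw [abs_mul]
      calc |q| * |β| ≤ |q| * 1 := mul_le_mul_of_nonneg_left hβ (abs_nonneg _)
        _ ≤ A * (Q + 1) := by rw [mul_one]; exact hq
    have h4 := abs_sub (p * α) (q * β)
    linarith
  exact ⟨hgen _ _ _ _ _ (hb 0) (hb 1) (Real.abs_sin_le_one _) (Real.abs_sin_le_one _) hc1,
    hgen _ _ _ _ _ (hb 1) (hb 0) (Real.abs_cos_le_one _) (Real.abs_cos_le_one _) hc2⟩

theorem aux_opt {x : ℕ → ℝ} (hx : ∀ l, x (l + K) = x l) :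
    ∃ c1 c2 m : ℝ, (∀ l, m ≤ x l + lin φ c1 c2 l) ∧
      ∀ θ : ℝ, ∃ l, x l + lin φ c1 c2 l = m ∧ Real.cos (φ l - θ) ≤ 0 := by
  have hK := hR.Kpos
  obtain ⟨B, hB⟩ := aux_coercive hR
  have hne : (range K).Nonempty := ⟨0, Finset.mem_range.2 hK⟩
  let g : ℝ × ℝ → ℝ := fun c => (range K).inf' hne (fun l => x l + lin φ c.1 c.2 l)
  have hg : Continuous g := by
    refine Continuous.finset_inf'_apply hne fun l _ => ?_
    unfold lin
    fun_prop
  obtain ⟨X, hXd⟩ : ∃ X, X = ∑ l ∈ range K, |x l| := ⟨_, rfl⟩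
  have hX : ∀ l ∈ range K, |x l| ≤ X := by
    intro l hl
    rw [hXd]
    exact Finset.single_le_sum (f := fun l => |x l|) (fun j _ => abs_nonneg _) hl
  have hX0 : 0 ≤ X := (abs_nonneg _).trans (hX 0 (Finset.mem_range.2 hK))
  have hg0 : -X ≤ g (0, 0) := by
    refine Finset.le_inf' hne _ fun l hl => ?_
    have h1 := hX l hl
    have h2 : lin φ (0 : ℝ) (0 : ℝ) l = 0 := by simp [lin]
    change -X ≤ x l + lin φ 0 0 l
    rw [h2]
    have h3 := neg_abs_le (x l)
    linarith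
  have hout : ∀ c : ℝ × ℝ, -X ≤ g c → |c.1| ≤ |B * (2 * X)| ∧ |c.2| ≤ |B * (2 * X)| := by
    intro c hc
    have h1 := hB c.1 c.2 (2 * X) (by linarith) (by
      refine aux_window0 hK (fun l => -(2 * X) ≤ lin φ c.1 c.2 l)
        (fun l => by rw [lin_per hR]) ?_
      intro l hl
      have h2 : g c ≤ x l + lin φ c.1 c.2 l := Finset.inf'_le _ (Finset.mem_range.2 hl)
      have h3 := hX l (Finset.mem_range.2 hl)
      have h4 := le_abs_self (x l)
      linarith)
    exact ⟨h1.1.trans (le_abs_self _), h1.2.trans (le_abs_self _)⟩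
  obtain ⟨c, hcmem, hcmax⟩ := (isCompact_closedBall (0 : ℝ × ℝ) |B * (2 * X)|).exists_isMaxOn
    ⟨0, Metric.mem_closedBall_self (abs_nonneg _)⟩ hg.continuousOn
  have hmax : ∀ c', g c' ≤ g c := by
    intro c'
    by_cases h1 : c' ∈ Metric.closedBall (0 : ℝ × ℝ) |B * (2 * X)|
    · exact hcmax h1
    · have h0 : g (0, 0) ≤ g c := hcmax (Metric.mem_closedBall_self (abs_nonneg _))
      by_contra hcon
      push Not at hcon
      apply h1
      obtain ⟨h2, h3⟩ := hout c' (by linarith)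
      rw [mem_closedBall_zero_iff, Prod.norm_def]
      exact max_le h2 h3
  refine ⟨c.1, c.2, g c, ?_, ?_⟩
  · refine aux_window0 hK (fun l => g c ≤ x l + lin φ c.1 c.2 l)
      (fun l => by rw [lin_per hR, hx]) ?_
    intro l hl
    exact Finset.inf'_le _ (Finset.mem_range.2 hl)
  · intro θ
    by_contra hcon
    push Not at hcon
    have hev : ∀ l ∈ range K, ∀ᶠ ε in nhdsWithin (0 : ℝ) (Set.Ioi 0),
        g c < x l + lin φ c.1 c.2 l + ε * Real.cos (φ l - θ) := by
      intro l hl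
      have h1 : g c ≤ x l + lin φ c.1 c.2 l := Finset.inf'_le _ hl
      rcases h1.lt_or_eq with h2 | h2
      · have h3 : Filter.Tendsto (fun ε : ℝ => x l + lin φ c.1 c.2 l + ε * Real.cos (φ l - θ))
            (nhds 0) (nhds (x l + lin φ c.1 c.2 l + 0 * Real.cos (φ l - θ))) := by
          apply Continuous.tendsto
          fun_prop
        rw [zero_mul, add_zero] at h3
        exact (h3.eventually (lt_mem_nhds h2)).filter_mono nhdsWithin_le_nhds
      · filter_upwards [self_mem_nhdsWithin] with ε hε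
        have h3 := hcon l h2.symm
        have h4 : 0 < ε * Real.cos (φ l - θ) := mul_pos hε h3
        linarith
    have hev2 := (Filter.eventually_all_finset (range K)).2 hev
    obtain ⟨ε, hε⟩ := hev2.exists
    have h5 : g c < g (c.1 + ε * Real.cos θ, c.2 + ε * Real.sin θ) := by
      refine (Finset.lt_inf'_iff hne).2 fun l hl => ?_
      have h6 := hε l hl
      change g c < x l + lin φ (c.1 + ε * Real.cos θ) (c.2 + ε * Real.sin θ) l
      have h7 : lin φ (c.1 + ε * Real.cos θ) (c.2 + ε * Real.sin θ) l =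
          lin φ c.1 c.2 l + ε * Real.cos (φ l - θ) := by
        unfold lin
        rw [Real.cos_sub]; ring
      rw [h7]
      linarith
    exact absurd (hmax (c.1 + ε * Real.cos θ, c.2 + ε * Real.sin θ)) (not_le.2 h5)

end paths

/-! ### shifting -/

section shift

variable {K : ℕ} {φ : ℕ → ℝ} (hR : RingData K φ)

include hR

theorem LL_per {x : ℕ → ℝ} (hx : ∀ l, x (l + K) = x l) (l : ℕ) :
    LL x φ (l + K) = LL x φ l := by
  have h1 := hx (l + 1)
  have h2 := hx (l + 2)
  have h3 := aux_gap_per hR (l + 1)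
  have h4 := aux_gap_per hR l
  rw [show l + 1 + K = l + K + 1 by ring] at h1 h3
  rw [show l + 2 + K = l + K + 2 by ring] at h2
  have h3' : φ (l + K + 2) - φ (l + K + 1) = φ (l + 2) - φ (l + 1) := h3
  unfold LL
  rw [h1, h2, h3', h4, hx]

theorem RB_add_const {x : ℕ → ℝ} (hx : ∀ l, x (l + K) = x l) (t : ℝ) :
    RB K φ (fun l => x l + t) = RB K φ x + 2 * t * ∑ l ∈ range K, LL x φ l +
      t ^ 2 * ∑ l ∈ range K, LL (fun _ => 1) φ l := by
  have h1 := RB_add (K := K) (φ := φ) x (fun _ => t)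
  rw [RB_eq_PB (K := K) (φ := φ) (fun _ => t), PB_eq hR hx (fun _ => rfl),
    PB_eq hR (x := fun _ => t) (fun _ => rfl) (fun _ => rfl)] at h1
  rw [h1, ← Finset.mul_sum, ← Finset.mul_sum]
  have h2 : ∑ l ∈ range K, LL (fun _ => t) φ l = t * ∑ l ∈ range K, LL (fun _ => 1) φ l := by
    rw [Finset.mul_sum]
    refine Finset.sum_congr rfl fun l _ => ?_
    unfold LL
    ring
  rw [h2]
  ring

theorem aux_W_pos : 0 < ∑ l ∈ range K, LL (fun _ => 1) φ l :=
  Finset.sum_pos (fun l _ => aux_w_pos hR l) ⟨0, Finset.mem_range.2 hR.Kpos⟩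

theorem aux_shift {x : ℕ → ℝ} (hx : ∀ l, x (l + K) = x l) (h0 : 0 ≤ RB K φ x)
    (h1 : 0 ≤ ∑ l ∈ range K, LL x φ l) :
    ∃ c1 c2 : ℝ, ∀ l, 0 ≤ x l + lin φ c1 c2 l := by
  obtain ⟨c1, c2, m, hm, hopt⟩ := aux_opt hR hx
  rcases le_or_gt 0 m with h | h
  · exact ⟨c1, c2, fun l => h.trans (hm l)⟩
  · exfalso
    have hy : ∀ l, (fun l => x l + lin φ c1 c2 l) (l + K) = (fun l => x l + lin φ c1 c2 l) l := by
      intro l
      change x (l + K) + lin φ c1 c2 (l + K) = _
      rw [hx, lin_per hR]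
    have h2 : RB K φ (fun l => x l + lin φ c1 c2 l + -m) ≤ 0 := by
      apply aux_zero_set hR
      · intro l
        rw [hx, lin_per hR]
      · intro θ
        obtain ⟨l, hl, hl2⟩ := hopt θ
        exact ⟨l, by rw [hl]; ring, hl2⟩
    rw [RB_add_const hR hy, RB_add_linf hR hx] at h2
    have h3 : ∑ l ∈ range K, LL (fun l => x l + lin φ c1 c2 l) φ l =
        ∑ l ∈ range K, LL x φ l := by
      refine Finset.sum_congr rfl fun l _ => ?_
      rw [LL_add, LL_linf hR, add_zero]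
    rw [h3] at h2
    have h4 := aux_W_pos hR
    have h5 : 0 < (-m) ^ 2 * ∑ l ∈ range K, LL (fun _ => 1) φ l :=
      mul_pos (by nlinarith) h4
    have h6 : 0 ≤ 2 * -m * ∑ l ∈ range K, LL x φ l := mul_nonneg (by linarith) h1
    linarith

theorem aux_neg_pos {x f : ℕ → ℝ}
    (hx : ∀ l, x (l + K) = x l) (hf : ∀ l, f (l + K) = f l) (f0 : ∀ l, 0 ≤ f l)
    (fne : ∃ l, f l ≠ 0)
    (h1 : ∑ l ∈ range K, f l * Real.cos (φ l) = 0)
    (h2 : ∑ l ∈ range K, f l * Real.sin (φ l) = 0)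
    (h3 : ∑ l ∈ range K, f l * x l = 0) (hS : 0 ≤ ∑ l ∈ range K, LL x φ l) :
    RB K φ x ≤ 0 := by
  by_contra hcon
  push Not at hcon
  have hfsum : 0 < ∑ l ∈ range K, f l := by
    refine lt_of_le_of_ne (Finset.sum_nonneg fun l _ => f0 l) ?_
    intro h
    obtain ⟨l, hl⟩ := fne
    apply hl
    have h4 := (Finset.sum_eq_zero_iff_of_nonneg (fun l _ => f0 l)).1 h.symm
    exact aux_window0 hR.Kpos (fun l => f l = 0) (fun l => by rw [hf])
      (fun l hl => h4 l (Finset.mem_range.2 hl)) l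
  rcases hS.lt_or_eq with hS | hS
  · have hW := aux_W_pos hR
    obtain ⟨S, hSd⟩ : ∃ S, S = ∑ l ∈ range K, LL x φ l := ⟨_, rfl⟩
    obtain ⟨W, hWd⟩ : ∃ W, W = ∑ l ∈ range K, LL (fun _ => 1) φ l := ⟨_, rfl⟩
    obtain ⟨R, hRd⟩ : ∃ R, R = RB K φ x := ⟨_, rfl⟩
    have hadd : ∀ t, RB K φ (fun l => x l + t) = R + 2 * t * S + t ^ 2 * W := by
      intro t
      rw [RB_add_const hR hx, hSd, hWd, hRd]
    rw [← hSd] at hS
    rw [← hWd] at hW
    rw [← hRd] at hcon
    obtain ⟨ε, hε⟩ : ∃ ε, ε = min (R / (2 * S)) (S / W) := ⟨_, rfl⟩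
    have hε0 : 0 < ε := by
      rw [hε]
      exact lt_min (div_pos hcon (by linarith)) (div_pos hS hW)
    have hε1 : 2 * ε * S ≤ R := by
      have h4 : ε ≤ R / (2 * S) := by rw [hε]; exact min_le_left _ _
      rw [le_div_iff₀ (by linarith)] at h4
      linarith
    have hε2 : ε * W ≤ S := by
      have h4 : ε ≤ S / W := by rw [hε]; exact min_le_right _ _
      rwa [le_div_iff₀ hW] at h4
    have hLL : ∑ l ∈ range K, LL (fun l => x l + -ε) φ l = S - ε * W := by
      rw [hSd, hWd, Finset.mul_sum, ← Finset.sum_sub_distrib]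
      refine Finset.sum_congr rfl fun l _ => ?_
      unfold LL
      ring
    obtain ⟨c1, c2, hc⟩ := aux_shift hR (x := fun l => x l + -ε) (fun l => by rw [hx]) (by
      rw [hadd]
      have h5 : 0 ≤ (-ε) ^ 2 * W := by positivity
      linarith) (by rw [hLL]; linarith)
    have h4 : 0 ≤ ∑ l ∈ range K, f l * (x l + -ε + lin φ c1 c2 l) :=
      Finset.sum_nonneg fun l _ => mul_nonneg (f0 l) (hc l)
    have h5 : ∑ l ∈ range K, f l * (x l + -ε + lin φ c1 c2 l) =
        ∑ l ∈ range K, f l * x l - ε * ∑ l ∈ range K, f l +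
        c1 * ∑ l ∈ range K, f l * Real.cos (φ l) + c2 * ∑ l ∈ range K, f l * Real.sin (φ l) := by
      rw [Finset.mul_sum, Finset.mul_sum, Finset.mul_sum, ← Finset.sum_sub_distrib,
        ← Finset.sum_add_distrib, ← Finset.sum_add_distrib]
      refine Finset.sum_congr rfl fun l _ => ?_
      unfold lin
      ring
    rw [h5, h1, h2, h3] at h4
    have h6 : 0 < ε * ∑ l ∈ range K, f l := mul_pos hε0 hfsum
    linarith
  · -- the sum of the side lengths vanishes
    obtain ⟨c1, c2, hc⟩ := aux_shift hR hx hcon.le hS.le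
    have hneg : RB K φ (fun l => - x l) = RB K φ x := by
      refine Finset.sum_congr rfl fun l _ => ?_
      unfold Psi
      congr 1
      ring
    have hLneg : ∑ l ∈ range K, LL (fun l => - x l) φ l = 0 := by
      rw [← neg_eq_zero, hS, ← Finset.sum_neg_distrib]
      refine Finset.sum_congr rfl fun l _ => ?_
      unfold LL
      ring
    obtain ⟨d1, d2, hd⟩ := aux_shift hR (x := fun l => - x l) (fun l => by rw [hx])
      (by rw [hneg]; exact hcon.le) hLneg.ge
    obtain ⟨B, hB⟩ := aux_coercive hR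
    have h4 := hB (c1 + d1) (c2 + d2) 0 le_rfl (fun l => by
      have h5 := hc l
      have h6 := hd l
      unfold lin at h5 h6 ⊢
      linarith)
    rw [mul_zero] at h4
    have h5 := abs_nonpos_iff.1 h4.1
    have h6 := abs_nonpos_iff.1 h4.2
    have h7 : ∀ l, x l + lin φ c1 c2 l = 0 := by
      intro l
      have h8 := hc l
      have h9 := hd l
      have h10 : lin φ d1 d2 l = - lin φ c1 c2 l := by
        have e1 : d1 = - c1 := by linarith
        have e2 : d2 = - c2 := by linarith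
        unfold lin
        rw [e1, e2]; ring
      rw [h10] at h9
      linarith
    have h8 := RB_add_linf hR hx c1 c2
    have h9 : (fun l => x l + lin φ c1 c2 l) = fun _ => 0 := by
      funext l; exact h7 l
    rw [h9] at h8
    have h10 : RB K φ (fun _ => 0) = 0 := by
      refine Finset.sum_eq_zero fun l _ => ?_
      unfold Psi
      simp
    linarith

end shift

theorem ring_neg {K : ℕ} {φ : ℕ → ℝ} (hR : RingData K φ) (x f : ℕ → ℝ)
    (hx : ∀ l, x (l + K) = x l) (hf : ∀ l, f (l + K) = f l) (f0 : ∀ l, 0 ≤ f l)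
    (fne : ∃ l, f l ≠ 0)
    (h1 : ∑ l ∈ range K, f l * Real.cos (φ l) = 0)
    (h2 : ∑ l ∈ range K, f l * Real.sin (φ l) = 0)
    (h3 : ∑ l ∈ range K, f l * x l = 0) : RB K φ x ≤ 0 := by
  rcases le_total 0 (∑ l ∈ range K, LL x φ l) with hS | hS
  · exact aux_neg_pos hR hx hf f0 fne h1 h2 h3 hS
  · have hneg : RB K φ (fun l => - x l) = RB K φ x := by
      refine Finset.sum_congr rfl fun l _ => ?_
      unfold Psi
      congr 1
      ring
    have hLneg : ∑ l ∈ range K, LL (fun l => - x l) φ l = - ∑ l ∈ range K, LL x φ l := by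
      rw [← Finset.sum_neg_distrib]
      refine Finset.sum_congr rfl fun l _ => ?_
      unfold LL
      ring
    rw [← hneg]
    refine aux_neg_pos hR (fun l => by rw [hx]) hf f0 fne h1 h2 ?_ ?_
    · have h4 : ∑ l ∈ range K, f l * -x l = - ∑ l ∈ range K, f l * x l := by
        rw [← Finset.sum_neg_distrib]
        exact Finset.sum_congr rfl fun l _ => by ring
      rw [h4, h3, neg_zero]
    · rw [hLneg]
      linarith

/-! ### the equality case -/

section equality

variable {K : ℕ} {φ : ℕ → ℝ} (hR : RingData K φ)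

/-- periodic unit vector -/
def evec (K i : ℕ) : ℕ → ℝ := fun l => if l % K = i % K then 1 else 0

theorem evec_per (K i l : ℕ) : evec K i (l + K) = evec K i l := by
  unfold evec
  rw [Nat.add_mod_right]

theorem evec_sum {K i : ℕ} (hi : i < K) (M : ℕ → ℝ) :
    ∑ l ∈ range K, evec K (i + 1) (l + 1) * M l = M i := by
  rw [Finset.sum_eq_single i]
  · unfold evec; simp
  · intro l hl hne
    have h1 : ¬ ((l + 1) % K = (i + 1) % K) := by
      intro h
      apply hne
      have h2 : l ≡ i [MOD K] := Nat.ModEq.add_right_cancel' 1 h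
      have h3 := h2
      unfold Nat.ModEq at h3
      rwa [Nat.mod_eq_of_lt (Finset.mem_range.1 hl), Nat.mod_eq_of_lt hi] at h3
    unfold evec
    rw [if_neg h1, zero_mul]
  · intro h
    exact absurd (Finset.mem_range.2 hi) h

include hR

theorem aux_crit {x f : ℕ → ℝ}
    (hx : ∀ l, x (l + K) = x l) (hf : ∀ l, f (l + K) = f l) (f0 : ∀ l, 0 ≤ f l)
    (fne : ∃ l, f l ≠ 0)
    (h1 : ∑ l ∈ range K, f l * Real.cos (φ l) = 0)
    (h2 : ∑ l ∈ range K, f l * Real.sin (φ l) = 0)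
    (h3 : ∑ l ∈ range K, f l * x l = 0) (h0 : RB K φ x = 0) {v : ℕ → ℝ}
    (hv : ∀ l, v (l + K) = v l) (hfv : ∑ l ∈ range K, f l * v l = 0) :
    ∑ l ∈ range K, v (l + 1) * LL x φ l = 0 := by
  rw [← PB_eq hR hx hv]
  obtain ⟨b, hb⟩ : ∃ b, b = PB K φ x v := ⟨_, rfl⟩
  obtain ⟨R, hRd⟩ : ∃ R, R = RB K φ v := ⟨_, rfl⟩
  have key : ∀ t : ℝ, 2 * t * b + t ^ 2 * R ≤ 0 := by
    intro t
    have h4 := ring_neg hR (fun l => x l + t * v l) f (fun l => by rw [hx, hv]) hf f0 fne h1 h2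
      (by
        have h5 : ∑ l ∈ range K, f l * (x l + t * v l) =
            ∑ l ∈ range K, f l * x l + t * ∑ l ∈ range K, f l * v l := by
          rw [Finset.mul_sum, ← Finset.sum_add_distrib]
          exact Finset.sum_congr rfl fun l _ => by ring
        rw [h5, h3, hfv]; ring)
    have h5 := RB_add (K := K) (φ := φ) x (fun l => t * v l)
    have h6 : PB K φ x (fun l => t * v l) = t * b := by
      rw [hb]
      unfold PB
      rw [Finset.mul_sum]
      refine Finset.sum_congr rfl fun l _ => ?_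
      unfold psi2
      rw [mul_div_assoc']
      congr 1
      ring
    have h7 : RB K φ (fun l => t * v l) = t ^ 2 * R := by
      rw [hRd]
      unfold RB
      rw [Finset.mul_sum]
      refine Finset.sum_congr rfl fun l _ => ?_
      unfold Psi
      rw [mul_div_assoc']
      congr 1
      ring
    rw [h5, h6, h7, h0] at h4
    linarith
  rw [← hb]
  by_contra hne
  have hq : 0 < 1 + |R| := by positivity
  have h4 := key (b / (1 + |R|))
  have h5 : 2 * (b / (1 + |R|)) * b + (b / (1 + |R|)) ^ 2 * R =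
      b ^ 2 / (1 + |R|) ^ 2 * (2 * (1 + |R|) + R) := by
    field_simp
  rw [h5] at h4
  have h6 : 0 < b ^ 2 / (1 + |R|) ^ 2 := by positivity
  have h7 : 0 < 2 * (1 + |R|) + R := by
    have := neg_abs_le R
    have := abs_nonneg R
    linarith
  have h8 := mul_pos h6 h7
  linarith

theorem aux_prop {x f : ℕ → ℝ}
    (hx : ∀ l, x (l + K) = x l) (hf : ∀ l, f (l + K) = f l) (f0 : ∀ l, 0 ≤ f l)
    (fne : ∃ l, f l ≠ 0)
    (h1 : ∑ l ∈ range K, f l * Real.cos (φ l) = 0)
    (h2 : ∑ l ∈ range K, f l * Real.sin (φ l) = 0)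
    (h3 : ∑ l ∈ range K, f l * x l = 0) (h0 : RB K φ x = 0) :
    ∃ μ : ℝ, ∀ l, LL x φ l = μ * f (l + 1) := by
  have hK := hR.Kpos
  have hsf : ∀ i, i < K → ∑ l ∈ range K, f l * evec K (i + 1) l = f (i + 1) := by
    intro i hi
    rw [← aux_sum_shift (fun l => f l * evec K (i + 1) l) (fun l => by rw [hf, evec_per])]
    rw [← evec_sum hi (fun l => f (l + 1))]
    exact Finset.sum_congr rfl fun l _ => by ring
  have hij : ∀ i, i < K → ∀ j, j < K → f (j + 1) * LL x φ i = f (i + 1) * LL x φ j := by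
    intro i hi j hj
    have h4 := aux_crit hR hx hf f0 fne h1 h2 h3 h0
      (v := fun l => f (j + 1) * evec K (i + 1) l - f (i + 1) * evec K (j + 1) l)
      (fun l => by rw [evec_per, evec_per]) (by
        have h5 : ∑ l ∈ range K, f l * (f (j + 1) * evec K (i + 1) l -
            f (i + 1) * evec K (j + 1) l) = f (j + 1) * ∑ l ∈ range K, f l * evec K (i + 1) l -
            f (i + 1) * ∑ l ∈ range K, f l * evec K (j + 1) l := by
          rw [Finset.mul_sum, Finset.mul_sum, ← Finset.sum_sub_distrib]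
          exact Finset.sum_congr rfl fun l _ => by ring
        rw [h5, hsf i hi, hsf j hj]; ring)
    have h6 : ∑ l ∈ range K, (f (j + 1) * evec K (i + 1) (l + 1) -
        f (i + 1) * evec K (j + 1) (l + 1)) * LL x φ l =
        f (j + 1) * ∑ l ∈ range K, evec K (i + 1) (l + 1) * LL x φ l -
        f (i + 1) * ∑ l ∈ range K, evec K (j + 1) (l + 1) * LL x φ l := by
      rw [Finset.mul_sum, Finset.mul_sum, ← Finset.sum_sub_distrib]
      exact Finset.sum_congr rfl fun l _ => by ring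
    rw [h6, evec_sum hi, evec_sum hj] at h4
    linarith
  -- some index with nonzero weight
  have hj0 : ∃ j, j < K ∧ f (j + 1) ≠ 0 := by
    by_contra hcon
    push Not at hcon
    obtain ⟨l, hl⟩ := fne
    apply hl
    refine aux_window hK (fun l => f l = 0) (fun l => by rw [hf]) 0 ?_ l
    intro l h4 h5
    have h6 := hcon (l - 1) (by omega)
    rwa [show l - 1 + 1 = l by omega] at h6
  obtain ⟨j, hj, hfj⟩ := hj0
  refine ⟨LL x φ j / f (j + 1), ?_⟩
  refine aux_window0 hK (fun l => LL x φ l = LL x φ j / f (j + 1) * f (l + 1)) (fun l => by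
    have h4 := hf (l + 1)
    rw [show l + 1 + K = l + K + 1 by ring] at h4
    rw [LL_per hR hx, h4]) ?_
  intro i hi
  have h4 := hij i hi j hj
  rw [div_mul_eq_mul_div, eq_div_iff hfj]
  linarith

theorem aux_pair {x f : ℕ → ℝ}
    (hx : ∀ l, x (l + K) = x l) (hf : ∀ l, f (l + K) = f l) (f0 : ∀ l, 0 ≤ f l)
    (fne : ∃ l, f l ≠ 0)
    (h1 : ∑ l ∈ range K, f l * Real.cos (φ l) = 0)
    (h2 : ∑ l ∈ range K, f l * Real.sin (φ l) = 0)
    (h3 : ∑ l ∈ range K, f l * x l = 0) (h0 : RB K φ x = 0) {μ : ℝ} (hμ : 0 < μ)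
    (hLL : ∀ l, LL x φ l = μ * f (l + 1)) :
    ∃ l1 l2 : ℕ, l1 < l2 ∧ l2 < l1 + K ∧ φ l2 = φ l1 + Real.pi ∧ f l1 ≠ 0 ∧ f l2 ≠ 0 ∧
      ∀ l, l1 < l + 1 → l + 1 < l1 + K → l + 1 ≠ l2 → f (l + 1) = 0 := by
  have hK := hR.Kpos
  obtain ⟨c1, c2, hc⟩ := aux_shift hR hx h0.ge
    (Finset.sum_nonneg fun l _ => by rw [hLL]; exact mul_nonneg hμ.le (f0 _))
  obtain ⟨z, hz⟩ : ∃ z : ℕ → ℝ, z = fun l => x l + lin φ c1 c2 l := ⟨_, rfl⟩
  have hz0 : ∀ l, 0 ≤ z l := by rw [hz]; exact hc
  have hzper : ∀ l, z (l + K) = z l := by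
    intro l
    rw [hz]
    change x (l + K) + lin φ c1 c2 (l + K) = _
    rw [hx, lin_per hR]
  have hzLL : ∀ l, LL z φ l = μ * f (l + 1) := by
    intro l
    rw [hz, LL_add, LL_linf hR, add_zero, hLL]
  have hfz : ∀ l, f l * z l = 0 := by
    have h4 : ∑ l ∈ range K, f l * z l = 0 := by
      have h5 : ∑ l ∈ range K, f l * z l = ∑ l ∈ range K, f l * x l +
        c1 * ∑ l ∈ range K, f l * Real.cos (φ l) + c2 * ∑ l ∈ range K, f l * Real.sin (φ l) := by
        rw [Finset.mul_sum, Finset.mul_sum, ← Finset.sum_add_distrib, ← Finset.sum_add_distrib]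
        refine Finset.sum_congr rfl fun l _ => ?_
        rw [hz]
        unfold lin
        ring
      rw [h5, h1, h2, h3]; ring
    have h5 := (Finset.sum_eq_zero_iff_of_nonneg
      (fun l _ => mul_nonneg (f0 l) (hz0 l))).1 h4
    exact aux_window0 hK (fun l => f l * z l = 0) (fun l => by rw [hf, hzper])
      (fun l hl => h5 l (Finset.mem_range.2 hl))
  have hfz' : ∀ l, f l ≠ 0 → z l = 0 := fun l hl =>
    (mul_eq_zero.1 (hfz l)).resolve_left hl
  -- propagation of zeros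
  have hprop : ∀ u : ℕ → ℝ, ∀ l, LL u φ l = 0 → u l = 0 → u (l + 1) = 0 → u (l + 2) = 0 := by
    intro u l hu hul hul1
    unfold LL at hu
    rw [hul, hul1] at hu
    simp only [zero_mul, sub_zero, zero_div, add_zero] at hu
    exact (div_eq_zero_iff.1 hu).resolve_right (aux_sin_pos hR (l + 1)).ne'
  -- a supporting index followed by a positive value
  have ha : ∃ a, f a ≠ 0 ∧ z (a + 1) ≠ 0 := by
    by_contra hcon
    push Not at hcon
    obtain ⟨a0, ha0⟩ := fne
    have h4 : ∀ n, z (a0 + n) = 0 ∧ z (a0 + n + 1) = 0 := by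
      intro n
      induction n with
      | zero => exact ⟨hfz' a0 ha0, hcon a0 ha0⟩
      | succ n ih =>
        refine ⟨ih.2, ?_⟩
        by_cases h5 : f (a0 + n + 1) = 0
        · exact hprop z (a0 + n) (by rw [hzLL, h5, mul_zero]) ih.1 ih.2
        · exact hcon (a0 + n + 1) h5
    have h5 := hzLL (a0 + (K - 1))
    have h6 := h4 (K - 1)
    have h7 := (h4 (K - 1 + 1)).2
    have h8 : a0 + (K - 1) + 1 = a0 + K := by omega
    have h9 : f (a0 + (K - 1) + 1) = f a0 := by rw [h8, hf]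
    rw [h9] at h5
    have h10 : LL z φ (a0 + (K - 1)) = 0 := by
      have h11 : z (a0 + (K - 1) + 2) = 0 := h7
      unfold LL
      rw [h6.1, h6.2, h11]
      simp
    rw [h10] at h5
    exact ha0 ((mul_eq_zero.1 h5.symm).resolve_left hμ.ne')
  obtain ⟨a, hfa, hza1⟩ := ha
  have hza := hfz' a hfa
  have hs := aux_sin_pos hR a
  obtain ⟨C, hC⟩ : ∃ C, C = z (a + 1) / Real.sin (φ (a + 1) - φ a) := ⟨_, rfl⟩
  have hC0 : 0 < C := by
    rw [hC]
    exact div_pos (lt_of_le_of_ne (hz0 _) (Ne.symm hza1)) hs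
  -- the next supporting index
  have hex : ∃ b, a < b ∧ f b ≠ 0 := ⟨a + K, by omega, by rw [hf]; exact hfa⟩
  classical
  have hb := Nat.find_spec hex
  have hmin : ∀ l, a < l → l < Nat.find hex → f l = 0 := by
    intro l h4 h5
    by_contra h6
    exact Nat.find_min hex h5 ⟨h4, h6⟩
  have hble : Nat.find hex ≤ a + K := Nat.find_min' hex ⟨by omega, by rw [hf]; exact hfa⟩
  generalize Nat.find hex = b at hb hmin hble
  obtain ⟨hab, hfb⟩ := hb
  -- the profile on `[a, b]`
  obtain ⟨u, hu⟩ : ∃ u : ℕ → ℝ,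
    u = fun l => z l + lin φ (C * Real.sin (φ a)) (-(C * Real.cos (φ a))) l := ⟨_, rfl⟩
  have hu' : ∀ l, u l = z l - C * Real.sin (φ l - φ a) := by
    intro l
    rw [hu, Real.sin_sub]
    unfold lin
    ring
  have huLL : ∀ l, LL u φ l = LL z φ l := by
    intro l
    rw [hu, LL_add, LL_linf hR, add_zero]
  have hprof : ∀ l, a ≤ l → l + 1 ≤ b → u l = 0 ∧ u (l + 1) = 0 := by
    intro l hl
    induction l, hl using Nat.le_induction with
    | base =>
      intro _
      constructor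
      · rw [hu', hza, sub_self, Real.sin_zero]; ring
      · rw [hu', hC, div_mul_cancel₀ _ hs.ne', sub_self]
    | succ l hl ih =>
      intro h4
      obtain ⟨h5, h6⟩ := ih (by omega)
      refine ⟨h6, hprop u l ?_ h5 h6⟩
      rw [huLL, hzLL, hmin (l + 1) (by omega) (by omega), mul_zero]
  have hub : u b = 0 := by
    have h4 := (hprof (b - 1) (by omega) (by omega)).2
    rwa [show b - 1 + 1 = b by omega] at h4
  have hsinb : Real.sin (φ b - φ a) = 0 := by
    rw [hu', hfz' b hfb, zero_sub, neg_eq_zero] at hub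
    exact (mul_eq_zero.1 hub).resolve_left hC0.ne'
  -- the rotated sums
  have hrot : ∀ θ, ∑ l ∈ Ico a (a + K), f l * Real.cos (φ l - θ) = 0 := by
    intro θ
    rw [aux_sum_Ico (fun l => f l * Real.cos (φ l - θ)) (fun l => by
      rw [hf, hR.per, show φ l + 2 * Real.pi - θ = φ l - θ + 2 * Real.pi by ring,
        Real.cos_add_two_pi])]
    have h4 : ∑ l ∈ range K, f l * Real.cos (φ l - θ) =
        Real.cos θ * ∑ l ∈ range K, f l * Real.cos (φ l) +
        Real.sin θ * ∑ l ∈ range K, f l * Real.sin (φ l) := by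
      rw [Finset.mul_sum, Finset.mul_sum, ← Finset.sum_add_distrib]
      refine Finset.sum_congr rfl fun l _ => ?_
      rw [Real.cos_sub]; ring
    rw [h4, h1, h2]; ring
  have hφab := aux_mono hR hab
  have hφb := (aux_mono hR).monotone hble
  rw [hR.per] at hφb
  have hpi := Real.pi_pos
  have hgap : φ b = φ a + Real.pi := by
    obtain ⟨n, hn⟩ := Real.sin_eq_zero_iff.1 hsinb
    have hn0 : 0 < (n : ℝ) * Real.pi := by rw [hn]; linarith
    have hn2 : (n : ℝ) * Real.pi ≤ 2 * Real.pi := by rw [hn]; linarith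
    have hn0' : 0 < (n : ℝ) := by
      by_contra h4
      push Not at h4
      have := mul_nonpos_of_nonpos_of_nonneg h4 hpi.le
      linarith
    have hn2' : (n : ℝ) ≤ 2 := le_of_mul_le_mul_right hn2 hpi
    have h4 : 0 < n := by exact_mod_cast hn0'
    have h5 : n ≤ 2 := by exact_mod_cast hn2'
    have h6 : n = 1 ∨ n = 2 := by omega
    rcases h6 with h6 | h6
    · rw [h6, Int.cast_one, one_mul] at hn
      linarith
    · exfalso
      rw [h6] at hn
      push_cast at hn
      have h7 : b = a + K := by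
        apply (aux_mono hR).injective
        rw [hR.per]; linarith
      have h8 := hrot (φ a)
      rw [Finset.sum_eq_sum_Ico_succ_bot (by omega), Finset.sum_eq_zero (s := Ico (a + 1) (a + K))
        (fun l hl => by
          obtain ⟨h9, h10⟩ := Finset.mem_Ico.1 hl
          rw [hmin l (by omega) (by omega), zero_mul]), sub_self, Real.cos_zero] at h8
      apply hfa
      linarith
  have hbK : b < a + K := by
    apply (aux_mono hR).lt_iff_lt.1
    rw [hR.per, hgap]; linarith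
  refine ⟨a, b, hab, hbK, hgap, hfa, hfb, ?_⟩
  -- the rest of the period
  have hterm : ∀ l ∈ Ico a (a + K), 0 ≤ -(f l * Real.cos (φ l - (φ a + Real.pi / 2))) := by
    intro l hl
    obtain ⟨h4, h5⟩ := Finset.mem_Ico.1 hl
    rcases Nat.lt_or_ge l b with h6 | h6
    · rcases h4.lt_or_eq with h7 | h7
      · rw [hmin l h7 h6]; simp
      · rw [← h7, show φ a - (φ a + Real.pi / 2) = -(Real.pi / 2) by ring, Real.cos_neg,
          Real.cos_pi_div_two]; simp
    · have h7 := (aux_mono hR).monotone h6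
      have h8 := (aux_mono hR).monotone h5.le
      rw [hR.per] at h8
      rw [hgap] at h7
      have h9 : Real.cos (φ l - (φ a + Real.pi / 2)) ≤ 0 := by
        apply Real.cos_nonpos_of_pi_div_two_le_of_le
        · linarith
        · linarith
      have h10 := mul_nonpos_of_nonneg_of_nonpos (f0 l) h9
      linarith
  have hzero := (Finset.sum_eq_zero_iff_of_nonneg hterm).1 (by
    rw [Finset.sum_neg_distrib, hrot, neg_zero])
  intro l h4 h5 h6
  rcases Nat.lt_or_ge (l + 1) b with h7 | h7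
  · exact hmin (l + 1) h4 h7
  · have h8 : b < l + 1 := by omega
    have h9 := hzero (l + 1) (Finset.mem_Ico.2 ⟨h4.le, h5⟩)
    rw [neg_eq_zero] at h9
    refine (mul_eq_zero.1 h9).resolve_right (ne_of_lt ?_)
    have h10 := aux_mono hR h8
    have h11 := aux_mono hR h5
    rw [hR.per] at h11
    rw [hgap] at h10
    apply Real.cos_neg_of_pi_div_two_lt_of_lt
    · linarith
    · linarith

end equality

/-- Equality case. -/
theorem ring_eq {K : ℕ} {φ : ℕ → ℝ} (hR : RingData K φ) (x f : ℕ → ℝ)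
    (hx : ∀ l, x (l + K) = x l) (hf : ∀ l, f (l + K) = f l) (f0 : ∀ l, 0 ≤ f l)
    (fne : ∃ l, f l ≠ 0)
    (h1 : ∑ l ∈ range K, f l * Real.cos (φ l) = 0)
    (h2 : ∑ l ∈ range K, f l * Real.sin (φ l) = 0)
    (h3 : ∑ l ∈ range K, f l * x l = 0) (h0 : RB K φ x = 0) :
    (∀ l, LL x φ l = 0) ∨
    ∃ l1 l2 : ℕ, l1 < l2 ∧ l2 < l1 + K ∧ φ l2 = φ l1 + Real.pi ∧ f l1 ≠ 0 ∧ f l2 ≠ 0 ∧
      ∀ l, l1 < l + 1 → l + 1 < l1 + K → l + 1 ≠ l2 → f (l + 1) = 0 ∧ LL x φ l = 0 := by
  obtain ⟨μ, hμ⟩ := aux_prop hR hx hf f0 fne h1 h2 h3 h0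
  rcases lt_trichotomy μ 0 with h4 | h4 | h4
  · right
    obtain ⟨l1, l2, a1, a2, a3, a4, a5, a6⟩ := aux_pair hR (x := fun l => - x l) (μ := -μ)
      (fun l => by rw [hx]) hf f0 fne h1 h2 (by
        have h5 : ∑ l ∈ range K, f l * -x l = - ∑ l ∈ range K, f l * x l := by
          rw [← Finset.sum_neg_distrib]
          exact Finset.sum_congr rfl fun l _ => by ring
        rw [h5, h3, neg_zero]) (by
        rw [← h0]
        refine Finset.sum_congr rfl fun l _ => ?_
        unfold Psi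
        congr 1
        ring) (by linarith) (fun l => by
        have h5 := hμ l
        have h6 : LL (fun l => - x l) φ l = - LL x φ l := by
          unfold LL
          ring
        rw [h6, h5]; ring)
    refine ⟨l1, l2, a1, a2, a3, a4, a5, fun l b1 b2 b3 => ?_⟩
    have h5 := a6 l b1 b2 b3
    exact ⟨h5, by rw [hμ, h5, mul_zero]⟩
  · left
    intro l
    rw [hμ, h4, zero_mul]
  · right
    obtain ⟨l1, l2, a1, a2, a3, a4, a5, a6⟩ := aux_pair hR hx hf f0 fne h1 h2 h3 h0 h4 hμ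
    refine ⟨l1, l2, a1, a2, a3, a4, a5, fun l b1 b2 b3 => ?_⟩
    have h5 := a6 l b1 b2 b3
    exact ⟨h5, by rw [hμ, h5, mul_zero]⟩

/-- If the form is nonnegative and `x` points outward on average, `x` can be made nonnegative. -/
theorem ring_shift {K : ℕ} {φ : ℕ → ℝ} (hR : RingData K φ) (x : ℕ → ℝ)
    (hx : ∀ l, x (l + K) = x l) (h0 : 0 ≤ RB K φ x) (h1 : 0 ≤ ∑ l ∈ range K, LL x φ l) :
    ∃ c1 c2 : ℝ, ∀ l, 0 ≤ x l + c1 * Real.cos (φ l) + c2 * Real.sin (φ l) := by
  obtain ⟨c1, c2, hc⟩ := aux_shift hR hx h0 h1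
  refine ⟨c1, c2, fun l => ?_⟩
  have h2 := hc l
  unfold lin at h2
  linarith

end SphJam
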