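import Pool.Agent.SphJam.Defs

set_option autoImplicit false
open Matrix Finset

namespace SphJam

section

variable {I : Type}

end


theorem dot_rot (R : Matrix (Fin 3) (Fin 3) ℝ) (hR : R ∈ Matrix.orthogonalGroup (Fin 3) ℝ)
    (u v : V3) : (R *ᵥ u) ⬝ᵥ (R *ᵥ v) = u ⬝ᵥ v := by
  have h1 : Rᵀ * R = 1 := by
    have := (Matrix.mem_orthogonalGroup_iff' (Fin 3) ℝ).1 hR
    simpa using this
  rw [Matrix.dotProduct_mulVec, ← Matrix.mulVec_transpose, Matrix.mulVec_mulVec, h1,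
    Matrix.one_mulVec]

theorem cr_rot (R : Matrix (Fin 3) (Fin 3) ℝ) (hR : R ∈ Matrix.orthogonalGroup (Fin 3) ℝ)
    (hd : R.det = 1) (u v : V3) : cr (R *ᵥ u) (R *ᵥ v) = R *ᵥ cr u v := by
  have hdd : ∀ x : V3, x ⬝ᵥ cr (R *ᵥ u) (R *ᵥ v) = x ⬝ᵥ (R *ᵥ cr u v) := by
    intro x
    have h1 : R * Rᵀ = 1 := by
      have := (Matrix.mem_orthogonalGroup_iff (Fin 3) ℝ).1 hR
      simpa using this
    have h2 : x = R *ᵥ (Rᵀ *ᵥ x) := by rw [Matrix.mulVec_mulVec, h1, Matrix.one_mulVec]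
    have h3 : ∀ w : V3, (R *ᵥ w) ⬝ᵥ cr (R *ᵥ u) (R *ᵥ v) = R.det * (w ⬝ᵥ cr u v) := by
      intro w
      rw [Matrix.det_fin_three]
      simp only [cr, Matrix.mulVec, dotProduct, Fin.sum_univ_three, Matrix.cons_val_zero,
        Matrix.cons_val_one, Matrix.cons_val]
      ring
    rw [h2, h3, hd, one_mul, dot_rot R hR]
  have h4 := hdd (cr (R *ᵥ u) (R *ᵥ v) - R *ᵥ cr u v)
  have h5 : (cr (R *ᵥ u) (R *ᵥ v) - R *ᵥ cr u v) ⬝ᵥ (cr (R *ᵥ u) (R *ᵥ v) - R *ᵥ cr u v) = 0 := by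
    rw [dotProduct_sub]
    linarith
  have h6 := dotProduct_self_eq_zero.1 h5
  exact sub_eq_zero.1 h6

theorem dd_rot (R : Matrix (Fin 3) (Fin 3) ℝ) (hR : R ∈ Matrix.orthogonalGroup (Fin 3) ℝ)
    (hd : R.det = 1) (u v w : V3) : dd (R *ᵥ u) (R *ᵥ v) (R *ᵥ w) = dd u v w := by
  unfold dd
  rw [cr_rot R hR hd, dot_rot R hR]

/-- rotated packing -/
def Pack.rot {n : ℕ} (P : Pack n) (R : Matrix (Fin 3) (Fin 3) ℝ)
    (hR : R ∈ Matrix.orthogonalGroup (Fin 3) ℝ) : Pack n where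
  p i := R *ᵥ P.p i
  r := P.r
  rpos := P.rpos
  rle := P.rle
  unit i := by rw [dot_rot R hR]; exact P.unit i
  sep i j hij := by rw [dot_rot R hR]; exact P.sep i j hij

section

variable {n : ℕ} {P : Pack n} {R : Matrix (Fin 3) (Fin 3) ℝ}
  {hR : R ∈ Matrix.orthogonalGroup (Fin 3) ℝ}

theorem rot_Ct {i j : Fin n} : (P.rot R hR).Ct i j ↔ P.Ct i j := by
  unfold Pack.Ct
  show i ≠ j ∧ (R *ᵥ P.p i) ⬝ᵥ (R *ᵥ P.p j) = Real.cos (P.r i + P.r j) ↔ _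
  rw [dot_rot R hR]

theorem rot_flex {v : Fin n → V3} (hv : IsFlex P v) :
    IsFlex (P.rot R hR) (fun i => R *ᵥ v i) := by
  refine ⟨fun i => ?_, fun i j hij => ?_⟩
  · show (R *ᵥ P.p i) ⬝ᵥ (R *ᵥ v i) = 0
    rw [dot_rot R hR]; exact hv.1 i
  · show (R *ᵥ P.p i) ⬝ᵥ (R *ᵥ v j) + (R *ᵥ P.p j) ⬝ᵥ (R *ᵥ v i) ≤ 0
    rw [dot_rot R hR, dot_rot R hR]
    exact hv.2 i j (rot_Ct.1 hij)

theorem rot_stress {W : Set (Fin n)} {ω : Fin n → Fin n → ℝ} (h : IsStress P W ω) :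
    IsStress (P.rot R hR) W ω := by
  refine ⟨h.symm, h.nonneg, fun i j hij => rot_Ct.2 (h.supp i j hij), h.touch, ?_⟩
  intro i hi u hu
  have h1 : R * Rᵀ = 1 := by
    have := (Matrix.mem_orthogonalGroup_iff (Fin 3) ℝ).1 hR
    simpa using this
  have h2 : u = R *ᵥ (Rᵀ *ᵥ u) := by rw [Matrix.mulVec_mulVec, h1, Matrix.one_mulVec]
  have hu' : (Rᵀ *ᵥ u) ⬝ᵥ P.p i = 0 := by
    rw [← dot_rot R hR, ← h2]; exact hu
  have h3 := h.bal i hi (Rᵀ *ᵥ u) hu'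
  rw [← h3]
  refine Finset.sum_congr rfl fun j _ => ?_
  show ω i j * (u ⬝ᵥ (R *ᵥ P.p j)) = _
  conv_lhs => rw [h2, dot_rot R hR]

theorem rot_net {ω : Fin n → Fin n → ℝ} (h : Net P ω) : Net (P.rot R hR) ω := by
  exact ⟨rot_stress h.st, h.ne, h.conn⟩

theorem rot_noncop {ω : Fin n → Fin n → ℝ} (h : NonCop P ω) : NonCop (P.rot R hR) ω := by
  rintro ⟨b, hb, hb'⟩
  have h1 : R * Rᵀ = 1 := by
    have := (Matrix.mem_orthogonalGroup_iff (Fin 3) ℝ).1 hR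
    simpa using this
  have h2 : b = R *ᵥ (Rᵀ *ᵥ b) := by rw [Matrix.mulVec_mulVec, h1, Matrix.one_mulVec]
  refine h ⟨Rᵀ *ᵥ b, ?_, fun i hi => ?_⟩
  · intro h3
    rw [h3, Matrix.mulVec_zero] at h2
    exact hb h2
  · rw [← dot_rot R hR, ← h2]
    exact hb' i hi

theorem rot_EE {ω : Fin n → Fin n → ℝ} {v : Fin n → V3} :
    EE (P.rot R hR) ω (fun i => R *ᵥ v i) = EE P ω v := by
  unfold EE
  refine Finset.sum_congr rfl fun i _ => Finset.sum_congr rfl fun j _ => ?_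
  show ω i j * ((R *ᵥ v i) ⬝ᵥ (R *ᵥ v j) - ((R *ᵥ P.p i) ⬝ᵥ (R *ᵥ P.p j)) *
    ((R *ᵥ v i) ⬝ᵥ (R *ᵥ v i))) = _
  rw [dot_rot R hR, dot_rot R hR, dot_rot R hR]

theorem rot_Ea {ω : Fin n → Fin n → ℝ} {v : Fin n → V3} {a : V3} :
    Ea (P.rot R hR) ω (fun i => R *ᵥ v i) (R *ᵥ a) = Ea P ω v a := by
  unfold Ea
  refine Finset.sum_congr rfl fun i _ => Finset.sum_congr rfl fun j _ => ?_
  show ω i j * (((R *ᵥ a) ⬝ᵥ (R *ᵥ v i)) * ((R *ᵥ a) ⬝ᵥ (R *ᵥ v j)) -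
    ((R *ᵥ P.p i) ⬝ᵥ (R *ᵥ P.p j)) * ((R *ᵥ a) ⬝ᵥ (R *ᵥ v i)) ^ 2) = _
  rw [dot_rot R hR, dot_rot R hR, dot_rot R hR]

theorem rot_motion (h : HasMotion (P.rot R hR)) : HasMotion P := by
  obtain ⟨q', γ, hγ, hq⟩ := h
  have h1 : Rᵀ * R = 1 := by
    have := (Matrix.mem_orthogonalGroup_iff' (Fin 3) ℝ).1 hR
    simpa using this
  have h1' : R * Rᵀ = 1 := by
    have := (Matrix.mem_orthogonalGroup_iff (Fin 3) ℝ).1 hR
    simpa using this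
  have hRt : Rᵀ ∈ Matrix.orthogonalGroup (Fin 3) ℝ := by
    rw [Matrix.mem_orthogonalGroup_iff]
    simpa using h1
  have hcont : Continuous (fun x : Fin n → V3 => fun i => Rᵀ *ᵥ x i) := by
    refine continuous_pi fun i => ?_
    exact Continuous.matrix_mulVec continuous_const (continuous_apply i)
  have hsrc : P.p = fun i => Rᵀ *ᵥ (P.rot R hR).p i := by
    funext i
    show P.p i = Rᵀ *ᵥ (R *ᵥ P.p i)
    rw [Matrix.mulVec_mulVec, h1, Matrix.one_mulVec]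
  refine ⟨fun i => Rᵀ *ᵥ q' i, (γ.map hcont).cast hsrc rfl, ?_, ?_⟩
  · intro t
    have h2 : ∀ i, ((γ.map hcont).cast hsrc rfl) t i = Rᵀ *ᵥ (γ t) i := fun i => rfl
    refine ⟨fun i => ?_, fun i j hij => ?_⟩
    · rw [h2, dot_rot Rᵀ hRt]; exact (hγ t).1 i
    · rw [h2, h2, dot_rot Rᵀ hRt]; exact (hγ t).2 i j hij
  · rintro ⟨S, hS, hS'⟩
    apply hq
    refine ⟨R * S * Rᵀ, mul_mem (mul_mem hR hS) hRt, fun i => ?_⟩
    show q' i = (R * S * Rᵀ) *ᵥ (R *ᵥ P.p i)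
    have h3 := congrArg (fun x => R *ᵥ x) (hS' i)
    simp only [Matrix.mulVec_mulVec] at h3
    rw [h1', Matrix.one_mulVec] at h3
    rw [h3, Matrix.mulVec_mulVec, Matrix.mul_assoc (R * S), h1, Matrix.mul_one]

end

theorem EE_eq_sum {n : ℕ} (P : Pack n) (ω : Fin n → Fin n → ℝ) (v : Fin n → V3) :
    EE P ω v = Ea P ω v ![1, 0, 0] + Ea P ω v ![0, 1, 0] + Ea P ω v ![0, 0, 1] := by
  unfold EE Ea
  simp only [← Finset.sum_add_distrib]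
  refine Finset.sum_congr rfl fun i _ => Finset.sum_congr rfl fun j _ => ?_
  simp only [dotProduct, Fin.sum_univ_three, Matrix.cons_val_zero, Matrix.cons_val_one,
    Matrix.cons_val]
  ring

theorem Ea_smul {n : ℕ} (P : Pack n) (ω : Fin n → Fin n → ℝ) (v : Fin n → V3) (c : ℝ) (a : V3) :
    Ea P ω v (c • a) = c ^ 2 * Ea P ω v a := by
  unfold Ea
  simp only [Finset.mul_sum]
  refine Finset.sum_congr rfl fun i _ => Finset.sum_congr rfl fun j _ => ?_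
  simp only [smul_dotProduct, smul_eq_mul]
  ring

theorem Ea_continuous {n : ℕ} (P : Pack n) (ω : Fin n → Fin n → ℝ) (v : Fin n → V3) :
    Continuous (Ea P ω v) := by
  unfold Ea
  refine continuous_finset_sum _ fun i _ => continuous_finset_sum _ fun j _ => ?_
  have h1 : ∀ w : V3, Continuous fun a : V3 => a ⬝ᵥ w := fun w => by
    simp only [dotProduct]
    fun_prop
  exact continuous_const.mul (((h1 _).mul (h1 _)).sub (continuous_const.mul ((h1 _).pow 2)))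

end SphJam
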