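import Pool.Agent.SphJam.Defs

set_option autoImplicit false
open Matrix Finset

namespace SphJam

section

variable {I : Type}

end


theorem dot3_spin (u v : V3) : u ⬝ᵥ v = u 0 * v 0 + u 1 * v 1 + u 2 * v 2 := by
  simp [dotProduct, Fin.sum_univ_three]

theorem cr0_spin (u v : V3) : cr u v 0 = u 1 * v 2 - u 2 * v 1 := rfl

theorem cr1_spin (u v : V3) : cr u v 1 = u 2 * v 0 - u 0 * v 2 := rfl

theorem cr2_spin (u v : V3) : cr u v 2 = u 0 * v 1 - u 1 * v 0 := rfl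

theorem ext3_spin {u v : V3} (h0 : u 0 = v 0) (h1 : u 1 = v 1) (h2 : u 2 = v 2) : u = v := by
  ext k; fin_cases k
  · exact h0
  · exact h1
  · exact h2

theorem basis_spin (a b w : V3) : (cr a b ⬝ᵥ cr a b) • w = (w ⬝ᵥ cr a b) • cr a b
    + ((w ⬝ᵥ a) * (b ⬝ᵥ b) - (w ⬝ᵥ b) * (a ⬝ᵥ b)) • a
    + ((w ⬝ᵥ b) * (a ⬝ᵥ a) - (w ⬝ᵥ a) * (a ⬝ᵥ b)) • b := by
  simp only [dot3_spin]
  refine ext3_spin ?_ ?_ ?_ <;>
  · simp only [Pi.add_apply, Pi.smul_apply, smul_eq_mul, cr0_spin, cr1_spin, cr2_spin]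
    ring

theorem lag_spin (a b : V3) : cr a b ⬝ᵥ cr a b = (a ⬝ᵥ a) * (b ⬝ᵥ b) - (a ⬝ᵥ b)^2 := by
  simp only [dot3_spin, cr0_spin, cr1_spin, cr2_spin]
  ring

theorem ct_spin {n : ℕ} (P : Pack n) {i j : Fin n} (hc : P.Ct i j) :
    1 - (P.p i ⬝ᵥ P.p j)^2 ≠ 0 := by
  rw [hc.2]
  have h1 := P.rpos i
  have h2 := P.rpos j
  have h3 := P.rle i
  have h4 := P.rle j
  have h5 : 0 < Real.sin (P.r i + P.r j) :=
    Real.sin_pos_of_pos_of_lt_pi (by linarith) (by have := Real.pi_gt_three; linarith)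
  have h6 := Real.sin_sq_add_cos_sq (P.r i + P.r j)
  have h7 : 1 - Real.cos (P.r i + P.r j)^2 = Real.sin (P.r i + P.r j)^2 := by linarith
  rw [h7]
  positivity

/-- the rotation vector of an arc -/
theorem spin_exists {n : ℕ} (P : Pack n) {i j : Fin n} (hc : P.Ct i j) (v : Fin n → V3)
    (hi : P.p i ⬝ᵥ v i = 0) (hj : P.p j ⬝ᵥ v j = 0) (hij : P.p i ⬝ᵥ v j + P.p j ⬝ᵥ v i = 0) :
    ∃ σ : ℝ, v j = cr (cr (P.p i) (v i) + σ • P.p i) (P.p j) := by
  have hne := ct_spin P hc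
  have hui := P.unit i
  have huj := P.unit j
  generalize P.p i = p at *
  generalize P.p j = q at *
  generalize v i = x at *
  generalize v j = y at *
  set c := p ⬝ᵥ q with hcdef
  set w : V3 := y - c • x + (x ⬝ᵥ q) • p with hw
  have hwp : w ⬝ᵥ p = 0 := by
    have h1 : w ⬝ᵥ p = (p ⬝ᵥ y) - c * (p ⬝ᵥ x) + (x ⬝ᵥ q) * (p ⬝ᵥ p) := by
      simp only [dot3_spin, hw, Pi.add_apply, Pi.sub_apply, Pi.smul_apply, smul_eq_mul]
      ring
    have h2 : x ⬝ᵥ q = q ⬝ᵥ x := dotProduct_comm _ _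
    rw [h1, hi, hui, h2]
    linarith
  have hwq : w ⬝ᵥ q = 0 := by
    have h1 : w ⬝ᵥ q = (q ⬝ᵥ y) - c * (x ⬝ᵥ q) + (x ⬝ᵥ q) * (p ⬝ᵥ q) := by
      simp only [dot3_spin, hw, Pi.add_apply, Pi.sub_apply, Pi.smul_apply, smul_eq_mul]
      ring
    rw [h1, hj, ← hcdef]
    ring
  have hb := basis_spin p q w
  rw [hwp, hwq, lag_spin, hui, huj, ← hcdef] at hb
  simp only [zero_mul, sub_zero, zero_smul, add_zero, one_mul] at hb
  refine ⟨(w ⬝ᵥ cr p q) / (1 - c^2), ?_⟩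
  have hk : ∀ k, w k = (w ⬝ᵥ cr p q) / (1 - c^2) * cr p q k := by
    intro k
    have h1 := congrFun hb k
    simp only [Pi.smul_apply, smul_eq_mul] at h1
    field_simp
    linarith
  generalize (w ⬝ᵥ cr p q) / (1 - c^2) = σ at hk
  have e0 := hk 0
  have e1 := hk 1
  have e2 := hk 2
  simp only [hw, Pi.add_apply, Pi.sub_apply, Pi.smul_apply, smul_eq_mul, cr0_spin, cr1_spin,
    cr2_spin, hcdef, dot3_spin] at e0 e1 e2
  refine ext3_spin ?_ ?_ ?_
  · simp only [Pi.add_apply, Pi.sub_apply, Pi.smul_apply, smul_eq_mul, cr0_spin, cr1_spin,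
      cr2_spin]
    linear_combination e0
  · simp only [Pi.add_apply, Pi.sub_apply, Pi.smul_apply, smul_eq_mul, cr0_spin, cr1_spin,
      cr2_spin]
    linear_combination e1
  · simp only [Pi.add_apply, Pi.sub_apply, Pi.smul_apply, smul_eq_mul, cr0_spin, cr1_spin,
      cr2_spin]
    linear_combination e2

theorem cr_self_rot {n : ℕ} (P : Pack n) (v : Fin n → V3) {i : Fin n} (hi : P.p i ⬝ᵥ v i = 0)
    (σ : ℝ) : v i = cr (cr (P.p i) (v i) + σ • P.p i) (P.p i) := by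
  have hui := P.unit i
  generalize P.p i = p at *
  generalize v i = x at *
  simp only [dot3_spin] at hui hi
  refine ext3_spin ?_ ?_ ?_
  · simp only [Pi.add_apply, Pi.sub_apply, Pi.smul_apply, smul_eq_mul, cr0_spin, cr1_spin,
      cr2_spin]
    linear_combination (-(x 0)) * hui + p 0 * hi
  · simp only [Pi.add_apply, Pi.sub_apply, Pi.smul_apply, smul_eq_mul, cr0_spin, cr1_spin,
      cr2_spin]
    linear_combination (-(x 1)) * hui + p 1 * hi
  · simp only [Pi.add_apply, Pi.sub_apply, Pi.smul_apply, smul_eq_mul, cr0_spin, cr1_spin,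
      cr2_spin]
    linear_combination (-(x 2)) * hui + p 2 * hi

theorem rot_unique {n : ℕ} (P : Pack n) {i j : Fin n} (hc : P.Ct i j) (r r' : V3)
    (hi : cr r (P.p i) = cr r' (P.p i)) (hj : cr r (P.p j) = cr r' (P.p j)) : r = r' := by
  have hne := ct_spin P hc
  have hui := P.unit i
  have huj := P.unit j
  generalize P.p i = p at *
  generalize P.p j = q at *
  have key : ∀ p : V3, p ⬝ᵥ p = 1 → cr r p = cr r' p → ∀ k, r k - r' k = ((r - r') ⬝ᵥ p) * p k := by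
    intro p hp h k
    have h0 := congrFun h 0
    have h1 := congrFun h 1
    have h2 := congrFun h 2
    simp only [cr0_spin, cr1_spin, cr2_spin] at h0 h1 h2
    simp only [dot3_spin, Pi.sub_apply] at hp ⊢
    fin_cases k
    · show r 0 - r' 0 = _ * p 0
      linear_combination (-(r 0 - r' 0)) * hp + p 1 * h2 - p 2 * h1
    · show r 1 - r' 1 = _ * p 1
      linear_combination (-(r 1 - r' 1)) * hp + p 2 * h0 - p 0 * h2
    · show r 2 - r' 2 = _ * p 2
      linear_combination (-(r 2 - r' 2)) * hp + p 0 * h1 - p 1 * h0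
  have kp := key p hui hi
  have kq := key q huj hj
  set α := (r - r') ⬝ᵥ p with hα
  set β := (r - r') ⬝ᵥ q with hβ
  have e1 : β = α * (p ⬝ᵥ q) := by
    have : β = (r 0 - r' 0) * q 0 + (r 1 - r' 1) * q 1 + (r 2 - r' 2) * q 2 := by
      rw [hβ, dot3_spin]; rfl
    rw [this, kp 0, kp 1, kp 2, dot3_spin]; ring
  have e2 : α = β * (p ⬝ᵥ q) := by
    have : α = (r 0 - r' 0) * p 0 + (r 1 - r' 1) * p 1 + (r 2 - r' 2) * p 2 := by
      rw [hα, dot3_spin]; rfl
    rw [this, kq 0, kq 1, kq 2, dot3_spin]; ring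
  have e3 : α * (1 - (p ⬝ᵥ q)^2) = 0 := by
    linear_combination e2 + (p ⬝ᵥ q) * e1
  have e4 : α = 0 := by
    rcases mul_eq_zero.1 e3 with h | h
    · exact h
    · exact absurd h hne
  refine ext3_spin ?_ ?_ ?_
  · have := kp 0; rw [e4] at this; linarith
  · have := kp 1; rw [e4] at this; linarith
  · have := kp 2; rw [e4] at this; linarith

/-- rigid rotations can be subtracted from flexes -/
theorem flex_sub_rot {n : ℕ} {P : Pack n} {v : Fin n → V3} (hv : IsFlex P v) (r : V3) :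
    IsFlex P (fun i => v i - cr r (P.p i)) := by
  refine ⟨fun i => ?_, fun i j hij => ?_⟩
  · have h := hv.1 i
    simp only [dot3_spin, Pi.sub_apply, cr0_spin, cr1_spin, cr2_spin] at h ⊢
    linear_combination h
  · have h := hv.2 i j hij
    have h2 : P.p i ⬝ᵥ (v j - cr r (P.p j)) + P.p j ⬝ᵥ (v i - cr r (P.p i)) =
        P.p i ⬝ᵥ v j + P.p j ⬝ᵥ v i := by
      simp only [dot3_spin, Pi.sub_apply, cr0_spin, cr1_spin, cr2_spin]
      ring
    simp only
    rw [h2]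
    exact h

end SphJam
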