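import Pool.Agent.SphJam.CopFinal
import Pool.Agent.SphJam.CopCycle
import Pool.Agent.SphJam.Ring
import Pool.Agent.SphJam.Region
import Pool.Agent.SphJam.Rot
import Pool.Agent.SphJam.Spin

set_option autoImplicit false
open Matrix Finset

namespace SphJam

section

variable {I : Type}

end


section

variable {n : ℕ} {P : Pack n} {ω : Fin n → Fin n → ℝ}

end

section

variable {n : ℕ} {P : Pack n} {ω : Fin n → Fin n → ℝ}

end


/-- the coplanar case -/
theorem coplanar_rot {n : ℕ} {P : Pack n} (hall : ∀ i, ∃ j, P.Ct i j) (hm : ¬ HasMotion P)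
    {ω : Fin n → Fin n → ℝ} (hN : Net P ω) (hz : ∀ i, AN ω i → P.p i 2 = 0)
    {v : Fin n → V3} (hv : IsFlex P v) (hE : 0 ≤ EE P ω v) :
    ∃ r : V3, ∀ i, v i = cr r (P.p i) := by
  classical
  obtain ⟨hg, K, c, φ, μ, hμ, hR, hper, harc, hpc, hsurj, hQQ⟩ := coplanar_cycle hN hz
  have hst := hN.st
  have dot3 : ∀ a b : V3, a ⬝ᵥ b = a 0 * b 0 + a 1 * b 1 + a 2 * b 2 := by
    intro a b
    simp [dotProduct, Fin.sum_univ_three]
  have hunit : ∀ i, AN ω i → P.p i 0 ^ 2 + P.p i 1 ^ 2 = 1 := by
    intro i hi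
    have h1 := P.unit i
    rw [dot3, hz i hi] at h1
    nlinarith [h1]
  have hanL : ∀ i j, ω i j ≠ 0 → AN ω i := fun i j h => ⟨j, h⟩
  have hanR : ∀ i j, ω i j ≠ 0 → AN ω j := fun i j h => ⟨i, by rwa [hst.symm j i]⟩
  have horth : ∀ i, AN ω i → P.p i 0 * v i 0 + P.p i 1 * v i 1 = 0 := by
    intro i hi
    have h1 := hv.1 i
    rw [dot3, hz i hi] at h1
    linarith
  obtain ⟨U, hU⟩ : ∃ U : Fin n → ℝ, ∀ i, U i = P.p i 0 * v i 1 - P.p i 1 * v i 0 :=
    ⟨_, fun i => rfl⟩
  have hv0 : ∀ i, AN ω i → v i 0 = -(U i * P.p i 1) := by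
    intro i hi
    rw [hU]
    have e1 := hunit i hi
    have e2 := horth i hi
    linear_combination (-v i 0) * e1 + P.p i 0 * e2
  have hv1 : ∀ i, AN ω i → v i 1 = U i * P.p i 0 := by
    intro i hi
    rw [hU]
    have e1 := hunit i hi
    have e2 := horth i hi
    linear_combination (-v i 1) * e1 + P.p i 1 * e2
  have hcross : ∀ i j, ω i j ≠ 0 → P.p i 0 * P.p j 1 - P.p i 1 * P.p j 0 ≠ 0 := by
    intro i j hij h0
    have hct := hst.supp i j hij
    have h1 := hg.2 i j (hanL i j hij) (hanR i j hij) hct.1 h0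
    have h2 := hct.2
    rw [h1, dotProduct_neg, P.unit i] at h2
    have h3 : 0 < Real.cos (P.r i + P.r j) := by
      apply Real.cos_pos_of_mem_Ioo
      have a1 := P.rpos i
      have a2 := P.rpos j
      have a3 := P.rle i
      have a4 := P.rle j
      have a5 := Real.pi_gt_three
      constructor <;> linarith
    linarith
  have hiso := iso_of_flex hst hv
  have hUeq : ∀ i j, ω i j ≠ 0 → U i = U j := by
    intro i j hij
    have h1 := hiso i j hij
    have hi := hanL i j hij
    have hj := hanR i j hij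
    rw [dot3, dot3, hv0 i hi, hv0 j hj, hv1 i hi, hv1 j hj, hz i hi, hz j hj] at h1
    have h2 : (U i - U j) * (P.p i 0 * P.p j 1 - P.p i 1 * P.p j 0) = 0 := by
      linear_combination h1
    rcases mul_eq_zero.1 h2 with h3 | h3
    · linarith
    · exact absurd h3 (hcross i j hij)
  obtain ⟨i0, hi0⟩ := hN.ne
  obtain ⟨u, hu⟩ : ∃ u : ℝ, ∀ i, AN ω i → U i = u := by
    refine ⟨U i0, hN.conn (fun i => U i = U i0) ⟨i0, hi0, rfl⟩ ?_⟩
    intro i j hij
    show U i = U i0 ↔ U j = U i0
    rw [hUeq i j hij]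
  have hE12 : Ea P ω v ![1, 0, 0] + Ea P ω v ![0, 1, 0] = 0 := by
    unfold Ea
    rw [← Finset.sum_add_distrib]
    apply Finset.sum_eq_zero
    intro i _
    rw [← Finset.sum_add_distrib]
    apply Finset.sum_eq_zero
    intro j _
    by_cases hij : ω i j = 0
    · rw [hij]; ring
    · have hi := hanL i j hij
      have hj := hanR i j hij
      have e1 : (![1, 0, 0] : V3) ⬝ᵥ v i = v i 0 := by rw [dot3]; simp
      have e2 : (![1, 0, 0] : V3) ⬝ᵥ v j = v j 0 := by rw [dot3]; simp
      have e3 : (![0, 1, 0] : V3) ⬝ᵥ v i = v i 1 := by rw [dot3]; simp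
      have e4 : (![0, 1, 0] : V3) ⬝ᵥ v j = v j 1 := by rw [dot3]; simp
      rw [e1, e2, e3, e4, hv0 i hi, hv0 j hj, hv1 i hi, hv1 j hj, hu i hi, hu j hj, dot3,
        hz i hi, hz j hj]
      have f1 := hunit i hi
      linear_combination (- ω i j * u ^ 2 * (P.p i 0 * P.p j 0 + P.p i 1 * P.p j 1)) * f1
  have hE3 : 0 ≤ Ea P ω v ![0, 0, 1] := by
    rw [EE_eq_sum, hE12, zero_add] at hE
    exact hE
  rw [← bridge_QQ hst hg hv, hQQ] at hE3
  have hRB : 0 ≤ RB K φ (fun k => cn P v (c k)) := by
    by_contra hcon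
    push Not at hcon
    have := mul_neg_of_pos_of_neg hμ hcon
    linarith
  have hcn : (fun k => cn P v (c k)) = fun k => v (c k) 2 := by
    funext k
    unfold cn rho
    rw [hpc k]
    simp [Real.cos_sq_add_sin_sq]
  rw [hcn] at hRB
  have hxper : ∀ l, v (c (l + K)) 2 = v (c l) 2 := fun l => by rw [hper l]
  obtain ⟨c1, c2, ε, hε, hpos⟩ : ∃ c1 c2 ε : ℝ, ε * ε = 1 ∧
      ∀ l, 0 ≤ ε * (v (c l) 2 + c1 * Real.cos (φ l) + c2 * Real.sin (φ l)) := by
    by_cases hL : 0 ≤ ∑ l ∈ range K, LL (fun k => v (c k) 2) φ l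
    · obtain ⟨c1, c2, h⟩ := ring_shift hR (fun k => v (c k) 2) hxper hRB hL
      exact ⟨c1, c2, 1, by norm_num, fun l => by rw [one_mul]; exact h l⟩
    · have hRB' : RB K φ (fun k => -v (c k) 2) = RB K φ (fun k => v (c k) 2) := by
        unfold RB Psi
        refine Finset.sum_congr rfl fun l _ => ?_
        congr 1
        ring
      have hLL' : ∑ l ∈ range K, LL (fun k => -v (c k) 2) φ l
          = - ∑ l ∈ range K, LL (fun k => v (c k) 2) φ l := by
        rw [← Finset.sum_neg_distrib]
        refine Finset.sum_congr rfl fun l _ => ?_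
        unfold LL
        ring
      obtain ⟨c1, c2, h⟩ := ring_shift hR (fun k => -v (c k) 2)
        (fun l => by
          show -v (c (l + K)) 2 = -v (c l) 2
          rw [hxper l])
        (by rw [hRB']; exact hRB) (by rw [hLL']; push Not at hL; linarith)
      refine ⟨-c1, -c2, -1, by norm_num, fun l => ?_⟩
      have := h l
      linarith
  refine ⟨![-c2, c1, u], ?_⟩
  have hfin := coplanar_final hall hm hst (![0, 0, ε] : V3) (by
      intro h0
      have := congrFun h0 2
      simp at this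
      rw [this] at hε
      norm_num at hε) (by
      intro x hx hx0
      have hx2 : x 2 = 0 := by
        rw [dot3] at hx
        simp at hx
        rcases hx with h | h
        · rw [h] at hε; norm_num at hε
        · exact h
      have hne : ¬ (x 0 = 0 ∧ x 1 = 0) := by
        rintro ⟨h0, h1⟩
        apply hx0
        funext k
        fin_cases k
        · exact h0
        · exact h1
        · exact hx2
      obtain ⟨l, _, α, β, hα, hβ, e1, e2⟩ := ring_cover hR (x 0) (x 1) hne
      refine ⟨c l, c (l + 1), harc l, α, β, hα, hβ, ?_⟩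
      rw [hpc l, hpc (l + 1)]
      funext k
      fin_cases k
      · simpa using e1
      · simpa using e2
      · simpa using hx2) (by
      intro i hi
      rw [dot3, hz i hi]
      simp) (flex_sub_rot hv ![-c2, c1, u])
    (fun i => ε * (v i 2 + c1 * P.p i 0 + c2 * P.p i 1)) (by
      intro i hi
      refine ⟨?_, ?_⟩
      · obtain ⟨l, _, rfl⟩ := hsurj i hi
        have := hpos l
        have e0 : P.p (c l) 0 = Real.cos (φ l) := by rw [hpc l]; simp
        have e1 : P.p (c l) 1 = Real.sin (φ l) := by rw [hpc l]; simp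
        rw [e0, e1]
        exact this
      · have h0 := hv0 i hi
        have h1 := hv1 i hi
        rw [hu i hi] at h0 h1
        have h2 := hz i hi
        funext k
        fin_cases k
        · simp [cr, h0, h2]
        · simp [cr, h1, h2]
        · simp [cr, h2]
          linear_combination (-(v i 2 + c1 * P.p i 0 + c2 * P.p i 1)) * hε)
  intro i
  have := hfin i
  exact sub_eq_zero.1 this

end SphJam
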