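import Pool.Agent.SphJam.Defs

set_option autoImplicit false
open Matrix Finset

namespace SphJam

section

variable {I : Type}

end

open Classical in
/-- restriction of a stress to the rows in `T` -/
noncomputable def rst {n : ℕ} (T : Fin n → Prop) (w : Fin n → Fin n → ℝ) : Fin n → Fin n → ℝ :=
  fun i j => if T i then w i j else 0

open Classical in
/-- number of nonzero entries -/
noncomputable def nnz {n : ℕ} (w : Fin n → Fin n → ℝ) : ℕ :=
  ((univ : Finset (Fin n × Fin n)).filter (fun q => w q.1 q.2 ≠ 0)).card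

theorem rst_ne {n : ℕ} {T : Fin n → Prop} {w : Fin n → Fin n → ℝ} {i j : Fin n}
    (h : rst T w i j ≠ 0) : T i ∧ w i j ≠ 0 := by
  unfold rst at h
  split_ifs at h with hT
  · exact ⟨hT, h⟩
  · exact absurd rfl h

theorem rst_stress {n : ℕ} {P : Pack n} {T : Fin n → Prop} {w : Fin n → Fin n → ℝ}
    (hw : IsStress P Set.univ w) (hT : ∀ i j, w i j ≠ 0 → (T i ↔ T j)) :
    IsStress P Set.univ (rst T w) where
  symm := by
    intro i j
    by_cases h : w i j = 0
    · have h' : w j i = 0 := by rw [← hw.symm]; exact h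
      unfold rst
      rw [h, h']
      simp
    · have h1 := hT i j h
      unfold rst
      by_cases hi : T i
      · rw [if_pos hi, if_pos (h1.1 hi), hw.symm]
      · rw [if_neg hi, if_neg (fun hj => hi (h1.2 hj))]
  nonneg := by
    intro i j
    unfold rst
    split_ifs
    · exact hw.nonneg i j
    · exact le_refl _
  supp := fun i j h => hw.supp i j (rst_ne h).2
  touch := fun i j h => hw.touch i j (rst_ne h).2
  bal := by
    intro i hi u hu
    unfold rst
    by_cases hT : T i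
    · simp only [if_pos hT]
      exact hw.bal i hi u hu
    · simp only [if_neg hT, zero_mul, Finset.sum_const_zero]

theorem rst_lt {n : ℕ} {T : Fin n → Prop} {w : Fin n → Fin n → ℝ} {i : Fin n} (hi : AN w i)
    (hTi : ¬ T i) : nnz (rst T w) < nnz w := by
  classical
  obtain ⟨j, hj⟩ := hi
  unfold nnz
  apply Finset.card_lt_card
  rw [Finset.ssubset_iff_of_subset]
  · refine ⟨(i, j), ?_, ?_⟩
    · rw [Finset.mem_filter]
      exact ⟨Finset.mem_univ _, hj⟩
    · rw [Finset.mem_filter]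
      rintro ⟨_, h⟩
      exact hTi (rst_ne h).1
  · intro q hq
    rw [Finset.mem_filter] at hq ⊢
    exact ⟨Finset.mem_univ _, (rst_ne hq.2).2⟩

theorem rst_EE {n : ℕ} (P : Pack n) (T : Fin n → Prop) (w : Fin n → Fin n → ℝ) (v : Fin n → V3) :
    EE P w v = EE P (rst T w) v + EE P (rst (fun i => ¬ T i) w) v := by
  unfold EE
  rw [← Finset.sum_add_distrib]
  apply Finset.sum_congr rfl
  intro i _
  rw [← Finset.sum_add_distrib]
  apply Finset.sum_congr rfl
  intro j _
  unfold rst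
  by_cases h : T i
  · rw [if_pos h, if_neg (not_not.2 h)]
    ring
  · rw [if_neg h, if_pos h]
    ring


theorem exists_net {n : ℕ} (P : Pack n) (v : Fin n → V3) (ω : Fin n → Fin n → ℝ)
    (hst : IsStress P Set.univ ω) (hne : ∃ i j, ω i j ≠ 0) (hE : 0 ≤ EE P ω v) :
    ∃ ω', Net P ω' ∧ 0 ≤ EE P ω' v := by
  classical
  have hex : ∃ k, ∃ w, IsStress P Set.univ w ∧ (∃ i j, w i j ≠ 0) ∧ 0 ≤ EE P w v ∧ nnz w = k :=
    ⟨nnz ω, ω, hst, hne, hE, rfl⟩
  obtain ⟨w, hw1, hw2, hw3, hw4⟩ := Nat.find_spec hex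
  have hmin : ∀ w', IsStress P Set.univ w' → (∃ i j, w' i j ≠ 0) → 0 ≤ EE P w' v → nnz w ≤ nnz w' := by
    intro w' a b c
    rw [hw4]
    exact Nat.find_min' hex ⟨w', a, b, c, rfl⟩
  refine ⟨w, ⟨hw1, ?_, ?_⟩, hw3⟩
  · obtain ⟨i, j, h⟩ := hw2
    exact ⟨i, j, h⟩
  · rintro S ⟨i0, hi0, hSi0⟩ hS i1 hi1
    by_contra hSi1
    have hS' : ∀ i j, w i j ≠ 0 → ((¬ S i) ↔ (¬ S j)) := fun i j h => not_congr (hS i j h)
    have hs1 := rst_stress hw1 hS
    have hs2 := rst_stress hw1 hS'
    have hn1 : ∃ i j, rst S w i j ≠ 0 := by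
      obtain ⟨j, hj⟩ := hi0
      refine ⟨i0, j, ?_⟩
      unfold rst
      rw [if_pos hSi0]
      exact hj
    have hn2 : ∃ i j, rst (fun i => ¬ S i) w i j ≠ 0 := by
      obtain ⟨j, hj⟩ := hi1
      refine ⟨i1, j, ?_⟩
      unfold rst
      rw [if_pos hSi1]
      exact hj
    have hl1 : nnz (rst S w) < nnz w := rst_lt hi1 hSi1
    have hl2 : nnz (rst (fun i => ¬ S i) w) < nnz w := rst_lt hi0 (not_not.2 hSi0)
    have hEE := rst_EE P S w v
    rcases le_or_gt 0 (EE P (rst S w) v) with h1 | h1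
    · have := hmin _ hs1 hn1 h1
      omega
    · have h2 : 0 ≤ EE P (rst (fun i => ¬ S i) w) v := by linarith
      have := hmin _ hs2 hn2 h2
      omega

end SphJam
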