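import Pool.Agent.SphJam.Defs

set_option autoImplicit false
open Matrix

namespace SphJam

theorem isolated_exists_w (a b : V3) (ha : a ⬝ᵥ a = 1) (hb : b ⬝ᵥ b = 1) (hab : a ⬝ᵥ b < 1) :
    ∃ w : V3, w ⬝ᵥ w = 1 ∧ a ⬝ᵥ w = 0 ∧ ∃ δ : ℝ, 0 < δ ∧ ∀ s, 0 < s → s < δ →
      (Real.cos s • a + Real.sin s • w) ⬝ᵥ b ≠ a ⬝ᵥ b := by
  obtain ⟨c, hc⟩ : ∃ c, c = a ⬝ᵥ b := ⟨_, rfl⟩
  have hba : b ⬝ᵥ a = c := by rw [hc, dotProduct_comm]
  have hsub : (b - c • a) ⬝ᵥ (b - c • a) = 1 - c ^ 2 := by
    simp only [sub_dotProduct, dotProduct_sub, smul_dotProduct, dotProduct_smul, smul_eq_mul, ha, hb,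
      hba, ← hc]
    ring
  have hnn : 0 ≤ 1 - c ^ 2 := by
    rw [← hsub]
    simp only [dotProduct, Fin.sum_univ_three]
    nlinarith [mul_self_nonneg ((b - c • a) 0), mul_self_nonneg ((b - c • a) 1),
      mul_self_nonneg ((b - c • a) 2)]
  rcases hnn.lt_or_eq with hpos | hzero
  · -- generic case
    have hsq : 0 < Real.sqrt (1 - c ^ 2) := Real.sqrt_pos.2 hpos
    have hsq2 : Real.sqrt (1 - c ^ 2) * Real.sqrt (1 - c ^ 2) = 1 - c ^ 2 :=
      Real.mul_self_sqrt hnn
    have hc1 : c < 1 := by rw [hc]; exact hab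
    have hcm : -1 < c := by nlinarith
    have hcos : Real.cos (Real.arccos c) = c := Real.cos_arccos hcm.le hc1.le
    have hsin : Real.sin (Real.arccos c) = Real.sqrt (1 - c ^ 2) := Real.sin_arccos c
    have hacpos : 0 < Real.arccos c := Real.arccos_pos.2 hc1
    refine ⟨(Real.sqrt (1 - c ^ 2))⁻¹ • (b - c • a), ?_, ?_, Real.arccos c, hacpos, ?_⟩
    · simp only [smul_dotProduct, dotProduct_smul, hsub, smul_eq_mul]
      have key : ∀ X : ℝ, 0 < X → X * X = 1 - c ^ 2 → X⁻¹ * (X⁻¹ * (1 - c ^ 2)) = 1 := by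
        intro X hX h
        rw [← h]
        field_simp
      exact key _ hsq hsq2
    · simp only [dotProduct_smul, dotProduct_sub, smul_eq_mul, ha, ← hc]
      ring
    · intro s hs0 hs1
      have e1 : (Real.cos s • a + Real.sin s • (Real.sqrt (1 - c ^ 2))⁻¹ • (b - c • a)) ⬝ᵥ b
          = Real.cos s * c + Real.sin s * Real.sqrt (1 - c ^ 2) := by
        simp only [add_dotProduct, smul_dotProduct, sub_dotProduct, smul_eq_mul, hb, ← hc]
        have : 1 - c * c = Real.sqrt (1 - c ^ 2) * Real.sqrt (1 - c ^ 2) := by rw [hsq2]; ring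
        rw [this]
        field_simp
      rw [e1, ← hc]
      have e2 : Real.cos s * c + Real.sin s * Real.sqrt (1 - c ^ 2) =
          Real.cos (Real.arccos c - s) := by
        rw [Real.cos_sub, hcos, hsin]; ring
      rw [e2]
      have e3 : Real.cos (Real.arccos c) < Real.cos (Real.arccos c - s) :=
        Real.cos_lt_cos_of_nonneg_of_le_pi (by linarith) (Real.arccos_le_pi c) (by linarith)
      rw [hcos] at e3
      exact ne_of_gt e3
  · -- antipodal case
    have hc1 : c < 1 := by rw [hc]; exact hab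
    have hcm : c = -1 := by nlinarith
    have hadd : (a + b) ⬝ᵥ (a + b) = 0 := by
      simp only [add_dotProduct, dotProduct_add, ha, hb, hba, ← hc, hcm]
      norm_num
    have hb' : b = - a := by
      have h0 : a + b = 0 := dotProduct_self_eq_zero.1 hadd
      exact (neg_eq_of_add_eq_zero_right h0).symm
    obtain ⟨w, hw1, hw2⟩ : ∃ w : V3, w ⬝ᵥ w = 1 ∧ a ⬝ᵥ w = 0 := by
      by_cases h0 : a 0 ^ 2 + a 1 ^ 2 = 0
      · refine ⟨![1, 0, 0], ?_, ?_⟩
        · simp [dotProduct, Fin.sum_univ_three]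
        · have : a 0 = 0 := by nlinarith [sq_nonneg (a 0), sq_nonneg (a 1)]
          simp [dotProduct, Fin.sum_univ_three, this]
      · have hp : 0 < a 0 ^ 2 + a 1 ^ 2 := lt_of_le_of_ne (by positivity) (Ne.symm h0)
        have hsq : 0 < Real.sqrt (a 0 ^ 2 + a 1 ^ 2) := Real.sqrt_pos.2 hp
        have hsq2 := Real.mul_self_sqrt hp.le
        refine ⟨(Real.sqrt (a 0 ^ 2 + a 1 ^ 2))⁻¹ • ![-a 1, a 0, 0], ?_, ?_⟩
        · simp only [smul_dotProduct, dotProduct_smul, smul_eq_mul]
          have : (![-a 1, a 0, 0] : V3) ⬝ᵥ ![-a 1, a 0, 0] =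
              Real.sqrt (a 0 ^ 2 + a 1 ^ 2) * Real.sqrt (a 0 ^ 2 + a 1 ^ 2) := by
            rw [hsq2]
            simp [dotProduct, Fin.sum_univ_three]
            ring
          rw [this]
          field_simp
        · simp only [dotProduct_smul, smul_eq_mul]
          have : a ⬝ᵥ (![-a 1, a 0, 0] : V3) = 0 := by
            simp [dotProduct, Fin.sum_univ_three]
            ring
          rw [this, mul_zero]
    refine ⟨w, hw1, hw2, Real.pi, Real.pi_pos, ?_⟩
    intro s hs0 hs1
    have hwa : w ⬝ᵥ a = 0 := by rw [dotProduct_comm]; exact hw2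
    have e1 : (Real.cos s • a + Real.sin s • w) ⬝ᵥ b = - Real.cos s := by
      rw [hb']
      simp only [add_dotProduct, smul_dotProduct, dotProduct_neg, smul_eq_mul, ha, hwa]
      ring
    rw [e1, ← hc, hcm]
    have e3 : Real.cos s < Real.cos 0 :=
      Real.cos_lt_cos_of_nonneg_of_le_pi le_rfl hs1.le hs0
    rw [Real.cos_zero] at e3
    intro h
    linarith

theorem isolated_motion {n : ℕ} (P : Pack n) (i : Fin n) (h : ∀ j, ¬ P.Ct i j)
    (hn : ∃ j, j ≠ i) : HasMotion P := by
  classical
  obtain ⟨j, hj⟩ := hn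
  have hlt1 : P.p i ⬝ᵥ P.p j < 1 := by
    have h1 := P.sep i j hj.symm
    have h2 : Real.cos (P.r i + P.r j) < Real.cos 0 := by
      apply Real.cos_lt_cos_of_nonneg_of_le_pi le_rfl
      · have := P.rle i
        have := P.rle j
        have := Real.pi_gt_three
        linarith
      · have := P.rpos i
        have := P.rpos j
        linarith
    rw [Real.cos_zero] at h2
    linarith
  obtain ⟨w, hw1, hw2, δ, hδ, hne⟩ := isolated_exists_w (P.p i) (P.p j) (P.unit i) (P.unit j) hlt1
  let g : ℝ → V3 := fun s => Real.cos s • P.p i + Real.sin s • w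
  have hg : Continuous g := by
    exact (Real.continuous_cos.smul continuous_const).add (Real.continuous_sin.smul continuous_const)
  have hg0 : g 0 = P.p i := by simp [g]
  have hgu : ∀ s, g s ⬝ᵥ g s = 1 := by
    intro s
    have hwa : w ⬝ᵥ P.p i = 0 := by rw [dotProduct_comm]; exact hw2
    simp only [g, add_dotProduct, dotProduct_add, smul_dotProduct, dotProduct_smul, smul_eq_mul,
      P.unit i, hw1, hw2, hwa]
    nlinarith [Real.sin_sq_add_cos_sq s]
  have hdot : ∀ k, Continuous fun s => g s ⬝ᵥ P.p k := by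
    intro k
    simp only [dotProduct]
    exact continuous_finsetSum _ fun l _ => ((continuous_apply l).comp hg).mul continuous_const
  have hev : ∀ᶠ s in nhds (0 : ℝ), ∀ k, k ≠ i → g s ⬝ᵥ P.p k < Real.cos (P.r i + P.r k) := by
    rw [Filter.eventually_all]
    intro k
    by_cases hk : k = i
    · exact Filter.Eventually.of_forall fun s hs => absurd hk hs
    · have h0 : g 0 ⬝ᵥ P.p k < Real.cos (P.r i + P.r k) := by
        rw [hg0]
        refine lt_of_le_of_ne (P.sep i k (Ne.symm hk)) ?_
        intro he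
        exact h k ⟨Ne.symm hk, he⟩
      have h1 := (hdot k).continuousAt.eventually_lt (continuousAt_const (y := Real.cos (P.r i + P.r k))) h0
      filter_upwards [h1] with s hs _ using hs
  obtain ⟨ε, hε, hball⟩ := Metric.eventually_nhds_iff.1 hev
  obtain ⟨τ, hτ0, hτ1, hτ2⟩ : ∃ τ : ℝ, 0 < τ ∧ τ < ε ∧ τ < δ := by
    refine ⟨min ε δ / 2, ?_, ?_, ?_⟩
    · have := lt_min hε hδ
      linarith
    · have := lt_min hε hδ
      have := min_le_left ε δ
      linarith
    · have := lt_min hε hδ
      have := min_le_right ε δ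
      linarith
  have hpack : ∀ s, 0 ≤ s → s ≤ τ → ∀ k, k ≠ i → g s ⬝ᵥ P.p k ≤ Real.cos (P.r i + P.r k) := by
    intro s hs0 hs1 k hk
    refine (hball ?_ k hk).le
    rw [Real.dist_eq, sub_zero, abs_of_nonneg hs0]
    linarith
  let F : ℝ → Fin n → V3 := fun s => Function.update P.p i (g s)
  have hF : Continuous F := continuous_const.update i hg
  let γ : Path P.p (F τ) :=
    { toFun := fun t => F (τ * (t : ℝ))
      continuous_toFun := hF.comp (continuous_const.mul continuous_subtype_val)
      source' := by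
        simp only [F, Set.Icc.coe_zero, mul_zero, hg0, Function.update_eq_self]
      target' := by
        simp only [Set.Icc.coe_one, mul_one] }
  refine ⟨F τ, γ, ?_, ?_⟩
  · intro t
    have ht0 : 0 ≤ τ * (t : ℝ) := mul_nonneg hτ0.le t.2.1
    have ht1 : τ * (t : ℝ) ≤ τ := by
      calc τ * (t : ℝ) ≤ τ * 1 := mul_le_mul_of_nonneg_left t.2.2 hτ0.le
        _ = τ := mul_one τ
    have hγ : γ t = F (τ * (t : ℝ)) := rfl
    rw [hγ]
    constructor
    · intro k
      by_cases hk : k = i
      · subst hk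
        simp only [F, Function.update_self]
        exact hgu _
      · simp only [F, Function.update_of_ne hk]
        exact P.unit k
    · intro k l hkl
      by_cases hk : k = i
      · subst hk
        simp only [F, Function.update_self, Function.update_of_ne (Ne.symm hkl)]
        exact hpack _ ht0 ht1 l (Ne.symm hkl)
      · by_cases hl : l = i
        · subst hl
          simp only [F, Function.update_self, Function.update_of_ne hkl]
          rw [dotProduct_comm, add_comm]
          exact hpack _ ht0 ht1 k hkl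
        · simp only [F, Function.update_of_ne hk, Function.update_of_ne hl]
          exact P.sep k l hkl
  · rintro ⟨R, hR, hq⟩
    have h1 := hq i
    have h2 := hq j
    have hRR : Rᵀ * R = 1 := by
      have := (Matrix.mem_orthogonalGroup_iff' (Fin 3) ℝ).1 hR
      simpa [Matrix.star_eq_conjTranspose] using this
    have h3 : F τ i ⬝ᵥ F τ j = P.p i ⬝ᵥ P.p j := by
      rw [h1, h2, Matrix.dotProduct_mulVec, ← Matrix.mulVec_transpose, Matrix.mulVec_mulVec, hRR,
        Matrix.one_mulVec]
    have h4 : F τ i = g τ := by simp [F]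
    have h5 : F τ j = P.p j := by simp [F, Function.update_of_ne hj]
    rw [h4, h5] at h3
    exact hne τ hτ0 hτ2 h3

end SphJam
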