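import Pool.Agent.SphJam.CaseOne
import Pool.Agent.SphJam.CaseTwo
import Pool.Agent.SphJam.CopRot
import Pool.Agent.SphJam.Stoker
import Pool.Agent.SphJam.ExNet
import Pool.Agent.SphJam.Isolated
import Pool.Agent.SphJam.SecOrd

/-!
# Packings of small disks on the sphere with a nontrivial infinitesimal flex are unjammed

Let `P` be a packing of disks of radii at most `1/10` on the unit sphere and `v` a nontrivial
infinitesimal flex. We show that `P` has a motion to a non-congruent packing.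

* `second_order`: if every nonzero self-stress `ω ≥ 0` of the contact graph has
  `EE P ω v < 0` (second order stress test, by a strict theorem of the alternative) then there is a
  motion. So suppose `EE P ω v ≥ 0`, with `ω` of minimal support, hence with connected support.
* `stoker`: a stressed contact network that is not contained in a great circle has
  `Ea P ω v a ≤ 0` for each axis `a` (an infinitesimal Stoker-type inequality). Proof: seen from the
  axis, the network is a non-crossing circulation on a cylinder; one peels off bottom cycles one by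
  one; each bottom cycle is a concave closed polygon, and the form of such a cycle is nonpositive by
  Minkowski's inequality for planar polygons (`ring_neg`).
* Equality is analysed in `caseI` (the flex is a rotation on the network) and `caseII` (two spins at
  a node differ; then the bottom cycle seen from an axis close to the node is a hinge with two
  antipodal corners), and `coplanar` treats networks contained in a great circle.
* In the equality cases a flex supported in an open hemisphere is found, and `pinned` shows that a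
  minimal such flex passes the second order test.
-/

set_option autoImplicit false
open Matrix Finset

namespace SphJam

theorem dot_self_pos {u : V3} (h : u ≠ 0) : 0 < u ⬝ᵥ u := by
  have h1 : 0 ≤ u ⬝ᵥ u := by
    simp only [dotProduct, Fin.sum_univ_three]
    nlinarith [mul_self_nonneg (u 0), mul_self_nonneg (u 1), mul_self_nonneg (u 2)]
  rcases h1.lt_or_eq with h2 | h2
  · exact h2
  · exact absurd (dotProduct_self_eq_zero.mp h2.symm) h

theorem coplanar {n : ℕ} {P : Pack n} (hall : ∀ i, ∃ j, P.Ct i j) (hm : ¬ HasMotion P)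
    {ω : Fin n → Fin n → ℝ} (hN : Net P ω) (hnc : ¬ NonCop P ω)
    {v : Fin n → V3} (hv : IsFlex P v) (hE : 0 ≤ EE P ω v) :
    ∃ r : V3, ∀ i, v i = cr r (P.p i) := by
  rw [NonCop, not_not] at hnc
  obtain ⟨b, hb0, hb⟩ := hnc
  have hbb := dot_self_pos hb0
  set c := Real.sqrt (b ⬝ᵥ b) with hc
  have hc0 : 0 < c := Real.sqrt_pos.mpr hbb
  have hcc : c * c = b ⬝ᵥ b := Real.mul_self_sqrt hbb.le
  obtain ⟨R, hR, hd, hRa⟩ := exists_rot (c⁻¹ • b) (by
    rw [smul_dotProduct, dotProduct_smul, ← hcc, smul_eq_mul, smul_eq_mul]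
    field_simp)
  have hz : ∀ i, AN ω i → (P.rot R hR).p i 2 = 0 := by
    intro i hi
    have h1 : (R *ᵥ P.p i) ⬝ᵥ (R *ᵥ (c⁻¹ • b)) = P.p i ⬝ᵥ (c⁻¹ • b) := dot_rot R hR _ _
    rw [hRa, dotProduct_smul, dotProduct_comm (P.p i) b, hb i hi, smul_zero] at h1
    have h2 : (R *ᵥ P.p i) 2 = 0 := by
      simpa [dotProduct, Fin.sum_univ_three] using h1
    exact h2
  have hm' : ¬ HasMotion (P.rot R hR) := fun h => hm (rot_motion h)
  have hall' : ∀ i, ∃ j, (P.rot R hR).Ct i j := fun i => by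
    obtain ⟨j, hj⟩ := hall i
    exact ⟨j, rot_Ct.mpr hj⟩
  obtain ⟨r, hr⟩ := coplanar_rot hall' hm' (rot_net hN) hz (rot_flex hv) (by rw [rot_EE]; exact hE)
  have hRR : Rᵀ * R = 1 := by
    have := (Matrix.mem_orthogonalGroup_iff' (Fin 3) ℝ).mp hR
    simpa [Matrix.star_eq_conjTranspose] using this
  have hRR' : R * Rᵀ = 1 := by
    have := (Matrix.mem_orthogonalGroup_iff (Fin 3) ℝ).mp hR
    simpa [Matrix.star_eq_conjTranspose] using this
  refine ⟨Rᵀ *ᵥ r, fun i => ?_⟩
  have h1 : R *ᵥ v i = cr r (R *ᵥ P.p i) := hr i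
  have h2 : r = R *ᵥ (Rᵀ *ᵥ r) := by rw [mulVec_mulVec, hRR', one_mulVec]
  rw [h2, cr_rot R hR hd] at h1
  have h3 := congrArg (fun x => Rᵀ *ᵥ x) h1
  simpa [mulVec_mulVec, ← Matrix.mul_assoc, hRR, hRR'] using h3

theorem main {n : ℕ} (P : Pack n) (v : Fin n → V3) (hv : IsFlex P v)
    (hnt : ¬ ∃ r : V3, ∀ i, v i = cr r (P.p i)) : HasMotion P := by
  by_contra hm
  -- there is a node
  have hne : Nonempty (Fin n) := by
    by_contra h
    rw [not_nonempty_iff] at h
    exact hnt ⟨0, fun i => (h.false i).elim⟩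
  have hall : ∀ i, ∃ j, P.Ct i j := by
    intro i
    by_contra h
    rw [not_exists] at h
    by_cases hn : ∃ j, j ≠ i
    · exact hm (isolated_motion P i h hn)
    · apply hnt
      refine ⟨cr (P.p i) (v i), fun j => ?_⟩
      have hji : j = i := by
        by_contra hji
        exact hn ⟨j, hji⟩
      rw [hji]
      have := cr_self_rot P v (hv.1 i) 0
      simpa using this
  -- a stress
  have hs : ∃ ω, IsStress P Set.univ ω ∧ (∃ i j, ω i j ≠ 0) ∧ 0 ≤ EE P ω v := by
    by_contra h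
    obtain ⟨i⟩ := hne
    obtain ⟨j, hj⟩ := hall i
    refine hm (second_order P Set.univ v hv (fun i hi => absurd (Set.mem_univ i) hi)
      ⟨i, j, hj, Set.mem_univ i⟩ (fun ω hω hne => ?_))
    by_contra h'
    exact h ⟨ω, hω, hne, not_lt.mp h'⟩
  obtain ⟨ω0, hst0, hne0, hE0⟩ := hs
  obtain ⟨ω, hN, hE⟩ := exists_net P v ω0 hst0 hne0 hE0
  by_cases hnc : NonCop P ω
  · -- spins
    have hsp : ∀ i j, ω i j ≠ 0 → ∃ σ : ℝ, v j = cr (cr (P.p i) (v i) + σ • P.p i) (P.p j) :=
      fun i j hij => spin_exists P (hN.st.supp i j hij) v (hv.1 i) (hv.1 j)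
        (iso_of_flex hN.st hv i j hij)
    choose! sp hsp using hsp
    by_cases hd : ∃ A j k, ω A j ≠ 0 ∧ ω A k ≠ 0 ∧ sp A j ≠ sp A k
    · obtain ⟨A, j, k, h1, h2, h3⟩ := hd
      exact caseII hall hm hN hnc hv hE A (sp A) (hsp A) ⟨j, k, h1, h2, h3⟩
    · have hd' : ∀ A j k, ω A j ≠ 0 → ω A k ≠ 0 → sp A j = sp A k := by
        intro A j k h1 h2
        by_contra h3
        exact hd ⟨A, j, k, h1, h2, h3⟩
      have hnb : ∀ i, ∃ j, AN ω i → ω i j ≠ 0 := by
        intro i
        by_cases h : AN ω i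
        · obtain ⟨j, hj⟩ := h
          exact ⟨j, fun _ => hj⟩
        · exact ⟨i, fun h' => absurd h' h⟩
      choose nb hnb using hnb
      set r : Fin n → V3 := fun i => cr (P.p i) (v i) + sp i (nb i) • P.p i with hr
      have hr1 : ∀ i, v i = cr (r i) (P.p i) := fun i => cr_self_rot P v (hv.1 i) _
      have hr2 : ∀ i j, ω i j ≠ 0 → v j = cr (r i) (P.p j) := by
        intro i j hij
        have h1 : sp i (nb i) = sp i j := hd' i (nb i) j (hnb i ⟨j, hij⟩) hij
        simp only [hr, h1]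
        exact hsp i j hij
      have hr3 : ∀ i j, ω i j ≠ 0 → r i = r j := by
        intro i j hij
        have hji : ω j i ≠ 0 := by
          rw [hN.st.symm j i]
          exact hij
        exact rot_unique P (hN.st.supp i j hij) _ _ ((hr1 i).symm.trans (hr2 j i hji))
          ((hr2 i j hij).symm.trans (hr1 j))
      obtain ⟨i1, hi1⟩ := hN.ne
      have hr4 : ∀ i, AN ω i → r i = r i1 :=
        hN.conn (fun i => r i = r i1) ⟨i1, hi1, rfl⟩ (fun i j hij => by rw [hr3 i j hij])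
      have hex : ∃ i0, v i0 ≠ cr (r i1) (P.p i0) := by
        by_contra h
        apply hnt
        refine ⟨r i1, fun i => ?_⟩
        by_contra h'
        exact h ⟨i, h'⟩
      obtain ⟨i0, hi0⟩ := hex
      exact caseI hall hm hN hnc (flex_sub_rot hv (r i1))
        (fun i hi => sub_eq_zero.mpr ((hr1 i).trans (by rw [hr4 i hi]))) i0 (sub_ne_zero.mpr hi0)
  · exact hnt (coplanar hall hm hN hnc hv hE)

theorem abs_dot_le {u v : V3} (hu : u ⬝ᵥ u = 1) (hv : v ⬝ᵥ v = 1) :
    -1 ≤ u ⬝ᵥ v ∧ u ⬝ᵥ v ≤ 1 := by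
  simp only [dotProduct, Fin.sum_univ_three] at *
  constructor
  · nlinarith [sq_nonneg (u 0 + v 0), sq_nonneg (u 1 + v 1), sq_nonneg (u 2 + v 2)]
  · nlinarith [sq_nonneg (u 0 - v 0), sq_nonneg (u 1 - v 1), sq_nonneg (u 2 - v 2)]

theorem conv : ∃ ε : ℝ, 0 < ε ∧ ∀ (n : ℕ) (p : Fin n → Fin 3 → ℝ) (r : Fin n → ℝ),
      (∀ i, 0 < r i ∧ r i ≤ ε) →
      (∀ i, p i ⬝ᵥ p i = 1) →
      (∀ i j, i ≠ j → r i + r j ≤ Real.arccos (p i ⬝ᵥ p j)) →
      (∃ v : Fin n → Fin 3 → ℝ, (∀ i, p i ⬝ᵥ v i = 0) ∧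
        (∀ i j, i ≠ j → Real.arccos (p i ⬝ᵥ p j) = r i + r j →
          0 ≤ (p i - p j) ⬝ᵥ (v i - v j)) ∧
        ¬ ∃ A : Matrix (Fin 3) (Fin 3) ℝ, Aᵀ = -A ∧ ∀ i, v i = A *ᵥ p i) →
      ∃ q : Fin n → Fin 3 → ℝ, ∃ γ : Path p q,
        (∀ t, (∀ i, (γ t) i ⬝ᵥ (γ t) i = 1) ∧
          ∀ i j, i ≠ j → r i + r j ≤ Real.arccos ((γ t) i ⬝ᵥ (γ t) j)) ∧
        ¬ ∃ R ∈ Matrix.orthogonalGroup (Fin 3) ℝ, ∀ i, q i = R *ᵥ p i := by
  refine ⟨1 / 10, by norm_num, ?_⟩
  intro n p r hr hp hsep ⟨v, hv0, hv1, hnt⟩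
  have hpi := Real.pi_gt_three
  have hrs : ∀ i j, 0 ≤ r i + r j ∧ r i + r j ≤ Real.pi := fun i j => by
    have h1 := hr i
    have h2 := hr j
    constructor <;> linarith [h1.1, h1.2, h2.1, h2.2]
  have hsep' : ∀ i j, i ≠ j → p i ⬝ᵥ p j ≤ Real.cos (r i + r j) := fun i j hij => by
    have h1 := abs_dot_le (hp i) (hp j)
    have h2 := Real.cos_le_cos_of_nonneg_of_le_pi (hrs i j).1
      (Real.arccos_le_pi (p i ⬝ᵥ p j)) (hsep i j hij)
    rwa [Real.cos_arccos h1.1 h1.2] at h2
  let P : Pack n := ⟨p, r, fun i => (hr i).1, fun i => (hr i).2, hp, hsep'⟩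
  have hflex : IsFlex P v := by
    refine ⟨hv0, fun i j hij => ?_⟩
    obtain ⟨hne, hc⟩ := hij
    have hc' : p i ⬝ᵥ p j = Real.cos (r i + r j) := hc
    have h1 : Real.arccos (p i ⬝ᵥ p j) = r i + r j := by
      rw [hc', Real.arccos_cos (hrs i j).1 (hrs i j).2]
    have h2 := hv1 i j hne h1
    have h3 : (p i - p j) ⬝ᵥ (v i - v j) =
        p i ⬝ᵥ v i + p j ⬝ᵥ v j - (p i ⬝ᵥ v j + p j ⬝ᵥ v i) := by
      simp only [sub_dotProduct, dotProduct_sub]
      ring
    rw [h3, hv0 i, hv0 j] at h2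
    change p i ⬝ᵥ v j + p j ⬝ᵥ v i ≤ 0
    linarith
  have hm : HasMotion P := by
    apply main P v hflex
    rintro ⟨w, hw⟩
    apply hnt
    refine ⟨!![0, -w 2, w 1; w 2, 0, -w 0; -w 1, w 0, 0], ?_, fun i => ?_⟩
    · ext a b
      fin_cases a <;> fin_cases b <;> simp
    · rw [hw i]
      ext a
      fin_cases a <;> simp [cr, Matrix.mulVec, dotProduct, Fin.sum_univ_three, P] <;> ring
  obtain ⟨q, γ, h1, h2⟩ := hm
  refine ⟨q, γ, fun t => ⟨(h1 t).1, fun i j hij => ?_⟩, h2⟩
  have h3 := (h1 t).2 i j hij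
  have h4 : Real.arccos (Real.cos (r i + r j)) ≤ Real.arccos ((γ t) i ⬝ᵥ (γ t) j) :=
    Real.arccos_le_arccos h3
  rwa [Real.arccos_cos (hrs i j).1 (hrs i j).2] at h4

end SphJam
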