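import Pool.Agent.SphJam.Cross

set_option autoImplicit false
open Finset

namespace SphJam

variable {I : Type}

section

variable [Fintype I] {a b T : I → ℝ} {m : I → I → ℝ}

end

section

variable [Fintype I] {a b T : I → ℝ} {m : I → I → ℝ}

omit [Fintype I] in
theorem D2_swap (i j : I) : D2 a b j i = - D2 a b i j := by unfold D2; ring

omit [Fintype I] in
theorem D2_self (i : I) : D2 a b i i = 0 := by unfold D2; ring

omit [Fintype I] in
theorem D2_pl (x y z w : I) :
    D2 a b x y * D2 a b z w - D2 a b x z * D2 a b y w + D2 a b x w * D2 a b y z = 0 := by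
  unfold D2; ring

omit [Fintype I] in
theorem D3_swap23 (i j l : I) : D3 a b T i l j = - D3 a b T i j l := by
  unfold D3 D2; ring

omit [Fintype I] in
theorem D3_swap13 (i j k : I) : D3 a b T k j i = - D3 a b T i j k := by
  unfold D3 D2; ring

omit [Fintype I] in
theorem D2_neg {i k : I} (j : I) (h1 : a k = - a i) (h2 : b k = - b i) :
    D2 a b k j = - D2 a b i j := by
  unfold D2; rw [h1, h2]; ring

/-- TARGET 1: nodes in the open cone of the lowest east arc at a bottom node lie above it. -/
theorem CN.above_of_lowest (h : CN a b T m) {i j : I} (hb : Bot a b T m i) (hij : m i j ≠ 0)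
    (hlow : ∀ l, m i l ≠ 0 → l = j ∨ 0 < D3 a b T i j l) {k : I} (hk : Act m k)
    (k1 : 0 < D2 a b i k) (k2 : 0 < D2 a b k j) : 0 < D3 a b T i j k := by
  classical
  have key : ∀ n : ℕ, ∀ k, Act m k → 0 < D2 a b i k → 0 < D2 a b k j →
      (univ.filter (fun y => Act m y ∧ 0 < D2 a b i y ∧ 0 < D2 a b y k)).card = n →
      0 < D3 a b T i j k := by
    intro n
    induction n using Nat.strong_induction_on with
    | _ n ih =>
      intro k hk k1 k2 hn
      have hne := h.nc1 i j k hij hk k1 k2
      by_contra hcon
      have hlt : D3 a b T i j k < 0 := lt_of_le_of_ne (not_lt.mp hcon) hne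
      obtain ⟨k', hk'⟩ := h.exists_west hk
      have heast := h.east k' k hk'
      have heij := h.east i j hij
      by_cases hki : k' = i
      · subst hki
        rcases hlow k hk' with h1 | h1
        · rw [h1, D2_self] at k2
          exact lt_irrefl _ k2
        · linarith
      · rcases lt_trichotomy (D2 a b k' i) 0 with h1 | h1 | h1
        · have h2 : 0 < D2 a b i k' := by rw [D2_swap]; linarith
          have h3 : 0 < D2 a b k' j := by
            have hp := D2_pl (a := a) (b := b) i k' k j
            have h4 : 0 < D2 a b i k * D2 a b k' j := by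
              have h5 := mul_pos h2 k2
              have h6 := mul_pos heij heast
              linarith
            exact pos_of_mul_pos_right h4 k1.le
          have hcard : (univ.filter (fun y => Act m y ∧ 0 < D2 a b i y ∧ 0 < D2 a b y k')).card < n := by
            rw [← hn]
            apply Finset.card_lt_card
            rw [Finset.ssubset_iff_of_subset]
            · refine ⟨k', ?_, ?_⟩
              · rw [mem_filter]
                exact ⟨mem_univ _, ⟨k, hk'⟩, h2, heast⟩
              · rw [mem_filter]
                rintro ⟨_, _, _, h4⟩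
                rw [D2_self] at h4
                exact lt_irrefl _ h4
            · intro y hy
              rw [mem_filter] at hy ⊢
              obtain ⟨_, y1, y2, y3⟩ := hy
              refine ⟨mem_univ _, y1, y2, ?_⟩
              have hp := D2_pl (a := a) (b := b) i y k' k
              have h4 : 0 < D2 a b i k' * D2 a b y k := by
                have h5 := mul_pos y2 heast
                have h6 := mul_pos k1 y3
                linarith
              exact pos_of_mul_pos_right h4 h2.le
          have h7 := ih _ hcard k' ⟨k, hk'⟩ h2 h3 rfl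
          have h8 := (h.cross_in hij hk' h2 h3 k1 k2).mpr hlt
          linarith
        · rcases h.gen k' i ⟨k, hk'⟩ hb.1 hki with h2 | ⟨h2, h3⟩
          · exact h2 h1
          · have h4 := D2_neg (a := a) (b := b) k h2 h3
            rw [h4] at k1
            linarith
        · have h2 := hb.2 k' k hk' h1 k1
          have h3 := (h.cross_out hk' hij h1 k1 k2).mp h2
          linarith
  exact key _ k hk k1 k2 rfl

/-- TARGET 2 -/
theorem CN.bot_next (h : CN a b T m) {i j : I} (hb : Bot a b T m i) (hij : m i j ≠ 0)
    (hlow : ∀ l, m i l ≠ 0 → l = j ∨ 0 < D3 a b T i j l) : Bot a b T m j := by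
  refine ⟨h.act_target hij, ?_⟩
  intro k l hkl h1 h2
  have hne := h.nc1 k l j hkl (h.act_target hij) h1 h2
  have heij := h.east i j hij
  have hekl := h.east k l hkl
  by_contra hcon
  have hgt : 0 < D3 a b T k l j := lt_of_le_of_ne (not_lt.mp hcon) (Ne.symm hne)
  by_cases hki : k = i
  · subst hki
    rcases hlow l hkl with h3 | h3
    · rw [h3, D2_self] at h2
      exact lt_irrefl _ h2
    · rw [D3_swap23] at hgt
      linarith
  · rcases lt_trichotomy (D2 a b i k) 0 with h3 | h3 | h3
    · have h4 : 0 < D2 a b k i := by rw [D2_swap]; linarith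
      have h5 : 0 < D2 a b i l := by
        have hp := D2_pl (a := a) (b := b) k i j l
        have h6 : 0 < D2 a b k j * D2 a b i l := by
          have h7 := mul_pos h4 h2
          have h8 := mul_pos hekl heij
          linarith
        exact pos_of_mul_pos_right h6 h1.le
      have h6 := hb.2 k l hkl h4 h5
      have h7 := (h.cross_in hkl hij h4 h5 h1 h2).mp h6
      linarith
    · rcases h.gen i k hb.1 ⟨l, hkl⟩ (Ne.symm hki) with h4 | ⟨h4, h5⟩
      · exact h4 h3
      · rw [D2_neg (a := a) (b := b) j h4 h5] at h1
        linarith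
    · have h4 := h.above_of_lowest hb hij hlow ⟨l, hkl⟩ h3 h1
      have h5 := (h.cross_out hij hkl h3 h1 h2).mpr hgt
      linarith

/-- TARGET 3: the arc is also the lowest west arc at `j`. -/
theorem CN.lowest_west (h : CN a b T m) {i j : I} (hb : Bot a b T m i) (hij : m i j ≠ 0)
    (hlow : ∀ l, m i l ≠ 0 → l = j ∨ 0 < D3 a b T i j l) {k : I} (hk : m k j ≠ 0) :
    k = i ∨ 0 < D3 a b T i j k := by
  by_cases hki : k = i
  · exact Or.inl hki
  right
  have heij := h.east i j hij
  have hekj := h.east k j hk
  rcases lt_trichotomy (D2 a b i k) 0 with h3 | h3 | h3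
  · have h4 : 0 < D2 a b k i := by rw [D2_swap]; linarith
    have h5 := hb.2 k j hk h4 heij
    rw [D3_swap13] at h5
    linarith
  · exfalso
    rcases h.gen i k hb.1 ⟨j, hk⟩ (Ne.symm hki) with h4 | ⟨h4, h5⟩
    · exact h4 h3
    · rw [D2_neg (a := a) (b := b) j h4 h5] at hekj
      linarith
  · exact h.above_of_lowest hb hij hlow ⟨j, hk⟩ h3 hekj

/-- TARGET 4: no bottom node strictly between. -/
theorem CN.no_bot_between (h : CN a b T m) {i j : I} (hb : Bot a b T m i) (hij : m i j ≠ 0)
    (hlow : ∀ l, m i l ≠ 0 → l = j ∨ 0 < D3 a b T i j l) {k : I} (hk : Bot a b T m k)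
    (k1 : 0 < D2 a b i k) (k2 : 0 < D2 a b k j) : False := by
  have h1 := h.above_of_lowest hb hij hlow hk.1 k1 k2
  have h2 := hk.2 i j hij k1 k2
  linarith

/-- TARGET 5: a lowest east arc exists. -/
theorem CN.exists_lowest (h : CN a b T m) {i : I} (hi : Act m i) :
    ∃ j, m i j ≠ 0 ∧ ∀ l, m i l ≠ 0 → l = j ∨ 0 < D3 a b T i j l := by
  classical
  have hunit := h.unit i hi
  obtain ⟨j0, hj0⟩ := hi
  obtain ⟨j, hj, hmin⟩ := Finset.exists_min_image (univ.filter (fun j => m i j ≠ 0))
    (fun j => (T j - T i * (a i * a j + b i * b j)) / D2 a b i j)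
    ⟨j0, by rw [mem_filter]; exact ⟨mem_univ _, hj0⟩⟩
  have hj' : m i j ≠ 0 := (mem_filter.mp hj).2
  refine ⟨j, hj', ?_⟩
  intro l hl
  by_cases hlj : l = j
  · exact Or.inl hlj
  right
  have hej := h.east i j hj'
  have hel := h.east i l hl
  have hsl := hmin l (by rw [mem_filter]; exact ⟨mem_univ _, hl⟩)
  have hid : D3 a b T i j l = D2 a b i j * D2 a b i l *
      ((T l - T i * (a i * a l + b i * b l)) / D2 a b i l -
        (T j - T i * (a i * a j + b i * b j)) / D2 a b i j) := by
    have h1 : D2 a b i j * D2 a b i l *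
      ((T l - T i * (a i * a l + b i * b l)) / D2 a b i l -
        (T j - T i * (a i * a j + b i * b j)) / D2 a b i j) =
        D2 a b i j * (T l - T i * (a i * a l + b i * b l)) -
        D2 a b i l * (T j - T i * (a i * a j + b i * b j)) := by
      have := hej.ne'
      have := hel.ne'
      field_simp
    rw [h1]
    have h2 : D2 a b i j * (T l - T i * (a i * a l + b i * b l)) -
        D2 a b i l * (T j - T i * (a i * a j + b i * b j)) =
        T l * D2 a b i j - T j * D2 a b i l + T i * ((a i ^ 2 + b i ^ 2) * D2 a b j l) := by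
      unfold D2; ring
    rw [h2, hunit]
    unfold D3 D2
    ring
  have hge : 0 ≤ D3 a b T i j l := by
    rw [hid]
    apply mul_nonneg (mul_pos hej hel).le
    linarith
  refine lt_of_le_of_ne hge ?_
  intro h0
  rcases lt_trichotomy (D2 a b j l) 0 with h1 | h1 | h1
  · have h2 : 0 < D2 a b l j := by rw [D2_swap]; linarith
    exact h.nc1 i j l hj' (h.act_target hl) hel h2 h0.symm
  · rcases h.gen j l (h.act_target hj') (h.act_target hl) (Ne.symm hlj) with h2 | ⟨h2, h3⟩
    · exact h2 h1
    · have h4 : D2 a b i l = - D2 a b i j := by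
        unfold D2; rw [h2, h3]; ring
      rw [h4] at hel
      linarith
  · apply h.nc1 i l j hl (h.act_target hj') hej h1
    rw [D3_swap23, ← h0, neg_zero]

end

end SphJam
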