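import Pool.Agent.SphJam.PackNC
import Pool.Agent.SphJam.Pinned

set_option autoImplicit false
open Matrix Finset

namespace SphJam

section

variable {I : Type}

end



theorem Ct_symm' {n : ℕ} (P : Pack n) {i j : Fin n} (h : P.Ct i j) : P.Ct j i := by
  refine ⟨h.1.symm, ?_⟩
  rw [dotProduct_comm, h.2, add_comm]

/-- no bump: a node is blocked in every tangential direction -/
theorem no_bump {n : ℕ} (P : Pack n) (hm : ¬ HasMotion P) (hall : ∀ i, ∃ j, P.Ct i j) (k : Fin n)
    (κ : V3) (hκ0 : κ ≠ 0) (hκ : κ ⬝ᵥ P.p k = 0) : ∃ i, P.Ct k i ∧ 0 < κ ⬝ᵥ P.p i := by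
  by_contra hcon
  push Not at hcon
  apply hm
  refine pinned P hall {k} (P.p k) (fun i => if i = k then κ else 0) ⟨?_, ?_⟩ ?_ ⟨k, ?_⟩ ?_ ?_
  · intro i
    by_cases hi : i = k
    · subst hi
      simp only [if_true]
      rw [dotProduct_comm]; exact hκ
    · simp [hi]
  · intro i j hc
    by_cases hi : i = k
    · subst hi
      have hj : j ≠ i := hc.1.symm
      simp only [if_neg hj, if_true, dotProduct_zero, zero_add]
      rw [dotProduct_comm]
      exact hcon j hc
    · by_cases hj : j = k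
      · subst hj
        simp only [if_neg hi, if_true, dotProduct_zero, add_zero]
        rw [dotProduct_comm]
        exact hcon i (Ct_symm' P hc)
      · simp [hi, hj]
  · intro i hi
    by_contra hik
    apply hi
    have : i ≠ k := hik
    simp [this]
  · simpa using hκ0
  · intro i hi
    have : i = k := hi
    subst this
    rw [P.unit]; norm_num
  · intro i hi j hc
    have : i = k := hi
    subst this
    rw [hc.2]
    apply Real.cos_nonneg_of_neg_pi_div_two_le_of_le
    · have := P.rpos i; have := P.rpos j; have := Real.pi_pos; linarith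
    · have := P.rle i; have := P.rle j; have := Real.pi_gt_three; linarith

theorem separate {n : ℕ} (P : Pack n) {k l i : Fin n} (hc : P.Ct k l) (hk : i ≠ k) (hl : i ≠ l) :
    ∃ W : V3, W ⬝ᵥ P.p k ≤ 0 ∧ W ⬝ᵥ P.p l ≤ 0 ∧ 0 < W ⬝ᵥ P.p i := by
  set c : ℝ := P.p k ⬝ᵥ P.p l with hcdef
  have hr1 : 0 < P.r k + P.r l := add_pos (P.rpos k) (P.rpos l)
  have hr2 : P.r k + P.r l ≤ 1 / 5 := by linarith [P.rle k, P.rle l]
  have hc2 : c = Real.cos (P.r k + P.r l) := hc.2
  have hcpos : 0 < c := by
    rw [hc2]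
    apply Real.cos_pos_of_mem_Ioo
    constructor
    · have := Real.pi_pos; linarith
    · have := Real.pi_gt_three; linarith
  have hclt : c < 1 := by
    rw [hc2, ← Real.cos_zero]
    apply Real.cos_lt_cos_of_nonneg_of_le_pi le_rfl _ hr1
    have := Real.pi_gt_three; linarith
  have hc1 : 0 < 1 - c ^ 2 := by nlinarith
  have hkk := P.unit k
  have hll := P.unit l
  have hii := P.unit i
  rcases lt_trichotomy (dd (P.p k) (P.p l) (P.p i)) 0 with hd | hd | hd
  · refine ⟨-cr (P.p k) (P.p l), ?_, ?_, ?_⟩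
    · apply le_of_eq
      simp only [cr, dotProduct, Fin.sum_univ_three, Pi.neg_apply, Matrix.cons_val_zero, Matrix.cons_val_one, Matrix.cons_val]
      ring
    · apply le_of_eq
      simp only [cr, dotProduct, Fin.sum_univ_three, Pi.neg_apply, Matrix.cons_val_zero, Matrix.cons_val_one, Matrix.cons_val]
      ring
    · simp only [dd, cr, dotProduct, Fin.sum_univ_three, Pi.neg_apply, Matrix.cons_val_zero, Matrix.cons_val_one, Matrix.cons_val] at hd ⊢
      nlinarith
  · set s : ℝ := P.p i ⬝ᵥ P.p k with hs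
    set t : ℝ := P.p i ⬝ᵥ P.p l with ht
    set α : ℝ := (s - c * t) / (1 - c ^ 2) with hα
    set β : ℝ := (t - c * s) / (1 - c ^ 2) with hβ
    have hα' : α * (1 - c ^ 2) = s - c * t := by rw [hα]; field_simp
    have hβ' : β * (1 - c ^ 2) = t - c * s := by rw [hβ]; field_simp
    have hcomb : P.p i = α • P.p k + β • P.p l := by
      -- the difference is orthogonal to p_k, p_l and their cross product
      have e1 : (P.p i - (α • P.p k + β • P.p l)) ⬝ᵥ P.p k = 0 := by
        rw [sub_dotProduct, add_dotProduct, smul_dotProduct, smul_dotProduct, hkk,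
          dotProduct_comm (P.p l), ← hcdef, ← hs]
        simp only [smul_eq_mul]
        have : (s - (α * 1 + β * c)) * (1 - c^2) = 0 := by
          linear_combination -hα' - c * hβ'
        rcases mul_eq_zero.mp this with h | h
        · exact h
        · exact absurd h hc1.ne'
      have e2 : (P.p i - (α • P.p k + β • P.p l)) ⬝ᵥ P.p l = 0 := by
        rw [sub_dotProduct, add_dotProduct, smul_dotProduct, smul_dotProduct, hll, ← hcdef, ← ht]
        simp only [smul_eq_mul]
        have : (t - (α * c + β * 1)) * (1 - c^2) = 0 := by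
          linear_combination -hβ' - c * hα'
        rcases mul_eq_zero.mp this with h | h
        · exact h
        · exact absurd h hc1.ne'
      have e3 : (P.p i - (α • P.p k + β • P.p l)) ⬝ᵥ cr (P.p k) (P.p l) = 0 := by
        have h1 : (P.p i - (α • P.p k + β • P.p l)) ⬝ᵥ cr (P.p k) (P.p l) =
          dd (P.p k) (P.p l) (P.p i) := by
          simp only [dd, cr, dotProduct, Fin.sum_univ_three, Pi.sub_apply, Pi.add_apply,
            Pi.smul_apply, smul_eq_mul, Matrix.cons_val_zero, Matrix.cons_val_one, Matrix.cons_val]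
          ring
        rw [h1, hd]
      set D : V3 := P.p i - (α • P.p k + β • P.p l) with hD
      -- Gram identity
      have hcc : cr (P.p k) (P.p l) ⬝ᵥ cr (P.p k) (P.p l) = 1 - c ^ 2 := by
        have : cr (P.p k) (P.p l) ⬝ᵥ cr (P.p k) (P.p l) =
          (P.p k ⬝ᵥ P.p k) * (P.p l ⬝ᵥ P.p l) - (P.p k ⬝ᵥ P.p l) ^ 2 := by
          simp only [cr, dotProduct, Fin.sum_univ_three, Matrix.cons_val_zero, Matrix.cons_val_one, Matrix.cons_val]
          ring
        rw [this, hkk, hll, ← hcdef]; ring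
      have key : (D ⬝ᵥ D) * (1 - c ^ 2) ^ 2 = 0 := by
        have : (D ⬝ᵥ D) * ((P.p k ⬝ᵥ P.p k) * (P.p l ⬝ᵥ P.p l) - (P.p k ⬝ᵥ P.p l) ^ 2) =
          (D ⬝ᵥ cr (P.p k) (P.p l)) ^ 2 + (D ⬝ᵥ P.p k) ^ 2 * (P.p l ⬝ᵥ P.p l)
            - 2 * (D ⬝ᵥ P.p k) * (D ⬝ᵥ P.p l) * (P.p k ⬝ᵥ P.p l)
            + (D ⬝ᵥ P.p l) ^ 2 * (P.p k ⬝ᵥ P.p k) := by
          simp only [cr, dotProduct, Fin.sum_univ_three, Matrix.cons_val_zero, Matrix.cons_val_one, Matrix.cons_val]
          ring
        rw [e1, e2, e3, hkk, hll, ← hcdef] at this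
        have h2 : (D ⬝ᵥ D) * (1 - c ^ 2) = 0 := by linarith
        rw [pow_two, ← mul_assoc, h2, zero_mul]
      have hDD : D ⬝ᵥ D = 0 := by
        rcases mul_eq_zero.mp key with h | h
        · exact h
        · exact absurd h (pow_pos hc1 2).ne'
      have hD0 : D = 0 := dotProduct_self_eq_zero.mp hDD
      exact sub_eq_zero.mp hD0
    have hnot : ¬ (0 ≤ α ∧ 0 ≤ β) := fun h => nc1 P hc hk hl h.1 h.2 hcomb
    rcases lt_or_ge α 0 with ha | ha
    · refine ⟨c • P.p l - P.p k, ?_, ?_, ?_⟩
      · rw [sub_dotProduct, smul_dotProduct, hkk, dotProduct_comm (P.p l), ← hcdef, smul_eq_mul]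
        nlinarith
      · rw [sub_dotProduct, smul_dotProduct, hll, ← hcdef, smul_eq_mul]
        linarith
      · rw [sub_dotProduct, smul_dotProduct, dotProduct_comm (P.p l), dotProduct_comm (P.p k),
          ← hs, ← ht, smul_eq_mul]
        nlinarith
    · have hb : β < 0 := by
        by_contra hb
        exact hnot ⟨ha, not_lt.mp hb⟩
      refine ⟨c • P.p k - P.p l, ?_, ?_, ?_⟩
      · rw [sub_dotProduct, smul_dotProduct, hkk, dotProduct_comm (P.p l), ← hcdef, smul_eq_mul]
        linarith
      · rw [sub_dotProduct, smul_dotProduct, hll, ← hcdef, smul_eq_mul]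
        nlinarith
      · rw [sub_dotProduct, smul_dotProduct, dotProduct_comm (P.p l), dotProduct_comm (P.p k),
          ← hs, ← ht, smul_eq_mul]
        nlinarith
  · refine ⟨cr (P.p k) (P.p l), ?_, ?_, ?_⟩
    · apply le_of_eq
      simp only [cr, dotProduct, Fin.sum_univ_three, Matrix.cons_val_zero, Matrix.cons_val_one, Matrix.cons_val]
      ring
    · apply le_of_eq
      simp only [cr, dotProduct, Fin.sum_univ_three, Matrix.cons_val_zero, Matrix.cons_val_one, Matrix.cons_val]
      ring
    · simp only [dd, cr, dotProduct, Fin.sum_univ_three, Matrix.cons_val_zero, Matrix.cons_val_one, Matrix.cons_val] at hd ⊢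
      nlinarith

end SphJam
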