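import Pool.Agent.SphJam.BridgeB
import Pool.Agent.SphJam.Bump
import Pool.Agent.SphJam.Reach
import Pool.Agent.SphJam.Peel
import Pool.Agent.SphJam.Region
import Pool.Agent.SphJam.Axis

set_option autoImplicit false
open Matrix Finset

namespace SphJam

section

variable {I : Type}

end


section

variable {I : Type} [Fintype I] {a b T : I → ℝ} {M m : I → I → ℝ}

end

section

variable {n : ℕ} {P : Pack n} {ω : Fin n → Fin n → ℝ}

end

section

variable {n : ℕ} {P : Pack n} {ω : Fin n → Fin n → ℝ}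

end

section

variable {n : ℕ} {P : Pack n} {R : Matrix (Fin 3) (Fin 3) ℝ}
  {hR : R ∈ Matrix.orthogonalGroup (Fin 3) ℝ}

end


theorem caseI_rot {n : ℕ} {P : Pack n} (hall : ∀ i, ∃ j, P.Ct i j) (hm : ¬ HasMotion P)
    {ω : Fin n → Fin n → ℝ} (hN : Net P ω) (hnc : NonCop P ω) (hg : GenAll P)
    {w : Fin n → V3} (hw : IsFlex P w) (hw0 : ∀ i, AN ω i → w i = 0) (i0 : Fin n)
    (hi0 : w i0 ≠ 0)
    (hsep : ∀ k l, ω k l ≠ 0 → ∃ W : V3, W ⬝ᵥ P.p k ≤ 0 ∧ W ⬝ᵥ P.p l ≤ 0 ∧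
      0 < W ⬝ᵥ P.p i0 ∧ 0 < W ⬝ᵥ ![0, 0, -1]) : False := by
  have hst := hN.st
  have hgn : GenNet P ω := hg.net ω
  have hCN := bridge_CN hst hgn
  obtain ⟨a0, ha0⟩ := hN.ne
  obtain ⟨b0, hb0⟩ := hCN.exists_bot ((act_cm hst hgn a0).2 ha0)
  obtain ⟨K, c, φ, hc, -⟩ := hCN.exists_cycle hb0
  have hfc := first_corners hCN (bridge_frc hst hgn) (bridge_conn hN hgn) (bridge_noncop hst hgn hnc)
    (fun _ => 0) (fun _ => 0) (by intro i j _; simp) hc
  have hL := hfc.1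
  set τ : ℕ → ℝ := fun k => cT P (c k) with hτ
  have hτper : ∀ l, τ (l + K) = τ l := by
    intro l
    simp only [hτ, hc.per l]
  have hcact : ∀ l, ω (c l) (c (l + 1)) ≠ 0 := fun l => (cm_ne_zero.1 (hc.arc l)).1
  have hY : Below φ τ ![0, 0, -1] := by
    intro l
    have h1 : dd (XX φ τ l) (XX φ τ (l + 1)) ![0, 0, -1] = -Real.sin (φ (l + 1) - φ l) := by
      rw [Real.sin_sub]
      simp [dd, cr, XX, dotProduct, Fin.sum_univ_three]
      ring
    rw [h1]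
    have := Real.sin_pos_of_pos_of_lt_pi (hc.ring.gap0 l) (hc.ring.gap1 l)
    linarith
  have hB : Below φ τ (P.p i0) := by
    by_contra hZ
    obtain ⟨t, ht0, ht1, l, α, β, hα, hβ, heq⟩ := below_exit hc.ring τ hτper hL ![0, 0, -1] (P.p i0) hY hZ (by
      rintro t ht0 ht1 ⟨h1, h2⟩
      have h3 := hg.1 i0
      simp only [Matrix.cons_val_zero, Matrix.cons_val_one, mul_zero, zero_add] at h1 h2
      have h4 : P.p i0 0 = 0 := by
        rcases mul_eq_zero.1 h1 with h | h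
        · linarith
        · exact h
      have h5 : P.p i0 1 = 0 := by
        rcases mul_eq_zero.1 h2 with h | h
        · linarith
        · exact h
      rw [h4, h5] at h3
      norm_num at h3)
    obtain ⟨W, hW1, hW2, hW3, hW4⟩ := hsep (c l) (c (l + 1)) (hcact l)
    have e := congrArg (fun v => W ⬝ᵥ v) heq
    simp only [dotProduct_add, dotProduct_smul, smul_eq_mul] at e
    obtain ⟨r1, x1⟩ := cycle_XX hst hgn hc l
    obtain ⟨r2, x2⟩ := cycle_XX hst hgn hc (l + 1)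
    rw [x1, dotProduct_smul, smul_eq_mul] at hW1
    rw [x2, dotProduct_smul, smul_eq_mul] at hW2
    have y1 : W ⬝ᵥ XX φ τ l ≤ 0 := by
      by_contra hcon
      push Not at hcon
      exact absurd hW1 (not_le.2 (mul_pos r1 hcon))
    have y2 : W ⬝ᵥ XX φ τ (l + 1) ≤ 0 := by
      by_contra hcon
      push Not at hcon
      exact absurd hW2 (not_le.2 (mul_pos r2 hcon))
    have z1 : α * (W ⬝ᵥ XX φ τ l) ≤ 0 := mul_nonpos_of_nonneg_of_nonpos hα y1
    have z2 : β * (W ⬝ᵥ XX φ τ (l + 1)) ≤ 0 := mul_nonpos_of_nonneg_of_nonpos hβ y2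
    have z3 : 0 ≤ (1 - t) * (W ⬝ᵥ ![0, 0, -1]) := mul_nonneg (by linarith) hW4.le
    have z4 : 0 < t * (W ⬝ᵥ P.p i0) := mul_pos ht0 hW3
    linarith
  refine hi0 (reg_pinned hall hm hst hg hc hL hw ?_ i0 hB)
  intro i l hi hct
  have hz : w (c l) = 0 := hw0 (c l) ⟨c (l + 1), hcact l⟩
  have := hw.2 i (c l) hct
  rw [hz, dotProduct_zero, zero_add] at this
  exact this

/-- Case I: a flex vanishing on the network but not everywhere -/
theorem caseI {n : ℕ} {P : Pack n} (hall : ∀ i, ∃ j, P.Ct i j) (hm : ¬ HasMotion P)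
    {ω : Fin n → Fin n → ℝ} (hN : Net P ω) (hnc : NonCop P ω)
    {w : Fin n → V3} (hw : IsFlex P w) (hw0 : ∀ i, AN ω i → w i = 0) (i0 : Fin n)
    (hi0 : w i0 ≠ 0) : False := by
  have hsepk : ∀ k l, ω k l ≠ 0 → ∃ W : V3, W ⬝ᵥ P.p k ≤ 0 ∧ W ⬝ᵥ P.p l ≤ 0 ∧ 0 < W ⬝ᵥ P.p i0 := by
    intro k l hkl
    apply separate P (hN.st.supp k l hkl)
    · rintro rfl
      exact hi0 (hw0 _ ⟨l, hkl⟩)
    · rintro rfl
      exact hi0 (hw0 _ ⟨k, by rw [hN.st.symm]; exact hkl⟩)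
  choose! W hW using hsepk
  set U : Set V3 := ⋂ k, ⋂ l, {s : V3 | ω k l ≠ 0 → 0 < W k l ⬝ᵥ s} with hU
  have hUo : IsOpen U := by
    refine isOpen_iInter_of_finite (fun k => isOpen_iInter_of_finite (fun l => ?_))
    by_cases hkl : ω k l = 0
    · have : {s : V3 | ω k l ≠ 0 → 0 < W k l ⬝ᵥ s} = Set.univ := by
        ext s; simp [hkl]
      rw [this]; exact isOpen_univ
    · have : {s : V3 | ω k l ≠ 0 → 0 < W k l ⬝ᵥ s} = {s : V3 | 0 < W k l ⬝ᵥ s} := by
        ext s; simp [hkl]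
      rw [this]
      refine isOpen_lt continuous_const ?_
      unfold dotProduct
      fun_prop
  have hUne : U.Nonempty := ⟨P.p i0, by
    simp only [hU, Set.mem_iInter]
    intro k l hkl
    exact (hW k l hkl).2.2⟩
  obtain ⟨s, hs, c, hc, R, hR, hdet, hRs, hgen⟩ := axis_rot P U hUo hUne
  have hs' : ∀ k l, ω k l ≠ 0 → 0 < W k l ⬝ᵥ s := by
    intro k l hkl
    simp only [hU, Set.mem_iInter] at hs
    exact hs k l hkl
  refine caseI_rot (P := P.rot R hR) (ω := ω) (w := fun i => R *ᵥ w i) ?_ (fun h => hm (rot_motion h)) (rot_net hN)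
    (rot_noncop hnc) hgen (rot_flex hw) ?_ i0 ?_ ?_
  · intro i
    obtain ⟨j, hj⟩ := hall i
    exact ⟨j, rot_Ct.2 hj⟩
  · intro i hi
    simp only [hw0 i hi, Matrix.mulVec_zero]
  · intro h0
    have h1 := dot_rot R hR (w i0) (w i0)
    rw [h0, dotProduct_zero] at h1
    exact hi0 (dotProduct_self_eq_zero.1 h1.symm)
  · intro k l hkl
    refine ⟨R *ᵥ W k l, ?_, ?_, ?_, ?_⟩
    · rw [show (P.rot R hR).p k = R *ᵥ P.p k from rfl, dot_rot R hR]
      exact (hW k l hkl).1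
    · rw [show (P.rot R hR).p l = R *ᵥ P.p l from rfl, dot_rot R hR]
      exact (hW k l hkl).2.1
    · rw [show (P.rot R hR).p i0 = R *ᵥ P.p i0 from rfl, dot_rot R hR]
      exact (hW k l hkl).2.2
    · have h1 : (R *ᵥ W k l) ⬝ᵥ (R *ᵥ s) = W k l ⬝ᵥ s := dot_rot R hR _ _
      have h2 : (![0, 0, -c] : V3) = c • ![0, 0, -1] := by
        ext i; fin_cases i <;> simp
      rw [hRs, h2, dotProduct_smul, smul_eq_mul] at h1
      have h3 := hs' k l hkl
      rw [← h1] at h3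
      exact (mul_pos_iff_of_pos_left hc).1 h3

end SphJam
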