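import Pool.Agent.SphJam.Pinned
import Pool.Agent.SphJam.Bump
import Pool.Agent.SphJam.Reach

set_option autoImplicit false
open Matrix Finset

namespace SphJam

section

variable {I : Type}

end



theorem aux5605_cpos {n : ℕ} (P : Pack n) {i j : Fin n} (hc : P.Ct i j) :
    0 < P.p i ⬝ᵥ P.p j := by
  rw [hc.2]
  apply Real.cos_pos_of_mem_Ioo
  have h1 := P.rpos i
  have h2 := P.rpos j
  have h3 := P.rle i
  have h4 := P.rle j
  have h5 := Real.pi_gt_three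
  constructor <;> linarith

theorem aux5605_symm {n : ℕ} (P : Pack n) {i j : Fin n} (hc : P.Ct i j) : P.Ct j i :=
  ⟨hc.1.symm, by rw [dotProduct_comm, hc.2, add_comm]⟩

theorem aux5605_act {n : ℕ} {P : Pack n}
    {ω : Fin n → Fin n → ℝ} (hst : IsStress P Set.univ ω) (e : V3)
    (hcov : ∀ x : V3, e ⬝ᵥ x = 0 → x ≠ 0 →
      ∃ i j, ω i j ≠ 0 ∧ ∃ α β : ℝ, 0 ≤ α ∧ 0 ≤ β ∧ x = α • P.p i + β • P.p j)
    (j : Fin n) (hj : e ⬝ᵥ P.p j = 0) : AN ω j := by
  have hne : P.p j ≠ 0 := by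
    intro h
    have := P.unit j
    rw [h] at this
    simp at this
  obtain ⟨i, k, hik, α, β, hα, hβ, hx⟩ := hcov (P.p j) hj hne
  by_cases h1 : j = i
  · subst h1
    exact ⟨k, hik⟩
  by_cases h2 : j = k
  · subst h2
    exact ⟨i, by rw [hst.symm]; exact hik⟩
  exact absurd hx (nc1 P (hst.supp i k hik) h1 h2 hα hβ)

theorem aux5605_step1 {n : ℕ} {P : Pack n}
    {ω : Fin n → Fin n → ℝ} (hst : IsStress P Set.univ ω) (e : V3)
    (hcov : ∀ x : V3, e ⬝ᵥ x = 0 → x ≠ 0 →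
      ∃ i j, ω i j ≠ 0 ∧ ∃ α β : ℝ, 0 ≤ α ∧ 0 ≤ β ∧ x = α • P.p i + β • P.p j)
    (hperp : ∀ i, AN ω i → e ⬝ᵥ P.p i = 0) (i j : Fin n) (hc : P.Ct i j)
    (hi : 0 < e ⬝ᵥ P.p i) : 0 ≤ e ⬝ᵥ P.p j := by
  by_contra hneg
  rw [not_le] at hneg
  have hpos := aux5605_cpos P hc
  have hx0 : e ⬝ᵥ ((-(e ⬝ᵥ P.p j)) • P.p i + (e ⬝ᵥ P.p i) • P.p j) = 0 := by
    rw [dotProduct_add, dotProduct_smul, dotProduct_smul, smul_eq_mul, smul_eq_mul]
    ring
  have hx1 : (-(e ⬝ᵥ P.p j)) • P.p i + (e ⬝ᵥ P.p i) • P.p j ≠ 0 := by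
    intro h
    have h2 : P.p i ⬝ᵥ ((-(e ⬝ᵥ P.p j)) • P.p i + (e ⬝ᵥ P.p i) • P.p j) = 0 := by
      rw [h, dotProduct_zero]
    rw [dotProduct_add, dotProduct_smul, dotProduct_smul, smul_eq_mul, smul_eq_mul,
      P.unit i] at h2
    have h3 := mul_pos hi hpos
    linarith
  obtain ⟨k, l, hkl, α, β, hα, hβ, hx⟩ := hcov _ hx0 hx1
  have hk : e ⬝ᵥ P.p k = 0 := hperp k ⟨l, hkl⟩
  have hl : e ⬝ᵥ P.p l = 0 := hperp l ⟨k, by rw [hst.symm]; exact hkl⟩
  have hik : i ≠ k := by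
    rintro rfl
    linarith
  have hil : i ≠ l := by
    rintro rfl
    linarith
  have hjk : j ≠ k := by
    rintro rfl
    linarith
  have hjl : j ≠ l := by
    rintro rfl
    linarith
  have := no_cross P hc (hst.supp k l hkl) hik hil hjk hjl
    (by linarith : 0 ≤ -(e ⬝ᵥ P.p j)) hi.le hα hβ hx
  linarith [this.1]

theorem aux5605_side {n : ℕ} {P : Pack n} (hall : ∀ i, ∃ j, P.Ct i j) (hm : ¬ HasMotion P)
    (e : V3)
    (h1 : ∀ i j, P.Ct i j → 0 < e ⬝ᵥ P.p i → 0 ≤ e ⬝ᵥ P.p j)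
    {w : Fin n → V3} (hw : IsFlex P w)
    (h0 : ∀ i j, P.Ct i j → 0 < e ⬝ᵥ P.p i → e ⬝ᵥ P.p j = 0 → 0 ≤ P.p i ⬝ᵥ w j) :
    ∀ i, 0 < e ⬝ᵥ P.p i → w i = 0 := by
  classical
  by_contra hcon
  push Not at hcon
  obtain ⟨i0, hi0, hwi0⟩ := hcon
  apply hm
  refine pinned P hall {i | 0 < e ⬝ᵥ P.p i} e (fun i => if 0 < e ⬝ᵥ P.p i then w i else 0)
    ⟨?_, ?_⟩ ?_ ⟨i0, ?_⟩ (fun i hi => hi) (fun i hi j hc => h1 i j hc hi)
  · intro i
    by_cases hi : 0 < e ⬝ᵥ P.p i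
    · simp only [hi, if_true]
      exact hw.1 i
    · simp only [hi, if_false]
      exact dotProduct_zero _
  · intro i j hc
    have hflex := hw.2 i j hc
    by_cases hi : 0 < e ⬝ᵥ P.p i
    · by_cases hj : 0 < e ⬝ᵥ P.p j
      · simp only [hi, hj, if_true]
        exact hflex
      · simp only [hi, hj, if_true, if_false]
        have hj0 : e ⬝ᵥ P.p j = 0 := le_antisymm (not_lt.mp hj) (h1 i j hc hi)
        have := h0 i j hc hi hj0
        rw [dotProduct_zero]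
        linarith
    · by_cases hj : 0 < e ⬝ᵥ P.p j
      · simp only [hi, hj, if_true, if_false]
        have hi0 : e ⬝ᵥ P.p i = 0 :=
          le_antisymm (not_lt.mp hi) (h1 j i (aux5605_symm P hc) hj)
        have := h0 j i (aux5605_symm P hc) hj hi0
        rw [dotProduct_zero]
        linarith
      · simp only [hi, hj, if_false]
        rw [dotProduct_zero, dotProduct_zero]
        norm_num
  · intro i hi
    by_contra hcon
    apply hi
    have : ¬ 0 < e ⬝ᵥ P.p i := hcon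
    simp only [this, if_false]
  · simp only [hi0, if_true]
    exact hwi0

/-- end of the coplanar case -/
theorem coplanar_final {n : ℕ} {P : Pack n} (hall : ∀ i, ∃ j, P.Ct i j) (hm : ¬ HasMotion P)
    {ω : Fin n → Fin n → ℝ} (hst : IsStress P Set.univ ω) (e : V3) (he : e ≠ 0)
    (hcov : ∀ x : V3, e ⬝ᵥ x = 0 → x ≠ 0 →
      ∃ i j, ω i j ≠ 0 ∧ ∃ α β : ℝ, 0 ≤ α ∧ 0 ≤ β ∧ x = α • P.p i + β • P.p j)
    (hperp : ∀ i, AN ω i → e ⬝ᵥ P.p i = 0) {w : Fin n → V3} (hw : IsFlex P w)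
    (X : Fin n → ℝ) (hX : ∀ i, AN ω i → 0 ≤ X i ∧ w i = X i • e) : ∀ i, w i = 0 := by
  have hpos : ∀ i, 0 < e ⬝ᵥ P.p i → w i = 0 := by
    refine aux5605_side hall hm e (aux5605_step1 hst e hcov hperp) hw ?_
    intro i j hc hi hj
    obtain ⟨hXj, hwj⟩ := hX j (aux5605_act hst e hcov j hj)
    rw [hwj, dotProduct_smul, smul_eq_mul, dotProduct_comm]
    exact mul_nonneg hXj hi.le
  have hzero : ∀ k, e ⬝ᵥ P.p k = 0 → w k = 0 := by
    intro k hk
    obtain ⟨hXk, hwk⟩ := hX k (aux5605_act hst e hcov k hk)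
    rcases hXk.lt_or_eq with h | h
    · obtain ⟨i, hki, hi⟩ := no_bump P hm hall k e he hk
      have hwi := hpos i hi
      have hflex := hw.2 k i hki
      rw [hwi, hwk, dotProduct_zero, dotProduct_smul, smul_eq_mul, dotProduct_comm] at hflex
      have := mul_pos h hi
      linarith
    · rw [hwk, ← h, zero_smul]
  have hneg : ∀ i, 0 < (-e) ⬝ᵥ P.p i → w i = 0 := by
    refine aux5605_side hall hm (-e) (aux5605_step1 hst (-e) ?_ ?_) hw ?_
    · intro x hx hx0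
      rw [neg_dotProduct, neg_eq_zero] at hx
      exact hcov x hx hx0
    · intro i hi
      rw [neg_dotProduct, hperp i hi, neg_zero]
    · intro i j hc hi hj
      rw [neg_dotProduct, neg_eq_zero] at hj
      rw [hzero j hj, dotProduct_zero]
  intro i
  rcases lt_trichotomy (e ⬝ᵥ P.p i) 0 with h | h | h
  · exact hneg i (by rw [neg_dotProduct]; linarith)
  · exact hzero i h
  · exact hpos i h

end SphJam
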