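import Pool.Agent.SphJam.Defs

set_option autoImplicit false
open Finset

namespace SphJam

variable {I : Type}

variable [Fintype I] {a b T : I → ℝ} {m : I → I → ℝ}

theorem CN.act_target (h : CN a b T m) {i j : I} (hij : m i j ≠ 0) : Act m j := by
  by_contra hc
  unfold Act at hc
  push Not at hc
  have h1 : ∑ l, m j l = 0 := Finset.sum_eq_zero (fun l _ => hc l)
  have h2 : ∑ l, m l j = 0 := by rw [← h.cons j, h1]
  have h3 := (Finset.sum_eq_zero_iff_of_nonneg (fun l _ => h.nonneg l j)).mp h2 i (Finset.mem_univ i)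
  exact hij h3

theorem CN.exists_west (h : CN a b T m) {i : I} (hi : Act m i) : ∃ k, m k i ≠ 0 := by
  by_contra hc
  push Not at hc
  have h1 : ∑ l, m l i = 0 := Finset.sum_eq_zero (fun l _ => hc l)
  have h2 : ∑ l, m i l = 0 := by rw [h.cons i, h1]
  obtain ⟨j, hj⟩ := hi
  have h3 := (Finset.sum_eq_zero_iff_of_nonneg (fun l _ => h.nonneg i l)).mp h2 j (Finset.mem_univ j)
  exact hj h3

omit [Fintype I] in
theorem ne_of_D2_pos {i k : I} (k1 : 0 < D2 a b i k) : i ≠ k := by
  rintro rfl
  unfold D2 at k1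
  nlinarith

theorem CN.cross_in (h : CN a b T m) {i j k l : I} (hij : m i j ≠ 0) (hkl : m k l ≠ 0)
    (k1 : 0 < D2 a b i k) (k2 : 0 < D2 a b k j) (l1 : 0 < D2 a b i l) (l2 : 0 < D2 a b l j) :
    D3 a b T i j k < 0 ↔ D3 a b T i j l < 0 := by
  have hk : Act m k := ⟨l, hkl⟩
  have hl : Act m l := h.act_target hkl
  have p0 : D3 a b T i j k ≠ 0 := h.nc1 i j k hij hk k1 k2
  have q0 : D3 a b T i j l ≠ 0 := h.nc1 i j l hij hl l1 l2
  have eij := h.east i j hij
  have nik := ne_of_D2_pos k1
  have nil := ne_of_D2_pos l1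
  have njk := (ne_of_D2_pos k2).symm
  have njl := (ne_of_D2_pos l2).symm
  constructor
  · intro hp
    by_contra hq
    have hq' : 0 < D3 a b T i j l := lt_of_le_of_ne (not_lt.mp hq) (Ne.symm q0)
    apply h.nc2 i j k l hij hkl nik nil njk njl
      (D3 a b T i j l * D2 a b k j - D3 a b T i j k * D2 a b l j)
      (D3 a b T i j l * D2 a b i k - D3 a b T i j k * D2 a b i l)
      (D3 a b T i j l * D2 a b i j) (- D3 a b T i j k * D2 a b i j)
    · have := mul_pos hq' k2
      have := mul_neg_of_neg_of_pos hp l2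
      linarith
    · have := mul_pos hq' k1
      have := mul_neg_of_neg_of_pos hp l1
      linarith
    · exact mul_pos hq' eij
    · exact mul_pos (neg_pos.mpr hp) eij
    · refine ⟨?_, ?_, ?_⟩ <;> unfold D3 D2 <;> ring
  · intro hq
    by_contra hp
    have hp' : 0 < D3 a b T i j k := lt_of_le_of_ne (not_lt.mp hp) (Ne.symm p0)
    apply h.nc2 i j k l hij hkl nik nil njk njl
      (- D3 a b T i j l * D2 a b k j + D3 a b T i j k * D2 a b l j)
      (- D3 a b T i j l * D2 a b i k + D3 a b T i j k * D2 a b i l)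
      (- D3 a b T i j l * D2 a b i j) (D3 a b T i j k * D2 a b i j)
    · have := mul_pos hp' l2
      have := mul_neg_of_neg_of_pos hq k2
      linarith
    · have := mul_pos hp' l1
      have := mul_neg_of_neg_of_pos hq k1
      linarith
    · exact mul_pos (neg_pos.mpr hq) eij
    · exact mul_pos hp' eij
    · refine ⟨?_, ?_, ?_⟩ <;> unfold D3 D2 <;> ring

theorem CN.cross_out (h : CN a b T m) {i j k l : I} (hij : m i j ≠ 0) (hkl : m k l ≠ 0)
    (k1 : 0 < D2 a b i k) (k2 : 0 < D2 a b k j) (l2 : 0 < D2 a b j l) :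
    D3 a b T i j k < 0 ↔ 0 < D3 a b T k l j := by
  have hk : Act m k := ⟨l, hkl⟩
  have hj : Act m j := h.act_target hij
  have p0 : D3 a b T i j k ≠ 0 := h.nc1 i j k hij hk k1 k2
  have q0 : D3 a b T k l j ≠ 0 := h.nc1 k l j hkl hj k2 l2
  have eij := h.east i j hij
  have ekl := h.east k l hkl
  have nik := ne_of_D2_pos k1
  have njk := (ne_of_D2_pos k2).symm
  have njl := ne_of_D2_pos l2
  have nil : i ≠ l := by
    rintro rfl
    have : D2 a b i j = - D2 a b j i := by unfold D2; ring
    linarith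
  constructor
  · intro hp
    by_contra hq
    have hq' : D3 a b T k l j < 0 := lt_of_le_of_ne (not_lt.mp hq) q0
    apply h.nc2 i j k l hij hkl nik nil njk njl
      (- D3 a b T k l j * D2 a b k j)
      (- D3 a b T i j k * D2 a b k l - D3 a b T k l j * D2 a b i k)
      (- D3 a b T k l j * D2 a b i j - D3 a b T i j k * D2 a b j l)
      (- D3 a b T i j k * D2 a b k j)
    · exact mul_pos (neg_pos.mpr hq') k2
    · have := mul_neg_of_neg_of_pos hp ekl
      have := mul_neg_of_neg_of_pos hq' k1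
      linarith
    · have := mul_neg_of_neg_of_pos hq' eij
      have := mul_neg_of_neg_of_pos hp l2
      linarith
    · exact mul_pos (neg_pos.mpr hp) k2
    · refine ⟨?_, ?_, ?_⟩ <;> unfold D3 D2 <;> ring
  · intro hq
    by_contra hp
    have hp' : 0 < D3 a b T i j k := lt_of_le_of_ne (not_lt.mp hp) (Ne.symm p0)
    apply h.nc2 i j k l hij hkl nik nil njk njl
      (D3 a b T k l j * D2 a b k j)
      (D3 a b T i j k * D2 a b k l + D3 a b T k l j * D2 a b i k)
      (D3 a b T k l j * D2 a b i j + D3 a b T i j k * D2 a b j l)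
      (D3 a b T i j k * D2 a b k j)
    · exact mul_pos hq k2
    · have := mul_pos hp' ekl
      have := mul_pos hq k1
      linarith
    · have := mul_pos hq eij
      have := mul_pos hp' l2
      linarith
    · exact mul_pos hp' k2
    · refine ⟨?_, ?_, ?_⟩ <;> unfold D3 D2 <;> ring

end SphJam
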