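import Mathlib

set_option autoImplicit false
open Matrix Finset

namespace SphJam

/-- Points and vectors of the ambient space. -/
abbrev V3 := Fin 3 → ℝ

/-- A packing of disks of radii at most `1/10` on the unit sphere. -/
structure Pack (n : ℕ) where
  p : Fin n → V3
  r : Fin n → ℝ
  rpos : ∀ i, 0 < r i
  rle : ∀ i, r i ≤ 1 / 10
  unit : ∀ i, p i ⬝ᵥ p i = 1
  sep : ∀ i j, i ≠ j → p i ⬝ᵥ p j ≤ Real.cos (r i + r j)

/-- `i` and `j` touch. -/
def Pack.Ct {n : ℕ} (P : Pack n) (i j : Fin n) : Prop :=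
  i ≠ j ∧ P.p i ⬝ᵥ P.p j = Real.cos (P.r i + P.r j)

/-- Infinitesimal flexes. -/
def IsFlex {n : ℕ} (P : Pack n) (v : Fin n → V3) : Prop :=
  (∀ i, P.p i ⬝ᵥ v i = 0) ∧ ∀ i j, P.Ct i j → P.p i ⬝ᵥ v j + P.p j ⬝ᵥ v i ≤ 0

/-- The packing can be moved to a non-congruent one. -/
def HasMotion {n : ℕ} (P : Pack n) : Prop :=
  ∃ q : Fin n → V3, ∃ γ : Path P.p q,
    (∀ t, (∀ i, (γ t) i ⬝ᵥ (γ t) i = 1) ∧
      ∀ i j, i ≠ j → (γ t) i ⬝ᵥ (γ t) j ≤ Real.cos (P.r i + P.r j)) ∧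
    ¬ ∃ R ∈ Matrix.orthogonalGroup (Fin 3) ℝ, ∀ i, q i = R *ᵥ P.p i

/-- Nonnegative stresses on contacts touching `W`, in equilibrium at the nodes of `W`. -/
structure IsStress {n : ℕ} (P : Pack n) (W : Set (Fin n)) (ω : Fin n → Fin n → ℝ) : Prop where
  symm : ∀ i j, ω i j = ω j i
  nonneg : ∀ i j, 0 ≤ ω i j
  supp : ∀ i j, ω i j ≠ 0 → P.Ct i j
  touch : ∀ i j, ω i j ≠ 0 → i ∈ W ∨ j ∈ W
  bal : ∀ i ∈ W, ∀ u : V3, u ⬝ᵥ P.p i = 0 → ∑ j, ω i j * (u ⬝ᵥ P.p j) = 0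

/-- The second order form. -/
noncomputable def EE {n : ℕ} (P : Pack n) (ω : Fin n → Fin n → ℝ) (v : Fin n → V3) : ℝ :=
  ∑ i, ∑ j, ω i j * (v i ⬝ᵥ v j - (P.p i ⬝ᵥ P.p j) * (v i ⬝ᵥ v i))

/-- cross product -/
def cr (u v : V3) : V3 := ![u 1 * v 2 - u 2 * v 1, u 2 * v 0 - u 0 * v 2, u 0 * v 1 - u 1 * v 0]

/-- determinant -/
def dd (u v w : V3) : ℝ := u ⬝ᵥ cr v w

/-- The second order form in direction `a`. -/
noncomputable def Ea {n : ℕ} (P : Pack n) (ω : Fin n → Fin n → ℝ) (v : Fin n → V3) (a : V3) : ℝ :=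
  ∑ i, ∑ j, ω i j * ((a ⬝ᵥ v i) * (a ⬝ᵥ v j) - (P.p i ⬝ᵥ P.p j) * (a ⬝ᵥ v i) ^ 2)

/-- active node -/
def AN {n : ℕ} (ω : Fin n → Fin n → ℝ) (i : Fin n) : Prop := ∃ j, ω i j ≠ 0

/-- connected closed stress -/
structure Net {n : ℕ} (P : Pack n) (ω : Fin n → Fin n → ℝ) : Prop where
  st : IsStress P Set.univ ω
  ne : ∃ i, AN ω i
  conn : ∀ S : Fin n → Prop, (∃ i, AN ω i ∧ S i) → (∀ i j, ω i j ≠ 0 → (S i ↔ S j)) →
    ∀ i, AN ω i → S i

/-- all nodes are in general position with respect to the vertical axis -/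
def GenAll {n : ℕ} (P : Pack n) : Prop :=
  (∀ i, 0 < P.p i 0 ^ 2 + P.p i 1 ^ 2) ∧
    ∀ i j, i ≠ j → P.p i 0 * P.p j 1 - P.p i 1 * P.p j 0 = 0 → P.p j = - P.p i

/-- the active nodes are in general position with respect to the vertical axis -/
def GenNet {n : ℕ} (P : Pack n) (ω : Fin n → Fin n → ℝ) : Prop :=
  (∀ i, AN ω i → 0 < P.p i 0 ^ 2 + P.p i 1 ^ 2) ∧
    ∀ i j, AN ω i → AN ω j → i ≠ j → P.p i 0 * P.p j 1 - P.p i 1 * P.p j 0 = 0 → P.p j = - P.p i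

/-- the active nodes are not in a plane through the origin -/
def NonCop {n : ℕ} (P : Pack n) (ω : Fin n → Fin n → ℝ) : Prop :=
  ¬ ∃ b : V3, b ≠ 0 ∧ ∀ i, AN ω i → b ⬝ᵥ P.p i = 0

/-- horizontal radius -/
noncomputable def rho {n : ℕ} (P : Pack n) (i : Fin n) : ℝ := Real.sqrt (P.p i 0 ^ 2 + P.p i 1 ^ 2)

noncomputable def ca {n : ℕ} (P : Pack n) (i : Fin n) : ℝ := P.p i 0 / rho P i

noncomputable def cb {n : ℕ} (P : Pack n) (i : Fin n) : ℝ := P.p i 1 / rho P i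

noncomputable def cT {n : ℕ} (P : Pack n) (i : Fin n) : ℝ := P.p i 2 / rho P i

/-- weights of the arcs on the cylinder -/
noncomputable def cm {n : ℕ} (P : Pack n) (ω : Fin n → Fin n → ℝ) (i j : Fin n) : ℝ :=
  ω i j * max 0 (P.p i 0 * P.p j 1 - P.p i 1 * P.p j 0)

/-- meridional velocity over `rho` -/
noncomputable def cn {n : ℕ} (P : Pack n) (v : Fin n → V3) (i : Fin n) : ℝ := v i 2 / rho P i

/-- angular velocity about the vertical axis -/
noncomputable def cu {n : ℕ} (P : Pack n) (v : Fin n → V3) (i : Fin n) : ℝ :=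
  (P.p i 0 * v i 1 - P.p i 1 * v i 0) / rho P i ^ 2

/-- points of a curve on the cylinder -/
noncomputable def XX (φ τ : ℕ → ℝ) (l : ℕ) : V3 := ![Real.cos (φ l), Real.sin (φ l), τ l]

/-- strictly below all edges of a curve on the cylinder -/
def Below (φ τ : ℕ → ℝ) (Y : V3) : Prop := ∀ l, dd (XX φ τ l) (XX φ τ (l + 1)) Y < 0

section
variable {I : Type}


/-- planar cross product of the horizontal parts -/
def D2 (a b : I → ℝ) (i j : I) : ℝ := a i * b j - b i * a j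

/-- 3D determinant of the points `(a i, b i, T i)` -/
def D3 (a b T : I → ℝ) (i j k : I) : ℝ :=
  T i * D2 a b j k + T j * D2 a b k i + T k * D2 a b i j

/-- node with arcs -/
def Act (m : I → I → ℝ) (i : I) : Prop := ∃ j, m i j ≠ 0

/-- Non-crossing circulation on a cylinder: `m i j` is the weight of the arc going east from `i` to
`j` (angle in `(0,π)`); node `i` is the point `(a i, b i, T i)`. -/
structure CN [Fintype I] (a b T : I → ℝ) (m : I → I → ℝ) : Prop where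
  unit : ∀ i, Act m i → a i ^ 2 + b i ^ 2 = 1
  nonneg : ∀ i j, 0 ≤ m i j
  east : ∀ i j, m i j ≠ 0 → 0 < D2 a b i j
  cons : ∀ i, ∑ j, m i j = ∑ j, m j i
  gen : ∀ i j, Act m i → Act m j → i ≠ j → D2 a b i j ≠ 0 ∨ (a j = -a i ∧ b j = -b i)
  nc1 : ∀ i j k, m i j ≠ 0 → Act m k → 0 < D2 a b i k → 0 < D2 a b k j → D3 a b T i j k ≠ 0
  nc2 : ∀ i j k l, m i j ≠ 0 → m k l ≠ 0 → i ≠ k → i ≠ l → j ≠ k → j ≠ l →
    ∀ α β γ δ : ℝ, 0 < α → 0 < β → 0 < γ → 0 < δ →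
      ¬ (α * a i + β * a j = γ * a k + δ * a l ∧ α * b i + β * b j = γ * b k + δ * b l ∧
          α * T i + β * T j = γ * T k + δ * T l)

/-- bottom node: it has arcs and no arc passes strictly below it (i.e. it is under every arc
covering its direction). -/
def Bot (a b T : I → ℝ) (m : I → I → ℝ) (i : I) : Prop :=
  Act m i ∧ ∀ k l, m k l ≠ 0 → 0 < D2 a b k i → 0 < D2 a b i l → D3 a b T k l i < 0

/-- horizontal dot product -/
def CC (a b : I → ℝ) (i j : I) : ℝ := a i * a j + b i * b j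

/-- slope at `i` of the arc going east from `i` to `j` -/
noncomputable def tE (a b T : I → ℝ) (i j : I) : ℝ := (T j - T i * CC a b i j) / D2 a b i j

/-- slope at `j` (seen going west) of the arc from `i` (west end) to `j` (east end) -/
noncomputable def tW (a b T : I → ℝ) (i j : I) : ℝ := (T i - T j * CC a b i j) / D2 a b i j

/-- upward force at `i` -/
noncomputable def frc [Fintype I] (a b T : I → ℝ) (m : I → I → ℝ) (i : I) : ℝ :=
  ∑ j, m i j * tE a b T i j + ∑ j, m j i * tW a b T j i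

/-- the quadratic form -/
noncomputable def QQ [Fintype I] (a b : I → ℝ) (m : I → I → ℝ) (n : I → ℝ) : ℝ :=
  ∑ i, ∑ j, m i j * ((2 * n i * n j - (n i ^ 2 + n j ^ 2) * CC a b i j) / D2 a b i j)

/-- Invariants of the peeling process: `m` is what remains of `M`. -/
structure PI [Fintype I] (a b T : I → ℝ) (M m : I → I → ℝ) : Prop where
  cn : CN a b T m
  le : ∀ i j, m i j ≤ M i j
  lowE : ∀ i j l, m i j < M i j → m i l ≠ 0 → tE a b T i j ≤ tE a b T i l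
  lowW : ∀ i j l, m j i < M j i → m l i ≠ 0 → tW a b T j i ≤ tW a b T l i
  bot : ∀ i, (∃ j, m i j < M i j ∨ m j i < M j i) →
    ∀ k l, m k l ≠ 0 → 0 < D2 a b k i → 0 < D2 a b i l → D3 a b T k l i < 0

/-- Edge form. -/
noncomputable def Psi (u w δ : ℝ) : ℝ :=
  (2 * u * w - (u ^ 2 + w ^ 2) * Real.cos δ) / Real.sin δ

/-- Side length operator, centred at index `l+1`. -/
noncomputable def LL (x φ : ℕ → ℝ) (l : ℕ) : ℝ :=
  (x (l + 2) - x (l + 1) * Real.cos (φ (l + 2) - φ (l + 1))) / Real.sin (φ (l + 2) - φ (l + 1))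
  + (x l - x (l + 1) * Real.cos (φ (l + 1) - φ l)) / Real.sin (φ (l + 1) - φ l)

/-- A cyclic sequence of directions winding once around the circle. -/
structure RingData (K : ℕ) (φ : ℕ → ℝ) : Prop where
  Kpos : 0 < K
  per : ∀ l, φ (l + K) = φ l + 2 * Real.pi
  gap0 : ∀ l, 0 < φ (l + 1) - φ l
  gap1 : ∀ l, φ (l + 1) - φ l < Real.pi

/-- The ring form. -/
noncomputable def RB (K : ℕ) (φ x : ℕ → ℝ) : ℝ :=
  ∑ l ∈ range K, Psi (x l) (x (l + 1)) (φ (l + 1) - φ l)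

/-- `c` enumerates the bottom cycle of `m`. -/
structure IsCycle [Fintype I] (a b T : I → ℝ) (m : I → I → ℝ) (K : ℕ) (c : ℕ → I)
    (φ : ℕ → ℝ) : Prop where
  ring : RingData K φ
  per : ∀ l, c (l + K) = c l
  cos : ∀ l, a (c l) = Real.cos (φ l)
  sin : ∀ l, b (c l) = Real.sin (φ l)
  arc : ∀ l, m (c l) (c (l + 1)) ≠ 0
  isBot : ∀ l, Bot a b T m (c l)
  surj : ∀ i, Bot a b T m i → ∃ l, l < K ∧ c l = i
  inj : ∀ l l', l < K → l' < K → c l = c l' → l = l'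
  lowE : ∀ l j, m (c l) j ≠ 0 → j = c (l + 1) ∨ 0 < D3 a b T (c l) (c (l + 1)) j
  lowW : ∀ l j, m j (c (l + 1)) ≠ 0 → j = c l ∨ 0 < D3 a b T (c l) (c (l + 1)) j


end

end SphJam
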