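import Pool.Agent.SphJam.Defs

set_option autoImplicit false


namespace SphJam

/-- Strict inhomogeneous theorem of the alternative. -/
theorem farkas_strict {U : Type*} [AddCommGroup U] [Module ℝ U] {K : Type*} [Fintype K]
    (ℓ : K → U →ₗ[ℝ] ℝ) (e : K → ℝ) :
    (∃ a : U, ∀ k, ℓ k a + e k < 0) ∨
    ∃ w : K → ℝ, (∀ k, 0 ≤ w k) ∧ (∃ k, w k ≠ 0) ∧ (∀ a : U, ∑ k, w k * ℓ k a = 0) ∧
      0 ≤ ∑ k, w k * e k := by
  classical
  by_cases hA : ∃ a : U, ∀ k, ℓ k a + e k < 0
  · exact Or.inl hA
  right
  set D : Set (K → ℝ) := {y | ∃ a : U, ∀ k, ℓ k a + e k < y k} with hD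
  have hDmem : ∀ y, y ∈ D ↔ ∃ a : U, ∀ k, ℓ k a + e k < y k := fun y => Iff.rfl
  have hconv : Convex ℝ D := by
    intro y hy z hz s t hs ht hst
    rw [hDmem] at hy hz ⊢
    obtain ⟨a, ha⟩ := hy
    obtain ⟨b, hb⟩ := hz
    refine ⟨s • a + t • b, fun k => ?_⟩
    rw [map_add, map_smul, map_smul, smul_eq_mul, smul_eq_mul]
    simp only [Pi.add_apply, Pi.smul_apply, smul_eq_mul]
    have h1 := ha k
    have h2 := hb k
    have e1 : s * ℓ k a + t * ℓ k b + e k = s * (ℓ k a + e k) + t * (ℓ k b + e k) := by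
      have : e k = (s + t) * e k := by rw [hst, one_mul]
      linear_combination this
    rw [e1]
    rcases eq_or_lt_of_le hs with h | h
    · have ht1 : t = 1 := by linarith
      rw [← h, ht1]
      simpa using h2
    · have := mul_lt_mul_of_pos_left h1 h
      have := mul_le_mul_of_nonneg_left h2.le ht
      linarith
  have hopen : IsOpen D := by
    have : D = ⋃ a : U, ⋂ k : K, {y | ℓ k a + e k < y k} := by
      ext y
      simp only [hDmem, Set.mem_iUnion, Set.mem_iInter]
      rfl
    rw [this]
    refine isOpen_iUnion fun a => isOpen_iInter_of_finite fun k => ?_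
    exact isOpen_lt continuous_const (continuous_apply k)
  have h0 : (0 : K → ℝ) ∉ D := by
    intro h
    exact hA h
  obtain ⟨f, hf⟩ := geometric_hahn_banach_open_point hconv hopen h0
  rw [map_zero] at hf
  set w : K → ℝ := fun k => - f (Pi.single k 1) with hw
  have hfy : ∀ y : K → ℝ, ∑ k, w k * y k = - f y := by
    intro y
    have h1 : y = ∑ k, y k • (Pi.single k (1 : ℝ) : K → ℝ) := by
      ext i
      simp [Finset.sum_apply, Pi.single_apply]
    conv_rhs => rw [h1]
    rw [map_sum, ← Finset.sum_neg_distrib]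
    refine Finset.sum_congr rfl fun k _ => ?_
    rw [map_smul, smul_eq_mul]
    simp only [hw]
    ring
  have hpos : ∀ y ∈ D, 0 < ∑ k, w k * y k := by
    intro y hy
    rw [hfy]
    linarith [hf y hy]
  have hy0 : (fun k => e k + 1) ∈ D := by
    rw [hDmem]
    refine ⟨0, fun k => ?_⟩
    rw [map_zero]
    linarith
  have hpos0 := hpos _ hy0
  have hwn : ∀ k, 0 ≤ w k := by
    intro k
    by_contra hk
    push Not at hk
    set S : ℝ := ∑ k, w k * (e k + 1) with hS
    set t : ℝ := S / (- w k) with ht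
    have ht0 : 0 < t := div_pos hpos0 (by linarith)
    have hy : (fun i => e i + 1) + t • (Pi.single k (1 : ℝ) : K → ℝ) ∈ D := by
      rw [hDmem]
      refine ⟨0, fun i => ?_⟩
      rw [map_zero]
      simp only [Pi.add_apply, Pi.smul_apply, smul_eq_mul]
      have : 0 ≤ t * (Pi.single k (1 : ℝ) : K → ℝ) i := by
        apply mul_nonneg ht0.le
        rw [Pi.single_apply]
        split_ifs <;> norm_num
      linarith
    have h2 := hpos _ hy
    have h3 : ∑ i, w i * ((fun i => e i + 1) + t • (Pi.single k (1 : ℝ) : K → ℝ)) i = S + t * w k := by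
      simp only [Pi.add_apply, Pi.smul_apply, smul_eq_mul, mul_add, Finset.sum_add_distrib]
      have : ∑ i, w i * (t * (Pi.single k (1 : ℝ) : K → ℝ) i) = t * w k := by
        rw [Finset.sum_eq_single k]
        · simp; ring
        · intro i _ hi
          simp [Pi.single_apply, hi]
        · intro h; exact absurd (Finset.mem_univ k) h
      rw [this, hS]
      simp only [mul_add, Finset.sum_add_distrib]
    rw [h3] at h2
    have h4 : t * w k = - S := by
      rw [ht, div_mul_eq_mul_div, div_eq_iff (by linarith)]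
      ring
    rw [h4] at h2
    linarith
  have hW : 0 ≤ ∑ k, w k := Finset.sum_nonneg fun k _ => hwn k
  have hge : ∀ a : U, 0 ≤ (∑ k, w k * ℓ k a) + ∑ k, w k * e k := by
    intro a
    by_contra hneg
    push Not at hneg
    have key : ∀ ε > 0, 0 < (∑ k, w k * ℓ k a) + (∑ k, w k * e k) + ε * ∑ k, w k := by
      intro ε hε
      have hy : (fun k => ℓ k a + e k + ε) ∈ D := by
        rw [hDmem]
        exact ⟨a, fun k => by linarith⟩
      have h1 := hpos _ hy
      have h2 : ∑ k, w k * (ℓ k a + e k + ε) =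
          (∑ k, w k * ℓ k a) + (∑ k, w k * e k) + ε * ∑ k, w k := by
        rw [Finset.mul_sum, ← Finset.sum_add_distrib, ← Finset.sum_add_distrib]
        refine Finset.sum_congr rfl fun k _ => ?_
        ring
      rw [h2] at h1
      exact h1
    rcases eq_or_lt_of_le hW with h | h
    · have := key 1 one_pos
      rw [← h] at this
      linarith
    · have hε : 0 < -((∑ k, w k * ℓ k a) + ∑ k, w k * e k) / ∑ k, w k := div_pos (by linarith) h
      have := key _ hε
      rw [div_mul_cancel₀ _ h.ne'] at this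
      linarith
  refine ⟨w, hwn, ?_, ?_, ?_⟩
  · by_contra hcon
    push Not at hcon
    have : ∑ k, w k * (e k + 1) = 0 := Finset.sum_eq_zero fun k _ => by rw [hcon k, zero_mul]
    linarith
  · intro a
    by_contra hT
    have h1 := hge ((-((∑ k, w k * e k) + 1) / (∑ k, w k * ℓ k a)) • a)
    have h2 : ∑ k, w k * ℓ k ((-((∑ k, w k * e k) + 1) / (∑ k, w k * ℓ k a)) • a) =
        -((∑ k, w k * e k) + 1) := by
      have h3 : ∀ s : ℝ, ∑ k, w k * ℓ k (s • a) = s * ∑ k, w k * ℓ k a := by
        intro s
        rw [Finset.mul_sum]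
        refine Finset.sum_congr rfl fun k _ => ?_
        rw [map_smul, smul_eq_mul]
        ring
      rw [h3, div_mul_cancel₀ _ hT]
    rw [h2] at h1
    linarith
  · have h1 := hge 0
    simpa using h1

end SphJam
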