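import Pool.Agent.SphJam.RingFlat
import Pool.Agent.SphJam.Region

set_option autoImplicit false
open Matrix Finset

namespace SphJam

section

variable {I : Type}

end



theorem hinge_match {φ : ℕ → ℝ} (hg0 : ∀ l, 0 < φ (l + 1) - φ l)
    (hg1 : ∀ l, φ (l + 1) - φ l < Real.pi) (τ : ℕ → ℝ) (q s : ℕ)
    (hL : ∀ l, q ≤ l → l + 1 < s → LL τ φ l = 0) :
    ∃ c1 c2 : ℝ, ∀ l, q ≤ l → l ≤ s → τ l = c1 * Real.cos (φ l) + c2 * Real.sin (φ l) := by
  have hs : 0 < Real.sin (φ (q + 1) - φ q) := Real.sin_pos_of_pos_of_lt_pi (hg0 q) (hg1 q)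
  have hs' := hs
  rw [Real.sin_sub] at hs'
  have hsne := hs'.ne'
  set S := Real.sin (φ (q + 1)) * Real.cos (φ q) - Real.cos (φ (q + 1)) * Real.sin (φ q) with hS
  set c1 : ℝ := (τ q * Real.sin (φ (q + 1)) - τ (q + 1) * Real.sin (φ q)) / S with hc1
  set c2 : ℝ := (τ (q + 1) * Real.cos (φ q) - τ q * Real.cos (φ (q + 1))) / S with hc2
  refine ⟨c1, c2, ?_⟩
  have e0 : τ q + -c1 * Real.cos (φ q) + -c2 * Real.sin (φ q) = 0 := by
    rw [hc1, hc2]
    field_simp
    rw [hS]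
    ring
  have e1 : τ (q + 1) + -c1 * Real.cos (φ (q + 1)) + -c2 * Real.sin (φ (q + 1)) = 0 := by
    rw [hc1, hc2]
    field_simp
    rw [hS]
    ring
  intro l hl1 hl2
  have h := ring_flat hg0 hg1 (fun k => τ k + -c1 * Real.cos (φ k) + -c2 * Real.sin (φ k)) q s
    (fun l h1 h2 => by rw [LL_linear hg0 hg1 τ (-c1) (-c2) l]; exact hL l h1 h2) e0 e1 l hl1 hl2
  linarith

/-- A concave curve with only two opposite corners `0` and `h` consists of two flat halves. -/
theorem hinge_flat {K : ℕ} {φ : ℕ → ℝ} (hR : RingData K φ) (τ : ℕ → ℝ)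
    (hτ : ∀ l, τ (l + K) = τ l) (hL : ∀ l, LL τ φ l ≤ 0) (h : ℕ) (h0 : 0 < h) (hK : h < K)
    (hpi : φ h = φ 0 + Real.pi) (hz : ∀ l, l + 1 < K → l + 1 ≠ h → LL τ φ l = 0)
    (hne : LL τ φ (K - 1) ≠ 0) :
    1 < h ∧ h + 1 < K ∧ ∃ c1 c2 d1 d2 : ℝ,
      (∀ q, q ≤ h → τ q = c1 * Real.cos (φ q) + c2 * Real.sin (φ q)) ∧
      (∀ q, h ≤ q → q ≤ K → τ q = d1 * Real.cos (φ q) + d2 * Real.sin (φ q)) ∧
      (∀ q, 0 < q → q < h → τ q < d1 * Real.cos (φ q) + d2 * Real.sin (φ q)) := by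
  have hmono : StrictMono φ := strictMono_nat_of_lt_succ fun l => by
    have := hR.gap0 l; linarith
  have hφK : φ K = φ 0 + 2 * Real.pi := by
    have := hR.per 0
    rwa [Nat.zero_add] at this
  have hτK : τ K = τ 0 := by
    have := hτ 0
    rwa [Nat.zero_add] at this
  have h1 : 1 < h := by
    by_contra hc
    have : h = 1 := by omega
    subst this
    have := hR.gap1 0
    rw [Nat.zero_add] at this
    linarith
  have h2 : h + 1 < K := by
    by_contra hc
    have : K = h + 1 := by omega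
    have h3 := hR.gap1 h
    rw [← this] at h3
    linarith
  refine ⟨h1, h2, ?_⟩
  obtain ⟨c1, c2, hc⟩ := hinge_match hR.gap0 hR.gap1 τ 0 h
    (fun l _ hl => hz l (by omega) (by omega))
  obtain ⟨d1, d2, hd⟩ := hinge_match hR.gap0 hR.gap1 τ h K
    (fun l hl1 hl2 => hz l (by omega) (by omega))
  refine ⟨c1, c2, d1, d2, fun q hq => hc q (Nat.zero_le q) hq, fun q hq1 hq2 => hd q hq1 hq2, ?_⟩
  have hcosK : Real.cos (φ K) = Real.cos (φ 0) := by rw [hφK, Real.cos_add_two_pi]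
  have hsinK : Real.sin (φ K) = Real.sin (φ 0) := by rw [hφK, Real.sin_add_two_pi]
  have g0 : (d1 - c1) * Real.cos (φ 0) + (d2 - c2) * Real.sin (φ 0) = 0 := by
    have a1 := hc 0 le_rfl h0.le
    have a2 := hd K hK.le le_rfl
    rw [hcosK, hsinK, hτK] at a2
    linarith
  set κ : ℝ := (d2 - c2) * Real.cos (φ 0) - (d1 - c1) * Real.sin (φ 0) with hκ
  have hcs := Real.cos_sq_add_sin_sq (φ 0)
  have hu : d1 - c1 = -κ * Real.sin (φ 0) := by
    rw [hκ]
    linear_combination (-(d1 - c1)) * hcs + Real.cos (φ 0) * g0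
  have hv : d2 - c2 = κ * Real.cos (φ 0) := by
    rw [hκ]
    linear_combination (-(d2 - c2)) * hcs + Real.sin (φ 0) * g0
  have hE : ∀ q, q ≤ h → d1 * Real.cos (φ q) + d2 * Real.sin (φ q) - τ q =
      κ * Real.sin (φ q - φ 0) := by
    intro q hq
    rw [hc q (Nat.zero_le q) hq, Real.sin_sub]
    linear_combination Real.cos (φ q) * hu + Real.sin (φ q) * hv
  have hsq : ∀ q, 0 < q → q < h → 0 < Real.sin (φ q - φ 0) := by
    intro q hq1 hq2
    have a1 := hmono hq1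
    have a2 := hmono hq2
    exact Real.sin_pos_of_pos_of_lt_pi (by linarith) (by linarith)
  have hκ0 : 0 ≤ κ := by
    have b1 := below_self hR τ hτ hL h 1
    have b2 := hd h le_rfl hK.le
    have b3 := hd (h + 1) (by omega) (by omega)
    have b4 := hE 1 h1.le
    have b5 := hsq 1 one_pos h1
    have b6 : 0 < Real.sin (φ (h + 1) - φ h) :=
      Real.sin_pos_of_pos_of_lt_pi (hR.gap0 h) (hR.gap1 h)
    have b7 : dd (XX φ τ h) (XX φ τ (h + 1)) (XX φ τ 1) =
        -(Real.sin (φ (h + 1) - φ h)) * (κ * Real.sin (φ 1 - φ 0)) := by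
      rw [← b4, Real.sin_sub (φ (h + 1)) (φ h)]
      simp only [dd, cr, XX, dotProduct, Fin.sum_univ_three, Matrix.cons_val_zero,
        Matrix.cons_val_one, Matrix.cons_val]
      rw [b2, b3]
      ring
    rw [b7] at b1
    by_contra hneg
    push Not at hneg
    have : 0 < -(Real.sin (φ (h + 1) - φ h)) * (κ * Real.sin (φ 1 - φ 0)) := by
      have : κ * Real.sin (φ 1 - φ 0) < 0 := mul_neg_of_neg_of_pos hneg b5
      nlinarith
    linarith
  have hκ1 : κ ≠ 0 := by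
    intro hκz
    rw [hκz] at hu hv
    have hdc1 : d1 = c1 := by linarith
    have hdc2 : d2 = c2 := by linarith
    apply hne
    have e1 : K - 1 + 1 = K := by omega
    have e2 : K - 1 + 2 = K + 1 := by omega
    have f0 := hd (K - 1) (by omega) (by omega)
    have f1 := hd K hK.le le_rfl
    have f2 : τ (K + 1) = d1 * Real.cos (φ (K + 1)) + d2 * Real.sin (φ (K + 1)) := by
      have a1 := hτ 1
      have a2 := hR.per 1
      have a3 := hc 1 (Nat.zero_le 1) h1.le
      rw [Nat.add_comm 1 K] at a1 a2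
      rw [a1, a2, Real.cos_add_two_pi, Real.sin_add_two_pi, a3, hdc1, hdc2]
    have key := LL_linear hR.gap0 hR.gap1 (fun _ => 0) d1 d2 (K - 1)
    have z : LL (fun _ => (0 : ℝ)) φ (K - 1) = 0 := by simp [LL]
    rw [z] at key
    rw [← key]
    simp only [LL, e1, e2]
    rw [f0, f1, f2]
    simp only [zero_add]
  have hκ2 : 0 < κ := lt_of_le_of_ne hκ0 (Ne.symm hκ1)
  intro q hq1 hq2
  have := hE q hq2.le
  have h3 := mul_pos hκ2 (hsq q hq1 hq2)
  linarith

end SphJam
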