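import Pool.Agent.SphJam.Ring
import Pool.Agent.SphJam.RingFlat

set_option autoImplicit false
open Matrix Finset

namespace SphJam

section

variable {I : Type}

end


theorem phi_per {K : ℕ} {φ : ℕ → ℝ} (hR : RingData K φ) (l j : ℕ) :
    φ (l + K * j) = φ l + 2 * Real.pi * j := by
  induction j with
  | zero => simp
  | succ j ih =>
    have : l + K * (j + 1) = (l + K * j) + K := by ring
    rw [this, hR.per, ih]
    push_cast
    ring

theorem LL_per1 {K : ℕ} {φ : ℕ → ℝ} (hR : RingData K φ) (y : ℕ → ℝ)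
    (hy : ∀ l, y (l + K) = y l) (l : ℕ) : LL y φ (l + K) = LL y φ l := by
  have e1 : l + K + 2 = (l + 2) + K := by ring
  have e2 : l + K + 1 = (l + 1) + K := by ring
  have e3 : φ (l + 2) + 2 * Real.pi - (φ (l + 1) + 2 * Real.pi) = φ (l + 2) - φ (l + 1) := by ring
  have e4 : φ (l + 1) + 2 * Real.pi - (φ l + 2 * Real.pi) = φ (l + 1) - φ l := by ring
  unfold LL
  rw [e1, e2, hR.per, hR.per, hR.per, hy, hy, hy, e3, e4]

theorem LL_per_rh {K : ℕ} {φ : ℕ → ℝ} (hR : RingData K φ) (y : ℕ → ℝ)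
    (hy : ∀ l, y (l + K) = y l) (l j : ℕ) : LL y φ (l + K * j) = LL y φ l := by
  induction j with
  | zero => simp
  | succ j ih =>
    have : l + K * (j + 1) = (l + K * j) + K := by ring
    rw [this, LL_per1 hR y hy, ih]

theorem sum_shift_rh {K : ℕ} (F : ℕ → ℝ) (hF : F K = F 0) :
    ∑ l ∈ range K, F l = ∑ l ∈ range K, F (l + 1) := by
  have h1 := Finset.sum_range_succ F K
  have h2 := Finset.sum_range_succ' F K
  linarith


/-- equality case with a corner of `x` at index `0`: a hinge -/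
theorem ring_hinge {K : ℕ} {φ : ℕ → ℝ} (hR : RingData K φ) (x τ : ℕ → ℝ)
    (hx : ∀ l, x (l + K) = x l) (hτ : ∀ l, τ (l + K) = τ l) (hL : ∀ l, LL τ φ l ≤ 0)
    (hne : ∃ l, LL τ φ l ≠ 0)
    (h1 : ∑ l ∈ range K, LL τ φ l * Real.cos (φ (l + 1)) = 0)
    (h2 : ∑ l ∈ range K, LL τ φ l * Real.sin (φ (l + 1)) = 0)
    (h3 : ∑ l ∈ range K, LL τ φ l * x (l + 1) = 0) (h0 : RB K φ x = 0)
    (hK : LL x φ (K - 1) ≠ 0) :
    ∃ h, 0 < h ∧ h < K ∧ φ h = φ 0 + Real.pi ∧ LL τ φ (K - 1) ≠ 0 ∧
      ∀ l, l + 1 < K → l + 1 ≠ h → LL τ φ l = 0 ∧ LL x φ l = 0 := by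
  have hKpos := hR.Kpos
  obtain ⟨f, hf⟩ : ∃ f : ℕ → ℝ, ∀ l, f l = - LL τ φ (l + K - 1) := ⟨_, fun _ => rfl⟩
  have hf1 : ∀ l, f (l + 1) = - LL τ φ l := by
    intro l
    have e1 : l + 1 + K - 1 = l + K := by omega
    rw [hf, e1, LL_per1 hR τ hτ]
  have hf0 : f 0 = - LL τ φ (K - 1) := by
    rw [hf, zero_add]
  have hfper : ∀ l, f (l + K) = f l := by
    intro l
    have e1 : l + K + K - 1 = (l + K - 1) + K := by omega
    rw [hf, e1, LL_per1 hR τ hτ, hf]
  have hfperj : ∀ l j, f (l + K * j) = f l := by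
    intro l j
    induction j with
    | zero => simp
    | succ j ih =>
      have : l + K * (j + 1) = (l + K * j) + K := by ring
      rw [this, hfper, ih]
  have hfK : f K = f 0 := by
    have := hfper 0
    rwa [zero_add] at this
  have hφK : φ K = φ 0 + 2 * Real.pi := by
    have := hR.per 0
    rwa [zero_add] at this
  have hxK : x K = x 0 := by
    have := hx 0
    rwa [zero_add] at this
  have s1 : ∑ l ∈ range K, f l * Real.cos (φ l) = 0 := by
    rw [sum_shift_rh (fun l => f l * Real.cos (φ l)) (by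
      simp only [hfK, hφK, Real.cos_add_two_pi])]
    simp only [hf1, neg_mul, Finset.sum_neg_distrib, h1, neg_zero]
  have s2 : ∑ l ∈ range K, f l * Real.sin (φ l) = 0 := by
    rw [sum_shift_rh (fun l => f l * Real.sin (φ l)) (by
      simp only [hfK, hφK, Real.sin_add_two_pi])]
    simp only [hf1, neg_mul, Finset.sum_neg_distrib, h2, neg_zero]
  have s3 : ∑ l ∈ range K, f l * x l = 0 := by
    rw [sum_shift_rh (fun l => f l * x l) (by simp only [hfK, hxK])]
    simp only [hf1, neg_mul, Finset.sum_neg_distrib, h3, neg_zero]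
  rcases ring_eq hR x f hx hfper (fun l => by rw [hf]; linarith [hL (l + K - 1)])
    (by
      obtain ⟨l, hl⟩ := hne
      exact ⟨l + 1, by rw [hf1]; exact neg_ne_zero.2 hl⟩) s1 s2 s3 h0 with hA | hB
  · exact absurd (hA (K - 1)) hK
  · obtain ⟨l1, l2, h12, h2K, hφ, hfl1, hfl2, hcond⟩ := hB
    obtain ⟨j, hj1, hj2⟩ : ∃ j, l1 ≤ K * j ∧ K * j < l1 + K := by
      refine ⟨(l1 + K - 1) / K, ?_, ?_⟩
      · have h4 := Nat.div_add_mod (l1 + K - 1) K
        have h5 := Nat.mod_lt (l1 + K - 1) hKpos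
        omega
      · have h4 := Nat.div_add_mod (l1 + K - 1) K
        omega
    have hφ0 : φ (K * j) = φ 0 + 2 * Real.pi * j := by
      have := phi_per hR 0 j
      rwa [zero_add] at this
    have hf0j : f (K * j) = f 0 := by
      have := hfperj 0 j
      rwa [zero_add] at this
    by_cases hq1 : K * j = l1
    · refine ⟨l2 - l1, by omega, by omega, ?_, ?_, ?_⟩
      · have h4 := phi_per hR (l2 - l1) j
        have h5 : l2 - l1 + K * j = l2 := by omega
        rw [h5, hφ, ← hq1, hφ0] at h4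
        rw [← hq1]
        linarith
      · rw [← hq1, hf0j, hf0] at hfl1
        exact neg_ne_zero.1 hfl1
      · intro l hl hl'
        have h4 := hcond (l + K * j) (by omega) (by omega) (by omega)
        rw [hf1, LL_per_rh hR τ hτ, LL_per_rh hR x hx] at h4
        exact ⟨neg_eq_zero.1 h4.1, h4.2⟩
    · by_cases hq2 : K * j = l2
      · refine ⟨l1 + K - l2, by omega, by omega, ?_, ?_, ?_⟩
        · have h4 := phi_per hR (l1 + K - l2) j
          have h5 : l1 + K - l2 + K * j = l1 + K := by omega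
          rw [h5, hR.per] at h4
          rw [← hq2, hφ0] at hφ
          linarith
        · rw [← hq2, hf0j, hf0] at hfl2
          exact neg_ne_zero.1 hfl2
        · intro l hl hl'
          by_cases hc : l + K * j + 1 < l1 + K
          · have h4 := hcond (l + K * j) (by omega) (by omega) (by omega)
            rw [hf1, LL_per_rh hR τ hτ, LL_per_rh hR x hx] at h4
            exact ⟨neg_eq_zero.1 h4.1, h4.2⟩
          · obtain ⟨l', hl2⟩ : ∃ l', l' + K = l + K * j := ⟨l + K * j - K, by omega⟩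
            have h4 := hcond l' (by omega) (by omega) (by omega)
            rw [hf1, ← LL_per1 hR τ hτ, ← LL_per1 hR x hx, hl2, LL_per_rh hR τ hτ,
              LL_per_rh hR x hx] at h4
            exact ⟨neg_eq_zero.1 h4.1, h4.2⟩
      · exfalso
        have hjpos : 0 < j := by
          rcases Nat.eq_zero_or_pos j with h | h
          · exfalso
            rw [h, mul_zero] at hj1 hq1
            omega
          · exact h
        obtain ⟨i, rfl⟩ : ∃ i, j = i + 1 := ⟨j - 1, by omega⟩
        have h5 : K * (i + 1) = K * i + K := by ring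
        have h6 : K * (i + 1) - 1 = (K - 1) + K * i := by omega
        have h4 := (hcond (K * (i + 1) - 1) (by omega) (by omega) (by omega)).2
        rw [h6, LL_per_rh hR x hx] at h4
        exact hK h4

/-- backward version of `ring_flat` -/
theorem ring_flat_back {φ : ℕ → ℝ} (hg0 : ∀ l, 0 < φ (l + 1) - φ l)
    (hg1 : ∀ l, φ (l + 1) - φ l < Real.pi) (D : ℕ → ℝ) (q s : ℕ)
    (hL : ∀ l, q ≤ l → l + 1 < s + 1 → LL D φ l = 0)
    (h0 : D s = 0) (h1 : D (s + 1) = 0) : ∀ l, q ≤ l → l ≤ s + 1 → D l = 0 := by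
  intro l hql hls
  by_cases hqs : s ≤ q
  · have : l = s ∨ l = s + 1 := by omega
    rcases this with rfl | rfl
    · exact h0
    · exact h1
  · obtain ⟨S, hS⟩ : ∃ S, S = Real.sin (φ (q + 1) - φ q) := ⟨_, rfl⟩
    have hSpos : 0 < S := by
      rw [hS]
      exact Real.sin_pos_of_pos_of_lt_pi (hg0 q) (hg1 q)
    have hS' := hS
    rw [Real.sin_sub] at hS'
    obtain ⟨c1, hc1⟩ : ∃ c1, c1 = (D q * Real.sin (φ (q + 1)) - D (q + 1) * Real.sin (φ q)) / S :=
      ⟨_, rfl⟩
    obtain ⟨c2, hc2⟩ : ∃ c2, c2 = (D (q + 1) * Real.cos (φ q) - D q * Real.cos (φ (q + 1))) / S :=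
      ⟨_, rfl⟩
    have hc1' : c1 * S = D q * Real.sin (φ (q + 1)) - D (q + 1) * Real.sin (φ q) := by
      rw [hc1, div_mul_cancel₀ _ hSpos.ne']
    have hc2' : c2 * S = D (q + 1) * Real.cos (φ q) - D q * Real.cos (φ (q + 1)) := by
      rw [hc2, div_mul_cancel₀ _ hSpos.ne']
    have key := ring_flat hg0 hg1 (fun k => D k + (-c1) * Real.cos (φ k) + (-c2) * Real.sin (φ k))
      q (s + 1) (fun l h3 h4 => by rw [LL_linear hg0 hg1]; exact hL l h3 h4)
      (by
        have h5 : S * (D q + (-c1) * Real.cos (φ q) + (-c2) * Real.sin (φ q)) = 0 := by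
          linear_combination (D q) * hS' - Real.cos (φ q) * hc1' - Real.sin (φ q) * hc2'
        exact (mul_eq_zero.1 h5).resolve_left hSpos.ne')
      (by
        have h5 : S * (D (q + 1) + (-c1) * Real.cos (φ (q + 1)) + (-c2) * Real.sin (φ (q + 1)))
            = 0 := by
          linear_combination (D (q + 1)) * hS' - Real.cos (φ (q + 1)) * hc1'
            - Real.sin (φ (q + 1)) * hc2'
        exact (mul_eq_zero.1 h5).resolve_left hSpos.ne')
    have ks := key s (by omega) (by omega)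
    have ks1 := key (s + 1) (by omega) le_rfl
    have kl := key l hql hls
    rw [h0] at ks
    rw [h1] at ks1
    have hδ : 0 < Real.sin (φ (s + 1) - φ s) := Real.sin_pos_of_pos_of_lt_pi (hg0 s) (hg1 s)
    have e1 : c1 * Real.sin (φ (s + 1) - φ s) = 0 := by
      rw [Real.sin_sub]
      linear_combination (-Real.sin (φ (s + 1))) * ks + Real.sin (φ s) * ks1
    have e2 : c2 * Real.sin (φ (s + 1) - φ s) = 0 := by
      rw [Real.sin_sub]
      linear_combination (Real.cos (φ (s + 1))) * ks - Real.cos (φ s) * ks1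
    have e3 := (mul_eq_zero.1 e1).resolve_right hδ.ne'
    have e4 := (mul_eq_zero.1 e2).resolve_right hδ.ne'
    rw [e3, e4] at kl
    linarith

end SphJam
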