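import Pool.Agent.SphJam.BridgeB
import Pool.Agent.SphJam.Reach
import Pool.Agent.SphJam.Spin
import Pool.Agent.SphJam.Peel
import Pool.Agent.SphJam.RingHinge
import Pool.Agent.SphJam.HingeFlat

set_option autoImplicit false
open Matrix Finset

namespace SphJam

section

variable {I : Type}

end


section

variable {I : Type} [Fintype I] {a b T : I → ℝ} {M m : I → I → ℝ}

end

section

variable {n : ℕ} {P : Pack n} {ω : Fin n → Fin n → ℝ}

end

section

variable {n : ℕ} {P : Pack n} {ω : Fin n → Fin n → ℝ}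

end


theorem dot3_hv (u v : V3) : u ⬝ᵥ v = u 0 * v 0 + u 1 * v 1 + u 2 * v 2 := by
  rw [dotProduct, Fin.sum_univ_three]

theorem rho_pos_cyc {n : ℕ} {P : Pack n} (hg : GenAll P) (i : Fin n) : 0 < rho P i :=
  Real.sqrt_pos.2 (hg.1 i)

/-- a flex with vanishing vertical part along consecutive cycle nodes vanishes there -/
theorem flex_zero_along {n : ℕ} {P : Pack n} {ω : Fin n → Fin n → ℝ}
    (hst : IsStress P Set.univ ω) (hg : GenAll P) {K : ℕ} {c : ℕ → Fin n} {φ : ℕ → ℝ}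
    (hc : IsCycle (ca P) (cb P) (cT P) (cm P ω) K c φ) {w : Fin n → V3} (hw : IsFlex P w)
    (q s m : ℕ) (hqm : q ≤ m) (hms : m ≤ s) (h0 : w (c m) = 0)
    (hz : ∀ l, q ≤ l → l ≤ s → cn P w (c l) = 0) : ∀ l, q ≤ l → l ≤ s → w (c l) = 0 := by
  have hiso := bridge_iso hst (hg.net ω) hw
  have hstep : ∀ l, q ≤ l → l + 1 ≤ s → cu P w (c (l + 1)) = cu P w (c l) := by
    intro l h1 h2
    have h3 := hiso (c l) (c (l + 1)) (hc.arc l)
    rw [hz l h1 (by omega), hz (l + 1) (by omega) h2, zero_mul, zero_mul, add_zero] at h3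
    linarith
  have hconst : ∀ l, q ≤ l → l ≤ s → cu P w (c l) = cu P w (c q) := by
    intro l h1
    induction l, h1 using Nat.le_induction with
    | base => intro _; rfl
    | succ l hl ih =>
      intro h2
      rw [hstep l hl h2]
      exact ih (by omega)
  have hm0 : cu P w (c m) = 0 := by
    unfold cu
    rw [h0]
    simp
  have hq0 : cu P w (c q) = 0 := by rw [← hconst m hqm hms, hm0]
  intro l h1 h2
  have hρ := rho_pos_cyc hg (c l)
  have a1 : w (c l) 2 = 0 := by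
    have h3 := hz l h1 h2
    unfold cn at h3
    rcases div_eq_zero_iff.1 h3 with h4 | h4
    · exact h4
    · exact absurd h4 hρ.ne'
  have a2 : P.p (c l) 0 * w (c l) 1 - P.p (c l) 1 * w (c l) 0 = 0 := by
    have h3 := (hconst l h1 h2).trans hq0
    unfold cu at h3
    rcases div_eq_zero_iff.1 h3 with h4 | h4
    · exact h4
    · exact absurd h4 (by positivity)
  have a3 := hw.1 (c l)
  rw [dot3_hv, a1] at a3
  have hp := hg.1 (c l)
  have b0 : w (c l) 0 = 0 := by
    have h3 : (P.p (c l) 0 ^ 2 + P.p (c l) 1 ^ 2) * w (c l) 0 = 0 := by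
      linear_combination P.p (c l) 0 * a3 - P.p (c l) 1 * a2
    rcases mul_eq_zero.1 h3 with h4 | h4
    · exact absurd h4 hp.ne'
    · exact h4
  have b1 : w (c l) 1 = 0 := by
    have h3 : (P.p (c l) 0 ^ 2 + P.p (c l) 1 ^ 2) * w (c l) 1 = 0 := by
      linear_combination P.p (c l) 1 * a3 + P.p (c l) 0 * a2
    rcases mul_eq_zero.1 h3 with h4 | h4
    · exact absurd h4 hp.ne'
    · exact h4
  funext k
  fin_cases k
  · exact b0
  · exact b1
  · exact a1

theorem cr_add_smul (r p x : V3) (σ : ℝ) : cr (r + σ • p) x = cr r x + σ • cr p x := by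
  funext k
  fin_cases k <;> simp [cr] <;> ring

theorem cr_self (p : V3) : cr p p = 0 := by
  funext k
  fin_cases k <;> simp [cr] <;> ring

theorem cn_sub_rot {n : ℕ} (P : Pack n) (v : Fin n → V3) (r : V3) (i : Fin n) :
    cn P (fun i => v i - cr r (P.p i)) i = cn P v i + r 1 * ca P i + (-r 0) * cb P i := by
  unfold cn ca cb
  dsimp only
  have h : (v i - cr r (P.p i)) 2 = v i 2 - (r 0 * P.p i 1 - r 1 * P.p i 0) := by
    simp [cr]
  rw [h]
  ring

theorem cn_zero {n : ℕ} (P : Pack n) (v : Fin n → V3) (i : Fin n) (h : v i = 0) :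
    cn P v i = 0 := by
  unfold cn
  rw [h]
  simp

theorem LL_rot {n : ℕ} {P : Pack n} {ω : Fin n → Fin n → ℝ} {K : ℕ} {c : ℕ → Fin n}
    {φ : ℕ → ℝ} (hc : IsCycle (ca P) (cb P) (cT P) (cm P ω) K c φ) (v : Fin n → V3) (r : V3)
    (l : ℕ) : LL (fun k => cn P (fun i => v i - cr r (P.p i)) (c k)) φ l =
      LL (fun k => cn P v (c k)) φ l := by
  have h : (fun k => cn P (fun i => v i - cr r (P.p i)) (c k)) =
      fun k => (fun k => cn P v (c k)) k + r 1 * Real.cos (φ k) + (-r 0) * Real.sin (φ k) := by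
    funext k
    rw [cn_sub_rot, hc.cos, hc.sin]
  rw [h]
  exact LL_linear hc.ring.gap0 hc.ring.gap1 _ _ _ l

/-- the corner at the first node -/
theorem corner_last {n : ℕ} {P : Pack n} {ω : Fin n → Fin n → ℝ} (hg : GenAll P) {K : ℕ}
    {c : ℕ → Fin n} {φ : ℕ → ℝ} (hc : IsCycle (ca P) (cb P) (cT P) (cm P ω) K c φ)
    (w : Fin n → V3) (σ : ℝ) (hσ : σ < 0) (h0 : w (c 0) = 0) (hK1 : w (c (K - 1)) = 0)
    (h1 : w (c 1) = σ • cr (P.p (c 0)) (P.p (c 1))) :
    LL (fun k => cn P w (c k)) φ (K - 1) ≠ 0 := by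
  have hKp := hc.ring.Kpos
  have e1 : K - 1 + 2 = 1 + K := by omega
  have e2 : K - 1 + 1 = 0 + K := by omega
  have g0 := hc.ring.gap0 0
  have g1 := hc.ring.gap1 0
  rw [zero_add] at g0 g1
  have hsin : 0 < Real.sin (φ 1 - φ 0) := Real.sin_pos_of_pos_of_lt_pi g0 g1
  have hρ0 := rho_pos_cyc hg (c 0)
  have hρ1 := rho_pos_cyc hg (c 1)
  have hcn1 : cn P w (c 1) = σ * rho P (c 0) * Real.sin (φ 1 - φ 0) := by
    unfold cn
    rw [h1]
    have k1 : (σ • cr (P.p (c 0)) (P.p (c 1))) 2 =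
        σ * (P.p (c 0) 0 * P.p (c 1) 1 - P.p (c 0) 1 * P.p (c 1) 0) := by
      simp [cr]
    have k2 : P.p (c 0) 0 = rho P (c 0) * Real.cos (φ 0) := by
      rw [← hc.cos 0]
      unfold ca
      field_simp
    have k3 : P.p (c 0) 1 = rho P (c 0) * Real.sin (φ 0) := by
      rw [← hc.sin 0]
      unfold cb
      field_simp
    have k4 : P.p (c 1) 0 = rho P (c 1) * Real.cos (φ 1) := by
      rw [← hc.cos 1]
      unfold ca
      field_simp
    have k5 : P.p (c 1) 1 = rho P (c 1) * Real.sin (φ 1) := by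
      rw [← hc.sin 1]
      unfold cb
      field_simp
    rw [k1, k2, k3, k4, k5, Real.sin_sub]
    field_simp
  have hv : LL (fun k => cn P w (c k)) φ (K - 1) = σ * rho P (c 0) := by
    unfold LL
    dsimp only
    rw [e1, e2, hc.per 1, hc.per 0, hc.ring.per 1, hc.ring.per 0, cn_zero P w (c 0) h0,
      cn_zero P w (c (K - 1)) hK1, hcn1]
    have e3 : φ 1 + 2 * Real.pi - (φ 0 + 2 * Real.pi) = φ 1 - φ 0 := by ring
    rw [e3]
    simp only [zero_mul, sub_zero, zero_div, add_zero]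
    exact mul_div_cancel_right₀ _ hsin.ne'
  rw [hv]
  exact mul_ne_zero hσ.ne hρ0.ne'

theorem caseII_halves {n : ℕ} {P : Pack n}
    {ω : Fin n → Fin n → ℝ} (hN : Net P ω) (hnc : NonCop P ω) (hg : GenAll P)
    {v : Fin n → V3} (hv : IsFlex P v) (hE0 : Ea P ω v ![0, 0, 1] = 0)
    {K : ℕ} {c : ℕ → Fin n} {φ : ℕ → ℝ}
    (hc : IsCycle (ca P) (cb P) (cT P) (cm P ω) K c φ) (r1 : V3) (σ : ℝ) (hσ : σ < 0)
    (h1 : v (c 0) = cr r1 (P.p (c 0))) (h2 : v (c (K - 1)) = cr r1 (P.p (c (K - 1))))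
    (h3 : v (c 1) = cr (r1 + σ • P.p (c 0)) (P.p (c 1))) :
    (∀ l, LL (fun k => cT P (c k)) φ l ≤ 0) ∧
    ∃ h, 1 < h ∧ h + 1 < K ∧
      (∀ q, h ≤ q → q ≤ K → v (c q) = cr r1 (P.p (c q))) ∧
      (∀ q, q ≤ h → v (c q) = cr (r1 + σ • P.p (c 0)) (P.p (c q))) ∧
      φ h = φ 0 + Real.pi ∧
      ∃ c1 c2 d1 d2 : ℝ,
        (∀ q, q ≤ h → cT P (c q) = c1 * Real.cos (φ q) + c2 * Real.sin (φ q)) ∧
        (∀ q, h ≤ q → q ≤ K → cT P (c q) = d1 * Real.cos (φ q) + d2 * Real.sin (φ q)) ∧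
        (∀ q, 0 < q → q < h → cT P (c q) < d1 * Real.cos (φ q) + d2 * Real.sin (φ q)) := by
  have hst := hN.st
  have hgn := hg.net ω
  have hCN := bridge_CN hst hgn
  have hbal := bridge_frc hst hgn
  have hconn := bridge_conn hN hgn
  have hncop := bridge_noncop hst hgn hnc
  have hiso := bridge_iso hst hgn hv
  have hQ : QQ (ca P) (cb P) (cm P ω) (cn P v) = 0 := by
    rw [bridge_QQ hst hgn hv, hE0]
  have hRB := peel_first hCN hbal hconn hncop (cn P v) (cu P v) hiso hQ hc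
  obtain ⟨hL, hne, s1, s2, s3⟩ := first_corners hCN hbal hconn hncop (cn P v) (cu P v) hiso hc
  have hKp := hc.ring.Kpos
  have hw := flex_sub_rot hv r1
  have hw2 := flex_sub_rot hv (r1 + σ • P.p (c 0))
  have w0 : (fun i => v i - cr r1 (P.p i)) (c 0) = 0 := by
    dsimp only
    rw [h1, sub_self]
  have wK1 : (fun i => v i - cr r1 (P.p i)) (c (K - 1)) = 0 := by
    dsimp only
    rw [h2, sub_self]
  have w1 : (fun i => v i - cr r1 (P.p i)) (c 1) = σ • cr (P.p (c 0)) (P.p (c 1)) := by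
    dsimp only
    rw [h3, cr_add_smul]
    abel
  have wK : (fun i => v i - cr r1 (P.p i)) (c K) = 0 := by
    have e : c K = c 0 := by
      have := hc.per 0
      rwa [zero_add] at this
    rw [e]
    exact w0
  have hK : LL (fun k => cn P v (c k)) φ (K - 1) ≠ 0 := by
    rw [← LL_rot hc v r1]
    exact corner_last hg hc _ σ hσ w0 wK1 w1
  obtain ⟨h, hh0, hhK, hpi, hneK, hz⟩ := ring_hinge hc.ring (fun k => cn P v (c k))
    (fun k => cT P (c k)) (fun l => by rw [hc.per]) (fun l => by rw [hc.per])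
    hL hne s1 s2 s3 hRB hK
  obtain ⟨hh1, hhK1, c1, c2, d1, d2, f1, f2, f3⟩ := hinge_flat hc.ring (fun k => cT P (c k))
    (fun l => by rw [hc.per]) hL h hh0 hhK hpi (fun l k1 k2 => (hz l k1 k2).1) hneK
  refine ⟨hL, h, hh1, hhK1, ?_, ?_, hpi, c1, c2, d1, d2, f1, f2, f3⟩
  · have hD := ring_flat_back hc.ring.gap0 hc.ring.gap1
      (fun k => cn P (fun i => v i - cr r1 (P.p i)) (c k)) h (K - 1)
      (fun l k1 k2 => by
        rw [LL_rot hc v r1]
        exact (hz l (by omega) (by omega)).2)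
      (cn_zero P _ _ wK1) (by
        have e : K - 1 + 1 = K := by omega
        rw [e]
        exact cn_zero P _ _ wK)
    have hF := flex_zero_along hst hg hc hw h K K (by omega) le_rfl wK
      (fun l k1 k2 => hD l k1 (by omega))
    intro q k1 k2
    have := hF q k1 k2
    exact sub_eq_zero.1 this
  · have w20 : (fun i => v i - cr (r1 + σ • P.p (c 0)) (P.p i)) (c 0) = 0 := by
      dsimp only
      rw [cr_add_smul, cr_self, smul_zero, add_zero, h1, sub_self]
    have w21 : (fun i => v i - cr (r1 + σ • P.p (c 0)) (P.p i)) (c 1) = 0 := by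
      dsimp only
      rw [h3, sub_self]
    have hD := ring_flat hc.ring.gap0 hc.ring.gap1
      (fun k => cn P (fun i => v i - cr (r1 + σ • P.p (c 0)) (P.p i)) (c k)) 0 h
      (fun l _ k2 => by
        rw [LL_rot hc v (r1 + σ • P.p (c 0))]
        exact (hz l (by omega) (by omega)).2)
      (cn_zero P _ _ w20) (cn_zero P _ _ w21)
    have hF := flex_zero_along hst hg hc hw2 0 h 0 le_rfl (by omega) w20
      (fun l k1 k2 => hD l k1 k2)
    intro q k2
    have := hF q (Nat.zero_le _) k2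
    exact sub_eq_zero.1 this

end SphJam
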