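import Pool.Agent.SphJam.Halves
import Pool.Agent.SphJam.Pinned
import Pool.Agent.SphJam.Spin
import Pool.Agent.SphJam.Bump
import Pool.Agent.SphJam.Region
import Pool.Agent.SphJam.Reach

set_option autoImplicit false
open Matrix Finset

namespace SphJam

section

variable {I : Type}

end



theorem dot3_hr (u v : V3) : u ⬝ᵥ v = u 0 * v 0 + u 1 * v 1 + u 2 * v 2 := by
  simp [dotProduct, Fin.sum_univ_three]

theorem dd3 (u v w : V3) : dd u v w = u 0 * (v 1 * w 2 - v 2 * w 1) + u 1 * (v 2 * w 0 - v 0 * w 2)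
    + u 2 * (v 0 * w 1 - v 1 * w 0) := by
  unfold dd
  rw [dot3_hr]
  rfl

theorem caseII_rot {n : ℕ} {P : Pack n} (hall : ∀ i, ∃ j, P.Ct i j) (hm : ¬ HasMotion P)
    {ω : Fin n → Fin n → ℝ} (hN : Net P ω) (hnc : NonCop P ω) (hg : GenAll P)
    {v : Fin n → V3} (hv : IsFlex P v) (hE0 : Ea P ω v ![0, 0, 1] = 0)
    {K : ℕ} {c : ℕ → Fin n} {φ : ℕ → ℝ}
    (hc : IsCycle (ca P) (cb P) (cT P) (cm P ω) K c φ) (r1 : V3) (σ : ℝ) (hσ : σ < 0)
    (h1 : v (c 0) = cr r1 (P.p (c 0))) (h2 : v (c (K - 1)) = cr r1 (P.p (c (K - 1))))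
    (h3 : v (c 1) = cr (r1 + σ • P.p (c 0)) (P.p (c 1))) : False := by
  have hst := hN.st
  obtain ⟨hL, h, hh1, hhK, hA, hB, hφh, c1, c2, d1, d2, hT1, hT2, hT3⟩ :=
    caseII_halves hN hnc hg hv hE0 hc r1 σ hσ h1 h2 h3
  have hK0 : 0 < K := hc.ring.Kpos
  obtain ⟨τ, hτdef⟩ : ∃ τ : ℕ → ℝ, τ = fun k => cT P (c k) := ⟨_, rfl⟩
  have hτq : ∀ q, cT P (c q) = τ q := fun q => by rw [hτdef]
  simp only [hτq] at hT1 hT2 hT3
  rw [← hτdef] at hL
  have hcper : ∀ m l, c (l + m * K) = c l := by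
    intro m
    induction m with
    | zero => intro l; simp
    | succ m ih =>
      intro l
      have : l + (m + 1) * K = (l + m * K) + K := by ring
      rw [this, hc.per, ih]
  have hτper1 : ∀ l, τ (l + K) = τ l := by
    intro l
    rw [hτdef]
    show cT P (c (l + K)) = cT P (c l)
    rw [hc.per]
  have hXper1 : ∀ l, XX φ τ (l + K) = XX φ τ l := by
    intro l
    unfold XX
    rw [hc.ring.per, hτper1, Real.cos_add_two_pi, Real.sin_add_two_pi]
  have hXper : ∀ m l, XX φ τ (l + m * K) = XX φ τ l := by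
    intro m
    induction m with
    | zero => intro l; simp
    | succ m ih =>
      intro l
      have : l + (m + 1) * K = (l + m * K) + K := by ring
      rw [this, hXper1, ih]
  have hmod : ∀ l, l = l % K + (l / K) * K := by
    intro l
    have := Nat.mod_add_div l K
    rw [Nat.mul_comm] at this
    exact this.symm
  have hcmod : ∀ l, c l = c (l % K) := by
    intro l
    conv_lhs => rw [hmod l]
    exact hcper _ _
  have hXmod : ∀ l, XX φ τ l = XX φ τ (l % K) := by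
    intro l
    conv_lhs => rw [hmod l]
    exact hXper _ _
  have hXmod1 : ∀ l, XX φ τ (l + 1) = XX φ τ (l % K + 1) := by
    intro l
    have : l + 1 = (l % K + 1) + (l / K) * K := by
      have := hmod l
      omega
    conv_lhs => rw [this]
    exact hXper _ _
  have hρ : ∀ l, 0 < rho P (c l) ∧ P.p (c l) = rho P (c l) • XX φ τ l := by
    intro l
    rw [hτdef]
    exact cycle_XX hst (hg.net ω) hc l
  have hmono : StrictMono φ := strictMono_nat_of_lt_succ (fun l => by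
    have := hc.ring.gap0 l
    linarith)
  have hsgap : ∀ l, 0 < Real.sin (φ (l + 1) - φ l) := fun l =>
    Real.sin_pos_of_pos_of_lt_pi (hc.ring.gap0 l) (hc.ring.gap1 l)
  -- the linear forms
  obtain ⟨Nc, hNc⟩ : ∃ Nc : V3 → ℝ, ∀ Y, Nc Y = Y 2 - c1 * Y 0 - c2 * Y 1 := ⟨_, fun _ => rfl⟩
  obtain ⟨Nd, hNd⟩ : ∃ Nd : V3 → ℝ, ∀ Y, Nd Y = Y 2 - d1 * Y 0 - d2 * Y 1 := ⟨_, fun _ => rfl⟩
  have hX0 : ∀ l, XX φ τ l 0 = Real.cos (φ l) := fun l => rfl
  have hX1 : ∀ l, XX φ τ l 1 = Real.sin (φ l) := fun l => rfl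
  have hX2 : ∀ l, XX φ τ l 2 = τ l := fun l => rfl
  have hddc : ∀ l m, l ≤ h → m ≤ h → ∀ Y,
      dd (XX φ τ l) (XX φ τ m) Y = Real.sin (φ m - φ l) * Nc Y := by
    intro l m hl hm' Y
    rw [dd3, hX0, hX0, hX1, hX1, hX2, hX2, hT1 l hl, hT1 m hm', hNc, Real.sin_sub]
    ring
  have hddd : ∀ l m, h ≤ l → l ≤ K → h ≤ m → m ≤ K → ∀ Y,
      dd (XX φ τ l) (XX φ τ m) Y = Real.sin (φ m - φ l) * Nd Y := by
    intro l m hl hl' hm' hm'' Y
    rw [dd3, hX0, hX0, hX1, hX1, hX2, hX2, hT2 l hl hl', hT2 m hm' hm'', hNd, Real.sin_sub]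
    ring
  have hNcX : ∀ l, l ≤ h → Nc (XX φ τ l) = 0 := by
    intro l hl
    rw [hNc, hX0, hX1, hX2, hT1 l hl]
    ring
  have hNcsmul : ∀ (a : ℝ) (Y : V3), Nc (a • Y) = a * Nc Y := by
    intro a Y
    rw [hNc, hNc]
    simp only [Pi.smul_apply, smul_eq_mul]
    ring
  have hNcadd : ∀ (Y Z : V3), Nc (Y + Z) = Nc Y + Nc Z := by
    intro Y Z
    rw [hNc, hNc, hNc]
    simp only [Pi.add_apply]
    ring
  have hNdsmul : ∀ (a : ℝ) (Y : V3), Nd (a • Y) = a * Nd Y := by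
    intro a Y
    rw [hNd, hNd]
    simp only [Pi.smul_apply, smul_eq_mul]
    ring
  have hNdadd : ∀ (Y Z : V3), Nd (Y + Z) = Nd Y + Nd Z := by
    intro Y Z
    rw [hNd, hNd, hNd]
    simp only [Pi.add_apply]
    ring
  -- the normalised flex
  have hw := flex_sub_rot hv r1
  obtain ⟨w, hwdef⟩ : ∃ w : Fin n → V3, w = fun i => v i - cr r1 (P.p i) := ⟨_, rfl⟩
  rw [← hwdef] at hw
  have hw0 : ∀ q, h ≤ q → q ≤ K → w (c q) = 0 := by
    intro q hq hq'
    rw [hwdef]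
    show v (c q) - cr r1 (P.p (c q)) = 0
    rw [hA q hq hq', sub_self]
  have hw1 : ∀ q, q ≤ h → w (c q) = σ • cr (P.p (c 0)) (P.p (c q)) := by
    intro q hq
    rw [hwdef]
    show v (c q) - cr r1 (P.p (c q)) = _
    rw [hB q hq]
    funext k
    fin_cases k <;> simp [cr] <;> ring
  -- pairing with the flex at the cycle nodes
  have hpair : ∀ (Y : V3) q, q ≤ h → Y ⬝ᵥ w (c q) =
      σ * (rho P (c 0) * rho P (c q) * (Real.sin (φ q - φ 0) * Nc Y)) := by
    intro Y q hq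
    have e1 : Y ⬝ᵥ w (c q) = σ * dd (P.p (c 0)) (P.p (c q)) Y := by
      rw [hw1 q hq, dot3_hr, dd3]
      simp [cr]
      ring
    have e2 : dd (P.p (c 0)) (P.p (c q)) Y =
        rho P (c 0) * rho P (c q) * dd (XX φ τ 0) (XX φ τ q) Y := by
      rw [(hρ 0).2, (hρ q).2, dd3, dd3]
      simp only [Pi.smul_apply, smul_eq_mul]
      ring
    rw [e1, e2, hddc 0 q (Nat.zero_le _) hq]
  have hNcBelow : ∀ Y, Below φ τ Y → Nc Y < 0 := by
    intro Y hY
    have h4 := hY 0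
    rw [hddc 0 (0 + 1) (Nat.zero_le _) (by omega)] at h4
    have h5 := hsgap 0
    by_contra hcon
    push Not at hcon
    have := mul_nonneg h5.le hcon
    linarith
  have hsin0 : ∀ q, q ≤ h → 0 ≤ Real.sin (φ q - φ 0) := by
    intro q hq
    apply Real.sin_nonneg_of_nonneg_of_le_pi
    · have := hmono.monotone (Nat.zero_le q)
      linarith
    · have := hmono.monotone hq
      linarith
  have hreg : ∀ i, Below φ τ (P.p i) → w i = 0 := by
    have := reg_pinned hall hm hst hg hc (by rw [← hτdef]; exact hL) hw (by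
      intro i l hi hil
      rw [← hτdef] at hi
      have h4 := hw.2 i (c l) hil
      suffices h5 : 0 ≤ P.p i ⬝ᵥ w (c l) by linarith
      rw [hcmod l]
      obtain ⟨q, hq⟩ : ∃ q, q = l % K := ⟨_, rfl⟩
      have hqK : q < K := by rw [hq]; exact Nat.mod_lt _ hK0
      rw [← hq]
      rcases le_or_gt h q with h6 | h6
      · rw [hw0 q h6 hqK.le, dotProduct_zero]
      · rw [hpair _ q h6.le]
        have h7 := hNcBelow _ hi
        have h8 := hsin0 q h6.le
        have h9 := (hρ 0).1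
        have h10 := (hρ q).1
        have h11 : Real.sin (φ q - φ 0) * Nc (P.p i) ≤ 0 :=
          mul_nonpos_of_nonneg_of_nonpos h8 h7.le
        have h12 : rho P (c 0) * rho P (c q) * (Real.sin (φ q - φ 0) * Nc (P.p i)) ≤ 0 :=
          mul_nonpos_of_nonneg_of_nonpos (mul_pos h9 h10).le h11
        exact mul_nonneg_of_nonpos_of_nonpos hσ.le h12)
    rw [← hτdef] at this
    exact this
  -- the bump at `c 1`
  have hκ : ∀ Y : V3, w (c 1) ⬝ᵥ Y =
      σ * (rho P (c 0) * rho P (c 1) * (Real.sin (φ 1 - φ 0) * Nc Y)) := by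
    intro Y
    rw [dotProduct_comm]
    exact hpair Y 1 hh1.le
  have hs1 : 0 < Real.sin (φ 1 - φ 0) := hsgap 0
  have hκ0 : w (c 1) ≠ 0 := by
    intro h4
    have h5 := hκ ![0, 0, 1]
    rw [h4, zero_dotProduct] at h5
    have h6 : Nc ![0, 0, 1] = 1 := by
      rw [hNc]; simp
    rw [h6] at h5
    have h7 : 0 < rho P (c 0) * rho P (c 1) * (Real.sin (φ 1 - φ 0) * 1) :=
      mul_pos (mul_pos (hρ 0).1 (hρ 1).1) (by linarith)
    have h8 := mul_neg_of_neg_of_pos hσ h7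
    linarith
  obtain ⟨i, hi1, hi2⟩ := no_bump P hm hall (c 1) (w (c 1)) hκ0 (by
    rw [dotProduct_comm]; exact hw.1 (c 1))
  have hNci : Nc (P.p i) < 0 := by
    rw [hκ] at hi2
    by_contra hcon
    push Not at hcon
    have h4 : 0 ≤ rho P (c 0) * rho P (c 1) * (Real.sin (φ 1 - φ 0) * Nc (P.p i)) :=
      mul_nonneg (mul_pos (hρ 0).1 (hρ 1).1).le (mul_nonneg hs1.le hcon)
    have h5 := mul_nonpos_of_nonpos_of_nonneg hσ.le h4
    linarith
  have hwi : w i ≠ 0 := by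
    intro h4
    have h5 := hw.2 (c 1) i hi1
    rw [h4, dotProduct_zero, dotProduct_comm (P.p i)] at h5
    linarith
  have hnB : ¬ Below φ τ (P.p i) := fun h4 => hwi (hreg i h4)
  have hicyc : ∀ q, c q ≠ i := by
    intro q hq
    rw [hcmod q] at hq
    obtain ⟨q', hq'⟩ : ∃ q', q' = q % K := ⟨_, rfl⟩
    have hqK : q' < K := by rw [hq']; exact Nat.mod_lt _ hK0
    rw [← hq'] at hq
    rcases le_or_gt h q' with h6 | h6
    · apply hwi
      rw [← hq, hw0 q' h6 hqK.le]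
    · have h7 : Nc (P.p i) = 0 := by
        rw [← hq, (hρ q').2, hNcsmul, hNcX q' h6.le, mul_zero]
      linarith
  -- a point below the curve near `X 1`
  have hNd1 : Nd (XX φ τ 1) < 0 := by
    have := hT3 1 (by omega) hh1
    rw [hNd, hX0, hX1, hX2]
    linarith
  obtain ⟨A, hAdef⟩ : ∃ A : ℝ, A = - Nd (XX φ τ 1) := ⟨_, rfl⟩
  obtain ⟨B, hBdef⟩ : ∃ B : ℝ, B = |Nd (P.p i)| := ⟨_, rfl⟩
  have hApos : 0 < A := by rw [hAdef]; linarith
  have hB0 : 0 ≤ B := by rw [hBdef]; exact abs_nonneg _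
  obtain ⟨ε, hεdef⟩ : ∃ ε : ℝ, ε = A / (2 * (A + B)) := ⟨_, rfl⟩
  have hAB : 0 < 2 * (A + B) := by linarith
  have hε0 : 0 < ε := by rw [hεdef]; positivity
  have hε1 : ε ≤ 1 / 2 := by
    rw [hεdef, div_le_iff₀ hAB]
    linarith
  have hεB : ε * B < A / 2 := by
    rw [hεdef, div_mul_eq_mul_div, div_lt_iff₀ hAB]
    nlinarith
  obtain ⟨Y, hYdef⟩ : ∃ Y : V3, Y = (1 - ε) • XX φ τ 1 + ε • P.p i := ⟨_, rfl⟩
  have hNcY : Nc Y < 0 := by
    rw [hYdef, hNcadd, hNcsmul, hNcsmul, hNcX 1 hh1.le, mul_zero, zero_add]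
    exact mul_neg_of_pos_of_neg hε0 hNci
  have hNdY : Nd Y < 0 := by
    rw [hYdef, hNdadd, hNdsmul, hNdsmul]
    have h4 : Nd (P.p i) ≤ B := by rw [hBdef]; exact le_abs_self _
    have h5 : Nd (XX φ τ 1) = -A := by rw [hAdef]; ring
    rw [h5]
    have h6 : ε * Nd (P.p i) ≤ ε * B := mul_le_mul_of_nonneg_left h4 hε0.le
    have h7 : (1 / 2) * A ≤ (1 - ε) * A := mul_le_mul_of_nonneg_right (by linarith) hApos.le
    linarith
  have hYB : Below φ τ Y := by
    intro l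
    rw [hXmod l, hXmod1 l]
    obtain ⟨q, hq⟩ : ∃ q, q = l % K := ⟨_, rfl⟩
    have hqK : q < K := by rw [hq]; exact Nat.mod_lt _ hK0
    rw [← hq]
    rcases lt_or_ge q h with h6 | h6
    · rw [hddc q (q + 1) h6.le h6]
      exact mul_neg_of_pos_of_neg (hsgap q) hNcY
    · rw [hddd q (q + 1) h6 hqK.le (by omega) hqK]
      exact mul_neg_of_pos_of_neg (hsgap q) hNdY
  have hcne : c 1 ≠ i := hicyc 1
  have hcomb : ∀ t : ℝ, (1 - t) • Y + t • P.p i =
      ((1 - t) * (1 - ε)) • XX φ τ 1 + ((1 - t) * ε + t) • P.p i := by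
    intro t
    rw [hYdef]
    module
  have hμ : ∀ t : ℝ, 0 < t → t ≤ 1 → 0 < (1 - t) * ε + t := by
    intro t ht ht'
    have : 0 ≤ (1 - t) * ε := mul_nonneg (by linarith) hε0.le
    linarith
  obtain ⟨t, ht0, ht1, l0, α, β, hα, hβ, heq0⟩ := below_exit hc.ring τ hτper1 hL Y (P.p i) hYB hnB (by
    rintro t ht0 ht1 ⟨e0, e1⟩
    have hc0 := congrFun (hcomb t) 0
    have hc1 := congrFun (hcomb t) 1
    simp only [Pi.add_apply, Pi.smul_apply, smul_eq_mul] at hc0 hc1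
    rw [e0] at hc0
    rw [e1] at hc1
    have hμt := hμ t ht0 ht1
    have hcross : P.p (c 1) 0 * P.p i 1 - P.p (c 1) 1 * P.p i 0 = 0 := by
      rw [(hρ 1).2]
      simp only [Pi.smul_apply, smul_eq_mul]
      have h4 : ((1 - t) * ε + t) * (rho P (c 1) * XX φ τ 1 0 * P.p i 1 -
          rho P (c 1) * XX φ τ 1 1 * P.p i 0) = 0 := by
        linear_combination (-(rho P (c 1) * XX φ τ 1 0)) * hc1 + (rho P (c 1) * XX φ τ 1 1) * hc0
      rcases mul_eq_zero.1 h4 with h5 | h5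
      · linarith
      · exact h5
    have h6 := hg.2 (c 1) i hcne hcross
    have h7 := hi1.2
    rw [h6, dotProduct_neg, P.unit] at h7
    have h8 : 0 < Real.cos (P.r (c 1) + P.r i) := by
      apply Real.cos_pos_of_mem_Ioo
      have r1' := P.rpos (c 1)
      have r2' := P.rpos i
      have r3' := P.rle (c 1)
      have r4' := P.rle i
      have hpi := Real.pi_gt_three
      constructor <;> linarith
    linarith)
  rw [hXmod l0, hXmod1 l0] at heq0
  obtain ⟨l, hl⟩ : ∃ l, l = l0 % K := ⟨_, rfl⟩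
  have hlK : l < K := by rw [hl]; exact Nat.mod_lt _ hK0
  rw [← hl, hcomb] at heq0
  have hμt := hμ t ht0 ht1
  have hlt0 : 0 ≤ (1 - t) * (1 - ε) := mul_nonneg (by linarith) (by linarith)
  have hlh : h ≤ l := by
    by_contra hcon
    push Not at hcon
    have h4 := congrArg Nc heq0
    rw [hNcadd, hNcadd, hNcsmul, hNcsmul, hNcsmul, hNcsmul, hNcX 1 hh1.le, hNcX l hcon.le,
      hNcX (l + 1) hcon, mul_zero, mul_zero, mul_zero, zero_add, zero_add] at h4
    have := mul_neg_of_pos_of_neg hμt hNci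
    linarith
  have hn1 : c 1 ≠ c l := by
    intro h4
    have := hc.inj 1 l (by omega) hlK h4
    omega
  have hn2 : c 1 ≠ c (l + 1) := by
    intro h4
    rcases Nat.lt_or_ge (l + 1) K with h5 | h5
    · have := hc.inj 1 (l + 1) (by omega) h5 h4
      omega
    · have h6 : l + 1 = 0 + K := by omega
      rw [h6, hc.per] at h4
      have := hc.inj 1 0 (by omega) hK0 h4
      omega
  have hρ1 := (hρ 1).1
  have hρl := (hρ l).1
  have hρl1 := (hρ (l + 1)).1
  have hfin := no_cross P hi1 (cycle_Ct hst hc l) hn1 hn2 (fun h4 => hicyc l h4.symm)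
    (fun h4 => hicyc (l + 1) h4.symm) (α := (1 - t) * (1 - ε) / rho P (c 1))
    (β := (1 - t) * ε + t) (γ := α / rho P (c l)) (δ := β / rho P (c (l + 1)))
    (div_nonneg hlt0 hρ1.le) hμt.le (div_nonneg hα hρl.le) (div_nonneg hβ hρl1.le) (by
      rw [(hρ 1).2, (hρ l).2, (hρ (l + 1)).2, smul_smul, smul_smul, smul_smul,
        div_mul_cancel₀ _ hρ1.ne', div_mul_cancel₀ _ hρl.ne', div_mul_cancel₀ _ hρl1.ne']
      exact heq0)
  linarith [hfin.2]

end SphJam
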