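import Pool.Agent.SphJam.Defs

set_option autoImplicit false
open Matrix Finset

namespace SphJam

section

variable {I : Type}

end


namespace SectorAux

/-- counterclockwise angle from `u` to `v` in `[0, 2π)` -/
noncomputable def G (u v : ℂ) : ℝ := toIcoMod Real.two_pi_pos 0 (Complex.arg v - Complex.arg u)

theorem G_nonneg (u v : ℂ) : 0 ≤ G u v := (toIcoMod_mem_Ico Real.two_pi_pos 0 _).1

theorem G_lt (u v : ℂ) : G u v < 2 * Real.pi := by
  have := (toIcoMod_mem_Ico Real.two_pi_pos 0 (Complex.arg v - Complex.arg u)).2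
  rw [zero_add] at this
  exact this

theorem G_spec (u v : ℂ) : ∃ n : ℤ, G u v = Complex.arg v - Complex.arg u + n * (2 * Real.pi) := by
  refine ⟨-toIcoDiv Real.two_pi_pos 0 (Complex.arg v - Complex.arg u), ?_⟩
  unfold G toIcoMod
  push_cast
  rw [zsmul_eq_mul]
  ring

theorem int_zero {n : ℤ} (h1 : (n : ℝ) * (2 * Real.pi) < 2 * Real.pi)
    (h2 : -(2 * Real.pi) < (n : ℝ) * (2 * Real.pi)) : n = 0 := by
  have hp := Real.two_pi_pos
  have a1 : (n : ℝ) < 1 := by nlinarith
  have a2 : (-1 : ℝ) < n := by nlinarith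
  have b1 : n < 1 := by exact_mod_cast a1
  have b2 : -1 < n := by exact_mod_cast a2
  omega

theorem G_sub {u v w : ℂ} (h : G u v ≤ G u w) : G v w = G u w - G u v := by
  obtain ⟨a, ha⟩ := G_spec u v
  obtain ⟨b, hb⟩ := G_spec u w
  obtain ⟨c, hc⟩ := G_spec v w
  have e : G v w - (G u w - G u v) = ((c - b + a : ℤ) : ℝ) * (2 * Real.pi) := by
    rw [ha, hb, hc]
    push_cast
    ring
  have h1 := G_nonneg u v
  have h2 := G_lt u w
  have h3 := G_nonneg v w
  have h4 := G_lt v w
  have h0 : c - b + a = 0 := by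
    apply int_zero
    · rw [← e]; linarith
    · rw [← e]; linarith
  rw [h0] at e
  simp at e
  linarith

theorem G_sub' {u v w : ℂ} (h : G v w ≤ G u w) : G u v = G u w - G v w := by
  obtain ⟨a, ha⟩ := G_spec u v
  obtain ⟨b, hb⟩ := G_spec u w
  obtain ⟨c, hc⟩ := G_spec v w
  have e : G u v - (G u w - G v w) = ((c - b + a : ℤ) : ℝ) * (2 * Real.pi) := by
    rw [ha, hb, hc]
    push_cast
    ring
  have h1 := G_nonneg u v
  have h2 := G_lt u w
  have h3 := G_nonneg v w
  have h4 := G_lt u v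
  have h0 : c - b + a = 0 := by
    apply int_zero
    · rw [← e]; linarith
    · rw [← e]; linarith
  rw [h0] at e
  simp at e
  linarith

theorem G_add {u v w : ℂ} (h : G u v + G v w < 2 * Real.pi) : G u w = G u v + G v w := by
  obtain ⟨a, ha⟩ := G_spec u v
  obtain ⟨b, hb⟩ := G_spec u w
  obtain ⟨c, hc⟩ := G_spec v w
  have e : G u w - (G u v + G v w) = ((b - a - c : ℤ) : ℝ) * (2 * Real.pi) := by
    rw [ha, hb, hc]
    push_cast
    ring
  have h1 := G_nonneg u v
  have h2 := G_lt u w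
  have h3 := G_nonneg v w
  have h4 := G_nonneg u w
  have h0 : b - a - c = 0 := by
    apply int_zero
    · rw [← e]; linarith
    · rw [← e]; linarith
  rw [h0] at e
  simp at e
  linarith

theorem sin_G (u v : ℂ) : Real.sin (G u v) = Real.sin (Complex.arg v - Complex.arg u) := by
  obtain ⟨n, hn⟩ := G_spec u v
  rw [hn, Real.sin_add_int_mul_two_pi]

theorem cos_G (u v : ℂ) : Real.cos (G u v) = Real.cos (Complex.arg v - Complex.arg u) := by
  obtain ⟨n, hn⟩ := G_spec u v
  rw [hn, Real.cos_add_int_mul_two_pi]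

theorem cross_eq (a b c d : ℝ) : a * d - b * c =
    ‖(⟨a, b⟩ : ℂ)‖ * ‖(⟨c, d⟩ : ℂ)‖ * Real.sin (G ⟨a, b⟩ ⟨c, d⟩) := by
  rw [sin_G, Real.sin_sub]
  have h1 : a = ‖(⟨a, b⟩ : ℂ)‖ * Real.cos (Complex.arg ⟨a, b⟩) :=
    (Complex.norm_mul_cos_arg ⟨a, b⟩).symm
  have h2 : b = ‖(⟨a, b⟩ : ℂ)‖ * Real.sin (Complex.arg ⟨a, b⟩) :=
    (Complex.norm_mul_sin_arg ⟨a, b⟩).symm
  have h3 : c = ‖(⟨c, d⟩ : ℂ)‖ * Real.cos (Complex.arg ⟨c, d⟩) :=
    (Complex.norm_mul_cos_arg ⟨c, d⟩).symm
  have h4 : d = ‖(⟨c, d⟩ : ℂ)‖ * Real.sin (Complex.arg ⟨c, d⟩) :=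
    (Complex.norm_mul_sin_arg ⟨c, d⟩).symm
  generalize ‖(⟨a, b⟩ : ℂ)‖ = r at *
  generalize ‖(⟨c, d⟩ : ℂ)‖ = r' at *
  generalize Complex.arg ⟨a, b⟩ = t at *
  generalize Complex.arg ⟨c, d⟩ = t' at *
  rw [h1, h2, h3, h4]
  ring

theorem dot_eq (a b c d : ℝ) : a * c + b * d =
    ‖(⟨a, b⟩ : ℂ)‖ * ‖(⟨c, d⟩ : ℂ)‖ * Real.cos (G ⟨a, b⟩ ⟨c, d⟩) := by
  rw [cos_G, Real.cos_sub]
  have h1 : a = ‖(⟨a, b⟩ : ℂ)‖ * Real.cos (Complex.arg ⟨a, b⟩) :=
    (Complex.norm_mul_cos_arg ⟨a, b⟩).symm
  have h2 : b = ‖(⟨a, b⟩ : ℂ)‖ * Real.sin (Complex.arg ⟨a, b⟩) :=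
    (Complex.norm_mul_sin_arg ⟨a, b⟩).symm
  have h3 : c = ‖(⟨c, d⟩ : ℂ)‖ * Real.cos (Complex.arg ⟨c, d⟩) :=
    (Complex.norm_mul_cos_arg ⟨c, d⟩).symm
  have h4 : d = ‖(⟨c, d⟩ : ℂ)‖ * Real.sin (Complex.arg ⟨c, d⟩) :=
    (Complex.norm_mul_sin_arg ⟨c, d⟩).symm
  generalize ‖(⟨a, b⟩ : ℂ)‖ = r at *
  generalize ‖(⟨c, d⟩ : ℂ)‖ = r' at *
  generalize Complex.arg ⟨a, b⟩ = t at *
  generalize Complex.arg ⟨c, d⟩ = t' at *
  rw [h1, h2, h3, h4]
  ring

theorem norm_pos {a b : ℝ} (h : ¬ (a = 0 ∧ b = 0)) : 0 < ‖(⟨a, b⟩ : ℂ)‖ := by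
  rw [norm_pos_iff]
  intro h0
  apply h
  constructor
  · exact congrArg Complex.re h0
  · exact congrArg Complex.im h0

theorem sin_neg_of {t : ℝ} (h1 : Real.pi < t) (h2 : t < 2 * Real.pi) : Real.sin t < 0 := by
  have := Real.sin_pos_of_pos_of_lt_pi (x := t - Real.pi) (by linarith) (by linarith)
  rw [Real.sin_sub_pi] at this
  linarith

theorem G_of_pos {a b c d : ℝ} (h : 0 < a * d - b * c) :
    0 < G ⟨a, b⟩ ⟨c, d⟩ ∧ G ⟨a, b⟩ ⟨c, d⟩ < Real.pi := by
  rw [cross_eq] at h
  have hs : 0 < Real.sin (G ⟨a, b⟩ ⟨c, d⟩) := by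
    by_contra hle
    push Not at hle
    have : 0 ≤ ‖(⟨a, b⟩ : ℂ)‖ * ‖(⟨c, d⟩ : ℂ)‖ := by positivity
    nlinarith
  have h0 := G_nonneg ⟨a, b⟩ ⟨c, d⟩
  have h1 := G_lt ⟨a, b⟩ ⟨c, d⟩
  constructor
  · rcases h0.lt_or_eq with h | h
    · exact h
    · rw [← h] at hs
      simp at hs
  · by_contra hle
    push Not at hle
    rcases hle.lt_or_eq with h | h
    · have := sin_neg_of h h1
      linarith
    · rw [← h] at hs
      simp at hs

theorem pos_of_G {a b c d : ℝ} (h1 : ¬ (a = 0 ∧ b = 0)) (h2 : ¬ (c = 0 ∧ d = 0))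
    (h3 : 0 < G ⟨a, b⟩ ⟨c, d⟩) (h4 : G ⟨a, b⟩ ⟨c, d⟩ < Real.pi) : 0 < a * d - b * c := by
  rw [cross_eq]
  have := norm_pos h1
  have := norm_pos h2
  have := Real.sin_pos_of_pos_of_lt_pi h3 h4
  positivity

end SectorAux

open SectorAux in
/-- Planar vectors in equilibrium with a nonconstant label `s`: two cyclically adjacent ones with a
descent of `s`, together with the properties of directions `(e, f)` in between. -/
theorem sector {ι : Type} [Fintype ι] (w x y s : ι → ℝ) (w0 : ∀ l, 0 < w l)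
    (hx : ∑ l, w l * x l = 0) (hy : ∑ l, w l * y l = 0)
    (hne : ∀ l, ¬ (x l = 0 ∧ y l = 0))
    (hdir : ∀ l l', l ≠ l' → x l * y l' - y l * x l' = 0 → x l * x l' + y l * y l' < 0)
    (hs : ∃ l l', s l ≠ s l') :
    ∃ j k : ι, s k < s j ∧
      (∃ e f : ℝ, 0 < x j * f - y j * e ∧ 0 < e * y k - f * x k) ∧
      ∀ e f : ℝ, 0 < x j * f - y j * e → 0 < e * y k - f * x k →
        ∀ l, (0 < e * y l - f * x l → l = k ∨ 0 < x k * y l - y k * x l) ∧
          (0 < x l * f - y l * e → l = j ∨ 0 < x l * y j - y l * x j) := by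
  classical
  -- the angle
  set z : ι → ℂ := fun l => ⟨x l, y l⟩ with hz
  have hG0 : ∀ l m, G (z l) (z m) = 0 → l = m := by
    intro l m h
    by_contra hlm
    have h1 : x l * y m - y l * x m = 0 := by
      rw [cross_eq]
      show _ * Real.sin (G (z l) (z m)) = 0
      rw [h]
      simp
    have h2 := hdir l m hlm h1
    rw [dot_eq] at h2
    have h3 : Real.cos (G (z l) (z m)) = 1 := by rw [h]; simp
    have h4 := norm_pos (hne l)
    have h5 := norm_pos (hne m)
    have h6 : ‖(⟨x l, y l⟩ : ℂ)‖ * ‖(⟨x m, y m⟩ : ℂ)‖ * Real.cos (G (z l) (z m)) < 0 := h2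
    rw [h3] at h6
    have := mul_pos h4 h5
    linarith
  have hGp : ∀ l m, l ≠ m → 0 < G (z l) (z m) := by
    intro l m hlm
    exact lt_of_le_of_ne (G_nonneg _ _) (fun h => hlm (hG0 l m h.symm))
  -- the minimal pair
  have hpair : ∃ p : ι × ι, s p.2 < s p.1 := by
    obtain ⟨l, l', h⟩ := hs
    rcases lt_or_gt_of_ne h with h | h
    · exact ⟨(l', l), h⟩
    · exact ⟨(l, l'), h⟩
  obtain ⟨p0, hp0⟩ := hpair
  obtain ⟨⟨j, k⟩, hjk, hmin⟩ := Finset.exists_min_image
    (Finset.univ.filter (fun p : ι × ι => s p.2 < s p.1)) (fun p => G (z p.1) (z p.2))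
    ⟨p0, by simp [hp0]⟩
  have hjk' : s k < s j := by simpa using hjk
  have hmin' : ∀ l m, s m < s l → G (z j) (z k) ≤ G (z l) (z m) := by
    intro l m h
    exact hmin (l, m) (by simp [h])
  have hjkne : j ≠ k := by
    rintro rfl
    exact lt_irrefl _ hjk'
  have hno : ∀ l, l ≠ j → G (z j) (z k) ≤ G (z j) (z l) := by
    intro l hlj
    by_contra hlt
    push Not at hlt
    have hpos := hGp j l (Ne.symm hlj)
    by_cases h : s l < s j
    · have := hmin' j l h
      linarith
    · push Not at h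
      have h1 := hmin' l k (lt_of_lt_of_le hjk' h)
      have h2 : G (z l) (z k) = G (z j) (z k) - G (z j) (z l) := G_sub hlt.le
      linarith
  have hpi : G (z j) (z k) ≤ Real.pi := by
    by_contra hlt
    push Not at hlt
    have hneg : ∀ l, l ≠ j → x j * y l - y j * x l < 0 := by
      intro l hl
      have h1 := hno l hl
      have h2 := sin_neg_of (lt_of_lt_of_le hlt h1) (G_lt _ _)
      rw [cross_eq]
      have h3 := norm_pos (hne l)
      have h4 := norm_pos (hne j)
      exact mul_neg_of_pos_of_neg (mul_pos h4 h3) h2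
    have hsum : ∑ l, w l * (x j * y l - y j * x l) = 0 := by
      have : ∑ l, w l * (x j * y l - y j * x l) =
          x j * ∑ l, w l * y l - y j * ∑ l, w l * x l := by
        rw [Finset.mul_sum, Finset.mul_sum, ← Finset.sum_sub_distrib]
        refine Finset.sum_congr rfl fun l _ => ?_
        ring
      rw [this, hx, hy]
      ring
    have hlt0 : ∑ l, w l * (x j * y l - y j * x l) < 0 := by
      apply Finset.sum_neg'
      · intro l _
        by_cases hl : l = j
        · subst hl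
          have : x l * y l - y l * x l = 0 := by ring
          rw [this]
          simp
        · exact (mul_neg_of_pos_of_neg (w0 l) (hneg l hl)).le
      · exact ⟨k, Finset.mem_univ _, mul_neg_of_pos_of_neg (w0 k) (hneg k (Ne.symm hjkne))⟩
    linarith
  refine ⟨j, k, hjk', ?_, ?_⟩
  · -- existence
    have hg0 := hGp j k hjkne
    obtain ⟨n, hn⟩ := G_spec (z j) (z k)
    set g := G (z j) (z k) with hg
    have hsin : 0 < Real.sin (g / 2) :=
      Real.sin_pos_of_pos_of_lt_pi (by linarith) (by linarith [Real.pi_pos])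
    refine ⟨Real.cos (Complex.arg (z j) + g / 2), Real.sin (Complex.arg (z j) + g / 2), ?_, ?_⟩
    · have h1 : x j = ‖z j‖ * Real.cos (Complex.arg (z j)) :=
        (Complex.norm_mul_cos_arg (z j)).symm
      have h2 : y j = ‖z j‖ * Real.sin (Complex.arg (z j)) :=
        (Complex.norm_mul_sin_arg (z j)).symm
      have h3 : x j * Real.sin (Complex.arg (z j) + g / 2) -
          y j * Real.cos (Complex.arg (z j) + g / 2) = ‖z j‖ * Real.sin (g / 2) := by
        have h4 : Real.sin (g / 2) = Real.sin ((Complex.arg (z j) + g / 2) - Complex.arg (z j)) := by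
          congr 1
          ring
        rw [h4, Real.sin_sub]
        generalize Real.sin (Complex.arg (z j) + g / 2) = S at *
        generalize Real.cos (Complex.arg (z j) + g / 2) = C at *
        rw [h1, h2]
        ring
      rw [h3]
      exact mul_pos (norm_pos (hne j)) hsin
    · have h1 : x k = ‖z k‖ * Real.cos (Complex.arg (z k)) :=
        (Complex.norm_mul_cos_arg (z k)).symm
      have h2 : y k = ‖z k‖ * Real.sin (Complex.arg (z k)) :=
        (Complex.norm_mul_sin_arg (z k)).symm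
      have h3 : Real.cos (Complex.arg (z j) + g / 2) * y k -
          Real.sin (Complex.arg (z j) + g / 2) * x k = ‖z k‖ * Real.sin (g / 2) := by
        have h4 : Real.sin (g / 2) = Real.sin (Complex.arg (z k) - (Complex.arg (z j) + g / 2)) := by
          have : g / 2 = (Complex.arg (z k) - (Complex.arg (z j) + g / 2)) + n * (2 * Real.pi) := by
            linarith
          conv_lhs => rw [this]
          rw [Real.sin_add_int_mul_two_pi]
        rw [h4, Real.sin_sub]
        generalize Real.sin (Complex.arg (z j) + g / 2) = S at *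
        generalize Real.cos (Complex.arg (z j) + g / 2) = C at *
        rw [h1, h2]
        ring
      rw [h3]
      exact mul_pos (norm_pos (hne k)) hsin
  · intro e f h1 h2 l
    have a1 := G_of_pos h1
    have a2 := G_of_pos h2
    set p : ℂ := ⟨e, f⟩ with hp
    have hjkp : G (z j) (z k) = G (z j) p + G p (z k) := by
      apply G_add
      have b1 := a1.2
      have b2 := a2.2
      show G ⟨x j, y j⟩ ⟨e, f⟩ + G ⟨e, f⟩ ⟨x k, y k⟩ < _
      linarith
    have c1 : 0 < G (z j) p ∧ G (z j) p < Real.pi := a1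
    have c2 : 0 < G p (z k) ∧ G p (z k) < Real.pi := a2
    constructor
    · intro h3
      have c3 : 0 < G p (z l) ∧ G p (z l) < Real.pi := G_of_pos h3
      have hjl : G (z j) (z l) = G (z j) p + G p (z l) := by
        apply G_add
        linarith [c1.2, c3.2]
      have hlj : l ≠ j := by
        rintro rfl
        have h5 : G (z l) (z l) = 0 := by
          unfold G
          rw [sub_self]
          simp
        linarith [c1.1, c3.1]
      have h6 := hno l hlj
      have h7 : G p (z k) ≤ G p (z l) := by linarith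
      have h8 : G (z k) (z l) = G p (z l) - G p (z k) := G_sub h7
      by_cases hkl : l = k
      · exact Or.inl hkl
      · right
        have h9 := hGp k l (fun h => hkl h.symm)
        exact pos_of_G (hne k) (hne l) h9 (by
          show G (z k) (z l) < _
          linarith [c3.2, c2.1])
    · intro h3
      have c3 : 0 < G (z l) p ∧ G (z l) p < Real.pi := G_of_pos h3
      by_cases hlj : l = j
      · exact Or.inl hlj
      · right
        rcases le_total (G (z l) p) (G (z j) p) with h | h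
        · exfalso
          have h4 : G (z j) (z l) = G (z j) p - G (z l) p := G_sub' h
          have h5 := hno l hlj
          linarith [c2.1, c3.1]
        · have h4 : G (z l) (z j) = G (z l) p - G (z j) p := G_sub' h
          have h9 := hGp l j hlj
          exact pos_of_G (hne l) (hne j) h9 (by
            show G (z l) (z j) < _
            linarith [c3.2, c1.1])

end SphJam
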